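import Pool.Agent.Lib.MP_a0040c_lc.Chain

set_option linter.unusedSectionVars false

namespace Pool.Agent.Lib.MP_a0040c_lc

open Finset Pointwise Matrix

section
variable {A T : Type} [DecidableEq A] [Fintype A] [DecidableEq T] [Fintype T]

lemma NJ.push {S : Set (T → ℤ)} {n : ℕ} (h : NJ S n) (s : T → A) : NJ (cm s '' S) n := by
  obtain ⟨M, rfl⟩ := h
  refine ⟨M.lift fun o t => o = some (s t), ?_⟩
  have key : ∀ Φ : Multiset (Option A × T), (∀ e ∈ Φ, e.1 = some (s e.2)) →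
      lab Φ = cm s (mv (Φ.map Prod.snd)) := by
    intro Φ h1
    induction Φ using Multiset.induction_on with
    | empty => simp [lab_zero, mv_zero]
    | cons e Φ ih =>
      rw [lab_cons, ih fun e he => h1 e (Multiset.mem_cons_of_mem he),
        h1 e (Multiset.mem_cons_self _ _), ev_some, Multiset.map_cons, mv_cons, map_add, cm_single]
  ext x
  rw [mem_PI_lift]
  constructor
  · rintro ⟨Φ, h1, rfl, h3⟩
    exact ⟨_, h3, (key Φ h1).symm⟩
  · rintro ⟨y, hy, rfl⟩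
    obtain ⟨Y, rfl⟩ := exists_mv (PI.nonneg hy)
    have e : (Y.map fun t => (some (s t), t)).map Prod.snd = Y := by simp [Multiset.map_map]
    have h1 : ∀ e ∈ Y.map fun t => (some (s t), t), e.1 = some (s e.2) := by
      intro e he
      obtain ⟨t, -, rfl⟩ := Multiset.mem_map.mp he
      rfl
    exact ⟨_, h1, by rw [key _ h1, e], by rwa [e]⟩

lemma cm_inj {s : T → A} (hs : Function.Injective s) (y : T → ℤ) (t : T) : cm s y (s t) = y t := by
  rw [cm_apply, Finset.sum_eq_single_of_mem t (by simp)]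
  intro b hb hne
  exact absurd (hs (mem_filter.mp hb).2) hne

lemma cm_notMem {s : T → A} (y : T → ℤ) {a : A} (ha : a ∉ Set.range s) : cm s y a = 0 := by
  rw [cm_apply]
  exact Finset.sum_eq_zero fun t ht => absurd ⟨t, (mem_filter.mp ht).2⟩ ha

lemma NJ.res {S : Set (T → ℤ)} {n : ℕ} (h : NJ S n) {s : T → A} (hs : Function.Injective s) :
    NJ {x | 0 ≤ x ∧ x ∘ s ∈ S} (n + 3) := by
  convert (h.push s).add (NJ.free (Set.range s)ᶜ) using 1
  ext x
  constructor
  · rintro ⟨h0, h1⟩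
    refine ⟨_, ⟨_, h1, rfl⟩, x - cm s (x ∘ s), ⟨fun a => ?_, ?_⟩, by simp⟩
    · by_cases ha : a ∈ Set.range s
      · obtain ⟨t, rfl⟩ := ha
        simp [cm_inj hs]
      · simpa [cm_notMem _ ha] using h0 a
    · rintro _ ha ⟨t, rfl⟩
      simp [cm_inj hs] at ha
  · rintro ⟨_, ⟨y, hy, rfl⟩, z, ⟨h0, h1⟩, rfl⟩
    refine ⟨add_nonneg (cm_nonneg _ (h.nonneg hy)) h0, ?_⟩
    convert hy using 1
    funext t
    have : z (s t) = 0 := by
      by_contra hc
      exact h1 _ hc ⟨t, rfl⟩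
    simp [cm_inj hs, this]

end

theorem cost_chain (n k K l r m : ℕ) (hm : 1 ≤ m) (hK : K + 1 = 2 ^ l)
    (hn : 35 * l + r * (2 * m + 90) + 200 ≤ n) (hk : 2 * K + l + 2 * r + 5 ≤ k) :
    (m ^ r) ^ ((K + 1) * K / 2) ≤ cost n k := by
  obtain ⟨S, h1, h2, h3⟩ := chain_exists K l r m hm hK
  have hM : (1 : ℤ) ≤ (m : ℤ) ^ r := one_le_pow₀ (by exact_mod_cast hm)
  have hp := pt_nonneg (K := K) (l := l) (r := r) hM
  let y : (∀ i : Fin (K + 1), Fin ((m ^ r) ^ (i : ℕ))) → Lam K l r → ℤ := fun t a =>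
    match a with
    | .inl (i, false) => (t i : ℕ)
    | _ => 0
  have hy : ∀ t, 0 ≤ y t := by
    rintro t (⟨i, _ | _⟩ | a) <;> simp [y]
  have hy' : ∀ t, y t ≤ pt K l r ((m : ℤ) ^ r) := by
    rintro t (⟨i, _ | _⟩ | a)
    · simp only [y, pt]
      exact_mod_cast (t i).2.le
    · exact hp _
    · exact hp _
  have := card_le_cost (h1.mono hn) (k := k) (by simp; omega) ((K + 1) * (m ^ r) ^ K + 1)
    (fun x hx hS a => by
      have := ((h3 x hx hS).main hM hK hx).1 a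
      push_cast
      omega) y hy (fun t t' h => by
      have := sep_of_top h2 (lS 0) (fun x hx hS hle => ((h3 x hx hS).main hM hK hx).2
        (by simpa [pt] using hle)) (hy t) (hy t') (hy' t) (hy' t') h
      funext i
      have := congrFun this (.inl (i, false))
      simp only [y] at this
      exact Fin.ext (by exact_mod_cast this))
  rwa [Fintype.card_pi, Finset.prod_congr rfl fun i _ => Fintype.card_fin _,
    Finset.prod_pow_eq_pow_sum, Fin.sum_univ_eq_sum_range (fun i => i), Finset.sum_range_id,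
    Nat.add_sub_cancel] at this

section perm
variable {I : Type} [Fintype I] [DecidableEq I] {h : ℕ} (σ : I → Equiv.Perm (Fin h))

/-- generator of the matching gadget -/
def pg (i : I) (u : Fin h) : I ⊕ Fin h ⊕ Fin h → ℤ :=
  Pi.single (.inr (.inl u)) 1 + (Pi.single (.inl i) 1 + Pi.single (.inr (.inr (σ i u))) 1)

inductive TrP : Bool ⊕ Fin h ⊕ Fin h → Option (I ⊕ Fin h ⊕ Fin h) → Bool ⊕ Fin h ⊕ Fin h → Prop
  | a (u) : TrP (.inl false) (some (.inr (.inl u))) (.inr (.inl u))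
  | s (i u) : TrP (.inr (.inl u)) (some (.inl i)) (.inr (.inr (σ i u)))
  | b (w) : TrP (.inr (.inr w)) (some (.inr (.inr w))) (.inl true)

lemma nj_pg : NJ {g | ∃ i u, g = pg σ i u} (2 * h + 2) := by
  set N : GFA (Bool ⊕ Fin h ⊕ Fin h) (I ⊕ Fin h ⊕ Fin h) :=
    ⟨fun q o => {p | TrP σ q o p}, .inl false, {.inl true}⟩
  refine NJ.of N (by simp; omega) ?_
  ext x
  constructor
  · intro hx
    let Φ : Bool ⊕ Fin h ⊕ Fin h → (I ⊕ Fin h ⊕ Fin h → ℤ) → Prop
      | .inl false, y => ∃ i u, y = pg σ i u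
      | .inl true, y => y = 0
      | .inr (.inl u), y => ∃ i, y = Pi.single (.inl i) 1 + Pi.single (.inr (.inr (σ i u))) 1
      | .inr (.inr w), y => y = Pi.single (.inr (.inr w)) 1
    refine PI_ind Φ ?_ ?_ hx
    · rintro _ rfl
      rfl
    · intro q p a y h hp
      cases h with
      | a u =>
        obtain ⟨i, rfl⟩ := hp
        exact ⟨i, u, by rw [ev_some]; rfl⟩
      | s i u => exact ⟨i, by rw [ev_some, hp]⟩
      | b w => rw [hp, ev_some]; exact add_zero _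
  · rintro ⟨i, u, rfl⟩
    refine ⟨.inl true, rfl, ?_⟩
    change Rch N (.inl false) _ _
    simpa [ev_some, pg] using (Rch.step (M := N) (TrP.a u)).trans
      ((Rch.step (M := N) (TrP.s i u)).trans (Rch.step (M := N) (TrP.b _)))

/-- completion of a vector -/
def pcomp (y : I → ℤ) (c : I → Fin h) : I ⊕ Fin h ⊕ Fin h → ℤ :=
  ∑ i, y i • (Pi.single (.inr (.inl (c i))) 1 + Pi.single (.inr (.inr (σ i (c i)))) 1)

lemma elim_eq (y : I → ℤ) : (Sum.elim y 0 : I ⊕ Fin h ⊕ Fin h → ℤ) =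
    ∑ i, y i • Pi.single (.inl i) 1 := by
  funext a
  rcases a with i | a <;> simp [Finset.sum_apply, Pi.single_apply]

lemma add_pcomp (y : I → ℤ) (c : I → Fin h) :
    Sum.elim y 0 + pcomp σ y c = ∑ i, y i • pg σ i (c i) := by
  rw [elim_eq, pcomp, ← Finset.sum_add_distrib]
  refine Finset.sum_congr rfl fun i _ => ?_
  rw [pg, ← smul_add]
  congr 1
  abel

lemma two_pow_sub_inj {u v u' v' : ℕ} (h0 : (0 : ℤ) < 2 ^ u - 2 ^ v)
    (h : (2 : ℤ) ^ u - 2 ^ v = 2 ^ u' - 2 ^ v') : u = u' := by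
  have key : ∀ u v u' v' : ℕ, (0 : ℤ) < 2 ^ u' - 2 ^ v' → (2 : ℤ) ^ u - 2 ^ v = 2 ^ u' - 2 ^ v' →
      ¬ u < u' := by
    intro u v u' v' h0 h hlt
    have a1 : v' < u' := (pow_lt_pow_iff_right₀ one_lt_two).mp (sub_pos.mp h0)
    have a2 : (2 : ℤ) ^ (v' + 1) ≤ 2 ^ u' := pow_le_pow_right₀ one_le_two a1
    have a3 : (2 : ℤ) ^ (u + 1) ≤ 2 ^ u' := pow_le_pow_right₀ one_le_two hlt
    have a4 : (0 : ℤ) < 2 ^ v := by positivity
    rw [pow_succ] at a2 a3
    omega
  exact le_antisymm (not_lt.mp (key _ _ _ _ h0 h.symm)) (not_lt.mp (key _ _ _ _ (h ▸ h0) h))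

lemma perm_le (hσ : Function.Injective σ) (hh : 2 ≤ h) {y y' : I → ℤ}
    (h1 : ∀ c, Sum.elim y' 0 + pcomp σ y c ∈ AddSubmonoid.closure {g | ∃ i u, g = pg σ i u})
    (h2 : ∀ c, Sum.elim y 0 + pcomp σ y' c ∈ AddSubmonoid.closure {g | ∃ i u, g = pg σ i u})
    (i0 : I) : y i0 ≤ y' i0 := by
  let u0 : Fin h := ⟨0, by omega⟩
  let u1 : Fin h := ⟨1, by omega⟩
  have hu : u1 ≠ u0 := by simp [u0, u1, Fin.ext_iff]
  let val : I → Fin h → ℤ := fun i u => 2 ^ (u : ℕ) - 2 ^ (((σ i0).symm (σ i u) : Fin h) : ℕ)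
  have : ∀ i, ∃ u, ∀ u', val i u' ≤ val i u := fun i => by
    obtain ⟨u, -, hu⟩ := exists_max_image univ (val i) ⟨u0, mem_univ _⟩
    exact ⟨u, fun u' => hu u' (mem_univ _)⟩
  choose us hus using this
  have hv0 : ∀ u, val i0 u = 0 := fun u => by simp [val]
  have huniq : ∀ i ≠ i0, ∀ u, val i u = val i (us i) → u = us i := by
    intro i hi u hu
    have hpos : 0 < val i (us i) := by
      by_contra hc
      have a1 : ∀ u : Fin h, (u : ℕ) ≤ ((σ i0).symm (σ i u) : Fin h) := fun u =>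
        (pow_le_pow_iff_right₀ (one_lt_two (α := ℤ))).mp
          (sub_nonpos.mp ((hus i u).trans (not_lt.mp hc)))
      have a2 : ∑ u : Fin h, (u : ℕ) = ∑ u : Fin h, (((σ i0).symm (σ i u) : Fin h) : ℕ) :=
        (Equiv.sum_comp ((σ i).trans (σ i0).symm) fun u : Fin h => (u : ℕ)).symm
      have a3 := (Finset.sum_eq_sum_iff_of_le fun u _ => a1 u).mp a2
      refine hi (hσ (Equiv.ext fun u => ?_))
      have := Fin.ext (a3 u (mem_univ _))
      rw [Equiv.eq_symm_apply] at this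
      exact this.symm
    exact Fin.ext (two_pow_sub_inj (hpos.trans_eq hu.symm) hu)
  let W : I ⊕ Fin h ⊕ Fin h → ℤ := Sum.elim (fun i => -val i (us i))
    (Sum.elim (fun u => 2 ^ (u : ℕ)) fun w => -2 ^ (((σ i0).symm w : Fin h) : ℕ))
  let V : I ⊕ Fin h ⊕ Fin h → ℤ := Sum.elim (fun i => if i ≠ i0 ∧ us i = u0 then -1 else 0)
    (Sum.elim (fun u => if u = u0 then 1 else 0) 0)
  have hW : ∀ i u, W ⬝ᵥ pg σ i u = val i u - val i (us i) := fun i u => by
    simp [W, pg, val]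
    ring
  have hP : ∀ x ∈ AddSubmonoid.closure {g | ∃ i u, g = pg σ i u},
      W ⬝ᵥ x ≤ 0 ∧ (W ⬝ᵥ x = 0 → 0 ≤ V ⬝ᵥ x ∧ V ⬝ᵥ x ≤ x (.inl i0)) := by
    intro x hx
    induction hx using AddSubmonoid.closure_induction with
    | mem x hx =>
      obtain ⟨i, u, rfl⟩ := hx
      rw [hW]
      refine ⟨sub_nonpos.mpr (hus i u), fun h0 => ?_⟩
      by_cases hi : i = i0
      · subst hi
        by_cases hu : u = u0 <;> simp [V, pg, hu]
      · obtain rfl := huniq i hi u (sub_eq_zero.mp h0)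
        by_cases hu : us i = u0 <;> simp [V, pg, hu, hi, Ne.symm hi]
    | zero => simp
    | add x y _ _ hx hy =>
      rw [dotProduct_add, dotProduct_add, Pi.add_apply]
      refine ⟨add_nonpos hx.1 hy.1, fun h0 => ?_⟩
      have a1 := hx.2 (by linarith [hx.1, hy.1])
      have a2 := hy.2 (by linarith [hx.1, hy.1])
      constructor <;> linarith [a1.1, a1.2, a2.1, a2.2]
  have hW0 : ∀ (y : I → ℤ) u, W ⬝ᵥ (Sum.elim y 0 + pcomp σ y (Function.update us i0 u)) = 0 := by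
    intro y u
    rw [add_pcomp, dotProduct_sum]
    refine Finset.sum_eq_zero fun i _ => ?_
    rw [dotProduct_smul, hW]
    by_cases hi : i = i0
    · subst hi
      simp [hv0]
    · simp [hi]
  have hV : ∀ u, V ⬝ᵥ pcomp σ y (Function.update us i0 u) = (if u = u0 then y i0 else 0) +
      ∑ i ∈ univ.erase i0, if us i = u0 then y i else 0 := by
    intro u
    rw [pcomp, dotProduct_sum, ← Finset.add_sum_erase _ _ (mem_univ i0)]
    congr 1
    · rw [dotProduct_smul]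
      simp [V]
    · refine Finset.sum_congr rfl fun i hi => ?_
      rw [dotProduct_smul]
      simp [V, (mem_erase.mp hi).1]
  have hc : ∀ (y : I → ℤ) c, pcomp σ y c (.inl i0) = 0 := fun y c => by
    simp [pcomp, Finset.sum_apply]
  have b1 := hP _ (h1 (Function.update us i0 u0))
  have b2 := hP _ (h1 (Function.update us i0 u1))
  have b3 := (hP _ (h2 (Function.update us i0 u0))).1
  have b4 := hW0 y u0
  have b5 := hW0 y u1
  have b6 := hW0 y' u0
  have b7 := hV u0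
  have b8 := hV u1
  simp only [dotProduct_add, Pi.add_apply, hc, Sum.elim_inl, hu, if_true, if_false] at *
  have b9 := b1.2 (by linarith [b1.1])
  have b10 := b2.2 (by linarith [b1.1])
  linarith [b9.2, b10.1]

theorem cost_perm {A : Type} [DecidableEq A] [Fintype A] (hσ : Function.Injective σ) (hh : 2 ≤ h)
    {S : Set (A → ℤ)} {n0 n k : ℕ} (hS : NJ S n0) (B : ℕ) (hB : ∀ x, 0 ≤ x → x ∉ S → ∀ a, x a < B)
    {p : A → ℤ} (hp0 : 0 ≤ p) (hp : p ∉ S) (t : A) (H : ℕ) (hH : 3 * Fintype.card I * H ≤ p t)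
    (hn : n0 + 2 * h + 29 ≤ n) (hk : Fintype.card A + Fintype.card I + 2 * h ≤ k) :
    H ^ Fintype.card I ≤ cost n k := by
  have : Nonempty (A ⊕ I ⊕ Fin h ⊕ Fin h) := ⟨.inl t⟩
  have n1 := hS.res (s := (Sum.inl : A → A ⊕ I ⊕ Fin h ⊕ Fin h)) Sum.inl_injective
  have n2 := NJ.gt (univ.map ⟨(Sum.inr : _ → A ⊕ I ⊕ Fin h ⊕ Fin h), Sum.inr_injective⟩) {.inl t}
    (by simp) 1 1
  have n3 := (nj_pg σ).star.res (s := (Sum.inr : _ → A ⊕ I ⊕ Fin h ⊕ Fin h)) Sum.inr_injective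
  have hpc : ∀ (y : I → Fin H) c, 0 ≤ pcomp σ (fun i => ((y i : ℕ) : ℤ)) c := fun y c =>
    Finset.sum_nonneg fun i _ => smul_nonneg (by positivity) (add_nonneg (by simp) (by simp))
  have he : ∀ y : I → Fin H, (0 : I ⊕ Fin h ⊕ Fin h → ℤ) ≤ Sum.elim (fun i => ((y i : ℕ) : ℤ)) 0 := by
    rintro y (i | a) <;> simp
  have hsum : ∀ y : I → Fin H, ∑ i, ((y i : ℕ) : ℤ) ≤ Fintype.card I * H := fun y => by
    simpa using Finset.sum_le_card_nsmul univ (fun i => ((y i : ℕ) : ℤ)) H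
      fun i _ => by exact_mod_cast (y i).2.le
  have := card_le_cost (((n1.union n2).union n3).mono (m := n) (by omega)) (k := k)
    (by simp; omega) B (fun x hx hS a => ?_)
    (fun y : I → Fin H => Sum.elim p (Sum.elim (fun i => ((y i : ℕ) : ℤ)) 0))
    (fun y => by rintro (a | a); exacts [hp0 a, he y a]) (fun y y' hyy => ?_)
  · simpa using this
  · simp only [Set.mem_union, not_or, Set.mem_ofPred_eq, hx, true_and, Gt] at hS
    obtain ⟨⟨h1, h2⟩, -⟩ := hS
    have a1 := hB (x ∘ Sum.inl) (fun a => hx _) h1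
    rcases a with a | a
    · exact a1 a
    · have a2 := a1 t
      have a3 := Finset.single_le_sum (f := x) (fun a _ => hx a) (mem_map_of_mem
        ⟨(Sum.inr : _ → A ⊕ I ⊕ Fin h ⊕ Fin h), Sum.inr_injective⟩ (mem_univ a))
      simp only [Function.Embedding.coeFn_mk, Function.comp, sum_singleton] at a2 a3 h2
      omega
  · set S' : Set (A ⊕ I ⊕ Fin h ⊕ Fin h → ℤ) :=
      ({x | 0 ≤ x ∧ x ∘ Sum.inl ∈ S} ∪ Gt (univ.map ⟨Sum.inr, Sum.inr_injective⟩) {.inl t} 1 1) ∪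
        {x | 0 ≤ x ∧ x ∘ Sum.inr ∈ (AddSubmonoid.closure {g | ∃ i u, g = pg σ i u} :
          Set (I ⊕ Fin h ⊕ Fin h → ℤ))} with hS'
    have key : ∀ y y' : I → Fin H, (∀ z, 0 ≤ z →
        Sum.elim p (Sum.elim (fun i => ((y i : ℕ) : ℤ)) 0) + z ∈ S' →
        Sum.elim p (Sum.elim (fun i => ((y' i : ℕ) : ℤ)) 0) + z ∈ S') →
        ∀ c, Sum.elim (fun i => ((y' i : ℕ) : ℤ)) 0 +
        pcomp σ (fun i => ((y i : ℕ) : ℤ)) c ∈
          AddSubmonoid.closure {g | ∃ i u, g = pg σ i u} := by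
      intro y y' hyy c
      have hz : (0 : A ⊕ I ⊕ Fin h ⊕ Fin h → ℤ) ≤
          Sum.elim (0 : A → ℤ) (pcomp σ (fun i => ((y i : ℕ) : ℤ)) c) := by
        rintro (a | a)
        exacts [le_rfl, hpc y c a]
      rcases hyy _ hz (Or.inr ⟨add_nonneg (by rintro (a | a); exacts [hp0 a, he y a]) hz, by
        change Sum.elim (fun i => ((y i : ℕ) : ℤ)) 0 + pcomp σ (fun i => ((y i : ℕ) : ℤ)) c ∈
          AddSubmonoid.closure _
        rw [add_pcomp]
        refine sum_mem fun i _ => zsmul_mem_closure (AddSubmonoid.subset_closure ?_)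
          (by positivity)
        exact ⟨i, _, rfl⟩⟩) with (h | h) | h
      · exact absurd (by convert h.2 using 1; funext a; simp) hp
      · have a1 := h.2
        have a2 : ∑ a, pcomp σ (fun i => ((y i : ℕ) : ℤ)) c a = 2 * ∑ i, ((y i : ℕ) : ℤ) := by
          simp only [pcomp, Finset.sum_apply]
          rw [Finset.sum_comm, Finset.mul_sum]
          refine Finset.sum_congr rfl fun i _ => ?_
          simp [← Finset.mul_sum, Finset.sum_add_distrib, mul_comm]
        have a3 := hsum y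
        have a4 := hsum y'
        simp [Finset.sum_add_distrib, a2] at a1
        nlinarith
      · exact h.2
    have k1 := key y y' fun z hz => (hyy z hz).mp
    have k2 := key y' y fun z hz => (hyy z hz).mpr
    funext i
    have := le_antisymm (perm_le σ hσ hh k1 k2 i) (perm_le σ hσ hh k2 k1 i)
    exact Fin.ext (by exact_mod_cast this)

end perm

end Pool.Agent.Lib.MP_a0040c_lc
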