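import Pool.Agent.Lib.MP_a0040c_lc.AsymU
import Pool.Agent.Lib.MP_a0040c_lc.Perm3

namespace Pool.Agent.Lib.MP_a0040c_lc

open Real

lemma two_pow_le_cb (s : ℕ) : 2 ^ s ≤ s.centralBinom := by
  induction s with
  | zero => simp
  | succ s ih =>
    have := Nat.succ_mul_centralBinom_succ s
    refine Nat.le_of_mul_le_mul_left ?_ s.succ_pos
    rw [this, pow_succ]
    nlinarith

lemma low1 : ∃ n0 : ℕ, ∀ n k : ℕ, n0 ≤ n → 1 ≤ k → k ^ 4 ≤ n →
    k * √(n * log n / log (2 * k)) ≤ 64 * log (cost n k) := by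
  obtain ⟨n0, h0⟩ := le_log_landau
  refine ⟨n0 ^ 2 + 256, fun n k hn hk h => ?_⟩
  obtain ⟨s, hs⟩ : ∃ s, s = Nat.log 2 k + 1 := ⟨_, rfl⟩
  have s1 : k < 2 ^ s := hs ▸ Nat.lt_pow_succ_log_self one_lt_two k
  have s2 : 2 ^ s ≤ 2 * k := by
    rw [hs, pow_succ']; exact Nat.mul_le_mul_left _ (Nat.pow_log_le_self 2 (by omega))
  have s3 : s ≤ k := by
    rw [hs]; exact Nat.log_lt_self 2 (by omega)
  have s4 : 1 ≤ s := by omega
  have k2 : 16 * k ^ 2 ≤ n := by
    refine (Nat.pow_le_pow_iff_left two_ne_zero).1 ?_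
    nlinarith
  obtain ⟨q, hq⟩ : ∃ q, q = (n - 1) / (2 * s) := ⟨_, rfl⟩
  have q1 : 2 * s * q ≤ n - 1 := hq ▸ Nat.mul_div_le _ _
  have q2 : n - 1 < 2 * s * (q + 1) := hq ▸ Nat.lt_mul_div_succ _ (by omega)
  have q3 : s * k ≤ k ^ 2 := by rw [sq]; exact Nat.mul_le_mul_right _ s3
  have q4 : k ≤ k ^ 2 := Nat.le_self_pow two_ne_zero k
  have q5 : 2 * k ≤ q := by
    by_contra hc
    have := Nat.mul_le_mul_left (2 * s) (show q + 1 ≤ 2 * k by omega)
    have : 2 * s * (2 * k) = 4 * (s * k) := by ring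
    omega
  obtain ⟨m, rfl⟩ := Nat.exists_eq_add_of_le' q5
  have m1 : n ≤ 4 * s * m := by
    have : 2 * s * (m + 2 * k + 1) = 2 * (s * m) + 4 * (s * k) + 2 * s := by ring
    rw [mul_assoc]
    omega
  have m2 : n ≤ m ^ 2 := by
    have a1 : n ≤ 4 * k * m := m1.trans (by gcongr)
    have a2 : n ^ 2 ≤ n * m ^ 2 :=
      (Nat.pow_le_pow_left a1 2).trans ((show _ = 16 * k ^ 2 * m ^ 2 by ring).trans_le (by gcongr))
    rw [sq] at a2
    exact Nat.le_of_mul_le_mul_left a2 (by omega)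
  have m3 : n0 ≤ m := (Nat.pow_le_pow_iff_left two_ne_zero).1 (by omega)
  have c1 := log_nat_le (cost_lower n k (2 * s) m (by omega) (by
    rw [show (2 * s + 1) / 2 = s by omega]
    exact s1.le.trans (two_pow_le_cb s)) (by omega))
  push_cast at c1
  rw [log_pow] at c1
  have c2 := h0 m m3
  have hn' : (256 : ℝ) ≤ n := by exact_mod_cast (by omega : 256 ≤ n)
  have c3 : log n ≤ 2 * log m := by simpa using log_nat_le m2
  have c4 : s * log 2 ≤ log (2 * k) := by simpa using log_nat_le s2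
  have c5 : (n : ℝ) ≤ 4 * s * m := by exact_mod_cast m1
  have c6 : (1 : ℝ) ≤ s := by exact_mod_cast s4
  have c7 := log_two_gt_d9
  have c8 : s ≤ 2 * log (2 * k) := by nlinarith
  have c9 : √(n * log n / log (2 * k)) ≤ 4 * √(m * log m) := by
    rw [show (4 : ℝ) = √16 by rw [show (16 : ℝ) = 4 ^ 2 by norm_num, sqrt_sq (by norm_num)],
      ← sqrt_mul (by norm_num)]
    refine sqrt_le_sqrt ?_
    rw [div_le_iff₀ (by linarith)]
    have l0 := log_nonneg (show (1 : ℝ) ≤ n by linarith)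
    calc _ ≤ (4 * (2 * log (2 * k)) * m) * (2 * log m) :=
          mul_le_mul (c5.trans (by gcongr)) c3 l0 (mul_nonneg (by linarith) (by positivity))
      _ = _ := by ring
  have c10 : (0 : ℝ) ≤ k := by positivity
  nlinarith

lemma low2 (n k : ℕ) (hn : 2000 ≤ n) (hk : 20 ≤ k) (h : (k : ℝ) ≤ 2 ^ (n / 100 : ℝ)) :
    k ^ 3 * log (1 + n / k) ≤ 160000 * log (cost n k) := by
  obtain ⟨l, hl⟩ : ∃ l, l = Nat.log 2 (k / 5) := ⟨_, rfl⟩
  have l1 : k / 5 < 2 ^ (l + 1) := hl ▸ Nat.lt_pow_succ_log_self one_lt_two _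
  have l2 : 2 ^ l ≤ k / 5 := hl ▸ Nat.pow_log_le_self 2 (by omega)
  have l3 : l < 2 ^ l := Nat.lt_two_pow_self
  have l4 : 100 * l ≤ n := by
    have a1 : (2 : ℝ) ^ (l : ℝ) ≤ 2 ^ (n / 100 : ℝ) := by
      refine le_trans ?_ h
      exact_mod_cast (by omega : 2 ^ l ≤ k)
    have a2 := (rpow_le_rpow_left_iff one_lt_two).1 a1
    exact_mod_cast (by linarith : (100 * l : ℝ) ≤ n)
  rw [pow_succ] at l1
  obtain ⟨K, hK⟩ : ∃ K, K + 1 = 2 ^ l := ⟨2 ^ l - 1, by omega⟩
  obtain ⟨r, hr⟩ : ∃ r, r = min (k / 10) (n / 200) := ⟨_, rfl⟩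
  obtain ⟨q, hq⟩ : ∃ q, q = n / (4 * r) := ⟨_, rfl⟩
  have q1 : 4 * r * q ≤ n := hq ▸ Nat.mul_div_le _ _
  have q2 : n < 4 * r * (q + 1) := hq ▸ Nat.lt_mul_div_succ _ (by omega)
  have q3 : 50 ≤ q := hq ▸ (Nat.le_div_iff_mul_le (by omega)).2 (by omega)
  obtain ⟨m, rfl⟩ : ∃ m, q = m + 45 := ⟨q - 45, by omega⟩
  have c1 := log_nat_le (cost_chain n k K l r m (by omega) hK (by
    have : 2 * (r * (2 * m + 90)) = 4 * r * (m + 45) := by ring
    omega) (by omega))
  push_cast at c1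
  rw [log_pow, log_pow] at c1
  have hk' : (20 : ℝ) ≤ k := by exact_mod_cast hk
  have hm' : (5 : ℝ) ≤ m := by exact_mod_cast (by omega : 5 ≤ m)
  have c2 : (k : ℝ) ^ 2 ≤ 400 * ((K + 1) * K / 2 : ℕ) := by
    have a1 : 2 * ((K + 1) * K / 2) = (K + 1) * K :=
      Nat.two_mul_div_two_of_even (by rw [mul_comm]; exact Nat.even_mul_succ_self K)
    have a2 : k ^ 2 ≤ (10 * (K + 1)) ^ 2 := Nat.pow_le_pow_left (by omega) 2
    have a3 := Nat.mul_le_mul_left (K + 1) (show K + 1 ≤ 2 * K by omega)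
    exact_mod_cast (by nlinarith : k ^ 2 ≤ 400 * ((K + 1) * K / 2))
  have c3 : 1 ≤ log m := by
    rw [le_log_iff_exp_le (by linarith)]
    linarith [exp_one_lt_d9]
  have c0 : 0 ≤ log (1 + n / k : ℝ) := log_nonneg (le_add_of_nonneg_right (by positivity))
  have c4 : k * log (1 + n / k) ≤ 400 * (r * log m) := by
    rcases le_total (k / 10) (n / 200) with h1 | h1
    · rw [min_eq_left h1] at hr
      have a1 : log (1 + n / k) ≤ 3 * log m := by
        have b1 : n ≤ k * (m + 44) := by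
          have := Nat.mul_le_mul_right (m + 46) (show 10 * r ≤ k by omega)
          nlinarith
        have b2 : (n / k : ℝ) ≤ m + 44 := by
          rw [div_le_iff₀' (by linarith)]; exact_mod_cast b1
        have b3 : (m : ℝ) + 45 ≤ m ^ 3 := by nlinarith [mul_nonneg (sub_nonneg.2 hm') (sq_nonneg (m : ℝ))]
        simpa using log_le_log (by positivity) (show (1 + n / k : ℝ) ≤ m ^ 3 by linarith)
      have a2 : (k : ℝ) ≤ 20 * r := by exact_mod_cast (by omega : k ≤ 20 * r)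
      have a3 := mul_le_mul a2 a1 c0 (by positivity)
      have a4 : 0 ≤ r * log m := by positivity
      linarith
    · rw [min_eq_right h1] at hr
      have a1 := log_le_sub_one_of_pos (show (0 : ℝ) < 1 + n / k by positivity)
      rw [add_sub_cancel_left, le_div_iff₀' (by linarith)] at a1
      have a2 : (n : ℝ) ≤ 400 * r := by exact_mod_cast (by omega : n ≤ 400 * r)
      have a3 := le_mul_of_one_le_right (show (0 : ℝ) ≤ r by positivity) c3
      linarith
  have c5 := mul_le_mul c2 c4 (by positivity) (by positivity)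
  nlinarith

theorem lower_a : ∃ n0 : ℕ, ∀ n k : ℕ, n0 ≤ n → 1 ≤ k → (k : ℝ) ≤ 2 ^ (n / 100 : ℝ) →
    (k ^ 3 * log (1 + n / k) + k * √(n * log n / log (2 * k))) / 10 ^ 6 ≤ log (cost n k) := by
  obtain ⟨n0, h0⟩ := low1
  refine ⟨n0 + 160000, fun n k hn hk h => ?_⟩
  have hn' : (160000 : ℝ) ≤ n := by exact_mod_cast (by omega : 160000 ≤ n)
  have hk' : (1 : ℝ) ≤ k := by exact_mod_cast hk
  have c0 := log_natCast_nonneg (cost n k)
  have l0 := log_nonneg (show (1 : ℝ) ≤ n by linarith)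
  have l1 : 0 < log (2 * k) := log_pos (by linarith)
  rw [div_le_iff₀ (by norm_num)]
  by_cases h1 : k < 20
  · have a1 := h0 n k (by omega) hk ((Nat.pow_le_pow_left h1.le 4).trans (by omega))
    have a2 : (k : ℝ) ≤ 20 := by exact_mod_cast h1.le
    have a3 : log (2 * k) ≤ 16 := by
      have := log_le_log (by linarith) (show (2 * k : ℝ) ≤ 2 ^ 6 by linarith)
      rw [log_pow] at this
      have := log_two_lt_d9
      push_cast at *
      linarith
    have a4 : log (1 + n / k) ≤ 2 * log n := by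
      have : (n / k : ℝ) ≤ n := div_le_self (by positivity) hk'
      simpa using log_le_log (by positivity) (show (1 + n / k : ℝ) ≤ n ^ 2 by nlinarith)
    have a5 : log n ≤ √(n * log n / log (2 * k)) := by
      refine le_sqrt_of_sq_le ?_
      rw [le_div_iff₀ l1, sq, mul_right_comm]
      refine mul_le_mul_of_nonneg_right ((mul_le_mul_of_nonneg_left a3 l0).trans ?_) l0
      have b1 := log_le_sub_one_of_pos (show (0 : ℝ) < n / 32 by positivity)
      have b2 : log 32 = 5 * log 2 := by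
        rw [show (32 : ℝ) = 2 ^ 5 by norm_num, log_pow]; norm_num
      rw [log_div (by positivity) (by norm_num)] at b1
      linarith [log_two_lt_d9]
    have a6 : k ^ 3 * log (1 + n / k) ≤ 800 * (k * √(n * log n / log (2 * k))) := by
      have b1 : (k : ℝ) ^ 3 ≤ 400 * k := by nlinarith [mul_le_mul a2 a2 (by positivity) (by norm_num)]
      have := mul_le_mul b1 (a4.trans (mul_le_mul_of_nonneg_left a5 zero_le_two))
        (log_nonneg (le_add_of_nonneg_right (by positivity))) (by positivity)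
      linarith
    linarith
  have a1 := low2 n k (by omega) (by omega) h
  by_cases h2 : k ^ 4 ≤ n
  · have := h0 n k (by omega) hk h2
    linarith
  have a2 : (n : ℝ) ≤ k ^ 4 := by exact_mod_cast (not_le.1 h2).le
  have a3 : log n ≤ 4 * log (2 * k) := by
    simpa using log_le_log (by linarith) (a2.trans (pow_le_pow_left₀ (by positivity)
      (show (k : ℝ) ≤ 2 * k by linarith) 4))
  have a4 : √(n * log n / log (2 * k)) ≤ 2 * (k * min (k : ℝ) n) := by
    refine sqrt_le_iff.2 ⟨by positivity, ?_⟩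
    rw [div_le_iff₀ l1]
    have b1 : (n : ℝ) ≤ (k * min (k : ℝ) n) ^ 2 := by
      rcases le_total (k : ℝ) n with h | h
      · rw [min_eq_left h]; linarith
      · rw [min_eq_right h]
        have : (n : ℝ) ≤ k * n := le_mul_of_one_le_left (by positivity) hk'
        nlinarith
    have := mul_le_mul b1 a3 l0 (by positivity)
    linarith
  have a5 := mul_le_mul_of_nonneg_left (min_le_lam (show (0 : ℝ) < n by linarith)
    (show (0 : ℝ) < k by linarith)) (show (0 : ℝ) ≤ k * k by positivity)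
  have a6 := mul_le_mul_of_nonneg_left a4 (show (0 : ℝ) ≤ k by positivity)
  nlinarith

lemma sq_le_pow (j : ℕ) (hj : 30 ≤ j) : 40000 * (j + 3) ^ 2 + 2 ≤ 2 ^ j := by
  induction j, hj using Nat.le_induction with
  | base => norm_num
  | succ j hj ih => rw [pow_succ 2]; nlinarith

theorem lower_b (n k : ℕ) (hn : 10000 ≤ n) (h : 2 ^ (n / 100 : ℝ) ≤ (k : ℝ)) :
    min (k : ℝ) (n ^ (n / 32 : ℝ)) * 2 ^ (n / 400 : ℝ) ≤ log (cost n k) := by
  obtain ⟨j, hj⟩ : ∃ j, n / 200 = j + 2 := ⟨n / 200 - 2, by omega⟩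
  have hn' : (10000 : ℝ) ≤ n := by exact_mod_cast hn
  have j1 := sq_le_pow j (by omega)
  have j2 : n ^ 2 ≤ (200 * (j + 3)) ^ 2 := Nat.pow_le_pow_left (by omega) 2
  have j3 : 2 ^ (j + 2) * 2 ^ (j + 2) ≤ k := by
    have a1 : (2 : ℝ) ^ ((j + 2 + (j + 2) : ℕ) : ℝ) ≤ 2 ^ (n / 100 : ℝ) := by
      refine rpow_le_rpow_of_exponent_le one_le_two ?_
      rw [le_div_iff₀ (by norm_num)]
      exact_mod_cast (by omega : (j + 2 + (j + 2)) * 100 ≤ n)
    rw [← pow_add]
    exact_mod_cast a1.trans h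
  obtain ⟨u, hu⟩ : ∃ u, u = 2 ^ j := ⟨_, rfl⟩
  rw [pow_add, ← hu] at j3
  rw [← hu] at j1
  obtain ⟨K, hK⟩ : ∃ K, K + 1 = 4 * u := ⟨4 * u - 1, by omega⟩
  obtain ⟨S, h1, h2, h3⟩ := chain_exists K (j + 2) 1 2 one_le_two (by rw [hK, hu]; ring)
  obtain ⟨N, hN⟩ : ∃ N, N = min (k / 2) (n / 4).factorial := ⟨_, rfl⟩
  obtain ⟨σ⟩ : Nonempty (Fin N ↪ Equiv.Perm (Fin (n / 4))) :=
    Function.Embedding.nonempty_of_card_le (by simp [Fintype.card_perm, hN])
  have hM : (1 : ℤ) ≤ ((2 : ℕ) : ℤ) ^ 1 := by norm_num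
  have n1 : N ≤ 2 ^ n ^ 2 := by
    refine (hN ▸ min_le_right _ _).trans ((Nat.factorial_le (Nat.div_le_self _ _)).trans
      ((Nat.factorial_le_pow n).trans ?_))
    rw [sq, pow_mul]
    exact Nat.pow_le_pow_left Nat.lt_two_pow_self.le n
  have c1 := log_nat_le (cost_perm (σ := σ) σ.injective (by omega) h1 ((K + 1) * 2 ^ K + 1)
    (fun x hx hS a => by
      have := ((h3 x hx hS).main hM (by rw [hK, hu]; ring) hx).1 a
      push_cast at this ⊢
      omega) (pt_nonneg hM) h2 (lS 0) (2 ^ (2 * u)) (by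
      have a1 : 3 * N * 2 ^ (2 * u) ≤ 2 ^ 2 * 2 ^ n ^ 2 * 2 ^ (2 * u) := by gcongr; omega
      rw [← pow_add, ← pow_add] at a1
      have a2 := a1.trans (Nat.pow_le_pow_right two_pos (show _ ≤ K by nlinarith))
      simp only [pt, Fintype.card_fin, Fin.val_zero, pow_zero, one_mul, pow_one]
      exact_mod_cast a2) (n := n) (k := k) (by omega) (by
      simp only [Fintype.card_sum, Fintype.card_prod, Fintype.card_fin, Fintype.card_bool]
      have a1 : N ≤ k / 2 := hN ▸ min_le_left _ _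
      have a2 : j + 3 ≤ (j + 3) ^ 2 := Nat.le_self_pow two_ne_zero _
      have a3 : 40000 * u ≤ u * u := Nat.mul_le_mul_right _ (by omega)
      have a4 : u * 2 ^ 2 * (u * 2 ^ 2) = 16 * (u * u) := by ring
      omega))
  push_cast at c1
  rw [Fintype.card_fin, log_pow, log_pow] at c1
  have c2 : min (k : ℝ) (n ^ (n / 32 : ℝ)) ≤ 3 * N := by
    rcases le_total (k / 2) (n / 4).factorial with h4 | h4
    · rw [hN, min_eq_left h4]
      refine (min_le_left _ _).trans ?_
      have : 1 ≤ u * u := Nat.mul_pos (by omega) (by omega)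
      have a4 : u * 2 ^ 2 * (u * 2 ^ 2) = 16 * (u * u) := by ring
      exact_mod_cast (by omega : k ≤ 3 * (k / 2))
    · rw [hN, min_eq_right h4]
      refine (min_le_right _ _).trans ?_
      obtain ⟨i, hi⟩ : ∃ i, i = n / 8 := ⟨_, rfl⟩
      have a1 : i ^ i ≤ 3 * (n / 4).factorial := by
        have b1 := Nat.factorial_mul_pow_sub_le_factorial (show i ≤ n / 4 by omega)
        have b2 := Nat.le_mul_of_pos_left (i ^ (n / 4 - i)) i.factorial_pos
        have b3 := Nat.pow_le_pow_right (show 0 < i by omega) (show i ≤ n / 4 - i by omega)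
        omega
      have a2 : n ≤ i ^ 2 := by nlinarith [show n < 8 * (i + 1) by omega, show 16 ≤ i by omega]
      have a3 : (n / 32 : ℝ) ≤ i / 2 := by
        have : (n : ℝ) ≤ 16 * i := by exact_mod_cast (by omega : n ≤ 16 * i)
        linarith
      calc (n : ℝ) ^ (n / 32 : ℝ) ≤ n ^ (i / 2 : ℝ) := rpow_le_rpow_of_exponent_le (by linarith) a3
        _ ≤ ((i : ℝ) ^ (2 : ℝ)) ^ (i / 2 : ℝ) :=
            rpow_le_rpow (by positivity) (by exact_mod_cast a2) (by positivity)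
        _ = i ^ (i : ℝ) := by rw [← rpow_mul (by positivity)]; congr 1; ring
        _ ≤ _ := by exact_mod_cast a1
  have c3 : (2 : ℝ) ^ (n / 400 : ℝ) ≤ u / 4 := by
    have a1 : (2 : ℝ) ^ (n / 400 : ℝ) ≤ 2 ^ ((j : ℝ) - 2) := by
      refine rpow_le_rpow_of_exponent_le one_le_two ?_
      have : (n : ℝ) + 800 ≤ 400 * j := by exact_mod_cast (by omega : n + 800 ≤ 400 * j)
      linarith
    rw [rpow_sub two_pos, rpow_natCast] at a1
    rw [hu]
    push_cast
    refine a1.trans_eq ?_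
    norm_num
  refine (mul_le_mul c2 c3 (by positivity) (by positivity)).trans (le_trans ?_ c1)
  have := log_two_gt_d9
  have a1 : (0 : ℝ) ≤ N * u := by positivity
  push_cast
  nlinarith

end Pool.Agent.Lib.MP_a0040c_lc
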