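import Pool.Agent.Lib.MP_a0040c_lc.Lower

namespace Pool.Agent.Lib.MP_a0040c_lc

open Finset Real

lemma log_landau_le_aux (n y : ℕ) (hy : 1 ≤ y) :
    log (landau n) ≤ (log 4 + 4) * y + (n / y) * log n := by
  obtain ⟨σ, -, hσ⟩ := Finset.exists_mem_eq_sup (univ : Finset (Equiv.Perm (Fin n))) univ_nonempty
    fun σ => orderOf σ
  rw [landau, hσ, ← σ.lcm_cycleType]
  set s := σ.cycleType
  have hsum : s.sum ≤ n := by
    have := σ.sum_cycleType_le
    simpa using this
  have hpos : ∀ l ∈ s, 0 < l := fun l hl => lt_of_lt_of_le two_pos (Equiv.Perm.two_le_of_mem_cycleType hl)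
  set t := s.filter (y < ·) with ht
  have htp : 0 < t.prod := Multiset.prod_pos fun l hl => hpos l (Multiset.mem_filter.mp hl).1
  have hd : s.lcm ∣ Nat.lcmUpto y * t.prod := by
    rw [Multiset.lcm_dvd]
    intro l hl
    by_cases h : y < l
    · exact Dvd.dvd.mul_left (Multiset.dvd_prod (Multiset.mem_filter.mpr ⟨hl, h⟩)) _
    · exact Dvd.dvd.mul_right (Finset.dvd_lcm (f := id) (mem_Icc.mpr ⟨hpos l hl, not_lt.mp h⟩)) _
  have hle := Nat.le_of_dvd (Nat.mul_pos (Nat.lcmUpto_pos y) htp) hd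
  have hl0 : 0 < s.lcm := by
    rw [σ.lcm_cycleType]; exact orderOf_pos σ
  have h1 : t.prod ≤ n ^ t.card := Multiset.prod_le_pow_card _ _ fun l hl =>
    (Multiset.single_le_sum (fun _ _ => Nat.zero_le _) l (Multiset.mem_filter.mp hl).1).trans hsum
  have h2 : t.card * y ≤ n := by
    have a1 : t.card • y ≤ t.sum := Multiset.card_nsmul_le_sum fun l hl =>
      (Multiset.mem_filter.mp hl).2.le
    have a2 : t.sum ≤ s.sum := by
      have := Multiset.sum_filter_add_sum_filter_not (s := s) (y < ·)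
      rw [← this]
      exact Nat.le_add_right _ _
    rw [smul_eq_mul] at a1
    omega
  have hy' : (0 : ℝ) < y := by exact_mod_cast hy
  have h3 : (t.card : ℝ) ≤ n / y := by
    rw [le_div_iff₀ hy']; exact_mod_cast h2
  have h4 : log (t.prod : ℕ) ≤ (n / y) * log n := by
    calc log (t.prod : ℕ) ≤ log ((n : ℝ) ^ t.card) :=
          log_le_log (by exact_mod_cast htp) (by exact_mod_cast h1)
      _ = t.card * log n := by rw [log_pow]
      _ ≤ _ := mul_le_mul_of_nonneg_right h3 (log_natCast_nonneg n)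
  have h5 : log (Nat.lcmUpto y) ≤ (log 4 + 4) * y := by
    rw [← Chebyshev.psi_eq_log_lcmUpto]
    exact Chebyshev.psi_le_const_mul_self hy'.le
  calc log (s.lcm : ℕ) ≤ log ((Nat.lcmUpto y : ℝ) * (t.prod : ℕ)) :=
        log_le_log (by exact_mod_cast hl0) (by exact_mod_cast hle)
    _ = log (Nat.lcmUpto y) + log (t.prod : ℕ) :=
        log_mul (by exact_mod_cast Nat.lcmUpto_ne_zero y) (by exact_mod_cast htp.ne')
    _ ≤ _ := add_le_add h5 h4

lemma log_landau_le (n : ℕ) (hn : 3 ≤ n) : log (landau n) ≤ 13 * √(n * log n) := by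
  have hn' : (3 : ℝ) ≤ n := by exact_mod_cast hn
  have hl : 1 ≤ log n := by
    rw [le_log_iff_exp_le (by linarith)]
    linarith [exp_one_lt_d9]
  set z := √(n * log n) with hz
  have hz2 : z * z = n * log n := mul_self_sqrt (by positivity)
  have hz1 : 1 ≤ z := by
    rw [hz, one_le_sqrt]; nlinarith
  have hc : z ≤ ⌈z⌉₊ := Nat.le_ceil z
  have hc2 : (⌈z⌉₊ : ℝ) < z + 1 := Nat.ceil_lt_add_one (by linarith)
  have h := log_landau_le_aux n ⌈z⌉₊ (by exact_mod_cast hz1.trans hc)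
  have h4 : log 4 ≤ 2 := by
    rw [show (4 : ℝ) = 2 ^ 2 by norm_num, log_pow]
    have := log_two_lt_d9
    push_cast; linarith
  have h5 : (n / (⌈z⌉₊ : ℝ)) * log n ≤ z := by
    rw [div_mul_eq_mul_div, div_le_iff₀ (by linarith), ← hz2]
    gcongr
  have h6 : (log 4 + 4) * (⌈z⌉₊ : ℝ) ≤ 6 * (2 * z) := by
    apply mul_le_mul <;> linarith
  linarith

lemma theta_le_log_landau (n P : ℕ) (h : P * Nat.primeCounting P ≤ n) :
    Chebyshev.theta P ≤ log (landau n) := by
  rw [Chebyshev.theta_eq_log_primorial, Nat.floor_natCast]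
  have h1 := lcm_le_landau (Nat.primesLE P) id
    (fun p hp => (Nat.prime_of_mem_primesLE hp).pos) n (by
      calc ∑ p ∈ Nat.primesLE P, id p ≤ (Nat.primesLE P).card • P :=
            Finset.sum_le_card_nsmul _ _ _ fun p hp => Nat.le_of_mem_primesLE hp
        _ ≤ n := by simpa [mul_comm] using h)
  have h2 : primorial P ∣ (Nat.primesLE P).lcm id := by
    rw [primorial, ← Nat.primesLE_eq_filter_range]
    exact Finset.prod_primes_dvd _ (fun p hp => (Nat.prime_of_mem_primesLE hp).prime)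
      fun p hp => Finset.dvd_lcm (f := id) hp
  have h3 : (Nat.primesLE P).lcm id ≠ 0 := by
    rw [Finset.lcm_ne_zero_iff]
    exact fun p hp => (Nat.prime_of_mem_primesLE hp).ne_zero
  have h4 := (Nat.le_of_dvd (Nat.pos_of_ne_zero h3) h2).trans h1
  exact log_le_log (by exact_mod_cast primorial_pos P) (by exact_mod_cast h4)

lemma le_log_landau : ∃ n0 : ℕ, ∀ n ≥ n0, √(n * log n) / 16 ≤ log (landau n) := by
  obtain ⟨C, hC⟩ := Chebyshev.psi_sub_theta_le_mul_sqrt
  obtain ⟨x0, hx0⟩ := Filter.eventually_atTop.mp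
    (Chebyshev.eventually_primeCounting_le (ε := 1) one_pos)
  set X : ℝ := max (max x0 100) ((20 * (|C| + 2)) ^ 2) with hX
  refine ⟨⌈(4 * X) ^ 2⌉₊ + 300, fun n hn => ?_⟩
  have hX1 : x0 ≤ X := (le_max_left _ _).trans (le_max_left _ _)
  have hX2 : 100 ≤ X := (le_max_right _ _).trans (le_max_left _ _)
  have hX3 : (20 * (|C| + 2)) ^ 2 ≤ X := le_max_right _ _
  have hn1 : (4 * X) ^ 2 + 300 ≤ n := by
    have : ((⌈(4 * X) ^ 2⌉₊ + 300 : ℕ) : ℝ) ≤ n := by exact_mod_cast hn
    push_cast at this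
    linarith [Nat.le_ceil ((4 * X) ^ 2)]
  have hn2 : (300 : ℝ) ≤ n := by nlinarith
  have hl : 1 ≤ log n := by
    rw [le_log_iff_exp_le (by linarith)]
    linarith [exp_one_lt_d9]
  set z := √(n * log n) with hz
  have hz2 : z * z = n * log n := mul_self_sqrt (by positivity)
  have hz0 : 0 ≤ z := sqrt_nonneg _
  have hsq : √n ≤ z := sqrt_le_sqrt (by nlinarith)
  have hzX : 4 * X ≤ √n := by
    rw [le_sqrt (by linarith) (by linarith)]; linarith
  set x := z / 4 with hx
  have hxX : X ≤ x := by linarith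
  have hlx : log n / 4 ≤ log x := by
    have a1 : √(√n) ≤ x := by
      have b1 : √(√n) * √(√n) = √n := mul_self_sqrt (sqrt_nonneg _)
      have b2 : 4 ≤ √(√n) := by
        rw [le_sqrt (by norm_num) (sqrt_nonneg _)]; linarith
      nlinarith
    have a2 : log (√(√n)) = log n / 4 := by
      rw [log_sqrt (sqrt_nonneg _), log_sqrt (by linarith)]; ring
    rw [← a2]
    exact log_le_log (by positivity) a1
  have h4 : log 4 ≤ 2 := by
    rw [show (4 : ℝ) = 2 ^ 2 by norm_num, log_pow]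
    have := log_two_lt_d9
    push_cast; linarith
  have hx0' : 0 < x := by linarith
  have hpi := hx0 x (hX1.trans hxX)
  have hfl : (⌊x⌋₊ : ℝ) ≤ x := Nat.floor_le hx0'.le
  have hP : ⌊x⌋₊ * Nat.primeCounting ⌊x⌋₊ ≤ n := by
    have a1 : (Nat.primeCounting ⌊x⌋₊ : ℝ) * (log n / 4) ≤ 3 * x := by
      rw [le_div_iff₀ (by linarith)] at hpi
      calc _ ≤ (Nat.primeCounting ⌊x⌋₊ : ℝ) * log x := by gcongr
        _ ≤ (log 4 + 1) * x := hpi
        _ ≤ _ := by gcongr; linarith
    have a2 : (⌊x⌋₊ : ℝ) * Nat.primeCounting ⌊x⌋₊ * (log n / 4) ≤ n * (log n / 4) := by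
      calc _ = (⌊x⌋₊ : ℝ) * (Nat.primeCounting ⌊x⌋₊ * (log n / 4)) := by ring
        _ ≤ x * (3 * x) := by gcongr
        _ = 3 / 16 * (z * z) := by rw [hx]; ring
        _ ≤ _ := by rw [hz2]; nlinarith
    exact_mod_cast le_of_mul_le_mul_right a2 (by linarith)
  have h1 := theta_le_log_landau n _ hP
  rw [← Chebyshev.theta_eq_theta_coe_floor] at h1
  have h2 := Chebyshev.psi_ge' hx0'.le
  have h3 := hC x
  have hs : √x * √x = x := mul_self_sqrt hx0'.le
  have hs2 : 20 * (|C| + 2) ≤ √x := by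
    rw [le_sqrt (by positivity) hx0'.le]; linarith
  have hlg : log (x + 2) ≤ 4 * √x := by
    have a1 : log (√(x + 2)) ≤ √(x + 2) - 1 := log_le_sub_one_of_pos (by positivity)
    rw [log_sqrt (by linarith)] at a1
    have a2 : √(x + 2) ≤ 2 * √x := by
      rw [sqrt_le_left (by positivity)]; nlinarith
    linarith
  have hl2 := log_two_gt_d9
  have hC1 : C * √x ≤ |C| * √x := by gcongr; exact le_abs_self C
  have hC0 := abs_nonneg C
  have hs0 : 0 ≤ √x := sqrt_nonneg x
  have a3 : (|C| + 4) * √x ≤ x / 10 := by nlinarith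
  have a4 : 0.69 * (x - 1) ≤ (x - 1) * log 2 := by nlinarith
  nlinarith

end Pool.Agent.Lib.MP_a0040c_lc
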