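import Pool.Agent.Lib.MP_a0040c_lc.Upper4
import Pool.Agent.Lib.MP_a0040c_lc.Landau

namespace Pool.Agent.Lib.MP_a0040c_lc

open Real

lemma log_nat_le {a b : ℕ} (h : a ≤ b) : log a ≤ log b := by
  rcases Nat.eq_zero_or_pos a with rfl | h0
  · simpa using log_natCast_nonneg b
  · exact log_le_log (by exact_mod_cast h0) (by exact_mod_cast h)

lemma min_le_lam {n k : ℝ} (hn : 0 < n) (hk : 0 < k) : min k n ≤ 2 * (k * log (1 + n / k)) := by
  have h1 := one_sub_inv_le_log_of_pos (show 0 < 1 + n / k by positivity)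
  have h2 : 1 - (1 + n / k)⁻¹ = n / (k + n) := by field_simp; ring
  rw [h2] at h1
  refine le_trans ?_ (mul_le_mul_of_nonneg_left (mul_le_mul_of_nonneg_left h1 hk.le) zero_le_two)
  rw [← mul_div_assoc, ← mul_div_assoc, le_div_iff₀ (by positivity)]
  rcases le_total k n with h | h
  · rw [min_eq_left h]; nlinarith
  · rw [min_eq_right h]; nlinarith

lemma log_le_sqrt {n : ℝ} (hn : 1 ≤ n) : log n ≤ √(n * log n) := by
  have h0 := log_nonneg hn
  refine le_sqrt_of_sq_le ?_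
  rw [sq]
  exact mul_le_mul_of_nonneg_right ((log_le_sub_one_of_pos (by linarith)).trans (by linarith)) h0

lemma arith2 (n k g Δ : ℕ) (hn : 3 ≤ n) (hk : 1 ≤ k) (hg : 1 ≤ g) (hΔ : 1 ≤ Δ) :
    ((n + k) * (n ^ 2 + (k + 1) * n ^ 2 * Δ) + g) * Δ * ((k + 1) * Δ) ^ k + 1 + g ≤
      g * n ^ 4 * (k + 1) ^ (k + 3) * Δ ^ (k + 2) := by
  have a1 : n + k ≤ n * (k + 1) := by nlinarith
  have a2 : n ^ 2 + (k + 1) * n ^ 2 * Δ ≤ (k + 2) * n ^ 2 * Δ := by
    have := Nat.le_mul_of_pos_right (n ^ 2) hΔ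
    nlinarith
  set Y := g * (n * (k + 1)) * (n ^ 2 * Δ) with hY
  have a3 : g ≤ Y := by
    rw [hY, mul_assoc]
    exact Nat.le_mul_of_pos_right _ (by positivity)
  have a4 : (n + k) * (n ^ 2 + (k + 1) * n ^ 2 * Δ) ≤ (k + 2) * Y :=
    (Nat.mul_le_mul a1 a2).trans ((Nat.le_mul_of_pos_left _ hg).trans_eq (by rw [hY]; ring))
  have a5 : (n + k) * (n ^ 2 + (k + 1) * n ^ 2 * Δ) + g ≤ (k + 1) ^ 2 * Y := by
    have : k + 3 ≤ (k + 1) ^ 2 := by nlinarith
    have := Nat.mul_le_mul_right Y this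
    linarith
  set Z := (k + 1) ^ 2 * Y * Δ * ((k + 1) * Δ) ^ k with hZ
  have a6 : g ≤ Z := by
    rw [hZ, mul_assoc]
    exact (a3.trans (Nat.le_mul_of_pos_left _ (by positivity))).trans
      (Nat.le_mul_of_pos_right _ (by positivity))
  calc _ ≤ Z + Z + Z := by
        refine add_le_add (add_le_add ?_ (hg.trans a6)) a6
        rw [hZ]
        gcongr
    _ ≤ n * Z := by nlinarith
    _ = _ := by rw [hZ, hY, mul_pow]; ring

theorem upper_a (n k : ℕ) (hn : 3 ≤ n) (hk : 1 ≤ k) (h : (k : ℝ) ≤ 2 ^ (n / 100 : ℝ)) :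
    log (cost n k) ≤ 17 * (k ^ 3 * log (1 + n / k) + k * √(n * log n)) := by
  have hn' : (3 : ℝ) ≤ n := by exact_mod_cast hn
  have hk' : (1 : ℝ) ≤ k := by exact_mod_cast hk
  have h1 : (1 : ℝ) ≤ 1 + n / k := le_add_of_nonneg_right (by positivity)
  have hΔ : 1 ≤ ⌊(1 + n / k : ℝ) ^ k⌋₊ := Nat.le_floor (by simpa using one_le_pow₀ h1)
  have hg := landau_pos n
  have h2 := log_nat_le ((cost_upper2 n k).trans
    (Nat.pow_le_pow_left (arith2 n k _ _ hn hk hg hΔ) k))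
  have h3 : log (⌊(1 + n / k : ℝ) ^ k⌋₊ : ℕ) ≤ k * log (1 + n / k) := by
    rw [← log_pow]
    exact log_le_log (by exact_mod_cast hΔ) (Nat.floor_le (by positivity))
  set Δ := ⌊(1 + n / k : ℝ) ^ k⌋₊
  push_cast at h2
  rw [log_pow, log_mul (by positivity) (by positivity), log_mul (by positivity) (by positivity),
    log_mul (by positivity) (by positivity), log_pow, log_pow, log_pow] at h2
  push_cast at h2
  have h4 := log_landau_le n hn
  have h5 := log_le_sqrt (show (1 : ℝ) ≤ n by linarith)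
  have h6 : log (k + 1) ≤ 2 * (k * log (1 + n / k)) := by
    refine le_trans (le_min ?_ ?_) (min_le_lam (by linarith) (by linarith))
    · linarith [log_le_sub_one_of_pos (show (0 : ℝ) < k + 1 by linarith)]
    · have a1 := log_le_log (by linarith) (show (k + 1 : ℝ) ≤ 2 * 2 ^ (n / 100 : ℝ) by linarith)
      rw [log_mul two_ne_zero (by positivity), log_rpow two_pos] at a1
      have := log_two_lt_d9
      nlinarith
  have h7 : 0 ≤ k * log (1 + n / k) := mul_nonneg (by positivity) (log_nonneg h1)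
  set u := k * log (1 + n / k) with hu
  have h8 : (k + 3) * log (k + 1) ≤ 4 * k * (2 * u) :=
    mul_le_mul (by linarith) h6 (log_nonneg (by linarith)) (by positivity)
  have h9 : (k + 2) * log Δ ≤ 3 * k * u :=
    mul_le_mul (by linarith) h3 (log_natCast_nonneg _) (by positivity)
  have h10 : 0 ≤ k * u := by positivity
  refine h2.trans ((mul_le_mul_of_nonneg_left (show _ ≤ 17 * (k * u + √(n * log n)) by linarith)
    (by positivity)).trans_eq ?_)
  rw [hu]; ring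

lemma sK_le (n : ℕ) (hn : 3 ≤ n) : sK n + 2 ≤ n ^ (30 * n) := by
  have p : ∀ {a b : ℕ}, a ≤ b → n ^ a ≤ n ^ b := fun h => Nat.pow_le_pow_right (by omega) h
  have q : ∀ a b, a + 1 = b → 3 * n ^ a ≤ n ^ b := fun a b h => by
    rw [← h, pow_succ']; exact Nat.mul_le_mul_right _ hn
  have o : ∀ a, 1 ≤ n ^ a := fun a => Nat.one_le_pow _ _ (by omega)
  have a0 : 2 ^ n ≤ n ^ n := Nat.pow_le_pow_left (by omega) n
  have a1 : nKT n ≤ n ^ (12 * n) := by
    calc nKT n ≤ n ^ n * (n ^ 5) ^ n * (n ^ 3) ^ (n + 1) := by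
          unfold nKT
          gcongr
          · have := q 4 5 rfl; have := o 4; omega
          · have := q 2 3 rfl; have := o 2; omega
      _ ≤ _ := by
          rw [← pow_mul, ← pow_mul, ← pow_add, ← pow_add]
          exact p (by omega)
  have a2 : gam n ≤ n ^ (2 * n + 5) := by
    have b1 : n ^ 4 * (n.factorial * 2 ^ n) ≤ n ^ (2 * n + 4) :=
      (Nat.mul_le_mul_left _ (Nat.mul_le_mul (Nat.factorial_le_pow n) a0)).trans_eq (by ring)
    have := q (2 * n + 4) (2 * n + 5) rfl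
    have := p (show 2 ≤ 2 * n + 4 by omega)
    unfold gam
    omega
  have a3 : n ^ 4 * gam n + 1 ≤ n ^ (2 * n + 10) := by
    have b1 : n ^ 4 * gam n ≤ n ^ (2 * n + 9) := (Nat.mul_le_mul_left _ a2).trans_eq (by ring)
    have := q (2 * n + 9) (2 * n + 10) rfl
    have := o (2 * n + 9)
    omega
  have a4 : nKT n * n ^ 2 * (n ^ 4 * gam n + 1) ≤ n ^ (24 * n + 1) :=
    (Nat.mul_le_mul (Nat.mul_le_mul_right _ a1) a3).trans (by
      rw [← pow_add, ← pow_add]; exact p (by omega))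
  have a5 : (nKT n + 2) * nKT n ≤ n ^ (24 * n + 1) := by
    have b1 : nKT n + 2 ≤ n ^ (12 * n + 1) := by
      have := q (12 * n) _ rfl; have := o (12 * n); omega
    exact (Nat.mul_le_mul b1 a1).trans_eq (by ring)
  have := q (24 * n + 1) _ rfl
  have := q (24 * n + 1 + 1) _ rfl
  have := o (24 * n + 1)
  have := p (show 24 * n + 1 + 1 + 1 ≤ 30 * n by omega)
  unfold sK
  omega

lemma landau_le_fac (n : ℕ) : landau n ≤ n.factorial :=
  Finset.sup_le fun σ _ => by simpa [Fintype.card_perm] using orderOf_le_card_univ (x := σ)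

lemma thr4_le (n s Δ g Z : ℕ) (h4 : 4 ≤ Z) (hn : n ≤ Z) (h2 : 2 ^ n ≤ Z) (hs : s + 1 ≤ Z)
    (hΔ : Δ ≤ Z) (hg : g ≤ Z) :
    thr4 n s Δ g + 1 + g ≤ Z ^ (4 * (2 * (2 ^ n * n) * (n + 1)) + 16) := by
  have p : ∀ {a b : ℕ}, a ≤ b → Z ^ a ≤ Z ^ b := fun h => Nat.pow_le_pow_right (by omega) h
  have q : ∀ a b, a + 1 = b → 4 * Z ^ a ≤ Z ^ b := fun a b h => by
    rw [← h, pow_succ']; exact Nat.mul_le_mul_right _ h4
  have o : ∀ a, 1 ≤ Z ^ a := fun a => Nat.one_le_pow _ _ (by omega)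
  have hs' : s ≤ Z := by omega
  have a1 : (s + 1) * n ^ 2 ≤ Z ^ 3 := (show _ ≤ Z * Z ^ 2 by gcongr).trans_eq (by ring)
  have a2 : s * Δ ≤ Z ^ 3 := (show _ ≤ Z * Z by gcongr).trans ((sq Z).symm.trans_le (p (by omega)))
  have a3 : (s + 1) * n ^ 2 + s * Δ + 1 ≤ Z ^ 4 := by
    have := q 3 4 rfl; have := o 3; omega
  have a4 : rad n s Δ ≤ Z ^ 7 := by
    have b1 : (s + 1) * n ^ 2 * 3 * Δ ≤ Z ^ 5 :=
      (show _ ≤ Z ^ 3 * Z * Z by gcongr; omega).trans_eq (by ring)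
    have b2 : s * n ^ 2 ≤ Z ^ 5 :=
      (Nat.mul_le_mul_right _ (Nat.le_succ s)).trans (a1.trans (p (by omega)))
    have b3 : 2 + s * n ^ 2 + (s + 1) * n ^ 2 * 3 * Δ + 1 ≤ Z ^ 6 := by
      have := q 5 6 rfl; have := q 4 5 rfl; have := o 4; omega
    exact (Nat.mul_le_mul hΔ b3).trans_eq (by ring)
  have a5 : (2 + g) * Δ + (s + 1) * n ^ 2 * 3 * rad n s Δ ≤ Z ^ 12 := by
    have b1 : (s + 1) * n ^ 2 * 3 * rad n s Δ ≤ Z ^ 11 :=
      (show _ ≤ Z ^ 3 * Z * Z ^ 7 by gcongr; omega).trans_eq (by ring)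
    have b2 : (2 + g) * Δ ≤ Z ^ 11 := by
      have := q 1 2 rfl
      rw [pow_one] at this
      exact (show _ ≤ Z ^ 2 * Z by gcongr; omega).trans
        ((pow_succ _ _).symm.trans_le (p (by omega)))
    have := q 11 12 rfl
    omega
  have a6 : 2 * (2 * (2 ^ n * n)) ≤ Z ^ 3 :=
    (show _ = 4 * (2 ^ n * n) by ring).trans_le ((show _ ≤ Z * (Z * Z) by gcongr).trans_eq (by ring))
  set e := 2 * (2 ^ n * n) * (n + 1)
  have a7 : thr4 n s Δ g ≤ Z ^ (4 * e + 15) :=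
    (Nat.mul_le_mul (Nat.pow_le_pow_left a3 e) (Nat.mul_le_mul a6 a5)).trans_eq (by ring)
  have := q (4 * e + 15) (4 * e + 16) rfl
  have := o (4 * e + 15)
  have := (pow_one Z).symm.trans_le (p (show 1 ≤ 4 * e + 15 by omega))
  omega

theorem upper_b (n k : ℕ) (hn : 3 ≤ n) :
    log (cost n k) ≤ min (k : ℝ) (n ^ (30 * n)) * 2 ^ (16 * n) := by
  have a0 := sK_le n hn
  have a1 : n ^ n ≤ n ^ (30 * n) := Nat.pow_le_pow_right (by omega) (by omega)
  have a2 : n < 2 ^ n := Nat.lt_two_pow_self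
  have a3 : 3 ^ n ≤ n ^ n := Nat.pow_le_pow_left hn n
  have a4 : 2 ^ n ≤ 3 ^ n := Nat.pow_le_pow_left (by omega) n
  have a5 := thr4_le n (sK n + 1) (3 ^ n) (landau n) (n ^ (30 * n)) (by omega) (by omega) (by omega)
    a0 (by omega) ((landau_le_fac n).trans ((Nat.factorial_le_pow n).trans a1))
  set e := 2 * (2 ^ n * n) * (n + 1) with he
  have a6 : n ^ 2 + n * (30 * n * (4 * e + 16)) ≤ 2 ^ (16 * n) := by
    have b1 : e ≤ 2 * (2 ^ n * 2 ^ n) * 2 ^ n := by rw [he]; gcongr; omega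
    have b2 : 0 < e := by rw [he]; positivity
    have b3 : n ^ 2 * e ≤ (2 ^ n) ^ 2 * (2 * (2 ^ n * 2 ^ n) * 2 ^ n) := by gcongr
    have b4 : 2 ^ 11 * 2 ^ (5 * n) ≤ 2 ^ (16 * n) := by
      rw [← pow_add]; exact Nat.pow_le_pow_right two_pos (by omega)
    have b5 : (2 ^ n) ^ 2 * (2 * (2 ^ n * 2 ^ n) * 2 ^ n) = 2 * 2 ^ (5 * n) := by ring
    have b6 : n ^ 2 ≤ n ^ 2 * e := Nat.le_mul_of_pos_right _ b2
    have b7 : n ^ 2 + n * (30 * n * (4 * e + 16)) = 120 * (n ^ 2 * e) + 481 * n ^ 2 := by ring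
    omega
  have a7 : 2 ^ (n ^ 2) * (thr4 n (sK n + 1) (3 ^ n) (landau n) + 1 + landau n) ≤
      2 ^ 2 ^ (16 * n) := by
    refine le_trans (Nat.mul_le_mul_left _ (a5.trans ?_))
      ((pow_add _ _ _).symm.trans_le (Nat.pow_le_pow_right two_pos a6))
    rw [← pow_mul, pow_mul 2]
    exact Nat.pow_le_pow_left a2.le _
  have a8 := log_nat_le ((cost_upper4 n k).trans (Nat.pow_le_pow_left a7 _))
  push_cast at a8
  rw [log_pow, log_pow] at a8
  push_cast at a8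
  refine a8.trans (mul_le_mul (min_le_min le_rfl ?_) (mul_le_of_le_one_right (by positivity) ?_)
    (by positivity) (by positivity))
  · exact_mod_cast (by omega : sK n ≤ n ^ (30 * n))
  · linarith [log_two_lt_d9]

end Pool.Agent.Lib.MP_a0040c_lc
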