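import Pool.Agent.Lib.MP_a0040c_lc.Geo

set_option linter.unusedSectionVars false

namespace Pool.Agent.Lib.MP_a0040c_lc

open Finset Matrix

variable {ι : Type} [Fintype ι] [DecidableEq ι]

/-- `S` is a union of linear sets with small offsets and small independent periods. -/
def NF (S : Set (ι → ℤ)) (B n : ℕ) : Prop :=
  ∀ x ∈ S, ∃ (b : ι → ℤ) (Q : Finset (ι → ℤ)) (l : (ι → ℤ) → ℤ),
    (∀ j, |b j| ≤ B) ∧ (∀ c ∈ Q, ∀ j, |c j| ≤ n) ∧ Indep Q ∧ (∀ c ∈ Q, 0 ≤ l c) ∧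
    x = b + ∑ c ∈ Q, l c • c ∧
    ∀ μ : (ι → ℤ) → ℤ, (∀ c ∈ Q, 0 ≤ μ c) → b + ∑ c ∈ Q, μ c • c ∈ S

lemma abs_dot_le (b h : ι → ℤ) (B D : ℕ) (hb : ∀ j, |b j| ≤ B) (hh : ∀ j, |h j| ≤ D) :
    |b ⬝ᵥ h| ≤ (Fintype.card ι * D * B : ℕ) := by
  calc |b ⬝ᵥ h| ≤ ∑ j, |b j * h j| := Finset.abs_sum_le_sum_abs _ _
    _ ≤ ∑ _j : ι, (B : ℤ) * D := Finset.sum_le_sum fun j _ => by
        rw [abs_mul]; exact mul_le_mul (hb j) (hh j) (abs_nonneg _) (by positivity)
    _ = _ := by simp; ring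

lemma sum_dot (Q : Finset (ι → ℤ)) (l : (ι → ℤ) → ℤ) (h : ι → ℤ) :
    (∑ c ∈ Q, l c • c) ⬝ᵥ h = ∑ c ∈ Q, l c * (c ⬝ᵥ h) := by
  rw [sum_dotProduct]; simp only [smul_dotProduct, smul_eq_mul]

lemma coords (Q : Finset (ι → ℤ)) (n : ℕ) (hn : 1 ≤ n) (hQ : ∀ c ∈ Q, ∀ j, |c j| ≤ n)
    (hI : Indep Q) (v : ι → ℤ) (hv : cq v ∈ Submodule.span ℚ (cq '' (Q : Set (ι → ℤ))))
    (M : ℕ) (hM : (Fintype.card ι * (Fintype.card ι * n) ^ (Fintype.card ι - 1) * n).factorial ∣ M) :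
    ∃ (μ : (ι → ℤ) → ℤ) (h : (ι → ℤ) → ι → ℤ), (M : ℤ) • v = ∑ c ∈ Q, μ c • c ∧
      ∀ c ∈ Q, (∀ j, |h c j| ≤ ((Fintype.card ι * n) ^ (Fintype.card ι - 1) : ℕ)) ∧
        0 < c ⬝ᵥ h c ∧ μ c * (c ⬝ᵥ h c) = M * (v ⬝ᵥ h c) ∧
        ∀ l : (ι → ℤ) → ℤ, (∑ c ∈ Q, l c • c) ⬝ᵥ h c = l c * (c ⬝ᵥ h c) := by
  classical
  have : ∀ c, ∃ h : ι → ℤ, c ∈ Q →
      (∀ j, |h j| ≤ ((Fintype.card ι * n) ^ (Fintype.card ι - 1) : ℕ)) ∧
      (∀ ρ ∈ (Q.erase c : Set (ι → ℤ)), ρ ⬝ᵥ h = 0) ∧ 0 < c ⬝ᵥ h := by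
    intro c
    by_cases hc : c ∈ Q
    · obtain ⟨h, hh⟩ := small_separator (Q.erase c : Set (ι → ℤ)) n hn
        (fun ρ hρ => hQ ρ (mem_of_mem_erase (mem_coe.mp hρ))) c (hI c hc)
      exact ⟨h, fun _ => hh⟩
    · exact ⟨0, fun h => absurd h hc⟩
  choose h hh using this
  have hsum : ∀ c ∈ Q, ∀ l : (ι → ℤ) → ℤ, (∑ c ∈ Q, l c • c) ⬝ᵥ h c = l c * (c ⬝ᵥ h c) := by
    intro c hc l
    rw [sum_dot, Finset.sum_eq_single_of_mem c hc]
    intro c' hc' hne
    rw [(hh c hc).2.1 c' (mem_coe.mpr (mem_erase.mpr ⟨hne, hc'⟩)), mul_zero]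
  have hdvd : ∀ c ∈ Q, (c ⬝ᵥ h c) ∣ (M : ℤ) := by
    intro c hc
    have h1 := abs_dot_le c (h c) n _ (hQ c hc) (hh c hc).1
    have h2 := (hh c hc).2.2
    rw [abs_of_pos h2] at h1
    have h3 : (c ⬝ᵥ h c).toNat ∣ M :=
      (Nat.dvd_factorial (by omega) (by omega)).trans hM
    have := Int.natCast_dvd_natCast.mpr h3
    rwa [Int.toNat_of_nonneg h2.le] at this
  have hmu : ∀ c ∈ Q, (M / (c ⬝ᵥ h c) * (v ⬝ᵥ h c)) * (c ⬝ᵥ h c) = M * (v ⬝ᵥ h c) := by
    intro c hc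
    rw [mul_right_comm, Int.ediv_mul_cancel (hdvd c hc)]
  refine ⟨fun c => M / (c ⬝ᵥ h c) * (v ⬝ᵥ h c), h, ?_, fun c hc =>
    ⟨(hh c hc).1, (hh c hc).2.2, hmu c hc, hsum c hc⟩⟩
  obtain ⟨ν, hν⟩ := (Submodule.mem_span_image_finset_iff_exists_fun' ℚ).mp hv
  have hνc : ∀ c ∈ Q, ν c * ((c ⬝ᵥ h c : ℤ) : ℚ) = ((v ⬝ᵥ h c : ℤ) : ℚ) := by
    intro c hc
    rw [← cq_dot v, ← hν, sum_dotProduct, Finset.sum_eq_single_of_mem c hc]
    · rw [smul_dotProduct, cq_dot, smul_eq_mul]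
    · intro c' hc' hne
      rw [smul_dotProduct, cq_dot, (hh c hc).2.1 c' (mem_coe.mpr (mem_erase.mpr ⟨hne, hc'⟩))]
      simp
  apply cq_inj
  funext j
  have h1 := congrFun hν j
  simp only [cq, Finset.sum_apply, Pi.smul_apply, smul_eq_mul] at h1 ⊢
  push_cast
  rw [← h1, Finset.mul_sum]
  refine Finset.sum_congr rfl fun c hc => ?_
  have h2 := hνc c hc
  have h3 : (((M / (c ⬝ᵥ h c) * (v ⬝ᵥ h c)) * (c ⬝ᵥ h c) : ℤ) : ℚ) = ((M * (v ⬝ᵥ h c) : ℤ) : ℚ) := by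
    rw [hmu c hc]
  have h4 : ((c ⬝ᵥ h c : ℤ) : ℚ) ≠ 0 := by exact_mod_cast (hh c hc).2.2.ne'
  rw [Int.cast_mul, Int.cast_mul, Int.cast_mul, Int.cast_natCast] at h3
  rw [← mul_assoc]
  congr 1
  apply mul_right_cancel₀ h4
  rw [mul_assoc, h2, ← h3]

lemma cell_lemma (S : Set (ι → ℤ)) (B n : ℕ) (hn : 1 ≤ n) (hS : NF S B n) (x v : ι → ℤ)
    (hv : ∀ h : ι → ℤ, (∀ j, |h j| ≤ ((Fintype.card ι * n) ^ (Fintype.card ι - 1) : ℕ)) →
      0 < v ⬝ᵥ h → ((Fintype.card ι * (Fintype.card ι * n) ^ (Fintype.card ι - 1) * B : ℕ) : ℤ)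
        < x ⬝ᵥ h)
    (M : ℕ) (hM : (Fintype.card ι * (Fintype.card ι * n) ^ (Fintype.card ι - 1) * n).factorial ∣ M) :
    x ∈ S ↔ x + (M : ℤ) • v ∈ S := by
  have hM0 : (0 : ℤ) ≤ M := by positivity
  constructor
  · intro hx
    obtain ⟨b, Q, l, hb, hQ, hI, hl, rfl, hmem⟩ := hS x hx
    have hspan : cq v ∈ Submodule.span ℚ (cq '' (Q : Set (ι → ℤ))) := by
      by_contra hc
      obtain ⟨h, h1, h2, h3⟩ := small_separator (Q : Set (ι → ℤ)) n hn
        (fun ρ hρ => hQ ρ (mem_coe.mp hρ)) v hc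
      have h4 := hv h h1 h3
      rw [add_dotProduct, sum_dot, Finset.sum_eq_zero (fun c hc => by
        rw [h2 c (mem_coe.mpr hc), mul_zero])] at h4
      have := (abs_le.mp (abs_dot_le b h B _ hb h1)).2
      omega
    obtain ⟨μ, h, hμ, hh⟩ := coords Q n hn hQ hI v hspan M hM
    have := hmem (fun c => l c + μ c) (fun c hc => by
      obtain ⟨h1, h2, h3, h4⟩ := hh c hc
      have h5 : 0 ≤ v ⬝ᵥ h c := by
        by_contra hneg
        have h6 := hv (-h c) (by simpa using h1) (by simpa using hneg)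
        rw [dotProduct_neg, add_dotProduct, h4] at h6
        have := (abs_le.mp (abs_dot_le b (h c) B _ hb h1)).1
        have := mul_nonneg (hl c hc) h2.le
        omega
      have h7 : 0 ≤ μ c := by
        by_contra hneg
        push Not at hneg
        have := mul_neg_of_neg_of_pos hneg h2
        have := mul_nonneg hM0 h5
        omega
      exact add_nonneg (hl c hc) h7)
    simp only [add_smul, Finset.sum_add_distrib] at this
    rwa [hμ, add_assoc]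
  · intro hx
    obtain ⟨b, Q, l, hb, hQ, hI, hl, hxe, hmem⟩ := hS _ hx
    have hspan : cq v ∈ Submodule.span ℚ (cq '' (Q : Set (ι → ℤ))) := by
      by_contra hc
      obtain ⟨h, h1, h2, h3⟩ := small_separator (Q : Set (ι → ℤ)) n hn
        (fun ρ hρ => hQ ρ (mem_coe.mp hρ)) v hc
      have h4 := hv h h1 h3
      have h5 := congrArg (· ⬝ᵥ h) hxe
      simp only [add_dotProduct, smul_dotProduct, smul_eq_mul] at h5
      rw [sum_dot, Finset.sum_eq_zero (fun c hc => by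
        rw [h2 c (mem_coe.mpr hc), mul_zero])] at h5
      have := (abs_le.mp (abs_dot_le b h B _ hb h1)).2
      have := mul_nonneg hM0 h3.le
      omega
    obtain ⟨μ, h, hμ, hh⟩ := coords Q n hn hQ hI v hspan M hM
    have hxe' : x = b + ∑ c ∈ Q, (l c - μ c) • c := by
      simp only [sub_smul, Finset.sum_sub_distrib]
      rw [← hμ, ← add_sub_assoc, ← hxe]; abel
    have := hmem (fun c => l c - μ c) (fun c hc => by
      obtain ⟨h1, h2, h3, h4⟩ := hh c hc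
      by_cases h5 : 0 < v ⬝ᵥ h c
      · have h6 := hv (h c) h1 h5
        rw [hxe', add_dotProduct, h4] at h6
        have := (abs_le.mp (abs_dot_le b (h c) B _ hb h1)).2
        by_contra hneg
        push Not at hneg
        have := mul_neg_of_neg_of_pos hneg h2
        omega
      · have h7 : μ c ≤ 0 := by
          by_contra hneg
          push Not at hneg h5
          have := mul_pos hneg h2
          have := mul_nonpos_of_nonneg_of_nonpos hM0 h5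
          omega
        have := hl c hc
        omega)
    rwa [hxe']

/-- If `S` is eventually `p`-periodic in direction `i` from some uniform threshold, then from an
explicit threshold. -/
lemma threshold (S : Set (ι → ℤ)) (B n : ℕ) (hn : 1 ≤ n) (hS : NF S B n) (i : ι) (p T0 : ℕ)
    (hper : ∀ x : ι → ℤ, 0 ≤ x → (T0 : ℤ) ≤ x i → (x ∈ S ↔ x + Pi.single i (p : ℤ) ∈ S))
    (x : ι → ℤ) (hx : 0 ≤ x)
    (hi : (((Fintype.card ι * B + p) * (Fintype.card ι * n) ^ (Fintype.card ι - 1) *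
      ((Fintype.card ι + 1) * (Fintype.card ι * n) ^ (Fintype.card ι - 1)) ^ (Fintype.card ι) : ℕ) : ℤ)
      < x i) :
    x ∈ S ↔ x + Pi.single i (p : ℤ) ∈ S := by
  set k := Fintype.card ι with hk
  have hk1 : 1 ≤ k := Fintype.card_pos_iff.mpr ⟨i⟩
  set D : ℕ := (k * n) ^ (k - 1) with hD
  have hD1 : 1 ≤ D := Nat.one_le_pow _ _ (by positivity)
  obtain ⟨v, hvi, hv⟩ := vertex_lemma D hD1 (((k * B + p) * D : ℕ) : ℤ) (by positivity) x hx i
    (by rw [← Nat.cast_mul]; exact hi)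
  have hv0 : 0 ≤ v := by
    intro j
    have := hv (-Pi.single j 1) (fun i => by
      by_cases h : i = j
      · subst h; simpa using hD1
      · simp [h]) (by
      have h1 := hx j
      have : (0 : ℤ) ≤ (((k * B + p) * D : ℕ) : ℤ) := by positivity
      simp only [dotProduct_neg, dotProduct_single, mul_one]
      simp only [Pi.zero_apply] at h1
      omega)
    simpa using this
  set M := (k * D * n).factorial * T0 with hM
  have hM1 : (k * D * n).factorial ∣ M := Dvd.intro _ rfl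
  have hcast : (((k * B + p) * D : ℕ) : ℤ) = ((k * D * B : ℕ) : ℤ) + p * D := by push_cast; ring
  have e1 := cell_lemma S B n hn hS x v (fun h h1 h2 => by
    by_contra hc
    rw [← hk, ← hD] at hc
    have := hv h h1 (by
      rw [hcast]
      have : (0 : ℤ) ≤ p * D := by positivity
      omega)
    omega) M hM1
  have e2 := cell_lemma S B n hn hS (x + Pi.single i (p : ℤ)) v (fun h h1 h2 => by
    by_contra hc
    rw [← hk, ← hD] at hc h1
    have := hv h h1 (by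
      rw [hcast]
      rw [add_dotProduct, single_dotProduct] at hc
      have h3 := (abs_le.mp (h1 i)).1
      have : (0 : ℤ) ≤ p * (h i + D) := mul_nonneg (by positivity) (by omega)
      rw [mul_add] at this
      omega)
    omega) M hM1
  have e3 := hper (x + (M : ℤ) • v) (add_nonneg hx (smul_nonneg (by positivity) hv0)) (by
    have h1 := hx i
    have h2 : T0 ≤ M := Nat.le_mul_of_pos_left _ (Nat.factorial_pos _)
    simp only [Pi.add_apply, Pi.smul_apply, smul_eq_mul, Pi.zero_apply] at h1 ⊢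
    have h3 : (T0 : ℤ) ≤ M := by exact_mod_cast h2
    nlinarith)
  rw [e1, e2, e3, add_right_comm]

end Pool.Agent.Lib.MP_a0040c_lc
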