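import Pool.Agent.Lib.MP_a0040c_lc.Flow

set_option linter.unusedSectionVars false

namespace Pool.Agent.Lib.MP_a0040c_lc

open Finset Matrix

variable {ι : Type} [Fintype ι] [DecidableEq ι] {V : Set (ι → ℤ)} {Δ : ℕ}

/-- minors of a set of vectors are bounded -/
def MV (V : Set (ι → ℤ)) (Δ : ℕ) : Prop := MB (Matrix.of fun (c : V) => c.1) Δ

lemma MV.entry (hV : MV V Δ) {c : ι → ℤ} (hc : c ∈ V) (j : ι) : |c j| ≤ Δ := by
  simpa using hV 1 (fun _ => ⟨c, hc⟩) fun _ => j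

lemma MV.sep (hV : MV V Δ) {R : Set (ι → ℤ)} (hR : R ⊆ V) (v : ι → ℤ)
    (hv : cq v ∉ Submodule.span ℚ (cq '' R)) :
    ∃ h : ι → ℤ, (∀ j, |h j| ≤ Δ) ∧ (∀ ρ ∈ R, ρ ⬝ᵥ h = 0) ∧ 0 < v ⬝ᵥ h := by
  obtain ⟨f, hf1, hf2⟩ := Submodule.exists_dual_map_eq_bot_of_notMem hv inferInstance
  have hf : ∀ y : ι → ℚ, y ⬝ᵥ (fun j => f (Pi.single j 1)) = f y := by
    intro y
    rw [LinearMap.pi_apply_eq_sum_univ f y]
    simp only [dotProduct, smul_eq_mul]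
    refine Finset.sum_congr rfl fun j _ => ?_
    congr 2
    funext i; simp [Pi.single_apply, eq_comm]
  obtain ⟨h, h1, h2, h3⟩ := cramerK0 (F := ℚ) (MB.submatrix hV (Set.inclusion hR) id) (cq v)
    (fun j => f (Pi.single j 1)) (fun ρ => by
      change cq ρ.1 ⬝ᵥ _ = 0
      rw [hf]
      have : f (cq ρ.1) ∈ (Submodule.span ℚ (cq '' R)).map f :=
        Submodule.mem_map_of_mem (Submodule.subset_span ⟨ρ, ρ.2, rfl⟩)
      rw [hf2] at this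
      exact (Submodule.mem_bot ℚ).mp this) (by rw [hf]; exact hf1)
  have h4 : v ⬝ᵥ h ≠ 0 := by
    intro h0
    apply h3
    change cq v ⬝ᵥ cq h = 0
    rw [cq_dot, h0, Int.cast_zero]
  have h5 : ∀ ρ ∈ R, ρ ⬝ᵥ h = 0 := fun ρ hρ => h2 ⟨ρ, hρ⟩
  rcases lt_or_gt_of_ne h4 with h4 | h4
  · exact ⟨-h, by simpa using h1, by simpa using h5, by simpa using h4⟩
  · exact ⟨h, h1, h5, h4⟩

lemma MV.dep (hV : MV V Δ) {P : Finset (ι → ℤ)} (hP : (P : Set (ι → ℤ)) ⊆ V) (hdep : ¬ Indep P) :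
    ∃ z : (ι → ℤ) → ℤ, (∀ c, |z c| ≤ Δ) ∧ (∀ c ∉ P, z c = 0) ∧ (∃ c ∈ P, 0 < z c) ∧
      ∑ c ∈ P, z c • c = 0 := by
  classical
  simp only [Indep, not_forall, not_not] at hdep
  obtain ⟨c0, hc0, hmem⟩ := hdep
  obtain ⟨ν, hν⟩ := (Submodule.mem_span_image_finset_iff_exists_fun' ℚ).mp hmem
  obtain ⟨h, h1, h2, h3⟩ := cramerK0 (F := ℚ)
    (MB.submatrix hV (fun c : P => Set.inclusion hP c) id).transpose (Pi.single ⟨c0, hc0⟩ 1)
    (fun c => if c.1 = c0 then -1 else ν c.1) (fun j => by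
      change ∑ c : P, (c.1 j : ℚ) * (if c.1 = c0 then -1 else ν c.1) = 0
      rw [Finset.sum_coe_sort P fun c => (c j : ℚ) * (if c = c0 then -1 else ν c),
        ← Finset.add_sum_erase _ _ hc0, Finset.sum_congr rfl fun c hc => by
          rw [if_neg (mem_erase.mp hc).1, mul_comm]]
      have := congrFun hν j
      simp only [Finset.sum_apply, Pi.smul_apply, smul_eq_mul, cq] at this
      simp [this]) (by simp)
  have h4 : h ⟨c0, hc0⟩ ≠ 0 := by simpa [cf] using h3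
  let z : (ι → ℤ) → ℤ := fun c => if hc : c ∈ P then h ⟨c, hc⟩ else 0
  have k1 : ∀ c, |z c| ≤ Δ := fun c => by
    by_cases hc : c ∈ P
    · simpa [z, hc] using h1 ⟨c, hc⟩
    · simp [z, hc]
  have k2 : ∀ c ∉ P, z c = 0 := fun c hc => by simp [z, hc]
  have k3 : z c0 ≠ 0 := by simpa [z, hc0] using h4
  have k4 : ∑ c ∈ P, z c • c = 0 := by
    funext j
    rw [← Finset.sum_coe_sort, Finset.sum_apply, Pi.zero_apply, ← h2 j]
    exact Finset.sum_congr rfl fun c _ => by simp [z, c.2, mul_comm]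
  rcases lt_or_gt_of_ne k3 with h | h
  · exact ⟨-z, by simpa using k1, by simpa using k2, ⟨c0, hc0, by simpa using h⟩, by simpa using k4⟩
  · exact ⟨z, k1, k2, ⟨c0, hc0, h⟩, k4⟩

lemma MV.normal (hV : MV V Δ) {P : Finset (ι → ℤ)} (hP : (P : Set (ι → ℤ)) ⊆ V)
    (l : (ι → ℤ) → ℤ) (hl : ∀ c, 0 ≤ l c) :
    ∃ l' : (ι → ℤ) → ℤ, (∀ c, 0 ≤ l' c) ∧ ∑ c ∈ P, l' c • c = ∑ c ∈ P, l c • c ∧
      Indep (P.filter fun c => (Δ : ℤ) < l' c) := by
  classical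
  have hex : ∃ m, ∃ l' : (ι → ℤ) → ℤ, (∀ c, 0 ≤ l' c) ∧ ∑ c ∈ P, l' c • c = ∑ c ∈ P, l c • c ∧
      (P.filter fun c => (Δ : ℤ) < l' c).card = m := ⟨_, l, hl, rfl, rfl⟩
  obtain ⟨l', h1, h2, h3⟩ := Nat.find_spec hex
  refine ⟨l', h1, h2, ?_⟩
  by_contra hdep
  set Q := P.filter fun c => (Δ : ℤ) < l' c with hQ
  obtain ⟨z, hz1, hz2, ⟨c0, hc0, hz3⟩, hz4⟩ := hV.dep
    (fun c hc => hP (mem_filter.mp (mem_coe.mp hc)).1) hdep
  have ht : ∃ t : ℕ, ∃ c ∈ Q, l' c - t * z c ≤ Δ := by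
    refine ⟨(l' c0).toNat, c0, hc0, ?_⟩
    have := h1 c0
    rw [Int.toNat_of_nonneg this]
    nlinarith
  obtain ⟨c1, hc1, ht1⟩ := Nat.find_spec ht
  set t := Nat.find ht with htdef
  have ht0 : t ≠ 0 := by
    intro h0
    rw [h0] at ht1
    have := (mem_filter.mp hc1).2
    simp at ht1; omega
  have hmin := Nat.find_min ht (m := t - 1) (by omega)
  push Not at hmin
  have hlt := Nat.find_min' hex (m := (P.filter fun c => (Δ : ℤ) < l' c - t * z c).card)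
    ⟨fun c => l' c - t * z c, fun c => ?_, ?_, rfl⟩
  · have hsub : (P.filter fun c => (Δ : ℤ) < l' c - t * z c) ⊆ Q.erase c1 := by
      intro c hc
      obtain ⟨hcP, hc2⟩ := mem_filter.mp hc
      refine mem_erase.mpr ⟨?_, ?_⟩
      · rintro rfl; omega
      · by_contra hcQ
        rw [hz2 c hcQ] at hc2
        exact hcQ (mem_filter.mpr ⟨hcP, by simpa using hc2⟩)
    have := card_le_card hsub
    rw [card_erase_of_mem hc1] at this
    have := card_pos.mpr ⟨c1, hc1⟩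
    omega
  · by_cases hc : c ∈ Q
    · have h4 := hmin c hc
      have h5 := (abs_le.mp (hz1 c)).2
      rw [Nat.cast_sub (by omega)] at h4
      push_cast at h4 h5 ⊢
      nlinarith
    · simp [hz2 c hc, h1 c]
  · rw [← h2]
    simp only [sub_smul, Finset.sum_sub_distrib, mul_smul, ← Finset.smul_sum]
    have : ∑ c ∈ P, z c • c = 0 := by
      rw [← hz4]
      exact (Finset.sum_subset (filter_subset _ _) fun c _ hc => by simp [hz2 c hc]).symm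
    rw [this, smul_zero, sub_zero]

lemma MV.coords (hV : MV V Δ) {Q : Finset (ι → ℤ)} (hQ : (Q : Set (ι → ℤ)) ⊆ V)
    (hI : Indep Q) (v : ι → ℤ) (hv : cq v ∈ Submodule.span ℚ (cq '' (Q : Set (ι → ℤ))))
    (M : ℕ) (hM : (Fintype.card ι * Δ * Δ).factorial ∣ M) :
    ∃ (μ : (ι → ℤ) → ℤ) (h : (ι → ℤ) → ι → ℤ), (M : ℤ) • v = ∑ c ∈ Q, μ c • c ∧
      ∀ c ∈ Q, (∀ j, |h c j| ≤ Δ) ∧ 0 < c ⬝ᵥ h c ∧ μ c * (c ⬝ᵥ h c) = M * (v ⬝ᵥ h c) ∧
        ∀ l : (ι → ℤ) → ℤ, (∑ c ∈ Q, l c • c) ⬝ᵥ h c = l c * (c ⬝ᵥ h c) := by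
  classical
  have : ∀ c, ∃ h : ι → ℤ, c ∈ Q → (∀ j, |h j| ≤ Δ) ∧
      (∀ ρ ∈ (Q.erase c : Set (ι → ℤ)), ρ ⬝ᵥ h = 0) ∧ 0 < c ⬝ᵥ h := by
    intro c
    by_cases hc : c ∈ Q
    · obtain ⟨h, hh⟩ := hV.sep (R := (Q.erase c : Set (ι → ℤ)))
        (fun ρ hρ => hQ (mem_of_mem_erase (mem_coe.mp hρ))) c (hI c hc)
      exact ⟨h, fun _ => hh⟩
    · exact ⟨0, fun h => absurd h hc⟩
  choose h hh using this
  have hsum : ∀ c ∈ Q, ∀ l : (ι → ℤ) → ℤ, (∑ c ∈ Q, l c • c) ⬝ᵥ h c = l c * (c ⬝ᵥ h c) := by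
    intro c hc l
    rw [sum_dot, Finset.sum_eq_single_of_mem c hc]
    intro c' hc' hne
    rw [(hh c hc).2.1 c' (mem_coe.mpr (mem_erase.mpr ⟨hne, hc'⟩)), mul_zero]
  have hdvd : ∀ c ∈ Q, (c ⬝ᵥ h c) ∣ (M : ℤ) := by
    intro c hc
    have h1 := abs_dot_le c (h c) Δ _ (hV.entry (hQ hc)) (hh c hc).1
    have h2 := (hh c hc).2.2
    rw [abs_of_pos h2] at h1
    have h3 : (c ⬝ᵥ h c).toNat ∣ M :=
      (Nat.dvd_factorial (by omega) (by omega)).trans hM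
    have := Int.natCast_dvd_natCast.mpr h3
    rwa [Int.toNat_of_nonneg h2.le] at this
  have hmu : ∀ c ∈ Q, (M / (c ⬝ᵥ h c) * (v ⬝ᵥ h c)) * (c ⬝ᵥ h c) = M * (v ⬝ᵥ h c) := by
    intro c hc
    rw [mul_right_comm, Int.ediv_mul_cancel (hdvd c hc)]
  refine ⟨fun c => M / (c ⬝ᵥ h c) * (v ⬝ᵥ h c), h, ?_, fun c hc =>
    ⟨(hh c hc).1, (hh c hc).2.2, hmu c hc, hsum c hc⟩⟩
  obtain ⟨ν, hν⟩ := (Submodule.mem_span_image_finset_iff_exists_fun' ℚ).mp hv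
  have hνc : ∀ c ∈ Q, ν c * ((c ⬝ᵥ h c : ℤ) : ℚ) = ((v ⬝ᵥ h c : ℤ) : ℚ) := by
    intro c hc
    rw [← cq_dot v, ← hν, sum_dotProduct, Finset.sum_eq_single_of_mem c hc]
    · rw [smul_dotProduct, cq_dot, smul_eq_mul]
    · intro c' hc' hne
      rw [smul_dotProduct, cq_dot, (hh c hc).2.1 c' (mem_coe.mpr (mem_erase.mpr ⟨hne, hc'⟩))]
      simp
  apply cq_inj
  funext j
  have h1 := congrFun hν j
  simp only [cq, Finset.sum_apply, Pi.smul_apply, smul_eq_mul] at h1 ⊢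
  push_cast
  rw [← h1, Finset.mul_sum]
  refine Finset.sum_congr rfl fun c hc => ?_
  have h2 := hνc c hc
  have h3 : (((M / (c ⬝ᵥ h c) * (v ⬝ᵥ h c)) * (c ⬝ᵥ h c) : ℤ) : ℚ) = ((M * (v ⬝ᵥ h c) : ℤ) : ℚ) := by
    rw [hmu c hc]
  have h4 : ((c ⬝ᵥ h c : ℤ) : ℚ) ≠ 0 := by exact_mod_cast (hh c hc).2.2.ne'
  rw [Int.cast_mul, Int.cast_mul, Int.cast_mul, Int.cast_natCast] at h3
  rw [← mul_assoc]
  congr 1
  apply mul_right_cancel₀ h4
  rw [mul_assoc, h2, ← h3]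

/-- normal form relative to a domain `D` -/
def NF2 (V S D : Set (ι → ℤ)) (B : ℕ) : Prop :=
  ∀ x ∈ S, ∃ (b : ι → ℤ) (Q : Finset (ι → ℤ)) (l : (ι → ℤ) → ℤ),
    (∀ j, |b j| ≤ B) ∧ (Q : Set (ι → ℤ)) ⊆ V ∧ Indep Q ∧ (∀ c ∈ Q, 0 ≤ l c) ∧
    x = b + ∑ c ∈ Q, l c • c ∧
    ∀ μ : (ι → ℤ) → ℤ, (∀ c ∈ Q, 0 ≤ μ c) → b + ∑ c ∈ Q, μ c • c ∈ D → b + ∑ c ∈ Q, μ c • c ∈ S

lemma MV.cell (hV : MV V Δ) {S D : Set (ι → ℤ)} {B : ℕ} (hS : NF2 V S D B) (x v : ι → ℤ)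
    (hv : ∀ h : ι → ℤ, (∀ j, |h j| ≤ Δ) → 0 < v ⬝ᵥ h → ((Fintype.card ι * Δ * B : ℕ) : ℤ) < x ⬝ᵥ h)
    (M : ℕ) (hM : (Fintype.card ι * Δ * Δ).factorial ∣ M) (hD : x ∈ D)
    (hD' : x + (M : ℤ) • v ∈ D) : x ∈ S ↔ x + (M : ℤ) • v ∈ S := by
  have hM0 : (0 : ℤ) ≤ M := by positivity
  constructor
  · intro hx
    obtain ⟨b, Q, l, hb, hQ, hI, hl, rfl, hmem⟩ := hS x hx
    have hspan : cq v ∈ Submodule.span ℚ (cq '' (Q : Set (ι → ℤ))) := by
      by_contra hc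
      obtain ⟨h, h1, h2, h3⟩ := hV.sep hQ v hc
      have h4 := hv h h1 h3
      rw [add_dotProduct, sum_dot, Finset.sum_eq_zero (fun c hc => by
        rw [h2 c (mem_coe.mpr hc), mul_zero])] at h4
      have := (abs_le.mp (abs_dot_le b h B _ hb h1)).2
      omega
    obtain ⟨μ, h, hμ, hh⟩ := hV.coords hQ hI v hspan M hM
    have e : b + ∑ c ∈ Q, (l c + μ c) • c = b + ∑ c ∈ Q, l c • c + (M : ℤ) • v := by
      simp only [add_smul, Finset.sum_add_distrib]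
      rw [hμ, add_assoc]
    have := hmem (fun c => l c + μ c) (fun c hc => by
      obtain ⟨h1, h2, h3, h4⟩ := hh c hc
      have h5 : 0 ≤ v ⬝ᵥ h c := by
        by_contra hneg
        have h6 := hv (-h c) (by simpa using h1) (by simpa using hneg)
        rw [dotProduct_neg, add_dotProduct, h4] at h6
        have := (abs_le.mp (abs_dot_le b (h c) B _ hb h1)).1
        have := mul_nonneg (hl c hc) h2.le
        omega
      have h7 : 0 ≤ μ c := by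
        by_contra hneg
        push Not at hneg
        have := mul_neg_of_neg_of_pos hneg h2
        have := mul_nonneg hM0 h5
        omega
      exact add_nonneg (hl c hc) h7) (e ▸ hD')
    rwa [e] at this
  · intro hx
    obtain ⟨b, Q, l, hb, hQ, hI, hl, hxe, hmem⟩ := hS _ hx
    have hspan : cq v ∈ Submodule.span ℚ (cq '' (Q : Set (ι → ℤ))) := by
      by_contra hc
      obtain ⟨h, h1, h2, h3⟩ := hV.sep hQ v hc
      have h4 := hv h h1 h3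
      have h5 := congrArg (· ⬝ᵥ h) hxe
      simp only [add_dotProduct, smul_dotProduct, smul_eq_mul] at h5
      rw [sum_dot, Finset.sum_eq_zero (fun c hc => by
        rw [h2 c (mem_coe.mpr hc), mul_zero])] at h5
      have := (abs_le.mp (abs_dot_le b h B _ hb h1)).2
      have := mul_nonneg hM0 h3.le
      omega
    obtain ⟨μ, h, hμ, hh⟩ := hV.coords hQ hI v hspan M hM
    have hxe' : x = b + ∑ c ∈ Q, (l c - μ c) • c := by
      simp only [sub_smul, Finset.sum_sub_distrib]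
      rw [← hμ, ← add_sub_assoc, ← hxe]; abel
    have := hmem (fun c => l c - μ c) (fun c hc => by
      obtain ⟨h1, h2, h3, h4⟩ := hh c hc
      by_cases h5 : 0 < v ⬝ᵥ h c
      · have h6 := hv (h c) h1 h5
        rw [hxe', add_dotProduct, h4] at h6
        have := (abs_le.mp (abs_dot_le b (h c) B _ hb h1)).2
        by_contra hneg
        push Not at hneg
        have := mul_neg_of_neg_of_pos hneg h2
        omega
      · have h7 : μ c ≤ 0 := by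
          by_contra hneg
          push Not at hneg h5
          have := mul_pos hneg h2
          have := mul_nonpos_of_nonneg_of_nonpos hM0 h5
          omega
        have := hl c hc
        omega) (hxe' ▸ hD)
    rwa [hxe']

end Pool.Agent.Lib.MP_a0040c_lc
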