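import Pool.Agent.Lib.MP_a0040c_lc.Gadget

set_option linter.unusedSectionVars false

namespace Pool.Agent.Lib.MP_a0040c_lc

open Finset Pointwise Matrix

/-- alphabet of the chain construction -/
abbrev Lam (K l r : ℕ) := (Fin (K + 1) × Bool) ⊕ Fin (l + 1) ⊕ (Fin (r + 1) × Bool)

section
variable {K l r : ℕ}

/-- main letters -/
def mains (K l r : ℕ) : Finset (Lam K l r) := univ.map ⟨Sum.inl, Sum.inl_injective⟩

/-- ladder letters -/
abbrev lS (j : Fin (l + 1)) : Lam K l r := .inr (.inl j)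

/-- currency letters -/
abbrev lC (c : Fin (r + 1) × Bool) : Lam K l r := .inr (.inr c)

lemma sum_mains (x : Lam K l r → ℤ) :
    ∑ a ∈ mains K l r, x a = ∑ i, (x (.inl (i, false)) + x (.inl (i, true))) := by
  simp [mains, Fintype.sum_prod_type, add_comm]

/-- addresses for the pair test -/
def ad1 (e : Fin (K + 1) ≃ (Fin l → Bool)) : Lam K l r → Option (Fin l → Bool)
  | .inl (i, _) => some (e i)
  | .inr _ => none

/-- addresses for the chain test -/
def ad3 (e : Fin (K + 1) ≃ (Fin l → Bool)) : Lam K l r → Option (Fin l → Bool)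
  | .inl (i, false) => some (e i)
  | .inl (i, true) => some (e (i - 1))
  | .inr _ => none

/-- roles of the letters -/
def rol : Lam K l r → Rl r
  | .inl (_, false) => .inl 0
  | .inl (_, true) => .inl 1
  | .inr (.inl j) => if j = 0 then .inl 2 else .inl 3
  | .inr (.inr c) => .inr c

lemma cm_rol (z : Lam K l r → ℤ) : cm rol z (.inl 0) = ∑ i, z (.inl (i, false)) ∧
    cm rol z (.inl 1) = ∑ i, z (.inl (i, true)) ∧ cm rol z (.inl 2) = z (lS 0) ∧
    ∀ c, cm rol z (.inr c) = z (lC c) := by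
  refine ⟨?_, ?_, ?_, fun c => ?_⟩ <;>
    simp [cm_apply, Finset.sum_filter, Fintype.sum_sum_type, Fintype.sum_prod_type, rol,
      Fin.sum_univ_succ, Fin.succ_ne_zero]

lemma wt_rol (m : ℕ) (z : Lam K l r → ℤ) (hc : ∀ c, z (lC c) = z (lS 0)) :
    wt r m ⬝ᵥ cm rol z = z (lS 0) - ∑ i, z (.inl (i, true)) -
      (m : ℤ) ^ r * ∑ i, z (.inl (i, false)) := by
  obtain ⟨h0, h1, h2, h3⟩ := cm_rol z
  simp only [dotProduct, Fintype.sum_sum_type, Fintype.sum_prod_type, Fin.sum_univ_four, h0, h1, h2,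
    h3, hc, wt, Fintype.sum_bool]
  simp
  ring

/-- the extremal point -/
def pt (K l r : ℕ) (M : ℤ) : Lam K l r → ℤ
  | .inl (i, false) => M ^ (i : ℕ)
  | .inl (i, true) => M ^ K - M ^ (i : ℕ)
  | .inr (.inl j) => 2 ^ (j : ℕ) * M ^ K
  | .inr (.inr _) => M ^ K

/-- the constraints describing the complement -/
structure Con (M : ℤ) (x : Lam K l r → ℤ) : Prop where
  lad : ∀ j : Fin l, x (lS j.succ) ≤ 2 * x (lS j.castSucc)
  tot : ∑ i, (x (.inl (i, false)) + x (.inl (i, true))) ≤ x (lS (Fin.last l))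
  cur : ∀ c, x (lC c) = x (lS 0)
  fst : x (.inl (0, false)) ≤ 1
  lst : x (.inl (Fin.last K, true)) ≤ 0
  pair : ∀ i, x (lS 0) ≤ x (.inl (i, false)) + x (.inl (i, true))
  chain : ∀ i, x (lS 0) ≤ x (.inl (i + 1, true)) + M * x (.inl (i, false))

lemma Con.main {M : ℤ} (hM : 1 ≤ M) (hK : K + 1 = 2 ^ l) {x : Lam K l r → ℤ} (hx : 0 ≤ x)
    (h : Con M x) : (∀ a, x a ≤ (K + 1) * M ^ K) ∧ (M ^ K ≤ x (lS 0) → x = pt K l r M) := by
  have hK' : (K : ℤ) + 1 = 2 ^ l := by exact_mod_cast hK
  have h0 : 0 ≤ x (lS 0) := hx _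
  have s1 : ∀ j : Fin (l + 1), x (lS j) ≤ 2 ^ (j : ℕ) * x (lS 0) := by
    intro j
    induction j using Fin.induction with
    | zero => simp
    | succ j ih =>
      have := h.lad j
      simp only [Fin.val_succ, Fin.val_castSucc, pow_succ] at ih ⊢
      linarith
  have s2 : ∀ j : Fin (l + 1), x (lS (Fin.last l)) ≤ 2 ^ (l - j) * x (lS j) := by
    intro j
    induction j using Fin.reverseInduction with
    | last => simp
    | cast j ih =>
      have := h.lad j
      simp only [Fin.val_succ, Fin.val_castSucc] at ih ⊢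
      rw [show l - j = l - (j + 1) + 1 by omega, pow_succ]
      have : (0 : ℤ) ≤ 2 ^ (l - (j + 1)) := by positivity
      nlinarith
  have s3 : ∑ _i : Fin (K + 1), x (lS 0) = 2 ^ l * x (lS 0) := by simp [← hK']
  have s4 := Finset.sum_le_sum fun i (_ : i ∈ univ) => h.pair i
  have s5 := s1 (Fin.last l)
  have s6 := h.tot
  rw [Fin.val_last] at s5
  have s7 : ∀ i, x (lS 0) = x (.inl (i, false)) + x (.inl (i, true)) := fun i =>
    (Finset.sum_eq_sum_iff_of_le fun i _ => h.pair i).mp (by omega) i (mem_univ _)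
  have s8 : ∀ j : Fin (l + 1), x (lS j) = 2 ^ (j : ℕ) * x (lS 0) := by
    intro j
    refine le_antisymm (s1 j) (le_of_mul_le_mul_left (a := 2 ^ (l - j)) ?_ (by positivity))
    rw [← mul_assoc, ← pow_add, Nat.sub_add_cancel (Nat.lt_succ_iff.mp j.2)]
    have := s2 j
    omega
  have c1 : ∀ i : Fin K, x (.inl (i.succ, false)) ≤ M * x (.inl (i.castSucc, false)) := by
    intro i
    have a1 := h.chain i.castSucc
    rw [Fin.coeSucc_eq_succ] at a1
    have a2 := s7 i.succ
    omega
  have c2 : ∀ i : Fin (K + 1), x (.inl (i, false)) ≤ M ^ (i : ℕ) := by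
    intro i
    induction i using Fin.induction with
    | zero => simpa using h.fst
    | succ i ih =>
      have := c1 i
      simp only [Fin.val_succ, Fin.val_castSucc, pow_succ] at ih ⊢
      nlinarith
  have c3 : ∀ i : Fin (K + 1), x (.inl (Fin.last K, false)) ≤ M ^ (K - i) * x (.inl (i, false)) := by
    intro i
    induction i using Fin.reverseInduction with
    | last => simp
    | cast i ih =>
      have := c1 i
      simp only [Fin.val_succ, Fin.val_castSucc] at ih ⊢
      rw [show K - i = K - (i + 1) + 1 by omega, pow_succ]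
      have : (0 : ℤ) ≤ M ^ (K - (i + 1)) := by positivity
      nlinarith
  have c4 : x (.inl (Fin.last K, false)) = x (lS 0) := by
    have a1 := s7 (Fin.last K)
    have a2 := h.lst
    have a3 : 0 ≤ x (.inl (Fin.last K, true)) := hx _
    omega
  have c5 : x (lS 0) ≤ M ^ K := by simpa [c4] using c2 (Fin.last K)
  have hp : (0 : ℤ) < M ^ K := by positivity
  have c6 : M ^ K ≤ (K + 1) * M ^ K := by nlinarith
  refine ⟨fun a => ?_, fun hθ => ?_⟩
  · rcases a with ⟨i, b⟩ | j | c
    · have a1 := s7 i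
      have a2 : 0 ≤ x (.inl (i, true)) := hx _
      have a3 : 0 ≤ x (.inl (i, false)) := hx _
      cases b <;> omega
    · have a1 : (2 : ℤ) ^ (j : ℕ) ≤ 2 ^ l := pow_le_pow_right₀ one_le_two (Nat.lt_succ_iff.mp j.2)
      rw [s8, hK']
      gcongr
    · have := h.cur c
      change x (lC c) ≤ _
      omega
  · have e : x (lS 0) = M ^ K := le_antisymm c5 hθ
    have c7 : ∀ i : Fin (K + 1), x (.inl (i, false)) = M ^ (i : ℕ) := by
      intro i
      refine le_antisymm (c2 i) (le_of_mul_le_mul_left (a := M ^ (K - i)) ?_ (by positivity))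
      rw [← pow_add, Nat.sub_add_cancel (Nat.lt_succ_iff.mp i.2)]
      have := c3 i
      omega
    funext a
    rcases a with ⟨i, _ | _⟩ | j | c
    · exact c7 i
    · have a1 := s7 i
      have a2 := c7 i
      simp only [pt]
      omega
    · simp only [pt]
      rw [← e]
      exact s8 j
    · exact (h.cur c).trans e

lemma pt_nonneg {M : ℤ} (hM : 1 ≤ M) : 0 ≤ pt K l r M := by
  rintro (⟨i, _ | _⟩ | j | c) <;> simp only [pt, Pi.zero_apply]
  · positivity
  · exact sub_nonneg.mpr (pow_le_pow_right₀ hM (Nat.lt_succ_iff.mp i.2))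
  · positivity
  · positivity

end

theorem chain_exists (K l r m : ℕ) (hm : 1 ≤ m) (hK : K + 1 = 2 ^ l) :
    ∃ S : Set (Lam K l r → ℤ), NJ S (35 * l + r * (2 * m + 90) + 200) ∧
      pt K l r ((m : ℤ) ^ r) ∉ S ∧ ∀ x, 0 ≤ x → x ∉ S → Con ((m : ℤ) ^ r) x := by
  obtain ⟨e⟩ : Nonempty (Fin (K + 1) ≃ (Fin l → Bool)) := Fintype.card_eq.mp (by simp [hK])
  obtain ⟨G, hG, hG1, hG2⟩ := gad0 r m hm
  have hm' : (1 : ℤ) ≤ m := by exact_mod_cast hm
  set M : ℤ := (m : ℤ) ^ r with hMdef
  have hM : 1 ≤ M := one_le_pow₀ hm'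
  have d1 : ∀ j : Fin (l + 1), Disjoint (mains K l r) {lS j} := by simp [mains]
  have n1 := NJ.iUnion (fun j : Fin l => Gt {(lS j.succ : Lam K l r)} {lS j.castSucc} 2 1) _
    fun j => NJ.gt _ _ (by simp [Fin.ext_iff]) 2 1
  have n2 := NJ.gt _ _ (d1 (Fin.last l)) 1 1
  have n3 := NJ.iUnion (fun c => Gt {(lC c : Lam K l r)} {lS 0} 1 1 ∪ Gt {lS 0} {lC c} 1 1) _
    fun c => (NJ.gt _ _ (by simp) 1 1).union (NJ.gt _ _ (by simp) 1 1)
  have n4 := NJ.gt {(.inl (0, false) : Lam K l r)} ∅ (by simp) 0 2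
  have n5 := NJ.gt {(.inl (Fin.last K, true) : Lam K l r)} ∅ (by simp) 0 1
  have n6 := (NJ.junk (ad1 e)).add (NJ.gt _ _ (d1 0).symm 1 1)
  have n7 := (NJ.junk (ad3 e)).add (hG.comap (rol (K := K) (l := l)))
  refine ⟨_, ((((((n1.union n2).union n3).union n4).union n5).union n6).union n7).mono ?_, ?_, ?_⟩
  · simp only [Fintype.card_fin, Fintype.card_prod, Fintype.card_bool]
    nlinarith
  · have hK' : (K : ℤ) + 1 = 2 ^ l := by exact_mod_cast hK
    rintro ((((((h | h) | h) | h) | h) | h) | h)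
    · obtain ⟨j, h⟩ := Set.mem_iUnion.mp h
      have := h.2
      simp [pt, pow_succ] at this
      linarith
    · have := h.2
      rw [sum_mains] at this
      simp [pt, hK'] at this
    · obtain ⟨c, h | h⟩ := Set.mem_iUnion.mp h <;> simpa [pt] using h.2
    · simpa [pt] using h.2
    · simpa [pt] using h.2
    · obtain ⟨i, z, ⟨h0, h1⟩, h2⟩ := of_mem_junk_add h
      obtain ⟨i, rfl⟩ := e.surjective i
      rw [sum_mains] at h1
      have a1 := Finset.single_le_sum (f := fun i => z (.inl (i, false)) + z (.inl (i, true)))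
        (fun i _ => add_nonneg (h0 _) (h0 _)) (mem_univ i)
      have a2 := h2 (.inl (i, false)) (Or.inr rfl)
      have a3 := h2 (.inl (i, true)) (Or.inr rfl)
      have a4 := h2 (lS 0) (Or.inl rfl)
      simp [pt] at h1 a2 a3 a4
      omega
    · obtain ⟨i, z, ⟨h0, h1⟩, h2⟩ := of_mem_junk_add h
      obtain ⟨i, rfl⟩ := e.surjective i
      have a0 := hG1 _ h1
      have a4 := h2 (lS 0) (Or.inl rfl)
      rw [wt_rol m z fun c => by rw [a4, h2 (lC c) (Or.inl rfl)]; simp [pt]] at a0
      have a1 := Finset.single_le_sum (f := fun i => z (.inl (i, false)))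
        (fun i _ => h0 _) (mem_univ i)
      have a1' := Finset.single_le_sum (f := fun i => z (.inl (i, true)))
        (fun i _ => h0 _) (mem_univ (i + 1))
      have a2 := h2 (.inl (i, false)) (Or.inr rfl)
      have a3 := h2 (.inl (i + 1, true)) (Or.inr (by simp [ad3]))
      have a5 : M ^ ((i + 1 : Fin (K + 1)) : ℕ) ≤ M ^ ((i : ℕ) + 1) :=
        pow_le_pow_right₀ hM (by rw [Fin.val_add_one]; split_ifs <;> omega)
      simp only [pt, Fin.val_zero, pow_zero, one_mul] at a2 a3 a4
      rw [pow_succ] at a5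
      nlinarith
  · intro x hx h
    simp only [Set.mem_union, not_or, Set.mem_iUnion, not_exists] at h
    obtain ⟨⟨⟨⟨⟨⟨h1, h2⟩, h3⟩, h4⟩, h5⟩, h6⟩, h7⟩ := h
    have hcur : ∀ c, x (lC c) = x (lS 0) := fun c => by
      have a1 := (h3 c).1
      have a2 := (h3 c).2
      simp [Gt, hx] at a1 a2
      omega
    refine ⟨fun j => ?_, ?_, hcur, ?_, ?_, fun i => ?_, fun i => ?_⟩
    · have := h1 j
      simp [Gt, hx] at this
      omega
    · simp only [Gt, Set.mem_ofPred_eq, hx, sum_mains] at h2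
      simp at h2 ⊢
      omega
    · simp [Gt, hx] at h4
      omega
    · simp [Gt, hx] at h5
      omega
    · by_contra hc
      refine h6 (mem_junk_add _ (e i) hx ⟨fun a => ?_, ?_⟩)
      · have := hx a
        dsimp only
        split_ifs
        · exact this
        · exact le_rfl
      · rw [sum_mains]
        simp [ad1, Finset.sum_add_distrib]
        omega
    · by_contra hc
      have h0 : 0 ≤ fun a => if ad3 e a = none ∨ ad3 e a = some (e i) then x a else 0 := by
        intro a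
        have := hx a
        dsimp only
        split_ifs
        · exact this
        · exact le_rfl
      refine h7 (mem_junk_add _ (e i) hx ⟨h0, hG2 _ (cm_nonneg _ h0) (fun c => ?_) ?_⟩)
      · rw [(cm_rol _).2.2.1, (cm_rol _).2.2.2]
        simp [ad3, hcur]
      · rw [(cm_rol _).2.2.1, (cm_rol _).2.1, (cm_rol _).1]
        simp [ad3, sub_eq_iff_eq_add]
        omega

end Pool.Agent.Lib.MP_a0040c_lc
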