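import Pool.Agent.Lib.MP_a0040c_lc.Geo

set_option linter.unusedSectionVars false

namespace Pool.Agent.Lib.MP_a0040c_lc

open Finset Matrix

/-- all square minors are bounded by `Δ` -/
def MB {R C : Type} (N : Matrix R C ℤ) (Δ : ℕ) : Prop :=
  ∀ (s : ℕ) (f : Fin s → R) (g : Fin s → C), |(N.submatrix f g).det| ≤ Δ

lemma MB.one_le {R C : Type} {N : Matrix R C ℤ} {Δ : ℕ} (h : MB N Δ) : 1 ≤ Δ := by
  have := h 0 Fin.elim0 Fin.elim0
  simpa using this

lemma MB.submatrix {R C R' C' : Type} {N : Matrix R C ℤ} {Δ : ℕ} (h : MB N Δ) (f : R' → R)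
    (g : C' → C) : MB (N.submatrix f g) Δ := fun s f' g' => h s (f ∘ f') (g ∘ g')

lemma MB.transpose {R C : Type} {N : Matrix R C ℤ} {Δ : ℕ} (h : MB N Δ) : MB Nᵀ Δ :=
  fun s f g => by
    rw [← det_transpose]
    exact h s g f

lemma MB.mono {R C : Type} {N : Matrix R C ℤ} {Δ Δ' : ℕ} (h : MB N Δ) (h' : Δ ≤ Δ') : MB N Δ' :=
  fun s f g => (h s f g).trans (by exact_mod_cast h')

variable {R C : Type} [Fintype C] [DecidableEq C] {N : Matrix R C ℤ} {Δ : ℕ}

/-- cast of an integer vector to a field -/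
def cf (F : Type) [Field F] (z : C → ℤ) : C → F := fun c => (z c : F)

lemma cf_dot (F : Type) [Field F] (x y : C → ℤ) : cf F x ⬝ᵥ cf F y = ((x ⬝ᵥ y : ℤ) : F) := by
  simp [cf, dotProduct]

lemma cramerK0 {F : Type} [Field F] [CharZero F] (hN : MB N Δ) (u ξ : C → F)
    (hξ : ∀ r, cf F (N r) ⬝ᵥ ξ = 0) (hu : u ⬝ᵥ ξ ≠ 0) :
    ∃ z : C → ℤ, (∀ c, |z c| ≤ Δ) ∧ (∀ r, N r ⬝ᵥ z = 0) ∧ u ⬝ᵥ cf F z ≠ 0 := by
  classical
  let P : Set ℕ := {s | ∃ (f : Fin s → R) (g : Fin s → C), (N.submatrix f g).det ≠ 0}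
  have hinj : ∀ s (f : Fin s → R) (g : Fin s → C), (N.submatrix f g).det ≠ 0 →
      Function.Injective g := by
    intro s f g h i j hij
    by_contra hne
    exact h (det_zero_of_column_eq hne fun k => by simp [hij])
  have hb : BddAbove P := ⟨Fintype.card C, by
    rintro s ⟨f, g, h⟩
    simpa using Fintype.card_le_of_injective g (hinj s f g h)⟩
  obtain ⟨f, g, hD⟩ := Nat.sSup_mem (s := P) ⟨0, Fin.elim0, Fin.elim0, by simp⟩ hb
  have hmax : ∀ (f' : Fin (sSup P + 1) → R) (g' : Fin (sSup P + 1) → C),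
      (N.submatrix f' g').det = 0 := by
    intro f' g'
    by_contra h
    have := le_csSup hb (show sSup P + 1 ∈ P from ⟨f', g', h⟩)
    omega
  generalize sSup P = s at f g hD hmax
  have hg := hinj s f g hD
  let μ : C → Fin (s + 1) → ℤ := fun j i =>
    (-1) ^ (i : ℕ) * (N.submatrix f (Fin.cons j g ∘ i.succAbove)).det
  let z : C → C → ℤ := fun j c => ∑ i, if (Fin.cons j g : Fin (s + 1) → C) i = c then μ j i else 0
  have hz1 : ∀ j r, N r ⬝ᵥ z j = 0 := by
    intro j r
    rw [← hmax (Fin.cons r f) (Fin.cons j g), det_succ_row_zero]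
    simp only [z, dotProduct, Finset.mul_sum, mul_ite, mul_zero]
    rw [Finset.sum_comm]
    refine Finset.sum_congr rfl fun i _ => ?_
    rw [Finset.sum_ite_eq]
    simp only [mem_univ, if_true, μ, submatrix_apply, Fin.cons_zero, submatrix_submatrix]
    rw [show Fin.cons r f ∘ Fin.succ = f from rfl]
    ring
  have hz2 : ∀ j ∉ Set.range g, ∀ c, |z j c| ≤ Δ := by
    intro j hj c
    have hinj' : Function.Injective (Fin.cons j g : Fin (s + 1) → C) :=
      Fin.cons_injective_iff.mpr ⟨hj, hg⟩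
    by_cases hc : ∃ i, (Fin.cons j g : Fin (s + 1) → C) i = c
    · obtain ⟨i, rfl⟩ := hc
      simp only [z, hinj'.eq_iff, Finset.sum_ite_eq', mem_univ, if_true, μ, abs_mul, abs_pow,
        abs_neg, abs_one, one_pow, one_mul]
      exact hN _ _ _
    · push Not at hc
      simp [z, hc]
  have hz3 : ∀ j, ∀ c ∉ Set.range g, z j c = if j = c then (N.submatrix f g).det else 0 := by
    intro j c hc
    have : ∀ i, g i ≠ c := fun i h => hc ⟨i, h⟩
    simp only [z, Fin.sum_univ_succ, Fin.cons_zero, Fin.cons_succ, this, if_false, μ]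
    simp
  by_contra hcon
  push Not at hcon
  set D := (N.submatrix f g).det with hDdef
  let η : C → F := (D : F) • ξ - ∑ j ∈ univ.filter (· ∉ Set.range g), ξ j • cf F (z j)
  have h1 : ∀ c ∉ Set.range g, η c = 0 := by
    intro c hc
    simp only [η, Pi.sub_apply, Pi.smul_apply, Finset.sum_apply, cf, hz3 _ c hc, smul_eq_mul]
    rw [Finset.sum_eq_single_of_mem c (by simpa using hc) fun b _ hb => by simp [hb]]
    simp [mul_comm]
  have h2 : ∀ r, cf F (N r) ⬝ᵥ η = 0 := by
    intro r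
    simp only [η, dotProduct_sub, dotProduct_smul, dotProduct_sum, hξ, cf_dot, hz1]
    simp
  have h3 : η ∘ g = 0 := by
    apply eq_zero_of_mulVec_eq_zero (M := (N.submatrix f g).map (Int.castRingHom F))
    · rw [← RingHom.mapMatrix_apply, ← RingHom.map_det]
      simpa using hD
    · funext k
      rw [Pi.zero_apply, ← h2 (f k)]
      exact Fintype.sum_of_injective g hg _ _ (fun c hc => by simp [h1 c hc]) fun i => rfl
  have h4 : η = 0 := by
    funext c
    by_cases hc : c ∈ Set.range g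
    · obtain ⟨i, rfl⟩ := hc
      exact congrFun h3 i
    · exact h1 c hc
  have h5 := congrArg (u ⬝ᵥ ·) h4
  simp only [η, dotProduct_sub, dotProduct_smul, dotProduct_sum, dotProduct_zero] at h5
  rw [Finset.sum_eq_zero fun j hj => by
    rw [hcon _ (hz2 j (mem_filter.mp hj).2) (hz1 j), smul_zero]] at h5
  simp [hD, hu] at h5

lemma cramerK {F : Type} [Field F] [CharZero F] (hN : MB N Δ) (u ξ : C → F)
    (hξ : ∀ r, cf F (N r) ⬝ᵥ ξ = 0) (hu : u ⬝ᵥ ξ ≠ 0) :
    ∃ z : C → ℤ, (∀ c, |z c| ≤ Δ) ∧ (∀ c, ξ c = 0 → z c = 0) ∧ (∀ r, N r ⬝ᵥ z = 0) ∧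
      u ⬝ᵥ cf F z ≠ 0 := by
  classical
  have e1 : ∀ a b : C → F, (∀ c, ξ c = 0 → b c = 0) →
      (a ∘ Subtype.val : {c // ξ c ≠ 0} → F) ⬝ᵥ (b ∘ Subtype.val) = a ⬝ᵥ b := fun a b hb =>
    Fintype.sum_of_injective Subtype.val Subtype.val_injective _ _
      (fun c hc => by rw [hb c (by simpa using hc), mul_zero]) fun _ => rfl
  obtain ⟨z, h1, h2, h3⟩ := cramerK0 (hN.submatrix id (Subtype.val : {c // ξ c ≠ 0} → C))
    (u ∘ Subtype.val) (ξ ∘ Subtype.val) (fun r => (e1 (cf F (N r)) ξ fun _ h => h).trans (hξ r))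
    (by rwa [e1 u ξ fun _ h => h])
  let z' : C → ℤ := fun c => if h : ξ c ≠ 0 then z ⟨c, h⟩ else 0
  have e2 : cf F z' ∘ Subtype.val = cf F z := by
    funext c
    simp [cf, z', c.2]
  have e3 : ∀ c, ξ c = 0 → cf F z' c = 0 := fun c hc => by simp [cf, z', hc]
  refine ⟨z', fun c => ?_, fun c hc => by simp [z', hc], fun r => ?_, ?_⟩
  · by_cases hc : ξ c = 0
    · simp [z', hc]
    · simpa [z', hc] using h1 ⟨c, hc⟩
  · have := e1 (cf F (N r)) _ e3
    rw [e2, cf_dot] at this
    have h4 : cf F (N.submatrix id (Subtype.val : {c // ξ c ≠ 0} → C) r) ⬝ᵥ cf F z = 0 := by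
      rw [cf_dot, h2 r, Int.cast_zero]
    exact_mod_cast this.symm.trans h4
  · rwa [← e1 u _ e3, e2]

lemma circuit {F : Type} [Field F] [LinearOrder F] [IsStrictOrderedRing F] (hN : MB N Δ)
    (u : C → F) (ξ : C → F) (h0 : 0 ≤ ξ) (hξ : ∀ r, cf F (N r) ⬝ᵥ ξ = 0) (hu : 0 < u ⬝ᵥ ξ) :
    ∃ z : C → ℤ, 0 ≤ z ∧ (∀ c, z c ≤ Δ) ∧ (∀ c, ξ c = 0 → z c = 0) ∧ (∀ r, N r ⬝ᵥ z = 0) ∧
      0 < u ⬝ᵥ cf F z := by
  classical
  induction hm : (univ.filter fun c => ξ c ≠ 0).card using Nat.strong_induction_on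
    generalizing ξ with
  | _ m ih =>
  obtain ⟨z, h1, h2, h3, h4⟩ : ∃ z : C → ℤ, (∀ c, |z c| ≤ Δ) ∧ (∀ c, ξ c = 0 → z c = 0) ∧
      (∀ r, N r ⬝ᵥ z = 0) ∧ 0 < u ⬝ᵥ cf F z := by
    obtain ⟨z, h1, h2, h3, h4⟩ := cramerK hN u ξ hξ hu.ne'
    rcases lt_or_gt_of_ne h4 with h | h
    · refine ⟨-z, by simpa using h1, by simpa using h2, by simpa using h3, ?_⟩
      rw [show cf F (-z) = -cf F z by funext c; simp [cf]]
      simpa using h
    · exact ⟨z, h1, h2, h3, h⟩
  by_cases hz : 0 ≤ z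
  · exact ⟨z, hz, fun c => (le_abs_self _).trans (h1 c), h2, h3, h4⟩
  · obtain ⟨c1, hc1⟩ : ∃ c, z c < 0 := by simpa [Pi.le_def] using hz
    obtain ⟨c0, hc0, hmin⟩ := exists_min_image (univ.filter fun c => z c < 0)
      (fun c => ξ c / (-z c : F)) ⟨c1, by simpa using hc1⟩
    have hneg : ∀ c, z c < 0 → (0 : F) < -z c := fun c hc => by
      rw [neg_pos]; exact_mod_cast hc
    have hc0' := hneg c0 (mem_filter.mp hc0).2
    set t := ξ c0 / (-z c0 : F) with ht
    have ht0 : 0 ≤ t := div_nonneg (h0 c0) hc0'.le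
    have hsupp : ∀ c, ξ c = 0 → (ξ + t • cf F z) c = 0 := fun c hc => by simp [cf, hc, h2 c hc]
    refine (ih _ ?_ (ξ + t • cf F z) (fun c => ?_) (fun r => ?_) ?_ rfl).imp
      fun z' ⟨k1, k2, k3, k4, k5⟩ => ⟨k1, k2, fun c hc => k3 c (hsupp c hc), k4, k5⟩
    · rw [← hm]
      refine card_lt_card ⟨fun c hc => ?_, fun hc => ?_⟩
      · simp only [mem_filter, mem_univ, true_and] at hc ⊢
        exact fun h => hc (hsupp c h)
      · have a1 : ξ c0 ≠ 0 := fun h => (mem_filter.mp hc0).2.ne (h2 c0 h)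
        have := hc (mem_filter.mpr ⟨mem_univ c0, a1⟩)
        apply (mem_filter.mp this).2
        have a2 : (z c0 : F) ≠ 0 := by
          intro h; simp [h] at hc0'
        simp only [Pi.add_apply, Pi.smul_apply, cf, smul_eq_mul, ht]
        field_simp
        ring
    · simp only [Pi.add_apply, Pi.smul_apply, cf, smul_eq_mul, Pi.zero_apply]
      by_cases hc : z c < 0
      · have := hmin c (by simpa using hc)
        rw [le_div_iff₀ (hneg c hc)] at this
        linarith
      · have a1 : (0 : F) ≤ z c := by exact_mod_cast not_lt.mp hc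
        exact add_nonneg (h0 c) (mul_nonneg ht0 a1)
    · rw [dotProduct_add, dotProduct_smul, hξ, cf_dot, h3]
      simp
    · rw [dotProduct_add, dotProduct_smul, smul_eq_mul]
      positivity

lemma farkas {F V : Type} [Field F] [LinearOrder F] [IsStrictOrderedRing F] [AddCommGroup V]
    [Module F V] {ι : Type} (s : Finset ι) (α : ι → V →ₗ[F] F) (β : V →ₗ[F] F)
    (h : ∀ x, (∀ i ∈ s, 0 ≤ α i x) → 0 ≤ β x) :
    ∃ l : ι → F, 0 ≤ l ∧ (∀ i ∉ s, l i = 0) ∧ β = ∑ i ∈ s, l i • α i := by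
  classical
  induction s using Finset.induction_on generalizing α β with
  | empty =>
    refine ⟨0, le_rfl, fun _ _ => rfl, LinearMap.ext fun x => ?_⟩
    have a1 := h x (by simp)
    have a2 := h (-x) (by simp)
    simp at a2 ⊢
    exact le_antisymm a2 a1
  | insert j s hj ih =>
    by_cases hc : ∀ x, (∀ i ∈ s, 0 ≤ α i x) → 0 ≤ β x
    · obtain ⟨l, h1, h2, h3⟩ := ih α β hc
      refine ⟨l, h1, fun i hi => h2 i fun h => hi (mem_insert_of_mem h), ?_⟩
      rw [Finset.sum_insert hj, h2 j hj, zero_smul, zero_add, h3]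
    · push Not at hc
      obtain ⟨x1, hx1, hx2⟩ := hc
      have hx3 : α j x1 < 0 := by
        by_contra hc
        refine absurd (h x1 fun i hi => ?_) (not_le.mpr hx2)
        rcases mem_insert.mp hi with rfl | hi
        · exact not_lt.mp hc
        · exact hx1 i hi
      set x0 := (-α j x1)⁻¹ • x1 with hx0
      have hp : 0 < (-α j x1)⁻¹ := inv_pos.mpr (neg_pos.mpr hx3)
      have b1 : α j x0 = -1 := by
        rw [hx0, map_smul, smul_eq_mul, inv_neg, neg_mul, inv_mul_cancel₀ hx3.ne]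
      have b2 : ∀ i ∈ s, 0 ≤ α i x0 := fun i hi => by
        rw [hx0, map_smul, smul_eq_mul]
        exact mul_nonneg hp.le (hx1 i hi)
      have b3 : β x0 < 0 := by
        rw [hx0, map_smul, smul_eq_mul]
        exact mul_neg_of_pos_of_neg hp hx2
      obtain ⟨l, h1, h2, h3⟩ := ih (fun i => α i + α i x0 • α j) (β + β x0 • α j) fun x hx => by
        have := h (x + α j x • x0) fun i hi => by
          rcases mem_insert.mp hi with rfl | hi
          · simp [b1]
          · simpa [mul_comm] using hx i hi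
        simpa [mul_comm] using this
      refine ⟨Function.update l j (∑ i ∈ s, l i * α i x0 - β x0), fun i => ?_, fun i hi => ?_, ?_⟩
      · by_cases hi : i = j
        · subst hi
          have := Finset.sum_nonneg fun i hi => mul_nonneg (h1 i) (b2 i hi)
          simp only [Function.update_self, Pi.zero_apply]
          linarith
        · simpa [hi] using h1 i
      · have : i ≠ j := fun h => hi (h ▸ mem_insert_self _ _)
        rw [Function.update_of_ne this]
        exact h2 i fun h => hi (mem_insert_of_mem h)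
      · have e : ∀ v, ∑ i ∈ s, Function.update l j v i • α i = ∑ i ∈ s, l i • α i := fun v =>
          Finset.sum_congr rfl fun i hi => by
            rw [Function.update_of_ne (ne_of_mem_of_not_mem hi hj)]
        rw [Finset.sum_insert hj, Function.update_self, e]
        simp only [smul_add, Finset.sum_add_distrib, smul_smul, ← Finset.sum_smul] at h3
        refine LinearMap.ext fun x => ?_
        have := LinearMap.congr_fun h3 x
        simp only [LinearMap.add_apply, LinearMap.smul_apply, smul_eq_mul] at this ⊢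
        linarith

end Pool.Agent.Lib.MP_a0040c_lc
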