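import Mathlib

namespace Pool.Agent.Lib.MP_a0040c_lc

/-- A general finite automaton with state set `Q` and alphabet `A`; the label `none` is the
empty word. -/
structure GFA (Q A : Type) where
  δ : Q → Option A → Set Q
  q0 : Q
  F : Set Q

/-- One jumping move on configurations. -/
def GFA.Jump {Q A : Type} (M : GFA Q A) (c d : Q × List A) : Prop :=
  ∃ (u v : List A) (a : Option A), c.2 = u ++ a.toList ++ v ∧ d.2 = u ++ v ∧ d.1 ∈ M.δ c.1 a

/-- The language accepted in jumping mode. -/
def GFA.LJ {Q A : Type} (M : GFA Q A) : Language A :=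
  {w | ∃ q ∈ M.F, Relation.ReflTransGen M.Jump (M.q0, w) (q, [])}

/-- Minimum number of states of a complete DFA accepting `L`. -/
noncomputable def sc {A : Type} (L : Language A) : ℕ :=
  sInf {m | ∃ D : DFA A (Fin m), D.accepts = L}

/-- The conversion cost `f(n,k)`. -/
noncomputable def cost (n k : ℕ) : ℕ :=
  sSup {m | ∃ M : GFA (Fin n) (Fin k), M.LJ.IsRegular ∧ sc M.LJ = m}

/-- Landau's function: the largest order of a permutation of `n` points. -/
noncomputable def landau (n : ℕ) : ℕ :=
  Finset.univ.sup fun σ : Equiv.Perm (Fin n) => orderOf σ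

end Pool.Agent.Lib.MP_a0040c_lc
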