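import Pool.Agent.Lib.MP_a0040c_lc.Cell2

set_option linter.unusedSectionVars false

namespace Pool.Agent.Lib.MP_a0040c_lc

open Finset Matrix

variable {Q A : Type} [DecidableEq Q] [DecidableEq A] [Fintype Q] [Fintype A] {Δ : ℕ}

lemma mv_net (h : MB (Matrix.of (nv (Q := Q) (A := A))) Δ) :
    MV (Set.range (nv (Q := Q) (A := A))) Δ := by
  have : ∀ c : Set.range (nv (Q := Q) (A := A)), ∃ e, nv e = c.1 := fun c => c.2
  choose e he using this
  have e1 : (Matrix.of fun c : Set.range (nv (Q := Q) (A := A)) => c.1) =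
      (Matrix.of nv).submatrix e id := by
    ext c j
    simp [he]
  rw [MV, e1]
  exact h.submatrix e id

lemma abs_nv (e : Option A × Q × Q) (j : Q ⊕ A) : |nv e j| ≤ 1 := by
  rcases j with q | a
  · simp only [nv, bd, Sum.elim_inl, Pi.sub_apply, Pi.single_apply]
    split_ifs <;> simp
  · simp only [nv, ev, Sum.elim_inr]
    split_ifs <;> simp

lemma exists_gk_finset (M : GFA Q A) (K : Finset Q) : ∃ P : Finset (Q ⊕ A → ℤ),
    (P : Set (Q ⊕ A → ℤ)) = GK M K ∧ P.card ≤ (Fintype.card A + 1) * Fintype.card Q ^ 2 := by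
  classical
  refine ⟨(univ.filter fun e : Option A × Q × Q =>
    e.2.1 ∈ K ∧ e.2.2 ∈ K ∧ e.2.2 ∈ M.δ e.2.1 e.1).image nv, ?_, ?_⟩
  · ext c
    simp only [coe_image, coe_filter, mem_univ, true_and, Set.mem_image, Set.mem_ofPred_eq, GK]
    constructor
    · rintro ⟨⟨o, p, q⟩, ⟨h1, h2, h3⟩, rfl⟩
      exact ⟨o, p, q, h1, h2, h3, rfl⟩
    · rintro ⟨o, p, q, h1, h2, h3, rfl⟩
      exact ⟨_, ⟨h1, h2, h3⟩, rfl⟩
  · refine card_image_le.trans ((card_filter_le _ _).trans ?_)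
    simp [sq]

lemma nf2_PI (M : GFA Q A) (hV : MV (Set.range (nv (Q := Q) (A := A))) Δ) :
    NF2 (Set.range (nv (Q := Q) (A := A))) {z | z ∘ Sum.inl = 0 ∧ z ∘ Sum.inr ∈ PI M}
      {z | z ∘ Sum.inl = 0}
      (Fintype.card Q ^ 2 + (Fintype.card A + 1) * Fintype.card Q ^ 2 * Δ) := by
  classical
  rintro z ⟨hz1, hz2⟩
  obtain ⟨K, b, r, hb0, hb, -, hc, hall⟩ := skel hz2
  obtain ⟨P, hP, hPc⟩ := exists_gk_finset M K
  have hPV : (P : Set (Q ⊕ A → ℤ)) ⊆ Set.range nv := by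
    rw [hP]
    rintro _ ⟨o, p, q, -, -, -, rfl⟩
    exact ⟨_, rfl⟩
  rw [← hP] at hall
  rw [← hP, AddSubmonoid.mem_closure_finset] at hc
  obtain ⟨f, -, hf⟩ := hc
  obtain ⟨l', h1, h2, h3⟩ := hV.normal hPV (fun c => (f c : ℤ)) (fun c => by positivity)
  have hmemcl : ∀ μ : (Q ⊕ A → ℤ) → ℤ, ∀ s ⊆ P, (∀ c ∈ s, 0 ≤ μ c) →
      ∑ c ∈ s, μ c • c ∈ AddSubmonoid.closure (P : Set (Q ⊕ A → ℤ)) := by
    intro μ s hs hμ
    refine sum_mem fun c hc => ?_
    rw [← Int.toNat_of_nonneg (hμ c hc), natCast_zsmul]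
    exact nsmul_mem (AddSubmonoid.subset_closure (mem_coe.mpr (hs hc))) _
  refine ⟨Sum.elim (0 : Q → ℤ) b + ∑ c ∈ P.filter (fun c => ¬ (Δ : ℤ) < l' c), l' c • c,
    P.filter fun c => (Δ : ℤ) < l' c, l', fun j => ?_,
    fun c hc => hPV (mem_filter.mp (mem_coe.mp hc)).1, h3, fun c _ => h1 c, ?_,
    fun μ hμ hD => ⟨hD, hall _ ?_⟩⟩
  · have e1 : |(Sum.elim (0 : Q → ℤ) b : Q ⊕ A → ℤ) j| ≤ (Fintype.card Q : ℤ) ^ 2 := by
      rcases j with q | a
      · simp
      · rw [Sum.elim_inr, abs_of_nonneg (hb0 a)]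
        exact hb a
    have e2 : |(∑ c ∈ P.filter (fun c => ¬ (Δ : ℤ) < l' c), l' c • c) j| ≤
        ((Fintype.card A + 1) * Fintype.card Q ^ 2 * Δ : ℕ) := by
      rw [Finset.sum_apply]
      calc _ ≤ ∑ _c ∈ P.filter (fun c => ¬ (Δ : ℤ) < l' c), (Δ : ℤ) :=
            (Finset.abs_sum_le_sum_abs _ _).trans (Finset.sum_le_sum fun c hc => by
              obtain ⟨h4, h5⟩ := mem_filter.mp hc
              obtain ⟨e, rfl⟩ := hPV h4
              rw [Pi.smul_apply, smul_eq_mul, abs_mul, abs_of_nonneg (h1 _)]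
              exact (mul_le_of_le_one_right (h1 _) (abs_nv e j)).trans (not_lt.mp h5))
        _ = (((P.filter (fun c => ¬ (Δ : ℤ) < l' c)).card * Δ : ℕ) : ℤ) := by simp
        _ ≤ _ := by
            norm_cast
            gcongr
            exact (card_filter_le _ _).trans hPc
    rw [Pi.add_apply, Nat.cast_add, Nat.cast_pow]
    exact (abs_add_le _ _).trans (add_le_add e1 e2)
  · rw [add_assoc, add_comm (∑ c ∈ P.filter (fun c => ¬ (Δ : ℤ) < l' c), l' c • c),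
      Finset.sum_filter_add_sum_filter_not, h2]
    simp only [natCast_zsmul]
    rw [hf, elim_add]
    funext j
    rcases j with q | a
    · simpa using congrFun hz1 q
    · simp
  · convert add_mem (hmemcl l' _ (filter_subset (fun c => ¬ (Δ : ℤ) < l' c) P) fun c _ => h1 c)
      (hmemcl μ _ (filter_subset _ P) hμ) using 1
    funext j
    rcases j with q | a
    · simpa using (congrFun hD q).symm
    · simp
      ring

lemma threshold2 (M : GFA Q A) (hV : MV (Set.range (nv (Q := Q) (A := A))) Δ) (i : A) (p T0 : ℕ)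
    (hper : ∀ x : A → ℤ, 0 ≤ x → (T0 : ℤ) ≤ x i → (x ∈ PI M ↔ x + Pi.single i (p : ℤ) ∈ PI M))
    (x : A → ℤ) (hx : 0 ≤ x)
    (hi : ((((Fintype.card Q + Fintype.card A) * (Fintype.card Q ^ 2 + (Fintype.card A + 1) *
      Fintype.card Q ^ 2 * Δ) + p) * Δ * ((Fintype.card A + 1) * Δ) ^ Fintype.card A : ℕ) : ℤ)
      < x i) : x ∈ PI M ↔ x + Pi.single i (p : ℤ) ∈ PI M := by
  set B := Fintype.card Q ^ 2 + (Fintype.card A + 1) * Fintype.card Q ^ 2 * Δ
  set k := Fintype.card Q + Fintype.card A with hk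
  have hD1 : 1 ≤ Δ := MB.one_le hV
  obtain ⟨v, hvi, hv⟩ := vertex_lemma Δ hD1 (((k * B + p) * Δ : ℕ) : ℤ) (by positivity) x hx i
    (by rw [← Nat.cast_mul]; exact hi)
  have hv0 : 0 ≤ v := by
    intro j
    have := hv (-Pi.single j 1) (fun i => by
      by_cases h : i = j
      · subst h; simpa using hD1
      · simp [h]) (by
      have h1 := hx j
      have : (0 : ℤ) ≤ (((k * B + p) * Δ : ℕ) : ℤ) := by positivity
      simp only [dotProduct_neg, dotProduct_single, mul_one]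
      simp only [Pi.zero_apply] at h1
      omega)
    simpa using this
  set N := (Fintype.card (Q ⊕ A) * Δ * Δ).factorial * T0 with hN
  have hcast : (((k * B + p) * Δ : ℕ) : ℤ) = ((k * Δ * B : ℕ) : ℤ) + p * Δ := by push_cast; ring
  have hdot : ∀ (y : A → ℤ) (h : Q ⊕ A → ℤ), Sum.elim (0 : Q → ℤ) y ⬝ᵥ h = y ⬝ᵥ (h ∘ Sum.inr) :=
    fun y h => by simp [dotProduct, Fintype.sum_sum_type]
  have key : ∀ y : A → ℤ, (∀ h : A → ℤ, (∀ j, |h j| ≤ Δ) → 0 < v ⬝ᵥ h →
      ((k * Δ * B : ℕ) : ℤ) < y ⬝ᵥ h) → (y ∈ PI M ↔ y + (N : ℤ) • v ∈ PI M) := by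
    intro y hy
    have := hV.cell (nf2_PI M hV) (Sum.elim 0 y) (Sum.elim 0 v) (fun h h1 h2 => by
      rw [hdot] at h2 ⊢
      rw [Fintype.card_sum]
      exact hy _ (fun j => h1 _) h2) N (Dvd.intro _ rfl) rfl (by funext q; simp)
    have e : (Sum.elim (0 : Q → ℤ) y + (N : ℤ) • Sum.elim (0 : Q → ℤ) v) ∘ Sum.inl = 0 := by
      funext q; simp
    simp only [Set.mem_ofPred_eq, e, Sum.elim_comp_inl, Sum.elim_comp_inr, true_and] at this
    exact this
  have e1 := key x fun h h1 h2 => by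
    by_contra hc
    have := hv h h1 (by
      rw [hcast]
      have : (0 : ℤ) ≤ p * Δ := by positivity
      omega)
    omega
  have e2 := key (x + Pi.single i (p : ℤ)) fun h h1 h2 => by
    by_contra hc
    have := hv h h1 (by
      rw [hcast]
      rw [add_dotProduct, single_dotProduct] at hc
      have h3 := (abs_le.mp (h1 i)).1
      have : (0 : ℤ) ≤ p * (h i + Δ) := mul_nonneg (by positivity) (by omega)
      rw [mul_add] at this
      omega)
    omega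
  have e3 := hper (x + (N : ℤ) • v) (add_nonneg hx (smul_nonneg (by positivity) hv0)) (by
    have h1 := hx i
    have h2 : T0 ≤ N := Nat.le_mul_of_pos_left _ (Nat.factorial_pos _)
    simp only [Pi.add_apply, Pi.smul_apply, smul_eq_mul, Pi.zero_apply] at h1 ⊢
    have h3 : (T0 : ℤ) ≤ N := by exact_mod_cast h2
    nlinarith)
  rw [e1, e2, e3, add_right_comm]

theorem cost_upper2 (n k : ℕ) : cost n k ≤ (((n + k) * (n ^ 2 + (k + 1) * n ^ 2 *
    ⌊(1 + n / k : ℝ) ^ k⌋₊) + landau n) * ⌊(1 + n / k : ℝ) ^ k⌋₊ *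
    ((k + 1) * ⌊(1 + n / k : ℝ) ^ k⌋₊) ^ k + 1 + landau n) ^ k := by
  apply csSup_le'
  rintro _ ⟨M, hM, rfl⟩
  have hV := mv_net (mb_net (Q := Fin n) (A := Fin k) ⌊(1 + n / k : ℝ) ^ k⌋₊ fun c hc => by
    simpa using amgm n c (by simpa using hc))
  have := (sc_le_of_periodic M.LJ (PI M) mem_LJ_iff (((n + k) * (n ^ 2 + (k + 1) * n ^ 2 *
    ⌊(1 + n / k : ℝ) ^ k⌋₊) + landau n) * ⌊(1 + n / k : ℝ) ^ k⌋₊ *
    ((k + 1) * ⌊(1 + n / k : ℝ) ^ k⌋₊) ^ k + 1) (landau n) (fun i => by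
      obtain ⟨T0, P0, hP0, hrec⟩ := recog M hM i
      obtain ⟨p, hp, hpg, hper⟩ := period_lemma M i T0 P0 hP0 hrec
      rw [Fintype.card_fin] at hpg
      refine ⟨p, hp, hpg, fun x hx hi => threshold2 M hV i p T0 hper x hx ?_⟩
      refine lt_of_lt_of_le ?_ hi
      simp only [Fintype.card_fin]
      norm_cast
      apply Nat.lt_succ_of_le
      gcongr)).2
  simpa using this

end Pool.Agent.Lib.MP_a0040c_lc
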