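import Pool.Agent.Lib.MP_a0040c_lc.Prox
import Pool.Agent.Lib.MP_a0040c_lc.Upper2

set_option linter.unusedSectionVars false

namespace Pool.Agent.Lib.MP_a0040c_lc

open Finset Matrix

variable {Q A J : Type} [DecidableEq Q] [DecidableEq A] [DecidableEq J] [Fintype Q] [Fintype A]
  [Fintype J]

/-- the joint system of all flow problems -/
def tot (ν : J → Prop) [DecidablePred ν] (h : J → A → ℤ) :
    Matrix ((J × (Q ⊕ A)) ⊕ J) (A ⊕ (J × Option A × Q × Q) ⊕ J) ℤ :=
  Sum.elim (fun r => Sum.elim (fun a => if ν r.1 ∧ r.2 = .inr a then -1 else 0)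
    (Sum.elim (fun c => if ν r.1 ∧ c.1 = r.1 then nv c.2 r.2 else 0) 0))
    fun j => Sum.elim (h j) (Sum.elim 0 (Pi.single j 1))

lemma tot_inl (ν : J → Prop) [DecidablePred ν] (h : J → A → ℤ) (j : J) (w : Q ⊕ A)
    (ξ : A ⊕ (J × Option A × Q × Q) ⊕ J → ℚ) : cf ℚ (tot ν h (.inl (j, w))) ⬝ᵥ ξ =
      if ν j then cf ℚ ((of nv)ᵀ w) ⬝ᵥ (fun e => ξ (.inr (.inl (j, e)))) -
        Sum.elim (0 : Q → ℚ) (fun a => ξ (.inl a)) w else 0 := by
  by_cases hj : ν j
  · simp only [dotProduct, Fintype.sum_sum_type, cf, tot, Sum.elim_inl, Sum.elim_inr, hj,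
      true_and, if_true, Fintype.sum_prod_type (α₁ := J)]
    rw [Finset.sum_eq_single j (fun b _ hb => by simp [hb]) (by simp)]
    cases w <;> simp [sub_eq_neg_add]
  · simp [dotProduct, Fintype.sum_sum_type, cf, tot, hj]

lemma tot_inr (ν : J → Prop) [DecidablePred ν] (h : J → A → ℤ) (j : J)
    (ξ : A ⊕ (J × Option A × Q × Q) ⊕ J → ℚ) : cf ℚ (tot ν h (.inr j)) ⬝ᵥ ξ =
      cf ℚ (h j) ⬝ᵥ (fun a => ξ (.inl a)) + ξ (.inr (.inr j)) := by
  simp [dotProduct, Fintype.sum_sum_type, cf, tot, Pi.single_apply]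

lemma sum_ev_le (o : Option A) : ∑ a, |ev o a| ≤ 1 := by
  cases o <;> simp [ev, apply_ite abs]

lemma mb_tot (ν : J → Prop) [DecidablePred ν] (h : J → A → ℤ) (Δ : ℕ) (hh : ∀ j a, |h j a| ≤ Δ) :
    MB (tot (Q := Q) ν h) ((Fintype.card (Option A × Q × Q) + Fintype.card A * Δ + 1) ^
      (Fintype.card J * (Fintype.card Q + 1))) := by
  refine (mb_light _ (fun r => ∀ j a, r ≠ .inl (j, .inr a)) (fun c => c.isLeft)
    (Fintype.card (Option A × Q × Q) + Fintype.card A * Δ + 1) (by omega) ?_ ?_ ?_).mono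
    (Nat.pow_le_pow_right (by omega) ?_)
  · rintro (⟨j, q | a⟩ | j) hr
    · simp only [Fintype.sum_sum_type, tot, Sum.elim_inl, Sum.elim_inr,
        Fintype.sum_prod_type (α₁ := J)]
      rw [Finset.sum_eq_single j (fun b _ hb => by simp [hb]) (by simp)]
      have : ∑ e : Option A × Q × Q, |if ν j ∧ True then nv e (.inl q) else 0| ≤
          Fintype.card (Option A × Q × Q) := by
        refine (Finset.sum_le_card_nsmul _ _ 1 fun e _ => ?_).trans (by simp)
        split_ifs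
        · exact abs_nv _ _
        · simp
      simp only [reduceCtorEq, and_false, if_false, abs_zero, Finset.sum_const_zero,
        Pi.zero_apply, zero_add, add_zero]
      push_cast
      have : (0 : ℤ) ≤ Fintype.card A * Δ := by positivity
      omega
    · exact absurd rfl (hr j a)
    · have : ∑ a, |h j a| ≤ Fintype.card A * Δ :=
        (Finset.sum_le_card_nsmul _ _ (Δ : ℤ) fun a _ => hh j a).trans (by simp)
      simp only [Fintype.sum_sum_type, tot, Sum.elim_inl, Sum.elim_inr, Pi.zero_apply, abs_zero,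
        Finset.sum_const_zero, Pi.single_apply, apply_ite abs, abs_one, Finset.sum_ite_eq',
        mem_univ, if_true]
      push_cast
      omega
  · rintro (a | ⟨j, e⟩ | j) hc
    · simp at hc
    · simp only [Fintype.sum_sum_type, Fintype.sum_prod_type (α₁ := J)]
      rw [Finset.sum_eq_single j (fun b _ hb => by simp [tot, hb.symm]) (by simp)]
      refine le_trans (le_of_eq ?_) ((Finset.sum_le_sum (s := univ)
        (f := fun a => |if ν j then ev e.1 a else 0|) fun a _ => ?_).trans (sum_ev_le e.1))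
      · simp [tot, nv]
      · split_ifs <;> simp
    · simp [Fintype.sum_sum_type, tot]
  · rintro (⟨j, q | a⟩ | j) hr
    · simp at hr
    · simp only [Fintype.sum_sum_type, tot, Sum.elim_inl, Sum.isLeft_inl, Sum.isLeft_inr, if_true]
      rw [Finset.sum_eq_single a (fun b _ hb => by simp [hb.symm]) (by simp)]
      split_ifs <;> simp_all
    · simp at hr
  · rw [← Fintype.card_option, ← Fintype.card_prod, ← card_univ]
    refine card_le_card_of_surjOn (fun c : J × Option Q =>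
      c.2.elim (.inr c.1) fun q => .inl (c.1, .inl q)) ?_
    rintro (⟨j, q | a⟩ | j) hr
    · exact ⟨(j, some q), by simp, rfl⟩
    · simp at hr
    · exact ⟨(j, none), by simp, rfl⟩

lemma direction (ν : J → Prop) [DecidablePred ν] (φ : J → Option A × Q × Q → ℚ) (h : J → A → ℤ)
    (Δ ρ : ℕ) (x : A → ℤ) (hx : 0 ≤ x) (i : A) (h0 : ∀ j, 0 ≤ φ j) (hh : ∀ j a, |h j a| ≤ Δ)
    (h1 : ∀ j, ν j → ∑ w, |cf ℚ ((of nv)ᵀ w) ⬝ᵥ φ j - Sum.elim (0 : Q → ℚ) (cf ℚ x) w| ≤ ρ)
    (h2 : ∀ j, h j ⬝ᵥ x ≤ ρ)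
    (hi : (((Fintype.card (Option A × Q × Q) + Fintype.card A * Δ + 1) ^
      (Fintype.card J * (Fintype.card Q + 1)) * (2 * Fintype.card J * ρ) : ℕ) : ℤ) < x i) :
    ∃ (v : A → ℤ) (ψ : J → Option A × Q × Q → ℤ), 0 ≤ v ∧ 0 < v i ∧ (∀ j, 0 ≤ ψ j) ∧
      (∀ j e, φ j e = 0 → ψ j e = 0) ∧
      (∀ j, ν j → ∀ w, (of nv)ᵀ w ⬝ᵥ ψ j = Sum.elim (0 : Q → ℤ) v w) ∧ ∀ j, h j ⬝ᵥ v ≤ 0 := by
  obtain ⟨ζ, k1, -, k3, k4, k5⟩ := approx_kernel (mb_tot (Q := Q) ν h Δ hh)
    (Sum.elim (cf ℚ x) (Sum.elim (fun c => φ c.1 c.2) fun j => max (-(h j ⬝ᵥ x : ℤ) : ℚ) 0))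
    (by
      rintro (a | c | j)
      · exact Int.cast_nonneg (hx a)
      · exact h0 _ _
      · exact le_max_right _ _) (.inl i) (by
      refine lt_of_le_of_lt ?_ (show _ < cf ℚ x i from Int.cast_lt.mpr hi)
      rw [Int.cast_natCast, Nat.cast_mul]
      refine mul_le_mul_of_nonneg_left ?_ (by positivity)
      rw [Fintype.sum_sum_type, Fintype.sum_prod_type, ← Finset.sum_add_distrib]
      refine (Finset.sum_le_card_nsmul _ _ (ρ + ρ : ℚ) fun j _ => add_le_add ?_ ?_).trans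
        (le_of_eq (by simp; ring))
      · simp only [tot_inl]
        by_cases hj : ν j
        · simp only [hj, if_true]
          exact h1 j hj
        · simp [hj]
      · rw [tot_inr]
        have a1 : ((h j ⬝ᵥ x : ℤ) : ℚ) ≤ ρ := by exact_mod_cast h2 j
        change |cf ℚ (h j) ⬝ᵥ cf ℚ x + max (-(h j ⬝ᵥ x : ℤ) : ℚ) 0| ≤ ρ
        rw [cf_dot, abs_le]
        have : (0 : ℚ) ≤ ρ := by positivity
        rcases le_total (-(h j ⬝ᵥ x : ℤ) : ℚ) 0 with h | h
        · rw [max_eq_right h]; constructor <;> linarith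
        · rw [max_eq_left h]; constructor <;> linarith)
  have k6 : ∀ r, cf ℚ (tot ν h r) ⬝ᵥ cf ℚ ζ = 0 := fun r => by rw [cf_dot, k4, Int.cast_zero]
  refine ⟨fun a => ζ (.inl a), fun j e => ζ (.inr (.inl (j, e))), fun a => k1 _, k5,
    fun j e => k1 _, fun j e h => k3 _ h, fun j hj w => ?_, fun j => ?_⟩
  · have := k6 (.inl (j, w))
    rw [tot_inl, if_pos hj, sub_eq_zero] at this
    apply Int.cast_injective (α := ℚ)
    rw [← cf_dot]
    refine this.trans ?_
    cases w <;> simp [cf]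
  · have := k6 (.inr j)
    rw [tot_inr] at this
    have a1 : (0 : ℚ) ≤ cf ℚ ζ (.inr (.inr j)) := Int.cast_nonneg (k1 _)
    have a2 : ((h j ⬝ᵥ fun a => ζ (.inl a) : ℤ) : ℚ) ≤ 0 := by
      rw [← cf_dot]
      exact (eq_neg_of_add_eq_zero_left this).trans_le (neg_nonpos.mpr a1)
    exact_mod_cast a2

end Pool.Agent.Lib.MP_a0040c_lc
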