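import Pool.Agent.Lib.MP_a0040c_lc.Net

set_option linter.unusedSectionVars false

namespace Pool.Agent.Lib.MP_a0040c_lc

open Finset Matrix

variable {Q A : Type} [DecidableEq Q] [DecidableEq A] [Fintype Q] [Fintype A] {M : GFA Q A}

/-- extended vectors of the transitions inside `K` -/
def GK (M : GFA Q A) (K : Finset Q) : Set (Q ⊕ A → ℤ) :=
  {c | ∃ o p q, p ∈ K ∧ q ∈ K ∧ q ∈ M.δ p o ∧ c = nv (o, p, q)}

lemma bd_self (q : Q) : bd (q, q) = 0 := by simp [bd]

lemma bd_add (p q r : Q) : bd (p, q) + bd (q, r) = bd (p, r) := by simp [bd]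

lemma elim_add (a a' : Q → ℤ) (b b' : A → ℤ) :
    Sum.elim a b + Sum.elim a' b' = Sum.elim (a + a') (b + b') := by
  funext x; cases x <;> rfl

lemma Walk.gk {p q K l x} (h : Walk M p K l x q) {K0 : Finset Q} (hK : K ⊆ K0) :
    Sum.elim (bd (p, q)) x ∈ AddSubmonoid.closure (GK M K0) := by
  induction h with
  | nil q => rw [bd_self, Sum.elim_zero_zero]; exact zero_mem _
  | @cons q p r a K l x hs hw ih =>
    rw [← bd_add q p r, ← elim_add]
    refine add_mem (AddSubmonoid.subset_closure ?_) (ih ((subset_insert _ _).trans hK))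
    exact ⟨a, q, p, hK (mem_insert_self _ _), hK (mem_insert_of_mem hw.start_mem), hs, rfl⟩

lemma cyc_gk {K : Finset Q} {N : ℕ} {y : A → ℤ} (h : y ∈ AddSubmonoid.closure (Cyc M K N)) :
    Sum.elim (0 : Q → ℤ) y ∈ AddSubmonoid.closure (GK M K) := by
  induction h using AddSubmonoid.closure_induction with
  | mem c hc =>
    obtain ⟨r, K', l, h1, -, h2⟩ := hc
    simpa [bd_self] using h2.gk h1
  | zero => rw [Sum.elim_zero_zero]; exact zero_mem _
  | add x y _ _ hx hy => simpa [elim_add] using add_mem hx hy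

lemma Walk.closed_mem {s K' l c} (h : Walk M s K' l c s) {K : Finset Q} (hK : K' ⊆ K) :
    c ∈ AddSubmonoid.closure (Cyc M K (Fintype.card Q)) := by
  obtain ⟨K2, l2, x2, h1, h2, h3, h4⟩ := h.simple
  rw [← add_sub_cancel x2 c]
  refine add_mem (AddSubmonoid.subset_closure ⟨s, K2, l2, h1.trans hK, ?_, h3⟩)
    (AddSubmonoid.closure_mono (Cyc.mono hK (card_le_univ _)) h4)
  have := card_le_univ K2
  omega

lemma flow_aux (K : Finset Q) (m : ℕ) : ∀ Z : Multiset (Q ⊕ A → ℤ), Z.card = m →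
    (∀ c ∈ Z, c ∈ GK M K) →
    (Z.sum ∘ Sum.inl = 0 → Z.sum ∘ Sum.inr ∈ AddSubmonoid.closure (Cyc M K (Fintype.card Q))) ∧
    ∀ p q, p ∈ K → Z.sum ∘ Sum.inl = bd (p, q) → ∃ K' l x, K' ⊆ K ∧ Walk M p K' l x q ∧
      Z.sum ∘ Sum.inr - x ∈ AddSubmonoid.closure (Cyc M K (Fintype.card Q)) := by
  induction m with
  | zero =>
    intro Z hZ _
    obtain rfl := Multiset.card_eq_zero.mp hZ
    refine ⟨fun _ => zero_mem _, fun p q hp h => ?_⟩
    obtain rfl : p = q := by
      by_contra hne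
      simpa [bd, hne] using congrFun h p
    exact ⟨{p}, 0, 0, by simpa using hp, .nil p, by simp⟩
  | succ m ih =>
    intro Z hZ hG
    have step : ∀ o p q, nv (o, p, q) ∈ Z → p ∈ K → q ∈ K → q ∈ M.δ p o → ∀ r,
        Z.sum ∘ Sum.inl = bd (p, r) → ∃ K' l x, K' ⊆ K ∧ Walk M p K' l x r ∧
        Z.sum ∘ Sum.inr - x ∈ AddSubmonoid.closure (Cyc M K (Fintype.card Q)) := by
      intro o p q hc hp hq hs r hr
      obtain ⟨Z', rfl⟩ := Multiset.exists_cons_of_mem hc
      rw [Multiset.sum_cons] at hr ⊢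
      obtain ⟨K', l, x, h1, h2, h3⟩ := (ih Z' (by simpa using hZ) fun c hc =>
        hG c (Multiset.mem_cons_of_mem hc)).2 q r hq (by
          rw [← bd_add p q r] at hr
          exact add_left_cancel (a := bd (p, q)) hr)
      refine ⟨_, _, _, insert_subset hp h1, .cons hs h2, ?_⟩
      convert h3 using 1
      exact add_sub_add_left_eq_sub _ _ _
    have hA : Z.sum ∘ Sum.inl = 0 →
        Z.sum ∘ Sum.inr ∈ AddSubmonoid.closure (Cyc M K (Fintype.card Q)) := by
      intro h0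
      obtain ⟨c, hc⟩ := Multiset.card_pos_iff_exists_mem.mp (show 0 < Z.card by omega)
      obtain ⟨o, p, q, hp, hq, hs, rfl⟩ := hG c hc
      obtain ⟨K', l, x, h1, h2, h3⟩ := step o p q hc hp hq hs p (by rw [h0, bd_self])
      simpa using add_mem h3 (h2.closed_mem h1)
    refine ⟨hA, fun p q hp h => ?_⟩
    by_cases hpq : p = q
    · subst hpq
      exact ⟨{p}, 0, 0, by simpa using hp, .nil p, by simpa using hA (by rw [h, bd_self])⟩
    · obtain ⟨c, hc, hneg⟩ : ∃ c ∈ Z, c (.inl p) < 0 := by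
        by_contra hcon
        push Not at hcon
        have a1 := congrFun h p
        have a2 := Multiset.sum_nonneg (s := Z.map fun c => c (.inl p)) (by simpa using hcon)
        have a3 : (Z.map fun c => c (.inl p)).sum = Z.sum (.inl p) :=
          (map_multiset_sum (Pi.evalAddMonoidHom (fun _ : Q ⊕ A => ℤ) (.inl p)) Z).symm
        simp [bd, hpq] at a1
        omega
      obtain ⟨o, p', q', hp', hq', hs, rfl⟩ := hG c hc
      obtain rfl : p = p' := by
        by_contra hne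
        simp only [nv, bd, Sum.elim_inl, Pi.sub_apply, Pi.single_apply, hne, if_false] at hneg
        split_ifs at hneg <;> omega
      exact step o p q' hc hp' hq' hs q h

lemma flow {K : Finset Q} {y : A → ℤ} (h : Sum.elim (0 : Q → ℤ) y ∈ AddSubmonoid.closure (GK M K)) :
    y ∈ AddSubmonoid.closure (Cyc M K (Fintype.card Q)) := by
  obtain ⟨Z, h1, h2⟩ := AddSubmonoid.exists_multiset_of_mem_closure h
  have := (flow_aux K _ Z rfl h1).1 (by rw [h2]; rfl)
  rwa [h2] at this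

/-- a skeleton with an explicit description of all its extensions -/
lemma skel {x : A → ℤ} (hx : x ∈ PI M) : ∃ (K : Finset Q) (b : A → ℤ) (r : Q), 0 ≤ b ∧
    (∀ j, b j ≤ (Fintype.card Q : ℤ) ^ 2) ∧
    Sum.elim (bd (M.q0, r)) b ∈ AddSubmonoid.closure (GK M K) ∧
    Sum.elim (0 : Q → ℤ) (x - b) ∈ AddSubmonoid.closure (GK M K) ∧
    ∀ y, Sum.elim (0 : Q → ℤ) (y - b) ∈ AddSubmonoid.closure (GK M K) → y ∈ PI M := by
  obtain ⟨K, b, h0, h1, h2, r, hr, l, hw⟩ := decomp hx
  refine ⟨K, b, r, h0, h1, hw.gk Subset.rfl, cyc_gk h2, fun y hy => ?_⟩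
  obtain ⟨l', hw'⟩ := Walk.pump (flow hy) Subset.rfl hw
  rw [add_sub_cancel] at hw'
  exact ⟨r, hr, K, l', hw'⟩

end Pool.Agent.Lib.MP_a0040c_lc
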