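import Pool.Agent.Lib.MP_a0040c_lc.Tests

set_option linter.unusedSectionVars false

namespace Pool.Agent.Lib.MP_a0040c_lc

open Finset Pointwise Matrix

/-- roles -/
abbrev Rl (r : ℕ) := Fin 4 ⊕ (Fin (r + 1) × Bool)

/-- weights of roles -/
def wt (r m : ℕ) : Rl r → ℤ
  | .inl a => ![-(m : ℤ) ^ r, -1, 1, 0] a
  | .inr (j, true) => (m : ℤ) ^ (j : ℕ)
  | .inr (j, false) => -(m : ℤ) ^ (j : ℕ)

lemma dot_cm {A T : Type} [DecidableEq A] [Fintype A] [DecidableEq T] [Fintype T] (w : T → ℤ)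
    (ρ : A → T) (x : A → ℤ) : w ⬝ᵥ cm ρ x = ∑ a, w (ρ a) * x a := by
  change w ⬝ᵥ (∑ a, _) = _
  rw [dotProduct_sum]
  simp

/-- unit vector of a role -/
def ur {r : ℕ} (a : Rl r) : Rl r → ℤ := Pi.single a 1

/-- generators of the multiplier gadget -/
def gens (r m : ℕ) : Set (Rl r → ℤ) :=
  ({ur (.inl 0) + ur (.inr (Fin.last r, true)), ur (.inl 1) + ur (.inl 2),
    ur (.inl 2) + ur (.inr (0, false)), ur (.inl 2), ur (.inl 3)} ∪
    ⋃ j : Fin (r + 1), {ur (.inr (j, true)) + ur (.inr (j, false))}) ∪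
    ⋃ j : Fin r, {m • ur (.inr (j.castSucc, true)) + ur (.inr (j.succ, false))}

lemma nj_gens (r m : ℕ) : NJ (gens r m) (r * (2 * m + 10) + 29) := by
  have s : ∀ a : Rl r, NJ {ur a} 2 := fun a => NJ.single a
  have h1 := (((s (.inl 0)).singleton_add (s (.inr (Fin.last r, true)))).insert
    (((s (.inl 1)).singleton_add (s (.inl 2))).insert
    (((s (.inl 2)).singleton_add (s (.inr (0, false)))).insert ((s (.inl 2)).insert (s (.inl 3))))))
  have h2 := NJ.iUnion (fun j : Fin (r + 1) => {ur (.inr (j, true)) + ur (.inr (j, false))}) _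
    fun j => (s _).singleton_add (s _)
  have h3 := NJ.iUnion
    (fun j : Fin r => {m • ur (.inr (j.castSucc, true)) + ur (.inr (j.succ, false))}) _
    fun j => ((s _).nsmul m).singleton_add (s _)
  refine ((h1.union h2).union h3).mono (le_of_eq ?_)
  simp only [Fintype.card_fin]
  ring

lemma wt_gens (r m : ℕ) {g : Rl r → ℤ} (hg : g ∈ AddSubmonoid.closure (gens r m)) :
    0 ≤ wt r m ⬝ᵥ g := by
  induction hg using AddSubmonoid.closure_induction with
  | mem x hx =>
    rcases hx with (hx | hx) | hx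
    · rcases hx with rfl | rfl | rfl | rfl | rfl <;> simp [ur, wt]
    · obtain ⟨j, rfl⟩ := Set.mem_iUnion.mp hx
      simp [ur, wt]
    · obtain ⟨j, rfl⟩ := Set.mem_iUnion.mp hx
      rw [dotProduct_add, dotProduct_smul]
      simp [ur, wt, pow_succ']
  | zero => simp
  | add x y _ _ hx hy => rw [dotProduct_add]; exact add_nonneg hx hy

lemma gens_level (r m : ℕ) (hm : 1 ≤ m) (θ : ℤ) (j : Fin (r + 1)) : ∀ s : ℤ, 0 ≤ s →
    s * (m : ℤ) ^ (j : ℕ) ≤ θ → s • ur (.inr (j, false)) +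
      ∑ i ∈ univ.filter (· < j), θ • (ur (.inr (i, true)) + ur (.inr (i, false))) +
      (s * (m : ℤ) ^ (j : ℕ)) • ur (.inl 2) ∈ AddSubmonoid.closure (gens r m) := by
  induction j using Fin.induction with
  | zero =>
    intro s hs _
    have := zsmul_mem_closure (AddSubmonoid.subset_closure (s := gens r m)
      (a := ur (.inl 2) + ur (.inr (0, false))) (by simp [gens])) hs
    simpa [add_comm] using this
  | succ j ih =>
    intro s hs hθ
    have hm' : (1 : ℤ) ≤ m := by exact_mod_cast hm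
    have e : s * (m : ℤ) ^ (j.succ : ℕ) = s * m * (m : ℤ) ^ (j.castSucc : ℕ) := by
      simp [pow_succ]; ring
    have hp : (1 : ℤ) ≤ (m : ℤ) ^ (j.castSucc : ℕ) := one_le_pow₀ hm'
    have hsm : 0 ≤ s * m := by positivity
    have h1 := ih (s * m) hsm (e ▸ hθ)
    have h2 := zsmul_mem_closure (AddSubmonoid.subset_closure (s := gens r m)
      (a := m • ur (.inr (j.castSucc, true)) + ur (.inr (j.succ, false)))
      (Or.inr (Set.mem_iUnion.mpr ⟨j, rfl⟩))) hs
    have h3 := zsmul_mem_closure (AddSubmonoid.subset_closure (s := gens r m)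
      (a := ur (.inr (j.castSucc, true)) + ur (.inr (j.castSucc, false)))
      (Or.inl (Or.inr (Set.mem_iUnion.mpr ⟨_, rfl⟩)))) (c := θ - s * m) (by nlinarith)
    have hf : univ.filter (· < j.succ) = insert j.castSucc (univ.filter (· < j.castSucc)) := by
      ext i
      simp only [mem_filter, mem_univ, true_and, mem_insert, Fin.lt_def, Fin.ext_iff, Fin.val_succ,
        Fin.val_castSucc]
      omega
    rw [hf, Finset.sum_insert (by simp), e]
    convert add_mem (add_mem h1 h2) h3 using 1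
    rw [← natCast_zsmul]
    module

lemma gad0 (r m : ℕ) (hm : 1 ≤ m) : ∃ G : Set (Rl r → ℤ), NJ G (r * (2 * m + 10) + 32) ∧
    (∀ y ∈ G, 1 ≤ wt r m ⬝ᵥ y) ∧ ∀ y, 0 ≤ y → (∀ c, y (.inr c) = y (.inl 2)) →
      y (.inl 1) + (m : ℤ) ^ r * y (.inl 0) < y (.inl 2) → y ∈ G := by
  refine ⟨{ur (.inl 2)} + (AddSubmonoid.closure (gens r m) : Set (Rl r → ℤ)),
    ((NJ.single _).add (nj_gens r m).star).mono (by omega), ?_, ?_⟩
  · rintro _ ⟨_, rfl, g, hg, rfl⟩
    have := wt_gens r m hg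
    simp [ur, wt]
    exact this
  · intro y hy hc hlt
    have hm' : (1 : ℤ) ≤ m := by exact_mod_cast hm
    have hp : (1 : ℤ) ≤ (m : ℤ) ^ r := one_le_pow₀ hm'
    have a0 : 0 ≤ y (.inl 0) := hy _
    have a1 : 0 ≤ y (.inl 1) := hy _
    have a3 : 0 ≤ y (.inl 3) := hy _
    have sub : ∀ g ∈ gens r m, ∀ c : ℤ, 0 ≤ c → c • g ∈ AddSubmonoid.closure (gens r m) :=
      fun g hg c hc => zsmul_mem_closure (AddSubmonoid.subset_closure hg) hc
    have h1 := gens_level r m hm (y (.inl 2)) (Fin.last r) _ a0 (by simp; nlinarith)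
    have h2 := sub (ur (.inl 0) + ur (.inr (Fin.last r, true))) (by simp [gens]) _ a0
    have h3 := sub (ur (.inl 1) + ur (.inl 2)) (by simp [gens]) _ a1
    have h4 := sub (ur (.inr (Fin.last r, true)) + ur (.inr (Fin.last r, false)))
      (Or.inl (Or.inr (Set.mem_iUnion.mpr ⟨_, rfl⟩))) (y (.inl 2) - y (.inl 0)) (by nlinarith)
    have h5 := sub (ur (.inl 2)) (by simp [gens])
      (y (.inl 2) - 1 - y (.inl 1) - (m : ℤ) ^ r * y (.inl 0)) (by omega)
    have h6 := sub (ur (.inl 3)) (by simp [gens]) _ a3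
    refine ⟨_, rfl, _, add_mem (add_mem (add_mem (add_mem (add_mem h1 h2) h3) h4) h5) h6, ?_⟩
    funext a
    rcases a with a | ⟨i, b⟩
    · fin_cases a <;> simp [ur, Finset.sum_apply]
      ring
    · rw [hc]
      by_cases hi : i = Fin.last r
      · subst hi
        cases b <;> simp [ur, Finset.sum_apply, Pi.single_apply]
      · have : i < Fin.last r := Fin.lt_last_iff_ne_last.mpr hi
        cases b <;> simp [ur, Finset.sum_apply, Pi.single_apply, hi, this]

end Pool.Agent.Lib.MP_a0040c_lc
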