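import Pool.Agent.Lib.MP_a0040c_lc.Small

set_option linter.unusedSectionVars false

namespace Pool.Agent.Lib.MP_a0040c_lc

open Finset Matrix

variable {ι : Type} [Fintype ι] [DecidableEq ι]

lemma exists_int_multiple (d : ι → ℚ) : ∃ (N : ℕ) (v : ι → ℤ), 0 < N ∧ cq v = (N : ℚ) • d := by
  refine ⟨∏ j, (d j).den, fun j => (d j).num * ∏ i ∈ univ.erase j, ((d i).den : ℤ),
    Finset.prod_pos fun j _ => (d j).den_pos, ?_⟩
  funext j
  simp only [cq, Pi.smul_apply, smul_eq_mul]
  rw [← Finset.mul_prod_erase univ _ (mem_univ j)]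
  push_cast
  have := Rat.mul_den_eq_num (d j)
  rw [← this]; ring

lemma vertex_lemma (D : ℕ) (hD : 1 ≤ D) (L : ℤ) (hL : 0 ≤ L) (x : ι → ℤ) (hx : 0 ≤ x) (i : ι)
    (hi : L * (((Fintype.card ι + 1) * D) ^ (Fintype.card ι) : ℕ) < x i) :
    ∃ v : ι → ℤ, 0 < v i ∧ ∀ h : ι → ℤ, (∀ j, |h j| ≤ D) → x ⬝ᵥ h ≤ L → v ⬝ᵥ h ≤ 0 := by
  classical
  by_contra hcon
  set H : Finset (ι → ℤ) :=
    (Fintype.piFinset fun _ => Icc (-(D : ℤ)) D).filter fun h => x ⬝ᵥ h ≤ L with hH
  have memH : ∀ h, h ∈ H ↔ (∀ j, |h j| ≤ D) ∧ x ⬝ᵥ h ≤ L := by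
    intro h; simp [hH, Fintype.mem_piFinset, abs_le]
  have hrat : ∀ d : ι → ℚ, (∀ h ∈ H, d ⬝ᵥ cq h ≤ 0) → d i ≤ 0 := by
    intro d hd
    by_contra hdi
    push Not at hdi
    obtain ⟨N, v, hN, hv⟩ := exists_int_multiple d
    have hN' : (0 : ℚ) < N := by exact_mod_cast hN
    apply hcon
    refine ⟨v, ?_, fun h h1 h2 => ?_⟩
    · have := congrFun hv i
      simp only [cq, Pi.smul_apply, smul_eq_mul] at this
      have h3 : (0 : ℚ) < v i := by rw [this]; positivity
      exact_mod_cast h3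
    · have h3 := hd h ((memH h).mpr ⟨h1, h2⟩)
      have : ((v ⬝ᵥ h : ℤ) : ℚ) ≤ 0 := by
        rw [← cq_dot, hv, smul_dotProduct, smul_eq_mul]
        exact mul_nonpos_of_nonneg_of_nonpos hN'.le h3
      exact_mod_cast this
  let good : (ι → ℚ) → Prop := fun y => (x i : ℚ) ≤ y i ∧ ∀ h ∈ H, y ⬝ᵥ cq h ≤ L
  let tight : (ι → ℚ) → Finset (ι → ℤ) := fun y => H.filter fun h => y ⬝ᵥ cq h = L
  have hgx : good (cq x) := ⟨le_rfl, fun h hh => by
    rw [cq_dot]; exact_mod_cast ((memH h).mp hh).2⟩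
  obtain ⟨y, hy, hmax⟩ : ∃ y, good y ∧ ∀ z, good z → (tight z).card ≤ (tight y).card := by
    have hP : ∃ m, ∃ y, good y ∧ H.card - (tight y).card = m := ⟨_, _, hgx, rfl⟩
    obtain ⟨y, hy, hm⟩ := Nat.find_spec hP
    refine ⟨y, hy, fun z hz => ?_⟩
    have h1 := Nat.find_min' hP ⟨z, hz, rfl⟩
    have h2 : (tight z).card ≤ H.card := card_filter_le _ _
    have h3 : (tight y).card ≤ H.card := card_filter_le _ _
    omega
  have hmove : ∀ d : ι → ℚ, (∀ h ∈ tight y, d ⬝ᵥ cq h = 0) → 0 ≤ d i →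
      ∀ h ∈ H, d ⬝ᵥ cq h ≤ 0 := by
    intro d hd hdi
    by_contra hc
    push Not at hc
    have hne : (H.filter fun h => 0 < d ⬝ᵥ cq h).Nonempty := by
      obtain ⟨h, h1, h2⟩ := hc; exact ⟨h, mem_filter.mpr ⟨h1, h2⟩⟩
    obtain ⟨h0, hh0, hmin⟩ := exists_min_image _
      (fun h => (L - y ⬝ᵥ cq h) / (d ⬝ᵥ cq h)) hne
    obtain ⟨hh0H, hh0p⟩ := mem_filter.mp hh0
    set t := (L - y ⬝ᵥ cq h0) / (d ⬝ᵥ cq h0) with ht
    have ht0 : 0 ≤ t := div_nonneg (by linarith [hy.2 h0 hh0H]) hh0p.le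
    have hz : good (y + t • d) := by
      refine ⟨?_, fun h hh => ?_⟩
      · have := hy.1
        simp only [Pi.add_apply, Pi.smul_apply, smul_eq_mul]
        nlinarith
      · rw [add_dotProduct, smul_dotProduct, smul_eq_mul]
        by_cases hp : 0 < d ⬝ᵥ cq h
        · have := hmin h (mem_filter.mpr ⟨hh, hp⟩)
          rw [le_div_iff₀ hp] at this
          linarith
        · have := hy.2 h hh
          push Not at hp
          nlinarith
    have hsub : insert h0 (tight y) ⊆ tight (y + t • d) := by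
      intro h hh
      rcases mem_insert.mp hh with rfl | hh
      · refine mem_filter.mpr ⟨hh0H, ?_⟩
        rw [add_dotProduct, smul_dotProduct, smul_eq_mul, ht, div_mul_cancel₀ _ hh0p.ne']; ring
      · refine mem_filter.mpr ⟨(mem_filter.mp hh).1, ?_⟩
        rw [add_dotProduct, smul_dotProduct, hd h hh, (mem_filter.mp hh).2]; simp
    have hnot : h0 ∉ tight y := fun hh => by have := hd h0 hh; linarith
    have h1 := card_le_card hsub
    rw [card_insert_of_notMem hnot] at h1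
    have := hmax _ hz
    omega
  have hzero : ∀ d : ι → ℚ, (∀ h ∈ tight y, d ⬝ᵥ cq h = 0) → d = 0 := by
    have aux : ∀ d : ι → ℚ, (∀ h ∈ tight y, d ⬝ᵥ cq h = 0) → 0 ≤ d i → d = 0 := by
      intro d hd hdi
      have h1 := hmove d hd hdi
      have h2 := hrat d h1
      have h3 := hmove (-d) (fun h hh => by simp [hd h hh]) (by simpa using h2)
      funext j
      have hj : (-Pi.single j 1 : ι → ℤ) ∈ H := by
        rw [memH]
        refine ⟨fun k => ?_, ?_⟩
        · by_cases hk : k = j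
          · subst hk; simpa using hD
          · simp [hk]
        · have := hx j
          simp at this ⊢; omega
      have e : cq (-Pi.single j 1 : ι → ℤ) = -Pi.single j 1 := by
        funext k; by_cases hk : k = j <;> simp [cq, hk]
      have h4 := h1 _ hj
      have h5 := h3 _ hj
      rw [e] at h4 h5
      simp at h4 h5 ⊢
      linarith
    intro d hd
    rcases le_total 0 (d i) with h | h
    · exact aux d hd h
    · have := aux (-d) (fun h hh => by simp [hd h hh]) (by simpa using h)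
      simpa using this
  have hB : (0 : ℤ) ≤ L * (((Fintype.card ι + 1) * D) ^ (Fintype.card ι) : ℕ) := by positivity
  have hxi : (0 : ℚ) < x i := by exact_mod_cast lt_of_le_of_lt hB hi
  obtain ⟨w, hw0, hwb, hwR⟩ := small_kernel (ι := Option ι)
    {ρ | ∃ h ∈ tight y, ρ = fun o => o.elim (-1) h} D hD
    (by
      rintro ρ ⟨h, hh, rfl⟩ o
      cases o with
      | none => simpa using hD
      | some j => exact ((memH h).mp (mem_filter.mp hh).1).1 j)
    (fun o => o.elim (L : ℚ) y)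
    (by
      intro h0
      have := congrFun h0 (some i)
      simp at this
      linarith [hy.1])
    (by
      rintro ρ ⟨h, hh, rfl⟩
      have := (mem_filter.mp hh).2
      simp only [dotProduct, cq, Fintype.sum_option, Option.elim] at this ⊢
      rw [← this]
      push_cast
      rw [Finset.sum_congr rfl fun j _ => mul_comm (y j) _]; ring)
  have hw1 : ∀ h ∈ tight y, (fun j => (w (some j) : ℚ)) ⬝ᵥ cq h = w none := by
    intro h hh
    have := hwR _ ⟨h, hh, rfl⟩
    simp only [dotProduct, Fintype.sum_option, Option.elim] at this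
    have h2 : ∑ j, h j * w (some j) = w none := by linarith
    simp only [dotProduct, cq]
    rw [← h2]; push_cast
    exact Finset.sum_congr rfl fun j _ => mul_comm _ _
  have hs : w none ≠ 0 := by
    intro h0
    have := hzero _ (fun h hh => by rw [hw1 h hh, h0]; simp)
    apply hw0
    funext o
    cases o with
    | none => exact h0
    | some j => have := congrFun this j; simpa using this
  have hd := hzero ((w none : ℚ) • y - (L : ℚ) • fun j => (w (some j) : ℚ)) (fun h hh => by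
    rw [sub_dotProduct, smul_dotProduct, smul_dotProduct, hw1 h hh, (mem_filter.mp hh).2]
    simp [mul_comm])
  have hd1 := congrFun hd i
  simp only [Pi.sub_apply, Pi.smul_apply, smul_eq_mul, Pi.zero_apply] at hd1
  have hb := hwb (some i)
  rw [Fintype.card_option, Nat.add_sub_cancel] at hb
  set B : ℕ := ((Fintype.card ι + 1) * D) ^ (Fintype.card ι) with hBdef
  have h1 : (1 : ℚ) ≤ |(w none : ℚ)| := by
    have : (1 : ℤ) ≤ |w none| := Int.one_le_abs hs
    exact_mod_cast this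
  have h2 : |(w none : ℚ)| * y i = L * |(w (some i) : ℚ)| := by
    have hL' : (0 : ℚ) ≤ L := by exact_mod_cast hL
    have hyi : 0 ≤ y i := by linarith [hy.1]
    rw [← abs_of_nonneg hyi, ← abs_mul, ← abs_of_nonneg hL', ← abs_mul]
    congr 1; linarith
  have h3 : |(w (some i) : ℚ)| ≤ B := by exact_mod_cast hb
  have h4 : (L : ℚ) * B < x i := by exact_mod_cast hi
  have hL' : (0 : ℚ) ≤ L := by exact_mod_cast hL
  have hyi := hy.1
  nlinarith

/-- rational independence of a finite set of integer vectors -/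
def Indep (Q : Finset (ι → ℤ)) : Prop :=
  ∀ c ∈ Q, cq c ∉ Submodule.span ℚ (cq '' (Q.erase c : Set (ι → ℤ)))

lemma small_dependency (Q : Finset (ι → ℤ)) (n : ℕ) (hn : 1 ≤ n) (hQ : ∀ c ∈ Q, ∀ j, |c j| ≤ n)
    (hdep : ¬ Indep Q) :
    ∃ z : (ι → ℤ) → ℤ, (∀ c, |z c| ≤ (((Fintype.card ι + 1) * n) ^ (Fintype.card ι) : ℕ)) ∧
      (∀ c ∉ Q, z c = 0) ∧ (∃ c ∈ Q, 0 < z c) ∧ ∑ c ∈ Q, z c • c = 0 := by
  classical
  have main : ∀ Q' : Finset (ι → ℤ), Q' ⊆ Q → Q'.card ≤ Fintype.card ι + 1 →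
      ¬ LinearIndependent ℚ (fun c : Q' => cq c.1) →
      ∃ z : (ι → ℤ) → ℤ, (∀ c, |z c| ≤ (((Fintype.card ι + 1) * n) ^ (Fintype.card ι) : ℕ)) ∧
      (∀ c ∉ Q', z c = 0) ∧ (∃ c ∈ Q', z c ≠ 0) ∧ ∑ c ∈ Q', z c • c = 0 := by
    intro Q' hsub hcard hli
    rw [Fintype.not_linearIndependent_iff] at hli
    obtain ⟨g, hg, c0, hc0⟩ := hli
    obtain ⟨h, hh0, hhb, hhR⟩ := small_kernel (ι := Q') {ρ | ∃ j, ρ = fun c => c.1 j} n hn
      (by rintro ρ ⟨j, rfl⟩ c; exact hQ c.1 (hsub c.2) j) g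
      (by rintro rfl; simp at hc0)
      (by
        rintro ρ ⟨j, rfl⟩
        have := congrFun hg j
        simp only [Finset.sum_apply, Pi.smul_apply, smul_eq_mul, Pi.zero_apply] at this
        simp only [dotProduct]
        rw [← this]
        exact Finset.sum_congr rfl fun c _ => mul_comm _ _)
    refine ⟨fun c => if hc : c ∈ Q' then h ⟨c, hc⟩ else 0, fun c => ?_, fun c hc => by simp [hc],
      ?_, ?_⟩
    · by_cases hc : c ∈ Q'
      · simp only [hc, dite_true]
        refine (hhb _).trans ?_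
        rw [Fintype.card_coe]
        norm_cast
        calc (Q'.card * n) ^ (Q'.card - 1) ≤ ((Fintype.card ι + 1) * n) ^ (Q'.card - 1) := by
              gcongr
          _ ≤ _ := Nat.pow_le_pow_right (by positivity) (by omega)
      · simp [hc]
    · by_contra hc
      push Not at hc
      apply hh0
      funext c
      simpa [c.2] using hc c.1 c.2
    · funext j
      have := hhR _ ⟨j, rfl⟩
      simp only [dotProduct] at this
      rw [← Finset.sum_coe_sort]
      simp only [Finset.sum_apply, Pi.smul_apply, smul_eq_mul, Pi.zero_apply]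
      rw [← this]
      exact Finset.sum_congr rfl fun c _ => by simp [c.2, mul_comm]
  have hex : ∃ Q' : Finset (ι → ℤ), Q' ⊆ Q ∧ Q'.card ≤ Fintype.card ι + 1 ∧
      ¬ LinearIndependent ℚ (fun c : Q' => cq c.1) := by
    by_cases hc : Q.card ≤ Fintype.card ι + 1
    · refine ⟨Q, Subset.rfl, hc, fun hli => hdep fun c hc hmem => ?_⟩
      have := (linearIndependent_iff_notMem_span.mp hli) ⟨c, hc⟩
      apply this
      refine Submodule.span_mono ?_ hmem
      rintro _ ⟨c', hc', rfl⟩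
      have hc'' := mem_erase.mp (mem_coe.mp hc')
      exact ⟨⟨c', hc''.2⟩, by simpa using hc''.1, rfl⟩
    · obtain ⟨Q', h1, h2⟩ := exists_subset_card_eq (n := Fintype.card ι + 1) (s := Q) (by omega)
      refine ⟨Q', h1, h2.le, fun hli => ?_⟩
      have := hli.fintype_card_le_finrank
      rw [Module.finrank_fintype_fun_eq_card, Fintype.card_coe] at this
      omega
  obtain ⟨Q', h1, h2, h3⟩ := hex
  obtain ⟨z, hz1, hz2, ⟨c0, hc0, hz3⟩, hz4⟩ := main Q' h1 h2 h3
  have hsum : ∑ c ∈ Q, z c • c = 0 := by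
    rw [← hz4]
    exact (Finset.sum_subset h1 fun c _ hc => by simp [hz2 c hc]).symm
  rcases lt_or_gt_of_ne hz3 with h | h
  · refine ⟨-z, by simpa using hz1, fun c hc => by simp [hz2 c fun h => hc (h1 h)],
      ⟨c0, h1 hc0, by simpa using h⟩, ?_⟩
    simp only [Pi.neg_apply, neg_smul, Finset.sum_neg_distrib, hsum, neg_zero]
  · exact ⟨z, hz1, fun c hc => hz2 c fun h => hc (h1 h), ⟨c0, h1 hc0, h⟩, hsum⟩

lemma normal_form (P : Finset (ι → ℤ)) (n : ℕ) (hn : 1 ≤ n) (hP : ∀ c ∈ P, ∀ j, |c j| ≤ n)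
    (l : (ι → ℤ) → ℤ) (hl : ∀ c, 0 ≤ l c) :
    ∃ l' : (ι → ℤ) → ℤ, (∀ c, 0 ≤ l' c) ∧ ∑ c ∈ P, l' c • c = ∑ c ∈ P, l c • c ∧
      Indep (P.filter fun c => ((((Fintype.card ι + 1) * n) ^ (Fintype.card ι) : ℕ) : ℤ) < l' c) := by
  classical
  set N : ℕ := ((Fintype.card ι + 1) * n) ^ (Fintype.card ι) with hN
  have hex : ∃ m, ∃ l' : (ι → ℤ) → ℤ, (∀ c, 0 ≤ l' c) ∧ ∑ c ∈ P, l' c • c = ∑ c ∈ P, l c • c ∧
      (P.filter fun c => (N : ℤ) < l' c).card = m := ⟨_, l, hl, rfl, rfl⟩
  obtain ⟨l', h1, h2, h3⟩ := Nat.find_spec hex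
  refine ⟨l', h1, h2, ?_⟩
  by_contra hdep
  set Q := P.filter fun c => (N : ℤ) < l' c with hQ
  obtain ⟨z, hz1, hz2, ⟨c0, hc0, hz3⟩, hz4⟩ := small_dependency Q n hn
    (fun c hc => hP c (mem_filter.mp hc).1) hdep
  have ht : ∃ t : ℕ, ∃ c ∈ Q, l' c - t * z c ≤ N := by
    refine ⟨(l' c0).toNat, c0, hc0, ?_⟩
    have := h1 c0
    rw [Int.toNat_of_nonneg this]
    nlinarith
  obtain ⟨c1, hc1, ht1⟩ := Nat.find_spec ht
  set t := Nat.find ht with htdef
  have ht0 : t ≠ 0 := by
    intro h0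
    rw [h0] at ht1
    have := (mem_filter.mp hc1).2
    simp at ht1; omega
  have hmin := Nat.find_min ht (m := t - 1) (by omega)
  push Not at hmin
  have hlt := Nat.find_min' hex (m := (P.filter fun c => (N : ℤ) < l' c - t * z c).card)
    ⟨fun c => l' c - t * z c, fun c => ?_, ?_, rfl⟩
  · have hsub : (P.filter fun c => (N : ℤ) < l' c - t * z c) ⊆ Q.erase c1 := by
      intro c hc
      obtain ⟨hcP, hc2⟩ := mem_filter.mp hc
      refine mem_erase.mpr ⟨?_, ?_⟩
      · rintro rfl; omega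
      · by_contra hcQ
        rw [hz2 c hcQ] at hc2
        exact hcQ (mem_filter.mpr ⟨hcP, by simpa using hc2⟩)
    have := card_le_card hsub
    rw [card_erase_of_mem hc1] at this
    have := card_pos.mpr ⟨c1, hc1⟩
    omega
  · by_cases hc : c ∈ Q
    · have h4 := hmin c hc
      have h5 := (abs_le.mp (hz1 c)).2
      rw [Nat.cast_sub (by omega)] at h4
      push_cast at h4 h5 ⊢
      nlinarith
    · simp [hz2 c hc, h1 c]
  · rw [← h2]
    simp only [sub_smul, Finset.sum_sub_distrib, mul_smul, ← Finset.smul_sum]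
    have : ∑ c ∈ P, z c • c = 0 := by
      rw [← hz4]
      exact (Finset.sum_subset (filter_subset _ _) fun c _ hc => by simp [hz2 c hc]).symm
    rw [this, smul_zero, sub_zero]

end Pool.Agent.Lib.MP_a0040c_lc
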