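import Pool.Agent.Lib.MP_a0040c_lc.Flow
import Pool.Agent.Lib.MP_a0040c_lc.Gadget

set_option linter.unusedSectionVars false

namespace Pool.Agent.Lib.MP_a0040c_lc

open Finset Matrix

variable {Q A : Type} [DecidableEq Q] [DecidableEq A] [Fintype Q] [Fintype A]

/-- boundary of an edge vector -/
def bdv : (Q × Q → ℤ) →+ (Q → ℤ) where
  toFun c := ∑ e, c e • bd e
  map_zero' := by simp
  map_add' x y := by simp [add_smul, Finset.sum_add_distrib]

lemma bdv_single (e : Q × Q) (c : ℤ) : bdv (Pi.single e c) = c • bd e := by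
  change ∑ e', _ = _
  rw [Finset.sum_eq_single e]
  · simp
  · intro b _ hb; simp [hb]
  · simp

lemma bdv_cm {T : Type} [Fintype T] [DecidableEq T] (ρ : T → Q × Q) (z : T → ℤ) :
    bdv (cm ρ z) = ∑ t, z t • bd (ρ t) := by
  change bdv (∑ t, _) = _
  rw [map_sum]
  simp [bdv_single]

lemma dot_cf_cm {T U : Type} [Fintype T] [DecidableEq T] [Fintype U] [DecidableEq U] (w : U → ℝ)
    (ρ : T → U) (z : T → ℤ) : w ⬝ᵥ cf ℝ (cm ρ z) = ∑ t, w (ρ t) * z t := by
  have : cf ℝ (cm ρ z) = ∑ t, Pi.single (ρ t) (z t : ℝ) := by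
    funext u
    simp only [cf, cm_apply, Finset.sum_apply, Finset.sum_filter, Pi.single_apply]
    push_cast
    exact Finset.sum_congr rfl fun t _ => by simp [eq_comm]
  rw [this, dotProduct_sum]
  simp

open Classical in
/-- number of items on the edge `μ.1` which may be moved to `μ.2` -/
noncomputable def mcnt (al : A → Q × Q → Prop) (Φ : Multiset (A × Q × Q))
    (μ : (Q × Q) × Q × Q) : ℕ :=
  Φ.countP fun x => x.2 = μ.1 ∧ al x.1 μ.2

lemma mcnt_cons (al : A → Q × Q → Prop) (x : A × Q × Q) (Φ : Multiset (A × Q × Q))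
    (μ : (Q × Q) × Q × Q) : mcnt al Φ μ ≤ mcnt al (x ::ₘ Φ) μ ∧
      mcnt al (x ::ₘ Φ) μ ≤ mcnt al Φ μ + 1 := by
  simp only [mcnt, Multiset.countP_cons]
  split_ifs <;> simp

lemma mcnt_le (al : A → Q × Q → Prop) (Φ : Multiset (A × Q × Q)) (μ : (Q × Q) × Q × Q) :
    mcnt al Φ μ ≤ (Φ.map Prod.snd).count μ.1 := by
  induction Φ using Multiset.induction_on with
  | empty => simp [mcnt]
  | cons x Φ ih =>
    simp only [mcnt, Multiset.countP_cons, Multiset.map_cons, Multiset.count_cons] at ih ⊢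
    by_cases h : μ.1 = x.2
    · split_ifs <;> omega
    · simpa [h, Ne.symm h] using ih

lemma moves (al : A → Q × Q → Prop) (D0 : Multiset (Q × Q)) (b : ℕ) (hb : ∀ e, D0.count e ≤ b)
    (Z : Multiset ((Q × Q) × Q × Q)) : ∀ Φ : Multiset (A × Q × Q), (∀ x ∈ Φ, al x.1 x.2) →
    D0 ≤ Φ.map Prod.snd → (∀ μ ∈ Z, Z.card + b ≤ mcnt al Φ μ) →
    ∃ Φ' : Multiset (A × Q × Q), (∀ x ∈ Φ', al x.1 x.2) ∧ Φ'.map Prod.fst = Φ.map Prod.fst ∧
      D0 ≤ Φ'.map Prod.snd ∧ mv (Φ'.map Prod.snd) + cm Prod.fst (mv Z) =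
        mv (Φ.map Prod.snd) + cm Prod.snd (mv Z) := by
  classical
  induction Z using Multiset.induction_on with
  | empty => exact fun Φ h1 h2 _ => ⟨Φ, h1, rfl, h2, by simp [mv_zero]⟩
  | cons μ Z ih =>
    intro Φ h1 h2 h3
    have h4 := h3 μ (Multiset.mem_cons_self _ _)
    rw [Multiset.card_cons] at h3 h4
    obtain ⟨x, hx, hx1, hx2⟩ := Multiset.countP_pos.mp (show 0 < mcnt al Φ μ by omega)
    obtain ⟨Φ1, rfl⟩ := Multiset.exists_cons_of_mem hx
    obtain ⟨Φ', k1, k2, k3, k4⟩ := ih ((x.1, μ.2) ::ₘ Φ1) (fun y hy => by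
      rcases Multiset.mem_cons.mp hy with rfl | hy
      · exact hx2
      · exact h1 y (Multiset.mem_cons_of_mem hy)) (by
      rw [Multiset.map_cons]
      refine le_trans (Multiset.le_iff_count.mpr fun e => ?_) (Multiset.le_cons_self _ _)
      by_cases he : e = μ.1
      · have a1 := mcnt_le al Φ1 μ
        have a2 := (mcnt_cons al x Φ1 μ).2
        have a3 := hb e
        rw [← he] at a1
        omega
      · have := Multiset.le_iff_count.mp h2 e
        rwa [Multiset.map_cons, hx1, Multiset.count_cons_of_ne he] at this) (fun ν hν => by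
      have a1 := h3 ν (Multiset.mem_cons_of_mem hν)
      have a2 := (mcnt_cons al x Φ1 ν).2
      have a3 := (mcnt_cons al (x.1, μ.2) Φ1 ν).1
      omega)
    refine ⟨Φ', k1, by simpa using k2, k3, ?_⟩
    simp only [Multiset.map_cons, mv_cons, map_add, cm_single, hx1] at k4 ⊢
    linear_combination k4

/-- reduced cost of an edge -/
noncomputable def rc (w : Q × Q → ℝ) (π : Q → ℝ) (e : Q × Q) : ℝ := w e - π ⬝ᵥ cf ℝ (bd e)

/-- difference of boundaries -/
noncomputable def dv (μ : (Q × Q) × Q × Q) : Q → ℝ := cf ℝ (bd μ.2) - cf ℝ (bd μ.1)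

lemma rc_le {w : Q × Q → ℝ} {π : Q → ℝ} {μ : (Q × Q) × Q × Q} :
    rc w π μ.1 ≤ rc w π μ.2 ↔ π ⬝ᵥ dv μ ≤ w μ.2 - w μ.1 := by
  simp only [rc, dv, dotProduct_sub]
  constructor <;> intro h <;> linarith

lemma mb_moves : MB (Matrix.of fun (q : Q) (μ : (Q × Q) × Q × Q) => bd μ.2 q - bd μ.1 q)
    ((Fintype.card Q).factorial * 2 ^ Fintype.card Q) := by
  intro s f g
  by_cases hf : Function.Injective f
  swap
  · obtain ⟨i, j, h1, h2⟩ := Function.not_injective_iff.mp hf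
    rw [det_zero_of_row_eq h2 (funext fun k => by simp [h1])]
    simp
  have hs : s ≤ Fintype.card Q := by simpa using Fintype.card_le_of_injective f hf
  refine (det_le (abv := AbsoluteValue.abs) (x := 2) fun i j => ?_).trans ?_
  · simp only [AbsoluteValue.abs_apply, submatrix_apply, of_apply, bd, Pi.sub_apply,
      Pi.single_apply]
    split_ifs <;> simp
  · simp only [Fintype.card_fin, nsmul_eq_mul]
    norm_cast
    gcongr
    omega

lemma exists_potential (w : Q × Q → ℝ) (Ab : Finset ((Q × Q) × Q × Q))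
    (h : ∀ ζ : (Q × Q) × Q × Q → ℤ, 0 ≤ ζ →
      (∀ μ, ζ μ ≤ ((Fintype.card Q).factorial * 2 ^ Fintype.card Q : ℕ)) →
      (∀ μ ∉ Ab, ζ μ = 0) → bdv (cm Prod.snd ζ) = bdv (cm Prod.fst ζ) →
      w ⬝ᵥ cf ℝ (cm Prod.fst ζ) ≤ w ⬝ᵥ cf ℝ (cm Prod.snd ζ)) :
    ∃ π : Q → ℝ, ∀ μ ∈ Ab, π ⬝ᵥ dv μ ≤ w μ.2 - w μ.1 := by
  classical
  let α : Option ((Q × Q) × Q × Q) → ((Q → ℝ) × ℝ →ₗ[ℝ] ℝ) := fun o => o.elim (LinearMap.snd _ _ _)
    fun μ => (w μ.2 - w μ.1) • LinearMap.snd _ _ _ -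
      (dotProductBilin ℝ ℝ (dv μ)).comp (LinearMap.fst _ _ _)
  by_contra hcon
  obtain ⟨l, h1, h2, h3⟩ := farkas (insertNone Ab) α (-LinearMap.snd _ _ _) fun x hx => by
    by_contra hc
    have hp : 0 < x.2 := by simpa using hc
    refine hcon ⟨x.2⁻¹ • x.1, fun μ hμ => ?_⟩
    have := hx (some μ) (by simpa using hμ)
    simp only [α, Option.elim, LinearMap.sub_apply, LinearMap.smul_apply, LinearMap.snd_apply,
      LinearMap.comp_apply, LinearMap.fst_apply, dotProductBilin_apply_apply, smul_eq_mul] at this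
    rw [smul_dotProduct, smul_eq_mul, inv_mul_le_iff₀ hp, dotProduct_comm]
    linarith
  have h4 : ∀ f : (Q × Q) × Q × Q → ℝ, ∑ μ ∈ Ab, l (some μ) * f μ = ∑ μ, f μ * l (some μ) :=
    fun f => (Finset.sum_subset (subset_univ _) fun μ _ hμ => by
      rw [h2 _ (by simpa using hμ), zero_mul]).trans (Finset.sum_congr rfl fun _ _ => mul_comm _ _)
  obtain ⟨ζ, k1, k2, k3, k4, k5⟩ := circuit (F := ℝ) (mb_moves (Q := Q))
    (fun μ => w μ.1 - w μ.2) (fun μ => l (some μ)) (fun μ => h1 _) (fun q => by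
      have := LinearMap.congr_fun h3 (Pi.single q 1, 0)
      simp [α, sum_insertNone, h4] at this
      simpa [dotProduct, cf, dv] using this) (by
      have := LinearMap.congr_fun h3 (0, 1)
      have a1 : 0 ≤ l none := h1 _
      simp [α, sum_insertNone, h4] at this
      have a2 : (fun μ : (Q × Q) × Q × Q => w μ.1 - w μ.2) ⬝ᵥ (fun μ => l (some μ)) =
          -∑ μ : (Q × Q) × Q × Q, (w μ.2 - w μ.1) * l (some μ) := by
        rw [dotProduct, ← Finset.sum_neg_distrib]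
        exact Finset.sum_congr rfl fun _ _ => by ring
      linarith)
  have := h ζ k1 k2 (fun μ hμ => k3 μ (h2 _ (by simpa using hμ))) (by
    funext q
    have := k4 q
    simp only [dotProduct, of_apply, sub_mul, Finset.sum_sub_distrib] at this
    simp only [bdv_cm, Finset.sum_apply, Pi.smul_apply, smul_eq_mul, mul_comm (ζ _)]
    omega)
  simp only [dot_cf_cm] at this
  simp only [dotProduct, cf, sub_mul, Finset.sum_sub_distrib] at k5
  linarith

open Classical in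
/-- the potential determined by a set of tight moves -/
noncomputable def piB (w : Q × Q → ℝ) (B : Finset ((Q × Q) × Q × Q)) : Q → ℝ :=
  if h : ∃ π : Q → ℝ, ∀ μ ∈ B, π ⬝ᵥ dv μ = w μ.2 - w μ.1 then h.choose else 0

lemma exists_basic (w : Q × Q → ℝ) (Ab : Finset ((Q × Q) × Q × Q))
    (h : ∃ π : Q → ℝ, ∀ μ ∈ Ab, π ⬝ᵥ dv μ ≤ w μ.2 - w μ.1) :
    ∃ B : Finset ((Q × Q) × Q × Q), B.card ≤ Fintype.card Q ∧
      ∀ μ ∈ Ab, piB w B ⬝ᵥ dv μ ≤ w μ.2 - w μ.1 := by
  classical
  let P : Finset (Finset ((Q × Q) × Q × Q)) := univ.filter fun B =>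
    B.card ≤ Module.finrank ℝ (Submodule.span ℝ (dv '' (B : Set ((Q × Q) × Q × Q)))) ∧
    ∃ π : Q → ℝ, (∀ μ ∈ Ab, π ⬝ᵥ dv μ ≤ w μ.2 - w μ.1) ∧ ∀ μ ∈ B, π ⬝ᵥ dv μ = w μ.2 - w μ.1
  obtain ⟨B, hB, hmax⟩ := exists_max_image P card ⟨∅, by simpa [P] using h⟩
  obtain ⟨h1, π, h2, h3⟩ := (mem_filter.mp hB).2
  have hspan : ∀ μ ∈ Ab, dv μ ∈ Submodule.span ℝ (dv '' (B : Set ((Q × Q) × Q × Q))) := by
    intro μ0 hμ0
    by_contra hc
    obtain ⟨η, hη1, hη2⟩ : ∃ η : Q → ℝ, 0 < η ⬝ᵥ dv μ0 ∧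
        ∀ y ∈ Submodule.span ℝ (dv '' (B : Set ((Q × Q) × Q × Q))), η ⬝ᵥ y = 0 := by
      obtain ⟨f, hf1, hf2⟩ := Submodule.exists_dual_map_eq_bot_of_notMem hc inferInstance
      have hf : ∀ y : Q → ℝ, (fun j => f (Pi.single j 1)) ⬝ᵥ y = f y := by
        intro y
        rw [LinearMap.pi_apply_eq_sum_univ f y]
        simp only [dotProduct, smul_eq_mul]
        refine Finset.sum_congr rfl fun j _ => ?_
        rw [mul_comm]
        congr 2
        funext i; simp [Pi.single_apply, eq_comm]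
      refine ⟨f (dv μ0) • fun j => f (Pi.single j 1), ?_, fun y hy => ?_⟩
      · rw [smul_dotProduct, hf]
        exact mul_self_pos.mpr hf1
      · have := Submodule.mem_map_of_mem (f := f) hy
        rw [hf2] at this
        rw [smul_dotProduct, hf, (Submodule.mem_bot ℝ).mp this, smul_zero]
    obtain ⟨μ1, hμ1, hmin⟩ := exists_min_image (Ab.filter fun μ => 0 < η ⬝ᵥ dv μ)
      (fun μ => (w μ.2 - w μ.1 - π ⬝ᵥ dv μ) / (η ⬝ᵥ dv μ)) ⟨μ0, mem_filter.mpr ⟨hμ0, hη1⟩⟩
    obtain ⟨a1, a2⟩ := mem_filter.mp hμ1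
    set t := (w μ1.2 - w μ1.1 - π ⬝ᵥ dv μ1) / (η ⬝ᵥ dv μ1) with ht
    have ht0 : 0 ≤ t := div_nonneg (sub_nonneg.mpr (h2 _ a1)) a2.le
    have a3 : dv μ1 ∉ Submodule.span ℝ (dv '' (B : Set ((Q × Q) × Q × Q))) :=
      fun h => a2.ne' (hη2 _ h)
    have a4 : μ1 ∉ B := fun h => a3 (Submodule.subset_span ⟨_, h, rfl⟩)
    have a5 := hmax (insert μ1 B) (mem_filter.mpr ⟨mem_univ _, ?_, π + t • η, fun μ hμ => ?_,
      fun μ hμ => ?_⟩)
    · rw [card_insert_of_notMem a4] at a5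
      omega
    · rw [card_insert_of_notMem a4]
      refine (Nat.succ_le_succ h1).trans (Submodule.finrank_lt_finrank_of_lt
        (lt_of_le_of_ne (Submodule.span_mono (Set.image_mono (by simp))) fun h => a3 ?_))
      rw [h]
      exact Submodule.subset_span ⟨μ1, by simp, rfl⟩
    · rw [add_dotProduct, smul_dotProduct, smul_eq_mul]
      by_cases hp : 0 < η ⬝ᵥ dv μ
      · have := hmin μ (mem_filter.mpr ⟨hμ, hp⟩)
        rw [le_div_iff₀ hp] at this
        linarith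
      · have := h2 μ hμ
        nlinarith
    · rw [add_dotProduct, smul_dotProduct, smul_eq_mul]
      rcases mem_insert.mp hμ with rfl | hμ
      · rw [ht, div_mul_cancel₀ _ a2.ne']
        ring
      · rw [h3 μ hμ, hη2 _ (Submodule.subset_span ⟨_, hμ, rfl⟩), mul_zero, add_zero]
  refine ⟨B, h1.trans ((Submodule.finrank_le _).trans (by simp)), fun μ hμ => ?_⟩
  have hex : ∃ π : Q → ℝ, ∀ μ ∈ B, π ⬝ᵥ dv μ = w μ.2 - w μ.1 := ⟨π, h3⟩
  have : ∀ y ∈ Submodule.span ℝ (dv '' (B : Set ((Q × Q) × Q × Q))), piB w B ⬝ᵥ y = π ⬝ᵥ y := by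
    intro y hy
    induction hy using Submodule.span_induction with
    | mem y hy =>
      obtain ⟨ν, hν, rfl⟩ := hy
      rw [piB, dif_pos hex, hex.choose_spec ν hν, h3 ν hν]
    | zero => simp
    | add y z _ _ h1 h2 => simp [h1, h2]
    | smul a y _ h1 => simp [h1]
  rw [this _ (hspan μ hμ)]
  exact h2 μ hμ

/-- abundance threshold -/
def gam (n : ℕ) : ℕ := n ^ 4 * (n.factorial * 2 ^ n) + n ^ 2

lemma exists_opt (w : Q × Q → ℝ) (al : A → Q × Q → Prop) (D0 : Multiset (Q × Q))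
    (hb : ∀ e, D0.count e ≤ Fintype.card Q ^ 2) (Φ0 : Multiset (A × Q × Q))
    (h1 : ∀ x ∈ Φ0, al x.1 x.2) (h2 : D0 ≤ Φ0.map Prod.snd) :
    ∃ Φ : Multiset (A × Q × Q), (∀ x ∈ Φ, al x.1 x.2) ∧ Φ.map Prod.fst = Φ0.map Prod.fst ∧
      D0 ≤ Φ.map Prod.snd ∧ bdv (mv (Φ.map Prod.snd)) = bdv (mv (Φ0.map Prod.snd)) ∧
      ∃ B : Finset ((Q × Q) × Q × Q), B.card ≤ Fintype.card Q ∧
        ∀ μ, gam (Fintype.card Q) ≤ mcnt al Φ μ → rc w (piB w B) μ.1 ≤ rc w (piB w B) μ.2 := by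
  classical
  let S : Set (Multiset (A × Q × Q)) := {Φ | (∀ x ∈ Φ, al x.1 x.2) ∧
    Φ.map Prod.fst = Φ0.map Prod.fst ∧ D0 ≤ Φ.map Prod.snd ∧
    bdv (mv (Φ.map Prod.snd)) = bdv (mv (Φ0.map Prod.snd))}
  have hfin : S.Finite := (Set.finite_Iic (Φ0.card • (univ : Finset (A × Q × Q)).val)).subset
    fun Φ hΦ => Multiset.le_iff_count.mpr fun x => by
      have := congrArg Multiset.card hΦ.2.1
      simp only [Multiset.card_map] at this
      simpa [← this] using Multiset.count_le_card x Φ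
  obtain ⟨Φ, ⟨k1, k2, k3, k4⟩, hmin⟩ := Set.exists_min_image S
    (fun Φ => w ⬝ᵥ cf ℝ (mv (Φ.map Prod.snd))) hfin ⟨Φ0, h1, rfl, h2, rfl⟩
  refine ⟨Φ, k1, k2, k3, k4, ?_⟩
  obtain ⟨B, hB1, hB2⟩ := exists_basic w (univ.filter fun μ => gam (Fintype.card Q) ≤ mcnt al Φ μ)
    (exists_potential w _ fun ζ a1 a2 a3 a4 => by
      obtain ⟨Z, rfl⟩ := exists_mv a1
      have a5 : Z.card ≤ Fintype.card Q ^ 4 * ((Fintype.card Q).factorial * 2 ^ Fintype.card Q) := by
        have := Finset.sum_le_card_nsmul univ _ _ fun μ _ => a2 μ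
        rw [sum_mv, nsmul_eq_mul] at this
        norm_cast at this
        simp only [card_univ, Fintype.card_prod] at this
        refine this.trans (le_of_eq ?_)
        ring
      obtain ⟨Φ', b1, b2, b3, b4⟩ := moves al D0 _ hb Z Φ k1 k3 fun μ hμ => by
        have : gam (Fintype.card Q) ≤ mcnt al Φ μ := by
          by_contra hc
          have := a3 μ (by simpa using hc)
          simp only [mv, Nat.cast_eq_zero, Multiset.count_eq_zero] at this
          exact this hμ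
        rw [gam] at this
        omega
      have b5 := congrArg bdv b4
      rw [map_add, map_add, a4] at b5
      have b6 := hmin Φ' ⟨b1, b2.trans k2, b3, (add_right_cancel b5).trans k4⟩
      have b7 := congrArg (fun y => w ⬝ᵥ cf ℝ y) b4
      have e : ∀ x y : Q × Q → ℤ, cf ℝ (x + y) = cf ℝ x + cf ℝ y := fun x y => by
        funext e; simp [cf]
      simp only [e, dotProduct_add] at b7
      linarith)
  exact ⟨B, hB1, fun μ hμ => rc_le.mpr (hB2 μ (by simpa using hμ))⟩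

open Classical in
/-- the cheapest edges of a letter -/
noncomputable def tyO (w : Q × Q → ℝ) (π : Q → ℝ) (al : A → Q × Q → Prop) (a : A) :
    Finset (Q × Q) :=
  univ.filter fun e => al a e ∧ ∀ e', al a e' → rc w π e ≤ rc w π e'

lemma card_tyO {w : Q × Q → ℝ} (hw : LinearIndependent ℚ w) (π : Q → ℝ) (al : A → Q × Q → Prop)
    (a : A) : (tyO w π al a).card ≤ Fintype.card Q + 1 := by
  classical
  have hli : LinearIndependent ℚ fun e : tyO w π al a =>
      (fun o : Option Q => o.elim 1 fun q => (bd e.1 q : ℚ)) := by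
    rw [Fintype.linearIndependent_iff]
    intro g hg
    refine Fintype.linearIndependent_iff.mp (hw.comp (Subtype.val : tyO w π al a → _)
      Subtype.val_injective) g ?_
    rcases isEmpty_or_nonempty (tyO w π al a) with h | ⟨⟨e0⟩⟩
    · simp
    have h0 : ∀ e : tyO w π al a, w e.1 = rc w π e0.1 + π ⬝ᵥ cf ℝ (bd e.1) := fun e => by
      have a1 := (mem_filter.mp e.2).2
      have a2 := (mem_filter.mp e0.2).2
      rw [← le_antisymm (a1.2 _ a2.1) (a2.2 _ a1.1), rc, sub_add_cancel]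
    have h1 : ∑ e, (g e : ℝ) = 0 := by
      have := congrFun hg none
      simp only [Finset.sum_apply, Pi.smul_apply, Option.elim, smul_eq_mul, mul_one,
        Pi.zero_apply] at this
      exact_mod_cast this
    have h2 : ∀ q, ∑ e, (g e : ℝ) * bd e.1 q = 0 := fun q => by
      have := congrFun hg (some q)
      simp only [Finset.sum_apply, Pi.smul_apply, Option.elim, smul_eq_mul, Pi.zero_apply] at this
      exact_mod_cast this
    simp only [Function.comp, h0, Rat.smul_def, mul_add, Finset.sum_add_distrib, ← Finset.sum_mul,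
      h1, dotProduct, cf, Finset.mul_sum]
    rw [Finset.sum_comm, zero_mul, zero_add]
    refine Finset.sum_eq_zero fun q _ => ?_
    rw [← mul_zero (π q), ← h2 q, Finset.mul_sum]
    exact Finset.sum_congr rfl fun e _ => by ring
  simpa using hli.fintype_card_le_finrank

lemma countP_le_sum {α β : Type} (s : Finset β) (p : α → Prop) (q : β → α → Prop) [DecidablePred p]
    [∀ b, DecidablePred (q b)] (Φ : Multiset α) (h : ∀ x ∈ Φ, p x → ∃ b ∈ s, q b x) :
    Φ.countP p ≤ ∑ b ∈ s, Φ.countP (q b) := by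
  induction Φ using Multiset.induction_on with
  | empty => simp
  | cons x Φ ih =>
    simp only [Multiset.countP_cons, Finset.sum_add_distrib]
    refine add_le_add (ih fun y hy => h y (Multiset.mem_cons_of_mem hy)) ?_
    split_ifs with hp
    · obtain ⟨b, hb, hq⟩ := h x (Multiset.mem_cons_self _ _) hp
      simpa [hq] using Finset.single_le_sum (f := fun b => if q b x then 1 else 0)
        (fun _ _ => Nat.zero_le _) hb
    · exact Nat.zero_le _

lemma exc_le (w : Q × Q → ℝ) (π : Q → ℝ) (al : A → Q × Q → Prop) (Φ : Multiset (A × Q × Q))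
    (h1 : ∀ x ∈ Φ, al x.1 x.2) (g : ℕ) (h : ∀ μ, g ≤ mcnt al Φ μ → rc w π μ.1 ≤ rc w π μ.2) :
    Φ.countP (fun x => x.2 ∉ tyO w π al x.1) ≤ Fintype.card Q ^ 4 * g := by
  classical
  refine (countP_le_sum (univ.filter fun μ => mcnt al Φ μ < g) _
    (fun μ x => x.2 = μ.1 ∧ al x.1 μ.2) Φ fun x hx hp => ?_).trans ?_
  · simp only [tyO, mem_filter, mem_univ, true_and, h1 x hx, not_forall] at hp
    obtain ⟨e', a1, a2⟩ := hp
    exact ⟨(x.2, e'), mem_filter.mpr ⟨mem_univ _, not_le.mp fun hc => a2 (h _ hc)⟩, rfl, a1⟩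
  · refine (Finset.sum_le_card_nsmul _ _ g fun μ hμ => ?_).trans ?_
    · convert (mem_filter.mp hμ).2.le
      rfl
    · rw [smul_eq_mul]
      gcongr
      refine (card_le_univ _).trans (le_of_eq ?_)
      simp only [Fintype.card_prod]
      ring

end Pool.Agent.Lib.MP_a0040c_lc
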