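import Mathlib

set_option linter.unusedSectionVars false

namespace Pool.Agent.Lib.MP_a0040c_lc

open Finset

variable {A E : Type} [DecidableEq A] [DecidableEq E]

lemma swap_marked (al : A → E → Prop) (ty : A → Finset E) (hty : ∀ a, ∀ e ∈ ty a, al a e)
    (Mk : Finset A) (G : ℕ) (Y : Multiset A) (hY : ∀ b ∈ Mk, b ∈ Y)
    (hH : ∀ a ∈ Y, a ∉ Mk → ∀ e, al a e → ∃ S ⊆ Mk, G ≤ S.card ∧ ∀ b ∈ S, ty b = ty a ∧ al b e)
    (Φ : Multiset (A × E)) (h1 : ∀ x ∈ Φ, al x.1 x.2) (h2 : Φ.map Prod.fst = Y)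
    (h3 : Φ.countP (fun x => x.2 ∉ ty x.1) < G) :
    ∃ Φ' : Multiset (A × E), (∀ x ∈ Φ', al x.1 x.2) ∧ Φ'.map Prod.fst = Y ∧
      Φ'.map Prod.snd = Φ.map Prod.snd ∧ ∀ x ∈ Φ', x.1 ∉ Mk → x.2 ∈ ty x.1 := by
  induction hm : Φ.countP (fun x => x.1 ∉ Mk ∧ x.2 ∉ ty x.1) using Nat.strong_induction_on
    generalizing Φ with
  | _ m ih =>
  by_cases hc : ∀ x ∈ Φ, x.1 ∉ Mk → x.2 ∈ ty x.1
  · exact ⟨Φ, h1, h2, rfl, hc⟩
  push Not at hc
  obtain ⟨⟨a, e⟩, hx, ha, he⟩ := hc
  obtain ⟨S, hS1, hS2, hS3⟩ := hH a (h2 ▸ Multiset.mem_map_of_mem Prod.fst hx) ha e (h1 _ hx)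
  obtain ⟨⟨b, f⟩, hy, hb, hf⟩ : ∃ y ∈ Φ, y.1 ∈ S ∧ y.2 ∈ ty y.1 := by
    by_contra hcon
    push Not at hcon
    have : S ⊆ ((Φ.filter fun x => x.2 ∉ ty x.1).map Prod.fst).toFinset := by
      intro b hb
      have := hY b (hS1 hb)
      rw [← h2] at this
      obtain ⟨y, hy, rfl⟩ := Multiset.mem_map.mp this
      exact Multiset.mem_toFinset.mpr
        (Multiset.mem_map_of_mem _ (Multiset.mem_filter.mpr ⟨hy, hcon y hy hb⟩))
    have a1 := (card_le_card this).trans (Multiset.toFinset_card_le _)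
    rw [Multiset.card_map, ← Multiset.countP_eq_card_filter] at a1
    omega
  obtain ⟨Φ1, rfl⟩ := Multiset.exists_cons_of_mem hx
  have hab : b ≠ a := fun h => ha (hS1 (h ▸ hb))
  obtain ⟨Φ2, rfl⟩ := Multiset.exists_cons_of_mem
    ((Multiset.mem_cons.mp hy).resolve_left fun h => hab (Prod.mk.inj h).1)
  obtain ⟨k1, k2⟩ := hS3 b hb
  have k3 : f ∈ ty a := k1 ▸ hf
  have k4 : b ∈ Mk := hS1 hb
  simp only [Multiset.countP_cons] at hm h3
  obtain ⟨Φ', c1, c2, c3, c4⟩ := ih _ (by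
      rw [← hm]
      simp [k3, k4, ha, he]) ((a, f) ::ₘ (b, e) ::ₘ Φ2) (fun x hx => by
      simp only [Multiset.mem_cons] at hx
      rcases hx with rfl | rfl | hx
      · exact hty _ _ k3
      · exact k2
      · exact h1 x (by simp [hx])) (by simpa using h2) (by
      simp only [Multiset.countP_cons]
      simp only [he, hf, k3, not_true, not_false_eq_true, if_true, if_false] at h3 ⊢
      split_ifs <;> omega) rfl
  exact ⟨Φ', c1, c2, by rw [c3]; simp [Multiset.cons_swap], c4⟩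

lemma redistribute (ty : A → Finset E) (Φ : Multiset (A × E)) : ∀ Y : Multiset A,
    (∀ x ∈ Φ, x.2 ∈ ty x.1) → Y.map ty = (Φ.map Prod.fst).map ty →
    ∃ Φ' : Multiset (A × E), (∀ x ∈ Φ', x.2 ∈ ty x.1) ∧ Φ'.map Prod.fst = Y ∧
      Φ'.map Prod.snd = Φ.map Prod.snd := by
  induction Φ using Multiset.induction_on with
  | empty => exact fun Y _ h => ⟨0, by simp, by simpa [eq_comm] using h, rfl⟩
  | cons x Φ ih =>
    intro Y h1 h2
    obtain ⟨b, hb, hb'⟩ := Multiset.mem_map.mp (show ty x.1 ∈ Y.map ty by simp [h2])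
    obtain ⟨Y', rfl⟩ := Multiset.exists_cons_of_mem hb
    simp only [Multiset.map_cons, hb', Multiset.cons_inj_right] at h2
    obtain ⟨Φ', c1, c2, c3⟩ := ih Y' (fun y hy => h1 y (Multiset.mem_cons_of_mem hy)) h2
    refine ⟨(b, x.2) ::ₘ Φ', fun y hy => ?_, by simp [c2], by simp [c3]⟩
    rcases Multiset.mem_cons.mp hy with rfl | hy
    · exact hb' ▸ h1 x (Multiset.mem_cons_self _ _)
    · exact c1 y hy

lemma exists_marks {κ : Type} [Fintype κ] (U : Finset A) (P : κ → A → Prop) (G : ℕ) :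
    ∃ Mk ⊆ U, Mk.card ≤ Fintype.card κ * G ∧ ∀ a ∈ U, a ∉ Mk → ∀ k, P k a →
      ∃ S ⊆ Mk, G ≤ S.card ∧ ∀ b ∈ S, P k b := by
  classical
  have : ∀ k, ∃ S ⊆ U.filter (P k), S.card = min G (U.filter (P k)).card := fun k =>
    exists_subset_card_eq (min_le_right _ _)
  choose S h1 h2 using this
  refine ⟨univ.biUnion S, biUnion_subset.mpr fun k _ => (h1 k).trans (filter_subset _ _),
    card_biUnion_le_card_mul _ _ _ fun k _ => (h2 k).le.trans (min_le_left _ _),
    fun a ha hna k hk => ⟨S k, subset_biUnion_of_mem S (mem_univ k), ?_,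
      fun b hb => (mem_filter.mp (h1 k hb)).2⟩⟩
  have := card_lt_card (s := S k) (t := U.filter (P k)) ⟨h1 k, fun h =>
    hna (mem_biUnion.mpr ⟨k, mem_univ _, h (mem_filter.mpr ⟨ha, hk⟩)⟩)⟩
  have := h2 k
  omega

lemma card_small (α : Type) [Fintype α] [DecidableEq α] (m : ℕ) :
    Fintype.card {s : Finset α // s.card ≤ m} ≤ (Fintype.card α + 1) ^ m := by
  have := Fintype.card_le_of_injective (fun (s : {s : Finset α // s.card ≤ m}) (i : Fin m) =>
    s.1.toList[i.1]?) fun s t h => by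
      apply Subtype.ext
      rw [← toList_toFinset s.1, ← toList_toFinset t.1]
      congr 1
      refine List.ext_getElem? fun i => ?_
      by_cases hi : i < m
      · exact congrFun h ⟨i, hi⟩
      · rw [List.getElem?_eq_none (by simpa using s.2.trans (not_lt.mp hi)),
          List.getElem?_eq_none (by simpa using t.2.trans (not_lt.mp hi))]
  simpa using this

lemma es_num (N : ℕ) : ((N + 2) * N + 1 + 1) ^ N < 2 ^ ((N + 2) * N + 1) := by
  have h : (N + 2) * N + 1 + 1 ≤ 2 ^ (N + 2) := by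
    induction N with
    | zero => simp
    | succ N ih =>
      have := Nat.lt_two_pow_self (n := N + 2)
      have e : 2 ^ (N + 2) = 4 * 2 ^ N := by ring
      have := Nat.lt_two_pow_self (n := N)
      rw [pow_succ]
      nlinarith
  calc _ ≤ (2 ^ (N + 2)) ^ N := Nat.pow_le_pow_left h _
    _ = 2 ^ ((N + 2) * N) := by rw [pow_mul]
    _ < _ := Nat.pow_lt_pow_right one_lt_two (by omega)

lemma es_lemma {κ T : Type} [Fintype κ] [Fintype T] [DecidableEq T] (τ : κ → A → T)
    (Y : Multiset A) : ∃ Y' : Multiset A, (∀ a ∈ Y', a ∈ Y) ∧ (∀ k, Y'.map (τ k) = Y.map (τ k)) ∧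
      Y'.toFinset.card ≤ (Fintype.card κ * Fintype.card T + 2) *
        (Fintype.card κ * Fintype.card T) := by
  classical
  set N := Fintype.card κ * Fintype.card T with hN
  induction hm : Y.toFinset.card using Nat.strong_induction_on generalizing Y with
  | _ m ih =>
  by_cases hc : m ≤ (N + 2) * N
  · exact ⟨Y, fun _ h => h, fun _ => rfl, hm ▸ hc⟩
  obtain ⟨S, hS, hS'⟩ := exists_subset_card_eq (s := Y.toFinset) (n := (N + 2) * N + 1) (by omega)
  obtain ⟨I, J, hI, hJ, ⟨a0, ha0⟩, hIJ⟩ : ∃ I J : Finset A, I ⊆ S ∧ J ⊆ S ∧ (∃ a ∈ I, a ∉ J) ∧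
      ∀ k, I.val.map (τ k) = J.val.map (τ k) := by
    obtain ⟨I, hI, J, hJ, hne, he⟩ := exists_ne_map_eq_of_card_lt_of_maps_to (s := S.powerset)
      (t := Fintype.piFinset fun _ : κ × T => range ((N + 2) * N + 1 + 1))
      (f := fun I p => (I.val.map (τ p.1)).count p.2) (by simpa [hS'] using es_num N)
      fun I hI => by
        simp only [mem_coe, Fintype.mem_piFinset, mem_range, mem_powerset] at hI ⊢
        intro p
        have a1 := Multiset.count_le_card p.2 (I.val.map (τ p.1))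
        have a2 := card_le_card hI
        rw [Multiset.card_map, card_val] at a1
        omega
    have he' : ∀ k, I.val.map (τ k) = J.val.map (τ k) := fun k =>
      Multiset.ext.mpr fun t => congrFun he (k, t)
    by_cases h : I ⊆ J
    · exact ⟨J, I, mem_powerset.mp hJ, mem_powerset.mp hI,
        not_subset.mp fun h' => hne (Subset.antisymm h h'), fun k => (he' k).symm⟩
    · exact ⟨I, J, mem_powerset.mp hI, mem_powerset.mp hJ, not_subset.mp h, he'⟩
  obtain ⟨a1, ha1, hmin⟩ := exists_min_image (I \ J) (fun a => Y.count a) ⟨a0, mem_sdiff.mpr ha0⟩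
  have e1 : ∀ k, (I \ J).val.map (τ k) = (J \ I).val.map (τ k) := fun k => by
    have b1 : (I \ J).val + (I ∩ J).val = I.val := by
      rw [← disjUnion_val _ _ (disjoint_sdiff_inter _ _), disjUnion_eq_union, sdiff_union_inter]
    have b2 : (J \ I).val + (I ∩ J).val = J.val := by
      rw [inter_comm, ← disjUnion_val _ _ (disjoint_sdiff_inter _ _), disjUnion_eq_union,
        sdiff_union_inter]
    have := hIJ k
    rw [← b1, ← b2, Multiset.map_add, Multiset.map_add] at this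
    exact add_right_cancel this
  have e2 : Y.count a1 • (I \ J).val ≤ Y := Multiset.le_iff_count.mpr fun a => by
    rw [Multiset.count_nsmul]
    by_cases h : a ∈ I \ J
    · rw [Multiset.count_eq_one_of_mem (I \ J).nodup h, mul_one]
      exact hmin a h
    · rw [Multiset.count_eq_zero.mpr h]
      simp
  have e3 : ∀ a ∈ Y - Y.count a1 • (I \ J).val + Y.count a1 • (J \ I).val, a ∈ Y ∧ a ≠ a1 := by
    intro a ha
    rcases Multiset.mem_add.mp ha with h | h
    · refine ⟨Multiset.mem_of_le tsub_le_self h, ?_⟩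
      rintro rfl
      rw [← Multiset.count_pos, Multiset.count_sub, Multiset.count_nsmul,
        Multiset.count_eq_one_of_mem (I \ J).nodup ha1] at h
      omega
    · have h' := mem_sdiff.mp (Multiset.mem_of_mem_nsmul h)
      refine ⟨Multiset.mem_toFinset.mp (hS (hJ h'.1)), ?_⟩
      rintro rfl
      exact h'.2 (mem_sdiff.mp ha1).1
  obtain ⟨Y', c1, c2, c3⟩ := ih _ (by
    rw [← hm]
    refine card_lt_card ⟨fun a ha => Multiset.mem_toFinset.mpr
      (e3 a (Multiset.mem_toFinset.mp ha)).1, fun h => ?_⟩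
    exact (e3 a1 (Multiset.mem_toFinset.mp (h (hS (hI (mem_sdiff.mp ha1).1))))).2 rfl)
    (Y - Y.count a1 • (I \ J).val + Y.count a1 • (J \ I).val) rfl
  refine ⟨Y', fun a ha => (e3 a (c1 a ha)).1, fun k => ?_, c3⟩
  rw [c2, Multiset.map_add, Multiset.map_nsmul, ← e1, ← Multiset.map_nsmul, ← Multiset.map_add,
    tsub_add_cancel_of_le e2]

end Pool.Agent.Lib.MP_a0040c_lc
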