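import Pool.Agent.Lib.MP_a0040c_lc.KOpt
import Pool.Agent.Lib.MP_a0040c_lc.KSwap

set_option linter.unusedSectionVars false

namespace Pool.Agent.Lib.MP_a0040c_lc

open Finset Matrix

variable {Q A : Type} [DecidableEq Q] [DecidableEq A] [Fintype Q] [Fintype A]

/-- the complete automaton on edges -/
def full (M : GFA Q A) : GFA Q (Q × Q) := ⟨fun q o => {p | o = some (q, p)}, M.q0, M.F⟩

lemma full_lift (M : GFA Q A) : (full M).lift (fun o e => e.2 ∈ M.δ e.1 o) = M := by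
  cases M
  simp [full, GFA.lift]

lemma mem_gk_full (M : GFA Q A) (K : Finset Q) (β : Q → ℤ) (c : Q × Q → ℤ) :
    Sum.elim β c ∈ AddSubmonoid.closure (GK (full M) K) ↔
      0 ≤ c ∧ (∀ e, c e ≠ 0 → e.1 ∈ K ∧ e.2 ∈ K) ∧ β = bdv c := by
  constructor
  · intro h
    have key : ∀ z ∈ AddSubmonoid.closure (GK (full M) K), 0 ≤ z ∘ Sum.inr ∧
        (∀ e, z (.inr e) ≠ 0 → e.1 ∈ K ∧ e.2 ∈ K) ∧ z ∘ Sum.inl = bdv (z ∘ Sum.inr) := by
      intro z hz
      induction hz using AddSubmonoid.closure_induction with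
      | mem z hz =>
        obtain ⟨o, p, q, hp, hq, rfl, rfl⟩ := hz
        refine ⟨ev_nonneg _, fun e he => ?_, by simp [nv, ev_some, bdv_single]⟩
        obtain rfl : (p, q) = e := by simpa [nv, ev] using he
        exact ⟨hp, hq⟩
      | zero => exact ⟨le_rfl, by simp, (map_zero bdv).symm⟩
      | add x y _ _ hx hy =>
        refine ⟨add_nonneg hx.1 hy.1, fun e he => ?_, ?_⟩
        · by_cases h : x (.inr e) = 0
          · exact hy.2.1 e (by simpa [h] using he)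
          · exact hx.2.1 e h
        · rw [Pi.add_comp, Pi.add_comp, map_add, hx.2.2, hy.2.2]
    exact key _ h
  · rintro ⟨h0, h1, rfl⟩
    have : Sum.elim (bdv c) c = ∑ e, c e • nv (some e, e) := by
      funext j
      rcases j with q | e
      · simp [bdv, nv, Finset.sum_apply]
      · simp [nv, ev, Finset.sum_apply]
    rw [this]
    refine sum_mem fun e _ => ?_
    by_cases h : c e = 0
    · simp [h]
    · rw [← Int.toNat_of_nonneg (h0 e), natCast_zsmul]
      refine nsmul_mem (AddSubmonoid.subset_closure ?_) _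
      exact ⟨some e, e.1, e.2, (h1 e h).1, (h1 e h).2, rfl, rfl⟩

lemma lab_map {T : Type} [DecidableEq T] [Fintype T] (Φ : Multiset (A × T)) :
    lab (Φ.map (Prod.map some id)) = mv (Φ.map Prod.fst) := by
  induction Φ using Multiset.induction_on with
  | empty => simp [lab_zero, mv_zero]
  | cons x Φ ih => simp only [Multiset.map_cons, lab_cons, ih, mv_cons, Prod.map_fst, ev_some]

lemma lab_split {T : Type} [DecidableEq T] [Fintype T] (Y : Multiset A) (Φ : Multiset (Option A × T)) :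
    ∀ z : A → ℤ, 0 ≤ z → lab Φ = mv Y + z → ∃ (Φ1 : Multiset (A × T)) (Φ2 : Multiset (Option A × T)),
      Φ = Φ1.map (Prod.map some id) + Φ2 ∧ Φ1.map Prod.fst = Y ∧ lab Φ2 = z := by
  induction Y using Multiset.induction_on with
  | empty => exact fun z _ h => ⟨0, Φ, by simp, rfl, by simpa [mv_zero] using h⟩
  | cons a Y ih =>
    intro z hz h
    obtain ⟨Φ1, Φ2, rfl, h2, h3⟩ := ih (Pi.single a 1 + z) (add_nonneg (by simp) hz)
      (by rw [h, mv_cons]; abel)
    obtain ⟨⟨o, t⟩, hx, ho⟩ : ∃ x ∈ Φ2, x.1 = some a := by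
      by_contra hc
      push Not at hc
      have a1 : lab Φ2 a = 0 := by
        clear h h3 ih
        induction Φ2 using Multiset.induction_on with
        | empty => rfl
        | cons x Φ ih =>
          rw [lab_cons, Pi.add_apply, ih fun y hy => hc y (Multiset.mem_cons_of_mem hy)]
          simp [ev, hc x (Multiset.mem_cons_self _ _)]
      have a2 := hz a
      simp [h3] at a1 a2
      omega
    obtain ⟨Φ3, rfl⟩ := Multiset.exists_cons_of_mem hx
    obtain rfl : o = some a := ho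
    rw [lab_cons, ev_some] at h3
    exact ⟨(a, t) ::ₘ Φ1, Φ3, by simp, by simp [h2], add_left_cancel h3⟩

/-- transitions inside `K` -/
def alK (M : GFA Q A) (K : Finset Q) (a : A) (e : Q × Q) : Prop :=
  e.1 ∈ K ∧ e.2 ∈ K ∧ e.2 ∈ M.δ e.1 (some a)

lemma edge_char (M : GFA Q A) (Y : Multiset A) {z : A → ℤ} (hz : 0 ≤ z) (h : mv Y + z ∈ PI M) :
    ∃ (K : Finset Q) (D0 : Multiset (Q × Q)) (Φ : Multiset (A × Q × Q)),
      (∀ e, D0.count e ≤ Fintype.card Q ^ 2) ∧ (∀ x ∈ Φ, alK M K x.1 x.2) ∧ Φ.map Prod.fst = Y ∧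
      D0 ≤ Φ.map Prod.snd ∧ ∀ Φ' : Multiset (A × Q × Q), (∀ x ∈ Φ', alK M K x.1 x.2) →
        D0 ≤ Φ'.map Prod.snd → bdv (mv (Φ'.map Prod.snd)) = bdv (mv (Φ.map Prod.snd)) →
        mv (Φ'.map Prod.fst) + z ∈ PI M := by
  rw [← full_lift M, mem_PI_lift] at h
  obtain ⟨Ψ, h1, h2, h3⟩ := h
  obtain ⟨Φ, Φ2, rfl, rfl, rfl⟩ := lab_split Y Ψ z hz h2
  obtain ⟨K, b, r, k0, k1, k2, k3, k4⟩ := skel h3
  obtain ⟨B, rfl⟩ := exists_mv k0
  rw [mem_gk_full] at k2 k3
  have e : ∀ Φ : Multiset (A × Q × Q), mv ((Φ.map (Prod.map some id) + Φ2).map Prod.snd) =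
      mv (Φ.map Prod.snd) + mv (Φ2.map Prod.snd) := fun Φ => by
    rw [Multiset.map_add, mv_add, Multiset.map_map]
    rfl
  rw [e] at k3
  have hK : ∀ f, (mv (Φ.map Prod.snd) + mv (Φ2.map Prod.snd)) f ≠ 0 → f.1 ∈ K ∧ f.2 ∈ K := by
    intro f hf
    by_cases h : mv B f = 0
    · exact k3.2.1 f (by simpa [h] using hf)
    · exact k2.2.1 f h
  refine ⟨K, Φ.map Prod.snd ∩ B, Φ, fun f => ?_, fun x hx => ?_, rfl, Multiset.inter_le_left,
    fun Φ' a1 a2 a3 => ?_⟩
  · have := k1 f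
    simp only [mv] at this
    exact (Multiset.count_le_of_le _ Multiset.inter_le_right).trans (by exact_mod_cast this)
  · have a1 := Multiset.count_pos.mpr (Multiset.mem_map_of_mem Prod.snd hx)
    have a2 := hK x.2 (by simp only [mv, Pi.add_apply]; omega)
    exact ⟨a2.1, a2.2, h1 (some x.1, x.2)
      (Multiset.mem_add.mpr (Or.inl (Multiset.mem_map_of_mem _ hx)))⟩
  · rw [← full_lift M, mem_PI_lift]
    refine ⟨Φ'.map (Prod.map some id) + Φ2, fun x hx => ?_, by rw [lab_add, lab_map], k4 _ ?_⟩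
    · rcases Multiset.mem_add.mp hx with hx | hx
      · obtain ⟨y, hy, rfl⟩ := Multiset.mem_map.mp hx
        exact (a1 y hy).2.2
      · exact h1 x (Multiset.mem_add.mpr (Or.inr hx))
    · rw [mem_gk_full, e]
      refine ⟨fun f => ?_, fun f hf => ?_, ?_⟩
      · have b1 := k3.1 f
        have b2 := Multiset.count_le_of_le f a2
        simp only [mv, Pi.add_apply, Pi.sub_apply, Pi.zero_apply, Multiset.count_inter] at b1 b2 ⊢
        omega
      · by_cases h : f ∈ Φ'.map Prod.snd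
        · obtain ⟨y, hy, rfl⟩ := Multiset.mem_map.mp h
          exact ⟨(a1 y hy).1, (a1 y hy).2.1⟩
        · by_cases h' : mv B f = 0
          · refine hK f ?_
            simp only [mv, Pi.add_apply, Pi.sub_apply, Multiset.count_eq_zero.mpr h] at hf h' ⊢
            omega
          · exact k2.2.1 f h'
      · have := k3.2.2
        simp only [map_sub, map_add, a3] at this ⊢
        exact this

/-- keys -/
abbrev Key (Q : Type) [Fintype Q] :=
  Finset Q × {B : Finset ((Q × Q) × Q × Q) // B.card ≤ Fintype.card Q}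

lemma core (M : GFA Q A) (w : Q × Q → ℝ) (Mk : Finset A) (Ym Yu Yu' : Multiset A)
    (h1 : ∀ b ∈ Mk, b ∈ Ym) (h2 : ∀ a ∈ Ym, a ∈ Mk) (h3 : ∀ a ∈ Yu, a ∉ Mk)
    (h4 : ∀ a ∈ Yu, ∀ (k : Key Q) e, alK M k.1 a e → ∃ S ⊆ Mk,
      Fintype.card Q ^ 4 * gam (Fintype.card Q) + 1 ≤ S.card ∧ ∀ b ∈ S,
        tyO w (piB w k.2) (alK M k.1) b = tyO w (piB w k.2) (alK M k.1) a ∧ alK M k.1 b e)
    (h5 : ∀ k : Key Q, Yu'.map (tyO w (piB w k.2) (alK M k.1)) =
      Yu.map (tyO w (piB w k.2) (alK M k.1))) {z : A → ℤ} (hz : 0 ≤ z)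
    (h : mv (Ym + Yu) + z ∈ PI M) : mv (Ym + Yu') + z ∈ PI M := by
  classical
  obtain ⟨K, D0, Φ0, a1, a2, a3, a4, a5⟩ := edge_char M _ hz h
  obtain ⟨Φ1, b1, b2, b3, b4, B, b5, b6⟩ := exists_opt w (alK M K) D0 a1 Φ0 a2 a4
  have hty : ∀ a, ∀ e ∈ tyO w (piB w B) (alK M K) a, alK M K a e := fun a e he =>
    (mem_filter.mp he).2.1
  obtain ⟨Φ2, c1, c2, c3, c4⟩ := swap_marked (alK M K) (tyO w (piB w B) (alK M K)) hty Mk _
    (Ym + Yu) (fun b hb => Multiset.mem_add.mpr (Or.inl (h1 b hb))) (fun a ha hna e he =>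
      h4 a ((Multiset.mem_add.mp ha).resolve_left fun h => hna (h2 a h)) (K, ⟨B, b5⟩) e he)
    Φ1 b1 (b2.trans a3) (Nat.lt_succ_of_le (exc_le w _ _ Φ1 b1 _ b6))
  have d1 : (Φ2.filter fun x => x.1 ∈ Mk).map Prod.fst = Ym := by
    have := congrArg (Multiset.filter (· ∈ Mk)) c2
    rwa [Multiset.filter_add, Multiset.filter_eq_self.mpr h2, Multiset.filter_eq_nil.mpr h3,
      add_zero, Multiset.filter_map] at this
  have d2 : (Φ2.filter fun x => x.1 ∉ Mk).map Prod.fst = Yu := by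
    have := congrArg (Multiset.filter (· ∉ Mk)) c2
    rwa [Multiset.filter_add, Multiset.filter_eq_self.mpr h3,
      (Multiset.filter_eq_nil (s := Ym)).mpr fun a ha h => h (h2 a ha), zero_add,
      Multiset.filter_map] at this
  obtain ⟨Φ3, e1, e2, e3⟩ := redistribute (tyO w (piB w B) (alK M K))
    (Φ2.filter fun x => x.1 ∉ Mk) Yu'
    (fun x hx => c4 x (Multiset.mem_filter.mp hx).1 (Multiset.mem_filter.mp hx).2)
    (by rw [d2]; exact h5 (K, ⟨B, b5⟩))
  have f1 : ((Φ2.filter fun x => x.1 ∈ Mk) + Φ3).map Prod.snd = Φ1.map Prod.snd := by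
    rw [Multiset.map_add, e3, ← Multiset.map_add, Multiset.filter_add_not, c3]
  have := a5 ((Φ2.filter fun x => x.1 ∈ Mk) + Φ3) (fun x hx => by
    rcases Multiset.mem_add.mp hx with hx | hx
    · exact c1 x (Multiset.mem_filter.mp hx).1
    · exact hty _ _ (e1 x hx)) (f1 ▸ b3) (f1 ▸ b4)
  rwa [Multiset.map_add, d1, e2] at this

/-- number of keys times number of types -/
def nKT (n : ℕ) : ℕ := 2 ^ n * (n ^ 4 + 1) ^ n * (n ^ 2 + 1) ^ (n + 1)

/-- size of the kernel alphabet -/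
def sK (n : ℕ) : ℕ := nKT n * n ^ 2 * (n ^ 4 * gam n + 1) + (nKT n + 2) * nKT n

theorem kernel (M : GFA Q A) (Y : Multiset A) : ∃ Y' : Multiset A,
    Y'.toFinset.card ≤ sK (Fintype.card Q) ∧
      ∀ z, 0 ≤ z → (mv Y + z ∈ PI M ↔ mv Y' + z ∈ PI M) := by
  classical
  obtain ⟨w0, hw0⟩ := exists_linearIndependent_of_le_rank (R := ℚ) (M := ℝ)
    (n := Fintype.card (Q × Q)) (by
      rw [Real.rank_rat_real]
      exact Cardinal.natCast_lt_aleph0.le.trans Cardinal.aleph0_le_continuum)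
  have hw := hw0.comp _ (Fintype.equivFin (Q × Q)).injective
  set w := w0 ∘ Fintype.equivFin (Q × Q)
  let ty : Key Q → A → {O : Finset (Q × Q) // O.card ≤ Fintype.card Q + 1} := fun k a =>
    ⟨tyO w (piB w k.2) (alK M k.1) a, card_tyO hw _ _ _⟩
  have hN : Fintype.card (Key Q) * Fintype.card {O : Finset (Q × Q) // O.card ≤ Fintype.card Q + 1}
      ≤ nKT (Fintype.card Q) := by
    have a1 := card_small ((Q × Q) × Q × Q) (Fintype.card Q)
    have a2 := card_small (Q × Q) (Fintype.card Q + 1)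
    rw [Fintype.card_prod, Fintype.card_finset, nKT]
    refine Nat.mul_le_mul (Nat.mul_le_mul_left _ (a1.trans (le_of_eq ?_))) (a2.trans (le_of_eq ?_)) <;>
      simp only [Fintype.card_prod] <;> ring
  obtain ⟨Mk, m1, m2, m3⟩ := exists_marks Y.toFinset
    (fun (k : (Key Q × {O : Finset (Q × Q) // O.card ≤ Fintype.card Q + 1}) × Q × Q) a =>
      ty k.1.1 a = k.1.2 ∧ alK M k.1.1.1 a k.2) (Fintype.card Q ^ 4 * gam (Fintype.card Q) + 1)
  obtain ⟨Yu', c1, c2, c3⟩ := es_lemma ty (Y.filter (· ∉ Mk))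
  have c4 : ∀ k : Key Q, Yu'.map (tyO w (piB w k.2) (alK M k.1)) =
      (Y.filter (· ∉ Mk)).map (tyO w (piB w k.2) (alK M k.1)) := fun k => by
    simpa [Multiset.map_map, ty] using congrArg (Multiset.map Subtype.val) (c2 k)
  have h1 : ∀ b ∈ Mk, b ∈ Y.filter (· ∈ Mk) := fun b hb =>
    Multiset.mem_filter.mpr ⟨Multiset.mem_toFinset.mp (m1 hb), hb⟩
  have h2 : ∀ a ∈ Y.filter (· ∈ Mk), a ∈ Mk := fun a ha => (Multiset.mem_filter.mp ha).2
  have h3 : ∀ a ∈ Y.filter (· ∉ Mk), a ∉ Mk := fun a ha => (Multiset.mem_filter.mp ha).2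
  have h4 : ∀ a ∈ Y.filter (· ∉ Mk), ∀ (k : Key Q) e, alK M k.1 a e → ∃ S ⊆ Mk,
      Fintype.card Q ^ 4 * gam (Fintype.card Q) + 1 ≤ S.card ∧ ∀ b ∈ S,
        tyO w (piB w k.2) (alK M k.1) b = tyO w (piB w k.2) (alK M k.1) a ∧ alK M k.1 b e := by
    intro a ha k e he
    obtain ⟨S, k1, k2, k3⟩ := m3 a (Multiset.mem_toFinset.mpr (Multiset.mem_filter.mp ha).1)
      (h3 a ha) ((k, ty k a), e) ⟨rfl, he⟩
    exact ⟨S, k1, k2, fun b hb => ⟨congrArg Subtype.val (k3 b hb).1, (k3 b hb).2⟩⟩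
  refine ⟨Y.filter (· ∈ Mk) + Yu', ?_, fun z hz => ?_⟩
  · rw [Multiset.toFinset_add]
    refine (card_union_le _ _).trans (add_le_add ((card_le_card fun a ha =>
      h2 a (Multiset.mem_toFinset.mp ha)).trans (m2.trans ?_)) (c3.trans ?_))
    · rw [Fintype.card_prod, Fintype.card_prod, Fintype.card_prod Q Q, ← sq]
      gcongr
    · gcongr
  · conv_lhs => rw [← Multiset.filter_add_not (· ∈ Mk) Y]
    exact ⟨core M w Mk _ _ _ h1 h2 h3 h4 c4 hz, core M w Mk _ _ _ h1 h2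
      (fun a ha => h3 a (c1 a ha)) (fun a ha => h4 a (c1 a ha)) (fun k => (c4 k).symm) hz⟩

end Pool.Agent.Lib.MP_a0040c_lc
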