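import Pool.Agent.Lib.MP_a0040c_lc.Lower

set_option linter.unusedSectionVars false

namespace Pool.Agent.Lib.MP_a0040c_lc

open Finset

variable {Q A T : Type} [DecidableEq Q] [DecidableEq A] [Fintype A] [DecidableEq T] [Fintype T]

/-- count vector of a multiset -/
def mv (Y : Multiset A) : A → ℤ := fun a => (Y.count a : ℤ)

lemma mv_zero : mv (0 : Multiset A) = 0 := by funext a; simp [mv]

lemma mv_add (Y Z : Multiset A) : mv (Y + Z) = mv Y + mv Z := by funext a; simp [mv]

lemma mv_cons (a : A) (Y : Multiset A) : mv (a ::ₘ Y) = Pi.single a 1 + mv Y := by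
  funext b
  by_cases h : b = a
  · subst h; simp [mv, add_comm]
  · simp [mv, h]

lemma mv_nonneg (Y : Multiset A) : 0 ≤ mv Y := fun a => by simp [mv]

lemma mv_inj {Y Z : Multiset A} (h : mv Y = mv Z) : Y = Z := by
  ext a; have := congrFun h a; simpa [mv] using this

lemma exists_mv {x : A → ℤ} (hx : 0 ≤ x) : ∃ Y, mv Y = x := by
  obtain ⟨w, rfl⟩ := exists_pk hx
  exact ⟨w, by funext a; simp [mv, pk]⟩

lemma sum_mv (Y : Multiset A) : ∑ a, mv Y a = Y.card := by
  induction Y using Multiset.induction_on with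
  | empty => simp [mv]
  | cons a Y ih => simp [mv_cons, Finset.sum_add_distrib, ih, add_comm]

lemma mv_le_mv {Y Z : Multiset A} : mv Y ≤ mv Z ↔ Y ≤ Z := by
  rw [Multiset.le_iff_count]
  exact forall_congr' fun a => by simp [mv]

lemma Rch.nonneg {M : GFA Q A} {q r : Q} {x : A → ℤ} (h : Rch M q x r) : 0 ≤ x := by
  obtain ⟨K, l, h⟩ := h; exact h.nonneg

lemma Rch.ind {M : GFA Q A} {r : Q} {P : Q → (A → ℤ) → Prop} (h0 : P r 0)
    (hs : ∀ q p a y, p ∈ M.δ q a → Rch M p y r → P p y → P q (ev a + y)) {q : Q} {x : A → ℤ}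
    (h : Rch M q x r) : P q x := by
  obtain ⟨K, l, h⟩ := h
  induction h with
  | nil q => exact h0
  | cons h hw ih => exact hs _ _ _ _ h ⟨_, _, hw⟩ (ih h0 hs)

lemma Rch.map {Q' : Type} [DecidableEq Q'] {M : GFA Q A} {M' : GFA Q' A} (f : Q → Q')
    (hf : ∀ q o p, p ∈ M.δ q o → f p ∈ M'.δ (f q) o) {q r : Q} {x : A → ℤ} (h : Rch M q x r) :
    Rch M' (f q) x (f r) :=
  Rch.ind (P := fun q x => Rch M' (f q) x (f r)) (Rch.refl _ _)
    (fun _ _ _ _ h _ ih => (Rch.step (hf _ _ _ h)).trans ih) h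

/-- relabelling along a relation -/
def GFA.lift (M : GFA Q T) (R : Option A → T → Prop) : GFA Q A :=
  ⟨fun q o => {p | (o = none ∧ p ∈ M.δ q none) ∨ ∃ t, R o t ∧ p ∈ M.δ q (some t)}, M.q0, M.F⟩

/-- label vector -/
def lab (Φ : Multiset (Option A × T)) : A → ℤ := (Φ.map fun e => ev e.1).sum

lemma lab_zero : lab (0 : Multiset (Option A × T)) = 0 := by simp [lab]

lemma lab_cons (e : Option A × T) (Φ : Multiset (Option A × T)) :
    lab (e ::ₘ Φ) = ev e.1 + lab Φ := by simp [lab]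

lemma lab_add (Φ Ψ : Multiset (Option A × T)) : lab (Φ + Ψ) = lab Φ + lab Ψ := by simp [lab]

lemma rch_lift (M : GFA Q T) (R : Option A → T → Prop) (q r : Q) (x : A → ℤ) :
    Rch (M.lift R) q x r ↔ ∃ Φ : Multiset (Option A × T), (∀ e ∈ Φ, R e.1 e.2) ∧ lab Φ = x ∧
      Rch M q (mv (Φ.map Prod.snd)) r := by
  constructor
  · intro h
    refine Rch.ind (P := fun q x => ∃ Φ : Multiset (Option A × T), (∀ e ∈ Φ, R e.1 e.2) ∧
      lab Φ = x ∧ Rch M q (mv (Φ.map Prod.snd)) r) ⟨0, by simp, lab_zero, ?_⟩ ?_ h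
    · simpa [mv_zero] using Rch.refl M r
    · rintro q p a y (⟨rfl, hp⟩ | ⟨t, ht, hp⟩) - ⟨Φ, h1, h2, h3⟩
      · refine ⟨Φ, h1, by simp [ev_none, h2], ?_⟩
        simpa [ev_none] using (Rch.step hp).trans h3
      · refine ⟨(a, t) ::ₘ Φ, ?_, by rw [lab_cons, h2], ?_⟩
        · intro e he
          rcases Multiset.mem_cons.mp he with rfl | he
          · exact ht
          · exact h1 e he
        · rw [Multiset.map_cons, mv_cons, ← ev_some]
          exact (Rch.step hp).trans h3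
  · rintro ⟨Φ, h1, rfl, h3⟩
    have key : ∀ {q : Q} {y : T → ℤ}, Rch M q y r → ∀ Φ : Multiset (Option A × T),
        (∀ e ∈ Φ, R e.1 e.2) → mv (Φ.map Prod.snd) = y → Rch (M.lift R) q (lab Φ) r := by
      intro q y h
      refine Rch.ind (P := fun q y => ∀ Φ : Multiset (Option A × T),
        (∀ e ∈ Φ, R e.1 e.2) → mv (Φ.map Prod.snd) = y → Rch (M.lift R) q (lab Φ) r) ?_ ?_ h
      · intro Φ _ h
        rw [← mv_zero] at h
        rw [Multiset.map_eq_zero.mp (mv_inj h), lab_zero]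
        exact Rch.refl _ _
      · intro q p a y hp hr ih Φ h1 h2
        cases a with
        | none =>
          rw [ev_none, zero_add] at h2
          simpa [ev_none] using (Rch.step (M := M.lift R) (a := none) (Or.inl ⟨rfl, hp⟩)).trans
            (ih Φ h1 h2)
        | some t =>
          have ht : t ∈ Φ.map Prod.snd := by
            have a1 := congrFun h2 t
            have a2 := hr.nonneg t
            simp only [mv, ev_some, Pi.add_apply, Pi.single_eq_same, Pi.zero_apply] at a1 a2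
            exact Multiset.count_pos.mp (by omega)
          obtain ⟨e, he, rfl⟩ := Multiset.mem_map.mp ht
          obtain ⟨Φ', rfl⟩ := Multiset.exists_cons_of_mem he
          rw [Multiset.map_cons, mv_cons, ev_some] at h2
          rw [lab_cons]
          exact (Rch.step (M := M.lift R) (Or.inr ⟨e.2, h1 e he, hp⟩)).trans
            (ih Φ' (fun e he => h1 e (Multiset.mem_cons_of_mem he)) (add_left_cancel h2))
    exact key h3 Φ h1 rfl

lemma mem_PI_iff {M : GFA Q A} {x : A → ℤ} : x ∈ PI M ↔ ∃ r ∈ M.F, Rch M M.q0 x r := Iff.rfl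

lemma mem_PI_lift (M : GFA Q T) (R : Option A → T → Prop) (x : A → ℤ) :
    x ∈ PI (M.lift R) ↔ ∃ Φ : Multiset (Option A × T), (∀ e ∈ Φ, R e.1 e.2) ∧ lab Φ = x ∧
      mv (Φ.map Prod.snd) ∈ PI M := by
  simp only [mem_PI_iff, rch_lift]
  constructor
  · rintro ⟨r, hr, Φ, h1, h2, h3⟩; exact ⟨Φ, h1, h2, r, hr, h3⟩
  · rintro ⟨Φ, h1, h2, r, hr, h3⟩; exact ⟨r, hr, Φ, h1, h2, h3⟩

/-- push-forward of vectors along a map of alphabets -/
def cm (ρ : A → T) : (A → ℤ) →+ (T → ℤ) where
  toFun x := ∑ a, Pi.single (ρ a) (x a)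
  map_zero' := by simp
  map_add' x y := by simp [Pi.single_add, Finset.sum_add_distrib]

lemma cm_single (ρ : A → T) (a : A) (c : ℤ) : cm ρ (Pi.single a c) = Pi.single (ρ a) c := by
  change ∑ b, _ = _
  rw [Finset.sum_eq_single a]
  · simp
  · intro b _ hb; simp [hb]
  · simp

lemma cm_apply (ρ : A → T) (x : A → ℤ) (t : T) :
    cm ρ x t = ∑ a ∈ univ.filter (fun a => ρ a = t), x a := by
  change (∑ a, Pi.single (ρ a) (x a) : T → ℤ) t = _
  rw [Finset.sum_apply, Finset.sum_filter]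
  refine Finset.sum_congr rfl fun a _ => ?_
  by_cases h : ρ a = t
  · subst h; simp
  · simp [h, Ne.symm h]

lemma cm_nonneg (ρ : A → T) {x : A → ℤ} (hx : 0 ≤ x) : 0 ≤ cm ρ x := fun t => by
  rw [cm_apply]; exact Finset.sum_nonneg fun a _ => hx a

lemma cm_mv (ρ : A → T) (Y : Multiset A) : cm ρ (mv Y) = mv (Y.map ρ) := by
  induction Y using Multiset.induction_on with
  | empty => simp [mv_zero]
  | cons a Y ih => rw [mv_cons, map_add, cm_single, ih, Multiset.map_cons, mv_cons]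

/-- inverse image under a letter-to-letter map -/
def GFA.comap (M : GFA Q T) (ρ : A → T) : GFA Q A := M.lift fun o t => ∃ a, o = some a ∧ ρ a = t

lemma mem_PI_comap (M : GFA Q T) (ρ : A → T) (x : A → ℤ) :
    x ∈ PI (M.comap ρ) ↔ 0 ≤ x ∧ cm ρ x ∈ PI M := by
  constructor
  · intro h
    refine ⟨PI.nonneg h, ?_⟩
    obtain ⟨Φ, h1, rfl, h3⟩ := (mem_PI_lift _ _ _).mp h
    have : cm ρ (lab Φ) = mv (Φ.map Prod.snd) := by
      clear h h3
      induction Φ using Multiset.induction_on with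
      | empty => simp [lab_zero, mv_zero]
      | cons e Φ ih =>
        obtain ⟨a, ha, hb⟩ := h1 e (Multiset.mem_cons_self _ _)
        rw [lab_cons, map_add, ih fun e he => h1 e (Multiset.mem_cons_of_mem he), ha, ev_some,
          cm_single, hb, Multiset.map_cons, mv_cons]
    rwa [this]
  · rintro ⟨hx, h⟩
    obtain ⟨Y, rfl⟩ := exists_mv hx
    refine (mem_PI_lift _ _ _).mpr ⟨Y.map fun a => (some a, ρ a), ?_, ?_, ?_⟩
    · intro e he
      obtain ⟨a, -, rfl⟩ := Multiset.mem_map.mp he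
      exact ⟨a, rfl, rfl⟩
    · clear h hx
      induction Y using Multiset.induction_on with
      | empty => simp [lab_zero, mv_zero]
      | cons a Y ih => rw [Multiset.map_cons, lab_cons, ih, mv_cons, ev_some]
    · rw [cm_mv] at h
      simpa [Multiset.map_map] using h

end Pool.Agent.Lib.MP_a0040c_lc
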