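import Pool.Agent.Lib.MP_a0040c_lc.Upper

set_option linter.unusedSectionVars false

namespace Pool.Agent.Lib.MP_a0040c_lc

open Finset

section transport

lemma exists_transport {Q Q' A : Type} (M : GFA Q A) (e : Q ↪ Q') :
    ∃ M' : GFA Q' A, M'.LJ = M.LJ := by
  refine ⟨⟨fun q' a => {p' | ∃ q p, q' = e q ∧ p' = e p ∧ p ∈ M.δ q a}, e M.q0, e '' M.F⟩, ?_⟩
  set M' : GFA Q' A :=
    ⟨fun q' a => {p' | ∃ q p, q' = e q ∧ p' = e p ∧ p ∈ M.δ q a}, e M.q0, e '' M.F⟩
  ext w
  constructor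
  · rintro ⟨_, ⟨r, hr, rfl⟩, h⟩
    have key : ∀ d : Q' × List A, Relation.ReflTransGen M'.Jump (e M.q0, w) d →
        ∃ p, d.1 = e p ∧ Relation.ReflTransGen M.Jump (M.q0, w) (p, d.2) := by
      intro d hd
      induction hd with
      | refl => exact ⟨M.q0, rfl, .refl⟩
      | tail _ hbc ih =>
        obtain ⟨p, hp, hr⟩ := ih
        obtain ⟨u, v, a, h1, h2, q, p', h3, h4, h5⟩ := hbc
        obtain rfl : p = q := e.injective (hp.symm.trans h3)
        exact ⟨p', h4, hr.tail ⟨u, v, a, h1, h2, h5⟩⟩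
    obtain ⟨p, hp, h⟩ := key _ h
    obtain rfl : r = p := e.injective hp
    exact ⟨r, hr, h⟩
  · rintro ⟨r, hr, h⟩
    refine ⟨e r, ⟨r, hr, rfl⟩, ?_⟩
    have key : ∀ d : Q × List A, Relation.ReflTransGen M.Jump (M.q0, w) d →
        Relation.ReflTransGen M'.Jump (e M.q0, w) (e d.1, d.2) := by
      intro d hd
      induction hd with
      | refl => exact .refl
      | @tail b c _ hbc ih =>
        obtain ⟨u, v, a, h1, h2, h3⟩ := hbc
        exact ih.tail ⟨u, v, a, h1, h2, b.1, c.1, rfl, rfl, h3⟩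
    exact key _ h

lemma cost_upper (n k : ℕ) :
    cost n k ≤ (landau n * ((k + 1) * n) ^ ((k + 1) * (k + 2))) ^ k := by
  apply csSup_le'
  rintro _ ⟨M, hM, rfl⟩
  simpa using sc_upper M hM

lemma le_cost {Q : Type} [Fintype Q] {n k : ℕ} (M : GFA Q (Fin k)) (hQ : Fintype.card Q ≤ n)
    (hM : M.LJ.IsRegular) : sc M.LJ ≤ cost n k := by
  obtain ⟨e⟩ : Nonempty (Q ↪ Fin n) := Function.Embedding.nonempty_of_card_le (by simpa using hQ)
  obtain ⟨M', hM'⟩ := exists_transport M e
  refine le_csSup ⟨(landau n * ((k + 1) * n) ^ ((k + 1) * (k + 2))) ^ k, ?_⟩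
    ⟨M', hM' ▸ hM, by rw [hM']⟩
  rintro _ ⟨M, hM, rfl⟩
  simpa using sc_upper M hM

end transport

variable {Q A : Type} [DecidableEq Q] [DecidableEq A] [Fintype A]

lemma pk_cons (a : A) (w : List A) : pk (a :: w) = ev (some a) + pk w := by
  simpa using pk_split [] w (some a)

lemma ev_some (a : A) : ev (some a) = Pi.single a 1 := by
  funext j; by_cases h : j = a
  · subst h; simp [ev]
  · simp [ev, h, Ne.symm h]

lemma ev_none : ev (none : Option A) = 0 := by funext j; simp [ev]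

lemma sum_pk (w : List A) : ∑ j, pk w j = w.length := by
  induction w with
  | nil => simp [pk]
  | cons a w ih => simp [pk_cons, ev_some, Finset.sum_add_distrib, ih, add_comm]

def Rch (M : GFA Q A) (q : Q) (x : A → ℤ) (r : Q) : Prop := ∃ K l, Walk M q K l x r

lemma Rch.refl (M : GFA Q A) (q : Q) : Rch M q 0 q := ⟨_, _, .nil q⟩

lemma Rch.trans {M : GFA Q A} {q p r : Q} {x y : A → ℤ} (h : Rch M q x p) (h' : Rch M p y r) :
    Rch M q (x + y) r := by
  obtain ⟨K, l, h⟩ := h; obtain ⟨K', l', h'⟩ := h'; exact ⟨_, _, h.trans h'⟩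

lemma Rch.step {M : GFA Q A} {q p : Q} {a : Option A} (h : p ∈ M.δ q a) : Rch M q (ev a) p :=
  ⟨_, _, by simpa using Walk.cons h (.nil p)⟩

lemma Rch.loops {M : GFA Q A} {q : Q} {y : A → ℤ} (hy : 0 ≤ y)
    (h : ∀ a, y a ≠ 0 → q ∈ M.δ q (some a)) : Rch M q y q := by
  obtain ⟨w, rfl⟩ := exists_pk hy
  have : ∀ a ∈ w, q ∈ M.δ q (some a) := fun a ha => h a (by
    simpa [pk, List.count_eq_zero] using ha)
  clear h hy
  induction w with
  | nil => exact Rch.refl M q
  | cons a w ih =>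
    rw [pk_cons]
    exact (Rch.step (this a (by simp))).trans (ih fun b hb => this b (by simp [hb]))

lemma PI_ind {M : GFA Q A} (Φ : Q → (A → ℤ) → Prop) (h0 : ∀ r ∈ M.F, Φ r 0)
    (hs : ∀ q p a y, p ∈ M.δ q a → Φ p y → Φ q (ev a + y)) {x : A → ℤ} (hx : x ∈ PI M) :
    Φ M.q0 x := by
  obtain ⟨r, hr, K, l, hw⟩ := hx
  have : ∀ {q K l x r}, Walk M q K l x r → r ∈ M.F → Φ q x := by
    intro q K l x r hw
    induction hw with
    | nil q => exact h0 q
    | cons h _ ih => exact fun hr => hs _ _ _ _ h (ih hr)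
  exact this hw hr

section construction

variable {T : Type} {m : ℕ} (I : T → Finset A) (σ : Equiv.Perm (Fin m))

def Rep (z : Fin m) : Prop := ∀ z', σ.SameCycle z z' → z ≤ z'

inductive St (T A : Type) (m : ℕ)
  | start
  | cyc (t : T) (z : Fin m)
  | U (t : T) (j : A)
  | V (t : T) (j : A)
  deriving DecidableEq

def stEquiv (T A : Type) (m : ℕ) : St T A m ≃ Option (T × (Fin m ⊕ A ⊕ A)) where
  toFun
    | .start => none
    | .cyc t z => some (t, .inl z)
    | .U t j => some (t, .inr (.inl j))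
    | .V t j => some (t, .inr (.inr j))
  invFun
    | none => .start
    | some (t, .inl z) => .cyc t z
    | some (t, .inr (.inl j)) => .U t j
    | some (t, .inr (.inr j)) => .V t j
  left_inv := by rintro (_ | _ | _ | _) <;> rfl
  right_inv := by rintro (_ | ⟨t, _ | _ | _⟩) <;> rfl

inductive Tr : St T A m → Option A → St T A m → Prop
  | s (t z) : Rep σ z → Tr .start none (.cyc t z)
  | c (t z a) : a ∈ I t → Tr (.cyc t z) (some a) (.cyc t (σ z))
  | e (t z j) : ¬ Rep σ z → Tr (.cyc t z) none (.U t j)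
  | l (t j a) : a ∉ I t → a ≠ j → Tr (.U t j) (some a) (.U t j)
  | u (t j) : j ∉ I t → Tr (.U t j) (some j) (.V t j)
  | v (t j a) : a ∈ I t → Tr (.V t j) (some a) (.U t j)

def aut : GFA (St T A m) A := ⟨fun q a => {p | Tr I σ q a p}, .start, {q | ∃ t j, q = .U t j}⟩

variable [DecidableEq T]

lemma aut_sound {x : A → ℤ} (hx : x ∈ PI (aut I σ)) : ¬ ∀ i, (orderOf σ : ℤ) ∣ x i := by
  let Φ : St T A m → (A → ℤ) → Prop
    | .start, y => ¬ ∀ i, (orderOf σ : ℤ) ∣ y i
    | .cyc t z, y => ∃ (s : ℕ) (j : A), ¬ Rep σ ((σ ^ s) z) ∧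
        ∑ a ∈ I t, y a = s + if j ∈ I t then 0 else y j
    | .U t j, y => ∑ a ∈ I t, y a = if j ∈ I t then 0 else y j
    | .V t j, y => j ∉ I t → ∑ a ∈ I t, y a = y j + 1
  refine PI_ind Φ ?_ ?_ hx
  · rintro _ ⟨t, j, rfl⟩; simp [Φ]
  · intro q p a y h hp
    have hin : ∀ t a, a ∈ I t → ∑ b ∈ I t, (Pi.single a 1 : A → ℤ) b = 1 := fun t a ha => by
      rw [Finset.sum_eq_single_of_mem a ha (fun b _ hb => Pi.single_eq_of_ne hb _)]; simp
    have hout : ∀ t a, a ∉ I t → ∑ b ∈ I t, (Pi.single a 1 : A → ℤ) b = 0 := fun t a ha =>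
      Finset.sum_eq_zero fun b hb => Pi.single_eq_of_ne (by rintro rfl; exact ha hb) _
    cases h with
    | s t z hz =>
      obtain ⟨s, j, h1, h2⟩ := hp
      simp only [Φ, ev_none, zero_add]
      intro hall
      have h3 : (orderOf σ : ℤ) ∣ s := by
        have a1 : (orderOf σ : ℤ) ∣ ∑ a ∈ I t, y a := Finset.dvd_sum fun a _ => hall a
        have a2 : (orderOf σ : ℤ) ∣ if j ∈ I t then 0 else y j := by
          split_ifs
          · exact dvd_zero _
          · exact hall j
        rw [h2] at a1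
        exact (dvd_add_left a2).mp a1
      have h4 : σ ^ s = 1 := orderOf_dvd_iff_pow_eq_one.mp (by exact_mod_cast h3)
      rw [h4] at h1
      exact h1 hz
    | c t z a ha =>
      obtain ⟨s, j, h1, h2⟩ := hp
      refine ⟨s + 1, j, by rwa [pow_succ, Equiv.Perm.mul_apply], ?_⟩
      simp only [ev_some, Pi.add_apply, Finset.sum_add_distrib, hin t a ha, h2]
      split_ifs with hj
      · push_cast; ring
      · rw [Pi.single_eq_of_ne (by rintro rfl; exact hj ha)]; push_cast; ring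
    | e t z j hz => exact ⟨0, j, by simpa using hz, by simpa [ev_none] using hp⟩
    | l t j a ha haj =>
      simp only [Φ, ev_some, Pi.add_apply, Finset.sum_add_distrib, hout t a ha] at hp ⊢
      rw [hp, Pi.single_eq_of_ne haj.symm]; simp
    | u t j hj =>
      simp only [Φ, ev_some, Pi.add_apply, Finset.sum_add_distrib, hout t j hj] at hp ⊢
      rw [hp hj]; simp [hj, add_comm]
    | v t j a ha =>
      simp only [Φ, ev_some, Pi.add_apply, Finset.sum_add_distrib, hin t a ha] at hp ⊢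
      intro hj
      rw [hp, Pi.single_eq_of_ne (by rintro rfl; exact hj ha)]; simp [hj, add_comm]

lemma rch_cyc (t : T) (w : List A) (hw : ∀ a ∈ w, a ∈ I t) (z : Fin m) :
    Rch (aut I σ) (.cyc t z) (pk w) (.cyc t ((σ ^ w.length) z)) := by
  induction w generalizing z with
  | nil => exact Rch.refl _ _
  | cons a w ih =>
    rw [pk_cons, List.length_cons, pow_succ, Equiv.Perm.mul_apply]
    exact (Rch.step (Tr.c t z a (hw a (by simp)))).trans (ih (fun b hb => hw b (by simp [hb])) _)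

lemma rch_pair (t : T) (j : A) (hj : j ∉ I t) (w : List A) (hw : ∀ a ∈ w, a ∈ I t) :
    Rch (aut I σ) (.U t j) (pk w + Pi.single j (w.length : ℤ)) (.U t j) := by
  induction w with
  | nil => simpa [pk_nil] using Rch.refl _ _
  | cons a w ih =>
    have := ((Rch.step (M := aut I σ) (Tr.u t j hj)).trans
      (Rch.step (Tr.v t j a (hw a (by simp))))).trans (ih (fun b hb => hw b (by simp [hb])))
    convert this using 1
    rw [pk_cons, List.length_cons, ev_some j]
    push_cast
    rw [Pi.single_add]; abel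

lemma exists_rep {s : ℕ} (h : σ ^ s ≠ 1) : ∃ z, Rep σ z ∧ ¬ Rep σ ((σ ^ s) z) := by
  classical
  obtain ⟨z', hz'⟩ : ∃ z', (σ ^ s) z' ≠ z' := by
    by_contra hc; push Not at hc; exact h (Equiv.ext hc)
  obtain ⟨z, hz, hmin⟩ := exists_min_image (univ.filter fun z => σ.SameCycle z' z) id
    ⟨z', by simp [Equiv.Perm.SameCycle.refl]⟩
  have hz1 : σ.SameCycle z' z := (mem_filter.mp hz).2
  have hrep : Rep σ z := fun y hy => hmin y (mem_filter.mpr ⟨mem_univ _, hz1.trans hy⟩)
  refine ⟨z, hrep, fun h2 => ?_⟩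
  have hsc : σ.SameCycle z ((σ ^ s) z) := ⟨s, by simp⟩
  have h3 : (σ ^ s) z = z := le_antisymm (h2 z hsc.symm) (hrep _ hsc)
  obtain ⟨r, rfl⟩ := hz1
  apply hz'
  apply (σ ^ r).injective
  rw [← h3, ← Equiv.Perm.mul_apply, ← Equiv.Perm.mul_apply]
  congr 1
  exact (((Commute.refl σ).zpow_left r).pow_right s).eq

lemma aut_complete (hsep : ∀ i j, i ≠ j → ∃ t, i ∈ I t ∧ j ∉ I t) (hcov : ∀ i, ∃ t, i ∈ I t)
    {x : A → ℤ} (hx : 0 ≤ x) (h : ¬ ∀ i, (orderOf σ : ℤ) ∣ x i) : x ∈ PI (aut I σ) := by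
  obtain ⟨t, j, h1, h2⟩ : ∃ t j, (if j ∈ I t then 0 else x j) ≤ ∑ a ∈ I t, x a ∧
      ¬ (orderOf σ : ℤ) ∣ ∑ a ∈ I t, x a - if j ∈ I t then 0 else x j := by
    by_cases hc : ∃ t, ¬ (orderOf σ : ℤ) ∣ ∑ a ∈ I t, x a
    · obtain ⟨t, ht⟩ := hc
      obtain ⟨j, hj⟩ : (I t).Nonempty := by
        rw [nonempty_iff_ne_empty]; intro h0; simp [h0] at ht
      exact ⟨t, j, by simpa [hj] using Finset.sum_nonneg fun a _ => hx a, by simpa [hj] using ht⟩
    · push Not at hc h
      obtain ⟨i0, hi0⟩ := h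
      obtain ⟨i, -, hi⟩ := exists_max_image univ x ⟨i0, mem_univ _⟩
      by_cases hd : ∃ j, j ≠ i ∧ ¬ (orderOf σ : ℤ) ∣ x j
      · obtain ⟨j, hji, hj⟩ := hd
        obtain ⟨t, ht1, ht2⟩ := hsep i j hji.symm
        refine ⟨t, j, ?_, ?_⟩
        · simp only [ht2, if_false]
          exact (hi j (mem_univ _)).trans (Finset.single_le_sum (fun a _ => hx a) ht1)
        · simp only [ht2, if_false]
          intro hdv
          exact hj ((dvd_sub_right (hc t)).mp hdv)
      · exfalso
        push Not at hd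
        obtain rfl : i0 = i := by by_contra hne; exact hi0 (hd i0 hne)
        obtain ⟨t, ht⟩ := hcov i0
        have := hc t
        rw [← Finset.add_sum_erase _ _ ht] at this
        exact hi0 ((dvd_add_left (Finset.dvd_sum fun a ha => hd a (mem_erase.mp ha).1)).mp this)
  obtain ⟨w, hw⟩ := exists_pk (x := fun a => if a ∈ I t then x a else 0) (by
    intro a; have := hx a; dsimp only; split_ifs <;> first | exact le_rfl | exact this)
  have hwI : ∀ a ∈ w, a ∈ I t := by
    intro a ha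
    by_contra hna
    have := congrFun hw a
    simp [pk, hna, List.count_eq_zero] at this
    exact this ha
  have hlen : (w.length : ℤ) = ∑ a ∈ I t, x a := by
    rw [← sum_pk, hw, ← Finset.sum_filter]; simp
  have hχ : 0 ≤ (if j ∈ I t then 0 else x j) := by
    have := hx j; split_ifs <;> first | exact le_rfl | exact this
  set s : ℕ := (∑ a ∈ I t, x a - if j ∈ I t then 0 else x j).toNat with hs
  have hs' : (s : ℤ) = ∑ a ∈ I t, x a - if j ∈ I t then 0 else x j :=
    Int.toNat_of_nonneg (by omega)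
  have hσ : σ ^ s ≠ 1 := by
    intro h0
    apply h2
    rw [← hs']
    exact_mod_cast orderOf_dvd_iff_pow_eq_one.mpr h0
  obtain ⟨z, hz1, hz2⟩ := exists_rep σ hσ
  have hsl : s ≤ w.length := by omega
  have r1 := rch_cyc I σ t (w.take s) (fun a ha => hwI a (List.mem_of_mem_take ha)) z
  rw [List.length_take_of_le hsl] at r1
  have r2 : Rch (aut I σ) (.U t j) (fun a => if a ∈ I t ∨ a = j then 0 else x a) (.U t j) :=
    Rch.loops (by intro a; have := hx a; dsimp only; split_ifs <;> first | exact le_rfl | exact this) (by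
      intro a ha
      have : ¬ (a ∈ I t ∨ a = j) := by intro h; simp [h] at ha
      push Not at this
      exact Tr.l t j a this.1 this.2)
  have r3 : Rch (aut I σ) (.U t j)
      (pk (w.drop s) + Pi.single j (if j ∈ I t then 0 else x j)) (.U t j) := by
    have hd : ((w.drop s).length : ℤ) = if j ∈ I t then 0 else x j := by
      rw [List.length_drop, Nat.cast_sub hsl]; omega
    by_cases hj : j ∈ I t
    · simp only [hj, if_true] at hd ⊢
      have : w.drop s = [] := List.eq_nil_of_length_eq_zero (by exact_mod_cast hd)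
      rw [this]; simpa [pk_nil] using Rch.refl _ _
    · rw [← hd]
      exact rch_pair I σ t j hj _ fun a ha => hwI a (List.mem_of_mem_drop ha)
  obtain ⟨K, l, hfin⟩ := ((((Rch.step (M := aut I σ) (Tr.s t z hz1)).trans r1).trans
    (Rch.step (Tr.e t _ j hz2))).trans r3).trans r2
  refine ⟨.U t j, ⟨t, j, rfl⟩, K, l, ?_⟩
  convert hfin using 1
  · rfl
  rw [ev_none, zero_add, add_zero, ← add_assoc, ← pk_append, List.take_append_drop, hw]
  funext a
  by_cases g1 : a ∈ I t <;> by_cases g2 : a = j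
  · subst g2; simp [g1]
  · simp [g1, g2]
  · subst g2; simp [g1]
  · simp [g1, g2]

end construction

lemma sc_nondiv (L : Language A) (g : ℕ) (hg : 0 < g) (hL : ∀ w, w ∈ L ↔ ¬ ∀ i, (g : ℤ) ∣ pk w i) :
    L.IsRegular ∧ g ^ Fintype.card A ≤ sc L := by
  have hreg := (sc_le_of_periodic L {x | ¬ ∀ i, (g : ℤ) ∣ x i} hL 0 g (fun i => ⟨g, hg, le_rfl,
    fun x _ _ => by
      simp only [Set.mem_ofPred_eq, not_iff_not]
      refine forall_congr' fun j => ?_
      by_cases h : j = i
      · subst h; simp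
      · simp [h]⟩)).1
  refine ⟨hreg, ?_⟩
  have : ∀ y : A → Fin g, ∃ w, pk w = fun j => ((y j : ℕ) : ℤ) := fun y =>
    exists_pk (fun j => by simp)
  choose w hw using this
  have := le_sc L hreg w (by
    intro y y' h
    simp only at h
    obtain ⟨z, hz⟩ := exists_pk (x := fun j => (g : ℤ) - (y j : ℕ)) (fun j => by
      have := (y j).2; simp only [Pi.zero_apply]; omega)
    have h1 : z ∉ L.leftQuotient (w y) := by
      rw [Language.mem_leftQuotient, hL, pk_append, hw, hz]; simp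
    rw [h, Language.mem_leftQuotient, hL, pk_append, hw, hz, not_not] at h1
    funext j
    have h2 := h1 j
    simp only [Pi.add_apply] at h2
    have h3 : (g : ℤ) ∣ (y' j : ℕ) - (y j : ℕ) := by
      have := dvd_sub h2 (dvd_refl (g : ℤ))
      rwa [show ((y' j : ℕ) : ℤ) + (g - (y j : ℕ)) - g = (y' j : ℕ) - (y j : ℕ) by ring] at this
    have h4 := (y j).2
    have h5 := (y' j).2
    have h6 := Int.eq_zero_of_abs_lt_dvd h3 (by rw [abs_lt]; omega)
    apply Fin.ext; omega)
  simpa using this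

theorem cost_lower (n k R m : ℕ) (hR : 1 ≤ R) (hk : k ≤ R.choose ((R + 1) / 2))
    (hn : 1 + R * (m + 2 * k) ≤ n) : landau m ^ k ≤ cost n k := by
  classical
  obtain ⟨σ, -, hσ⟩ := Finset.exists_mem_eq_sup (univ : Finset (Equiv.Perm (Fin m))) univ_nonempty
    fun σ => orderOf σ
  obtain ⟨e⟩ : Nonempty (Fin k ↪ (powersetCard ((R + 1) / 2) (univ : Finset (Fin R)))) :=
    Function.Embedding.nonempty_of_card_le (by simpa using hk)
  let I : Fin R → Finset (Fin k) := fun t => univ.filter fun i => t ∈ (e i).1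
  have hcard : ∀ i, (e i).1.card = (R + 1) / 2 := fun i => (mem_powersetCard.mp (e i).2).2
  have hsep : ∀ i j, i ≠ j → ∃ t, i ∈ I t ∧ j ∉ I t := by
    intro i j hij
    by_contra hc
    push Not at hc
    apply hij
    apply e.injective
    apply Subtype.ext
    apply eq_of_subset_of_card_le _ (by rw [hcard, hcard])
    intro t ht
    simpa [I] using hc t (by simpa [I] using ht)
  have hcov : ∀ i, ∃ t, i ∈ I t := by
    intro i
    obtain ⟨t, ht⟩ : (e i).1.Nonempty := card_pos.mp (by rw [hcard]; omega)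
    exact ⟨t, by simpa [I] using ht⟩
  have : Fintype (St (Fin R) (Fin k) m) := Fintype.ofEquiv _ (stEquiv _ _ _).symm
  obtain ⟨h1, h2⟩ := sc_nondiv (aut I σ).LJ (orderOf σ) (orderOf_pos σ) (fun w => by
    rw [mem_LJ_iff]
    exact ⟨aut_sound I σ, aut_complete I σ hsep hcov (pk_nonneg w)⟩)
  rw [landau, hσ]
  refine le_trans (by simpa using h2) (le_cost (aut I σ) ?_ h1)
  rw [Fintype.card_congr (stEquiv _ _ _)]
  simp only [Fintype.card_option, Fintype.card_prod, Fintype.card_sum, Fintype.card_fin]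
  nlinarith

end Pool.Agent.Lib.MP_a0040c_lc
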