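import Pool.Agent.Lib.MP_a0040c_lc.Lift

set_option linter.unusedSectionVars false

namespace Pool.Agent.Lib.MP_a0040c_lc

open Finset Pointwise

variable {A T : Type} [DecidableEq A] [Fintype A] [DecidableEq T] [Fintype T]

/-- `S` is the Parikh image of an automaton with `n` states. -/
def NJ (S : Set (A → ℤ)) (n : ℕ) : Prop := ∃ M : GFA (Fin n) A, PI M = S

lemma PI_eq_of_LJ {Q Q' : Type} [DecidableEq Q] [DecidableEq Q'] {M : GFA Q A} {M' : GFA Q' A}
    (h : M'.LJ = M.LJ) : PI M' = PI M := by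
  ext x
  constructor
  · intro hx
    obtain ⟨w, rfl⟩ := exists_pk (PI.nonneg hx)
    rwa [← mem_LJ_iff, h, mem_LJ_iff] at hx
  · intro hx
    obtain ⟨w, rfl⟩ := exists_pk (PI.nonneg hx)
    rwa [← mem_LJ_iff, ← h, mem_LJ_iff] at hx

lemma NJ.of {Q : Type} [Fintype Q] [DecidableEq Q] (M : GFA Q A) {n : ℕ}
    (h : Fintype.card Q ≤ n) {S : Set (A → ℤ)} (hS : PI M = S) : NJ S n := by
  obtain ⟨e⟩ : Nonempty (Q ↪ Fin n) := Function.Embedding.nonempty_of_card_le (by simpa using h)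
  obtain ⟨M', hM'⟩ := exists_transport M e
  exact ⟨M', (PI_eq_of_LJ hM').trans hS⟩

lemma NJ.mono {S : Set (A → ℤ)} {n m : ℕ} (h : NJ S n) (hnm : n ≤ m) : NJ S m := by
  obtain ⟨M, hM⟩ := h
  exact NJ.of M (by simpa using hnm) hM

lemma NJ.nonneg {S : Set (A → ℤ)} {n : ℕ} (h : NJ S n) {x : A → ℤ} (hx : x ∈ S) : 0 ≤ x := by
  obtain ⟨M, rfl⟩ := h; exact PI.nonneg hx

lemma NJ.comap {S : Set (T → ℤ)} {n : ℕ} (h : NJ S n) (ρ : A → T) :
    NJ {x | 0 ≤ x ∧ cm ρ x ∈ S} n := by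
  obtain ⟨M, rfl⟩ := h
  exact ⟨M.comap ρ, Set.ext fun x => mem_PI_comap M ρ x⟩

lemma NJ.empty : NJ (∅ : Set (A → ℤ)) 1 :=
  ⟨⟨fun _ _ => ∅, 0, ∅⟩, by ext x; simp [PI]⟩

lemma NJ.letters (U : Set (Option A)) : NJ (ev '' U) 2 := by
  refine NJ.of (Q := Bool) ⟨fun q o => {p | q = false ∧ p = true ∧ o ∈ U}, false, {true}⟩
    (by simp) ?_
  ext x
  constructor
  · intro hx
    refine PI_ind (fun q y => (q = false → y ∈ ev '' U) ∧ (q = true → y = 0)) ?_ ?_ hx |>.1 rfl
    · rintro _ rfl; simp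
    · rintro q p a y ⟨rfl, rfl, h⟩ hp
      simp only [hp.2 rfl, add_zero]
      exact ⟨fun _ => ⟨a, h, rfl⟩, by simp⟩
  · rintro ⟨o, ho, rfl⟩
    exact ⟨true, rfl, Rch.step (M := ⟨fun q o => {p | q = false ∧ p = true ∧ o ∈ U}, false, {true}⟩)
      ⟨rfl, rfl, ho⟩⟩

/-- vectors accepted from a given state -/
def Acc {Q : Type} [DecidableEq Q] (M : GFA Q A) (q : Q) : Set (A → ℤ) :=
  {y | ∃ r ∈ M.F, Rch M q y r}

lemma Acc.step {Q : Type} [DecidableEq Q] {M : GFA Q A} {q p : Q} {o : Option A} {y : A → ℤ}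
    (h : p ∈ M.δ q o) (hy : y ∈ Acc M p) : ev o + y ∈ Acc M q := by
  obtain ⟨r, hr, hy⟩ := hy
  exact ⟨r, hr, (Rch.step h).trans hy⟩

lemma Acc.fin {Q : Type} [DecidableEq Q] {M : GFA Q A} {q : Q} (h : q ∈ M.F) : 0 ∈ Acc M q :=
  ⟨q, h, Rch.refl _ _⟩

section
variable {Q Q' : Type} (M : GFA Q A) (M' : GFA Q' A)

inductive TrU : Option (Q ⊕ Q') → Option A → Option (Q ⊕ Q') → Prop
  | s1 : TrU none none (some (.inl M.q0))
  | s2 : TrU none none (some (.inr M'.q0))
  | l {q o p} : p ∈ M.δ q o → TrU (some (.inl q)) o (some (.inl p))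
  | r {q o p} : p ∈ M'.δ q o → TrU (some (.inr q)) o (some (.inr p))

inductive TrS : Q ⊕ Q' → Option A → Q ⊕ Q' → Prop
  | l {q o p} : p ∈ M.δ q o → TrS (.inl q) o (.inl p)
  | m {q} : q ∈ M.F → TrS (.inl q) none (.inr M'.q0)
  | r {q o p} : p ∈ M'.δ q o → TrS (.inr q) o (.inr p)

inductive TrC : Option Q → Option A → Option Q → Prop
  | s : TrC none none (some M.q0)
  | l {q o p} : p ∈ M.δ q o → TrC (some q) o (some p)
  | e {q} : q ∈ M.F → TrC (some q) none none

end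

lemma NJ.union {S S' : Set (A → ℤ)} {n n' : ℕ} (h : NJ S n) (h' : NJ S' n') :
    NJ (S ∪ S') (n + n' + 1) := by
  obtain ⟨M, rfl⟩ := h
  obtain ⟨M', rfl⟩ := h'
  set N : GFA (Option (Fin n ⊕ Fin n')) A := ⟨fun q o => {p | TrU M M' q o p}, none,
    {q | (∃ r ∈ M.F, q = some (.inl r)) ∨ ∃ r ∈ M'.F, q = some (.inr r)}⟩ with hN
  refine NJ.of N (by simp) ?_
  ext x
  constructor
  · intro hx
    let Φ : Option (Fin n ⊕ Fin n') → (A → ℤ) → Prop
      | none, y => y ∈ PI M ∪ PI M'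
      | some (.inl q), y => y ∈ Acc M q
      | some (.inr q), y => y ∈ Acc M' q
    refine PI_ind Φ ?_ ?_ hx
    · rintro _ (⟨r, hr, rfl⟩ | ⟨r, hr, rfl⟩)
      · exact Acc.fin hr
      · exact Acc.fin hr
    · intro q p a y h hp
      cases h with
      | s1 => rw [ev_none, zero_add]; exact Or.inl hp
      | s2 => rw [ev_none, zero_add]; exact Or.inr hp
      | l h => exact Acc.step h hp
      | r h => exact Acc.step h hp
  · rintro (⟨r, hr, h⟩ | ⟨r, hr, h⟩)
    · refine ⟨some (.inl r), Or.inl ⟨r, hr, rfl⟩, ?_⟩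
      change Rch N none x _
      simpa [ev_none] using (Rch.step (M := N) TrU.s1).trans
        (Rch.map (M' := N) (fun q => some (.inl q)) (fun _ _ _ h => TrU.l h) h)
    · refine ⟨some (.inr r), Or.inr ⟨r, hr, rfl⟩, ?_⟩
      change Rch N none x _
      simpa [ev_none] using (Rch.step (M := N) TrU.s2).trans
        (Rch.map (M' := N) (fun q => some (.inr q)) (fun _ _ _ h => TrU.r h) h)

lemma NJ.add {S S' : Set (A → ℤ)} {n n' : ℕ} (h : NJ S n) (h' : NJ S' n') :
    NJ (S + S') (n + n') := by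
  obtain ⟨M, rfl⟩ := h
  obtain ⟨M', rfl⟩ := h'
  set N : GFA (Fin n ⊕ Fin n') A := ⟨fun q o => {p | TrS M M' q o p}, .inl M.q0,
    {q | ∃ r ∈ M'.F, q = .inr r}⟩ with hN
  refine NJ.of N (by simp) ?_
  ext x
  constructor
  · intro hx
    let Φ : Fin n ⊕ Fin n' → (A → ℤ) → Prop
      | .inl q, y => y ∈ Acc M q + PI M'
      | .inr q, y => y ∈ Acc M' q
    refine PI_ind Φ ?_ ?_ hx
    · rintro _ ⟨r, hr, rfl⟩
      exact Acc.fin hr
    · intro q p a y h hp
      cases h with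
      | l h =>
        obtain ⟨u, hu, v, hv, rfl⟩ := hp
        exact ⟨ev a + u, Acc.step h hu, v, hv, add_assoc _ _ _⟩
      | m h => exact ⟨0, Acc.fin h, y, hp, by simp [ev_none]⟩
      | r h => exact Acc.step h hp
  · rintro ⟨u, ⟨r, hr, h⟩, v, ⟨r', hr', h'⟩, rfl⟩
    refine ⟨.inr r', ⟨r', hr', rfl⟩, ?_⟩
    change Rch N (.inl M.q0) (u + v) _
    simpa [ev_none] using ((Rch.map (M' := N) Sum.inl (fun _ _ _ h => TrS.l h) h).trans
      (Rch.step (M := N) (TrS.m hr))).trans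
      (Rch.map (M' := N) Sum.inr (fun _ _ _ h => TrS.r h) h')

lemma NJ.star {S : Set (A → ℤ)} {n : ℕ} (h : NJ S n) :
    NJ (AddSubmonoid.closure S : Set (A → ℤ)) (n + 1) := by
  obtain ⟨M, rfl⟩ := h
  set N : GFA (Option (Fin n)) A := ⟨fun q o => {p | TrC M q o p}, none, {none}⟩ with hN
  refine NJ.of N (by simp) ?_
  ext x
  constructor
  · intro hx
    let Φ : Option (Fin n) → (A → ℤ) → Prop
      | none, y => y ∈ AddSubmonoid.closure (PI M)
      | some q, y => ∃ u ∈ Acc M q, ∃ v ∈ AddSubmonoid.closure (PI M), u + v = y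
    refine PI_ind Φ ?_ ?_ hx
    · rintro _ rfl
      exact zero_mem _
    · intro q p a y h hp
      cases h with
      | s =>
        obtain ⟨u, hu, v, hv, rfl⟩ := hp
        rw [ev_none, zero_add]
        exact add_mem (AddSubmonoid.subset_closure hu) hv
      | l h =>
        obtain ⟨u, hu, v, hv, rfl⟩ := hp
        exact ⟨ev a + u, Acc.step h hu, v, hv, add_assoc _ _ _⟩
      | e h => exact ⟨0, Acc.fin h, y, hp, by simp [ev_none]⟩
  · intro hx
    refine ⟨none, rfl, ?_⟩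
    change Rch N none x none
    induction hx using AddSubmonoid.closure_induction with
    | mem x hx =>
      obtain ⟨r, hr, h⟩ := hx
      simpa [ev_none] using ((Rch.step (M := N) TrC.s).trans
        (Rch.map (M' := N) some (fun _ _ _ h => TrC.l h) h)).trans (Rch.step (M := N) (TrC.e hr))
    | zero => exact Rch.refl _ _
    | add x y _ _ hx hy => exact hx.trans hy

lemma NJ.zero : NJ ({0} : Set (A → ℤ)) 2 := by
  simpa [ev_none] using NJ.letters (A := A) {none}

lemma NJ.single (a : A) : NJ ({Pi.single a 1} : Set (A → ℤ)) 2 := by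
  simpa [ev_some] using NJ.letters (A := A) {some a}

lemma NJ.singleton_add {x y : A → ℤ} {n m : ℕ} (h : NJ {x} n) (h' : NJ {y} m) :
    NJ {x + y} (n + m) := by
  simpa using h.add h'

lemma NJ.nsmul {x : A → ℤ} {n : ℕ} (h : NJ {x} n) (m : ℕ) : NJ {m • x} (m * n + 2) := by
  induction m with
  | zero => simpa using NJ.zero
  | succ m ih =>
    rw [succ_nsmul]
    exact (ih.singleton_add h).mono (le_of_eq (by ring))

lemma NJ.insert {x : A → ℤ} {S : Set (A → ℤ)} {n m : ℕ} (h : NJ {x} n) (h' : NJ S m) :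
    NJ (insert x S) (n + m + 1) := h.union h'

lemma NJ.biUnion {ι : Type} (s : Finset ι) (S : ι → Set (A → ℤ)) (n : ℕ)
    (h : ∀ i ∈ s, NJ (S i) n) : NJ (⋃ i ∈ s, S i) (s.card * (n + 1) + 1) := by
  classical
  induction s using Finset.induction_on with
  | empty => simpa using NJ.empty
  | insert i s hi ih =>
    rw [Finset.set_biUnion_insert, card_insert_of_notMem hi]
    exact ((h i (mem_insert_self _ _)).union (ih fun j hj => h j (mem_insert_of_mem hj))).mono
      (le_of_eq (by ring))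

lemma NJ.iUnion {ι : Type} [Fintype ι] (S : ι → Set (A → ℤ)) (n : ℕ)
    (h : ∀ i, NJ (S i) n) : NJ (⋃ i, S i) (Fintype.card ι * (n + 1) + 1) := by
  simpa using NJ.biUnion univ S n fun i _ => h i

lemma NJ.sum {ι : Type} (s : Finset ι) (S : ι → Set (A → ℤ)) (n : ℕ)
    (h : ∀ i ∈ s, NJ (S i) n) : NJ (∑ i ∈ s, S i) (s.card * n + 2) := by
  classical
  induction s using Finset.induction_on with
  | empty => rw [Finset.sum_empty, card_empty, zero_mul]; exact NJ.zero
  | insert i s hi ih =>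
    rw [Finset.sum_insert hi, card_insert_of_notMem hi]
    exact ((h i (mem_insert_self _ _)).add (ih fun j hj => h j (mem_insert_of_mem hj))).mono
      (le_of_eq (by ring))

/-- nonnegative vectors supported on `U` -/
def Free (U : Set A) : Set (A → ℤ) := {x | 0 ≤ x ∧ ∀ a, x a ≠ 0 → a ∈ U}

lemma single_mem_closure {G : Set (A → ℤ)} {a : A} (h : Pi.single a 1 ∈ AddSubmonoid.closure G)
    {c : ℤ} (hc : 0 ≤ c) : Pi.single a c ∈ AddSubmonoid.closure G := by
  have := nsmul_mem h c.toNat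
  rwa [← Pi.single_smul, nsmul_one, Int.toNat_of_nonneg hc] at this

lemma zsmul_mem_closure {G : Set (A → ℤ)} {g : A → ℤ} (h : g ∈ AddSubmonoid.closure G)
    {c : ℤ} (hc : 0 ≤ c) : c • g ∈ AddSubmonoid.closure G := by
  have := nsmul_mem h c.toNat
  rwa [← natCast_zsmul, Int.toNat_of_nonneg hc] at this

lemma NJ.free (U : Set A) : NJ (Free U) 3 := by
  have := (NJ.letters (some '' U)).star
  convert this using 1
  ext x
  constructor
  · rintro ⟨h0, h1⟩
    rw [← Finset.univ_sum_single x]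
    refine sum_mem fun a _ => ?_
    by_cases h : x a = 0
    · simp [h]
    · refine single_mem_closure (AddSubmonoid.subset_closure ?_) (h0 a)
      exact ⟨some a, ⟨a, h1 a h, rfl⟩, ev_some a⟩
  · intro hx
    induction hx using AddSubmonoid.closure_induction with
    | mem x hx =>
      obtain ⟨_, ⟨a, ha, rfl⟩, rfl⟩ := hx
      refine ⟨ev_nonneg _, fun b hb => ?_⟩
      by_cases h : b = a
      · rwa [h]
      · simp [ev_some, h] at hb
    | zero => exact ⟨le_rfl, by simp⟩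
    | add x y _ _ hx hy =>
      refine ⟨add_nonneg hx.1 hy.1, fun a ha => ?_⟩
      by_cases h : x a = 0
      · exact hy.2 a (by simpa [h] using ha)
      · exact hx.2 a h

end Pool.Agent.Lib.MP_a0040c_lc
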