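import Pool.Agent.Lib.MP_a0040c_lc.Cramer
import Pool.Agent.Lib.MP_a0040c_lc.Lift

set_option linter.unusedSectionVars false

namespace Pool.Agent.Lib.MP_a0040c_lc

open Finset Matrix

lemma det_net {Q : Type} [DecidableEq Q] (s : ℕ) : ∀ (B : Matrix (Fin s) (Fin s) ℤ)
    (ρ : Fin s → Option Q) (p q : Fin s → Q) (w : Fin s → ℤ),
    (∀ i i' x, ρ i = some x → ρ i' = some x → i = i') → (∀ i, ρ i = none → ∑ j, |B i j| ≤ w i) →
    (∀ i x, ρ i = some x → 1 ≤ w i ∧
      ∀ j, B i j = (if x = q j then 1 else 0) - if x = p j then 1 else 0) →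
    |B.det| ≤ ∏ i, w i := by
  induction s with
  | zero => simp
  | succ s ih =>
    intro B ρ p q w h0 h1 h2
    have hw : ∀ i, 0 ≤ w i := fun i => by
      cases h : ρ i with
      | none => exact (Finset.sum_nonneg fun j _ => abs_nonneg _).trans (h1 i h)
      | some x => exact zero_le_one.trans (h2 i x h).1
    have hm : ∀ i j : Fin (s + 1),
        |(B.submatrix i.succAbove j.succAbove).det| ≤ ∏ k, w (i.succAbove k) := by
      intro i j
      refine ih _ (ρ ∘ i.succAbove) (p ∘ j.succAbove) (q ∘ j.succAbove) (w ∘ i.succAbove)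
        (fun a b x ha hb => Fin.succAbove_right_injective (h0 _ _ x ha hb)) (fun a ha => ?_)
        fun a x ha => ⟨(h2 _ x ha).1, fun b => (h2 _ x ha).2 _⟩
      refine le_trans ?_ (h1 _ ha)
      rw [Fin.sum_univ_succAbove _ j]
      exact le_add_of_nonneg_left (abs_nonneg _)
    by_cases hl : ∃ i, ρ i = none
    · obtain ⟨i, hi⟩ := hl
      rw [det_succ_row B i, Fin.prod_univ_succAbove _ i]
      refine (Finset.abs_sum_le_sum_abs _ _).trans ((Finset.sum_le_sum
        (g := fun j => |B i j| * ∏ k, w (i.succAbove k)) fun j _ => ?_).trans ?_)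
      · simp only [abs_mul, abs_pow, abs_neg, abs_one, one_pow, one_mul]
        exact mul_le_mul_of_nonneg_left (hm i j) (abs_nonneg _)
      · rw [← Finset.sum_mul]
        exact mul_le_mul_of_nonneg_right (h1 i hi) (Finset.prod_nonneg fun k _ => hw _)
    · push Not at hl
      choose x hx using fun i => Option.ne_none_iff_exists'.mp (hl i)
      have hxi : Function.Injective x := fun i i' h => h0 i i' _ (hx i) (h ▸ hx i')
      have hP := Finset.prod_nonneg fun k (_ : k ∈ univ) => hw k
      by_cases hc : ∀ j, ∑ i, B i j = 0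
      · rw [exists_vecMul_eq_zero_iff.mp ⟨fun _ => 1, fun h => by simpa using congrFun h 0,
          funext fun j => by simpa [vecMul, dotProduct] using hc j⟩]
        simpa using hP
      · push Not at hc
        obtain ⟨j, hj⟩ := hc
        have ha : ∀ y, (∑ i, if x i = y then 1 else 0 : ℤ) = 0 ∨
            (∑ i, if x i = y then 1 else 0 : ℤ) = 1 := fun y => by
          by_cases h : ∃ i, x i = y
          · obtain ⟨i, rfl⟩ := h
            simp [hxi.eq_iff]
          · push Not at h
            simp [h]
        have hb : ∑ i, |B i j| ≤ 1 := by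
          have b1 : ∑ i, |B i j| ≤ ∑ i, ((if x i = q j then 1 else 0) +
              if x i = p j then 1 else 0) := Finset.sum_le_sum fun i _ => by
            rw [(h2 i _ (hx i)).2]
            split_ifs <;> simp
          rw [Finset.sum_congr rfl fun i _ => (h2 i _ (hx i)).2 j, Finset.sum_sub_distrib] at hj
          rw [Finset.sum_add_distrib] at b1
          have := ha (q j)
          have := ha (p j)
          omega
        rw [det_succ_column B j]
        refine (Finset.abs_sum_le_sum_abs _ _).trans ((Finset.sum_le_sum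
          (g := fun i => |B i j| * ∏ k, w k) fun i _ => ?_).trans ?_)
        · simp only [abs_mul, abs_pow, abs_neg, abs_one, one_pow, one_mul]
          refine mul_le_mul_of_nonneg_left ((hm i j).trans ?_) (abs_nonneg _)
          rw [Fin.prod_univ_succAbove _ i]
          exact le_mul_of_one_le_left (Finset.prod_nonneg fun k _ => hw _) (h2 i _ (hx i)).1
        · rw [← Finset.sum_mul]
          exact mul_le_of_le_one_left hP hb

variable {Q A : Type} [DecidableEq Q] [DecidableEq A] [Fintype Q] [Fintype A]

/-- boundary of an edge -/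
def bd (e : Q × Q) : Q → ℤ := Pi.single e.2 1 - Pi.single e.1 1

/-- extended vector of a labelled edge -/
def nv (e : Option A × Q × Q) : Q ⊕ A → ℤ := Sum.elim (bd e.2) (ev e.1)

lemma mb_net (Δ : ℕ) (hΔ : ∀ c : A → ℕ, ∑ a, c a ≤ Fintype.card Q + Fintype.card A →
    ∏ a, c a ≤ Δ) : MB (Matrix.of (nv (Q := Q) (A := A))) Δ := by
  classical
  intro s f g
  by_cases hg : Function.Injective g
  swap
  · obtain ⟨i, j, h1, h2⟩ := Function.not_injective_iff.mp hg
    rw [det_zero_of_column_eq h2 fun k => by simp [h1]]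
    simp
  let c : A → ℕ := fun a => ∑ j, if (f j).1 = some a then 1 else 0
  let W : Q ⊕ A → ℕ := Sum.elim (fun _ => 1) c
  rw [← det_transpose]
  refine (det_net s _ (fun i => (g i).getLeft?) (fun j => (f j).2.1) (fun j => (f j).2.2)
    (fun i => W (g i)) (fun i i' x h h' => hg ?_) (fun i h => ?_) fun i x h => ?_).trans ?_
  · rw [Sum.getLeft?_eq_some_iff] at h h'
    rw [h, h']
  · obtain ⟨a, ha⟩ := Sum.isRight_iff.mp (Sum.getLeft?_eq_none_iff.mp h)
    simp only [transpose_apply, submatrix_apply, of_apply, ha, nv, W, c, Sum.elim_inr, ev]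
    push_cast
    exact le_of_eq (Finset.sum_congr rfl fun j _ => by split_ifs <;> simp)
  · rw [Sum.getLeft?_eq_some_iff] at h
    simp [h, W, nv, bd, Pi.single_apply]
  · norm_cast
    rw [Fintype.prod_of_injective g hg _ (fun x => if x ∈ Set.range g then W x else 1)
      (fun x hx => if_neg hx) fun i => (if_pos ⟨i, rfl⟩).symm, Fintype.prod_sum_type]
    simp only [W, Sum.elim_inl, ite_self, Finset.prod_const_one, one_mul, Sum.elim_inr]
    apply hΔ
    have a1 : s = ∑ x, if x ∈ Set.range g then 1 else 0 := by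
      rw [← Fintype.sum_of_injective g hg (fun _ => 1) _ (fun x hx => if_neg hx)
        fun i => (if_pos ⟨i, rfl⟩).symm]
      simp
    rw [Fintype.sum_sum_type] at a1
    have a2 : (∑ x : Q, if Sum.inl x ∈ Set.range g then 1 else 0) ≤ Fintype.card Q := by
      refine (Finset.sum_le_card_nsmul univ _ 1 fun x _ => ?_).trans (by simp)
      split_ifs <;> simp
    have a3 : ∑ a, c a ≤ s := by
      rw [Finset.sum_comm]
      refine (Finset.sum_le_card_nsmul univ _ 1 fun j _ => ?_).trans (by simp)
      cases (f j).1 <;> simp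
    have a4 := Finset.sum_le_sum (s := univ) (f := fun a =>
      (if Sum.inr a ∈ Set.range g then c a else 1) + if Sum.inr a ∈ Set.range g then 1 else 0)
      (g := fun a => c a + 1) fun a _ => by split_ifs <;> simp
    simp only [Finset.sum_add_distrib, Finset.sum_const, card_univ, smul_eq_mul, mul_one] at a4
    omega

lemma amgm (n : ℕ) (c : A → ℕ) (h : ∑ a, c a ≤ n + Fintype.card A) :
    ∏ a, c a ≤ ⌊(1 + n / Fintype.card A : ℝ) ^ Fintype.card A⌋₊ := by
  apply Nat.le_floor
  rcases Nat.eq_zero_or_pos (Fintype.card A) with h0 | h0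
  · have := Fintype.card_eq_zero_iff.mp h0
    simp
  have hk : (0 : ℝ) < Fintype.card A := by exact_mod_cast h0
  set l : ℝ := 1 + n / Fintype.card A with hl
  have hl0 : 0 < l := by positivity
  have h' : (∑ a, (c a : ℝ)) ≤ l * Fintype.card A := by
    rw [hl, add_mul, div_mul_cancel₀ _ hk.ne', one_mul, add_comm]
    exact_mod_cast h
  calc ((∏ a, c a : ℕ) : ℝ) = ∏ a, (c a : ℝ) := by push_cast; rfl
    _ ≤ ∏ a, l * Real.exp (c a / l - 1) := Finset.prod_le_prod (fun a _ => by positivity)
        fun a _ => by
          rw [← div_le_iff₀' hl0]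
          linarith [Real.add_one_le_exp (c a / l - 1)]
    _ = l ^ Fintype.card A * Real.exp ((∑ a, (c a : ℝ)) / l - Fintype.card A) := by
        rw [Finset.prod_mul_distrib, ← Real.exp_sum]
        simp [Finset.sum_div]
    _ ≤ _ := mul_le_of_le_one_right (by positivity) (by
        rw [Real.exp_le_one_iff, sub_nonpos, div_le_iff₀' hl0]
        exact h')

end Pool.Agent.Lib.MP_a0040c_lc
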