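import Pool.Agent.Lib.MP_a0040c_lc.Walk
import Pool.Agent.Lib.MP_a0040c_lc.Cell

set_option linter.unusedSectionVars false

namespace Pool.Agent.Lib.MP_a0040c_lc

open Finset

lemma lcm_le_landau {α : Type} (s : Finset α) (f : α → ℕ) (hf : ∀ a ∈ s, 0 < f a) (n : ℕ)
    (hs : ∑ a ∈ s, f a ≤ n) : s.lcm f ≤ landau n := by
  classical
  obtain ⟨σ, hσ⟩ := (Equiv.Perm.exists_with_cycleType_iff (Fin n)
    (m := (s.val.map f).filter (2 ≤ ·))).mpr ⟨by
      rw [Fintype.card_fin]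
      refine le_trans ?_ hs
      have := Multiset.sum_filter_add_sum_filter_not (s := s.val.map f) (2 ≤ ·)
      change _ ≤ (s.val.map f).sum
      omega, by
      intro a ha; exact (Multiset.mem_filter.mp ha).2⟩
  have h1 : s.lcm f ∣ orderOf σ := by
    rw [← σ.lcm_cycleType, hσ]
    apply Finset.lcm_dvd
    intro a ha
    by_cases h : 2 ≤ f a
    · exact Multiset.dvd_lcm (Multiset.mem_filter.mpr ⟨Multiset.mem_map_of_mem _ ha, h⟩)
    · have := hf a ha
      rw [show f a = 1 by omega]; exact one_dvd _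
  exact (Nat.le_of_dvd (orderOf_pos σ) h1).trans
    (Finset.le_sup (f := fun σ : Equiv.Perm (Fin n) => orderOf σ) (mem_univ σ))

variable {Q A : Type} [DecidableEq Q] [DecidableEq A] [Fintype Q] [Fintype A] {M : GFA Q A}

lemma exists_pure_gen (G : Set (A → ℤ)) (N : ℕ) (hG : ∀ c ∈ G, 0 ≤ c ∧ ∀ j, c j ≤ N) (i : A)
    {y : A → ℤ} (hy : y ∈ AddSubmonoid.closure G) (h : N * ∑ j ∈ univ.erase i, y j < y i) :
    ∃ c ∈ G, 0 < c i ∧ c = Pi.single i (c i) := by
  by_contra hc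
  push Not at hc
  have : y i ≤ N * ∑ j ∈ univ.erase i, y j := by
    clear h
    induction hy using AddSubmonoid.closure_induction with
    | mem c hcG =>
      obtain ⟨h0, hN⟩ := hG c hcG
      have hs : 0 ≤ ∑ j ∈ univ.erase i, c j := Finset.sum_nonneg fun j _ => h0 j
      by_cases hci : 0 < c i
      · have h1 := hc c hcG hci
        obtain ⟨j, hj⟩ := Function.ne_iff.mp h1
        have hji : j ≠ i := by rintro rfl; simp at hj
        rw [Pi.single_eq_of_ne hji] at hj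
        have h2 : c j ≤ ∑ j ∈ univ.erase i, c j :=
          Finset.single_le_sum (f := c) (fun j _ => h0 j) (by simpa using hji)
        have h3 : 0 ≤ c j := h0 j
        have h4 := hN i
        have : (1 : ℤ) ≤ ∑ j ∈ univ.erase i, c j := by omega
        nlinarith
      · have : (0 : ℤ) ≤ N * ∑ j ∈ univ.erase i, c j := by positivity
        omega
    | zero => simp
    | add c d _ _ h1 h2 =>
      simp only [Pi.add_apply, Finset.sum_add_distrib, mul_add]; omega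
  omega

lemma closure_nonneg {G : Set (A → ℤ)} (hG : ∀ c ∈ G, 0 ≤ c) {y : A → ℤ}
    (hy : y ∈ AddSubmonoid.closure G) : 0 ≤ y := by
  induction hy using AddSubmonoid.closure_induction with
  | mem c hc => exact hG c hc
  | zero => exact le_rfl
  | add c d _ _ h1 h2 => exact add_nonneg h1 h2

lemma Cyc.bound {K : Finset Q} {N : ℕ} {c : A → ℤ} (hc : c ∈ Cyc M K N) :
    0 ≤ c ∧ ∀ j, c j ≤ N := by
  obtain ⟨r, K', l, -, h1, h2⟩ := hc
  exact ⟨h2.nonneg, fun j => (h2.le_len j).trans (by exact_mod_cast h1)⟩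

def Pure (M : GFA Q A) (i : A) (q : Q) (m : ℤ) (r : Q) : Prop :=
  ∃ K l, Walk M q K l (Pi.single i m) r

lemma Pure.trans {i : A} {q p r : Q} {m m' : ℤ} (h : Pure M i q m p) (h' : Pure M i p m' r) :
    Pure M i q (m + m') r := by
  obtain ⟨K, l, h⟩ := h
  obtain ⟨K', l', h'⟩ := h'
  exact ⟨_, _, by rw [Pi.single_add]; exact h.trans h'⟩

lemma Pure.refl (i : A) (q : Q) : Pure M i q 0 q := ⟨{q}, 0, by simpa using Walk.nil q⟩

lemma Pure.nonneg {i : A} {q r : Q} {m : ℤ} (h : Pure M i q m r) : 0 ≤ m := by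
  obtain ⟨K, l, h⟩ := h; simpa using h.nonneg i

lemma Pure.mul {i : A} {q : Q} {m : ℤ} (h : Pure M i q m q) (t : ℕ) : Pure M i q (t * m) q := by
  induction t with
  | zero => simpa using Pure.refl i q
  | succ t ih => have := ih.trans h; push_cast; rwa [add_mul, one_mul]

lemma eq_single_of_le {i : A} {m : ℤ} {x : A → ℤ} (h0 : 0 ≤ x) (h1 : x ≤ Pi.single i m) :
    x = Pi.single i (x i) := by
  funext j
  by_cases hj : j = i
  · subst hj; simp
  · have h2 := h0 j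
    have h3 := h1 j
    rw [Pi.single_eq_of_ne hj] at h3 ⊢
    exact le_antisymm h3 h2

open Classical in
noncomputable def cls (M : GFA Q A) (i : A) (q : Q) : Finset Q :=
  univ.filter fun r => (∃ m, Pure M i q m r) ∧ ∃ m, Pure M i r m q

lemma mem_cls {i : A} {q r : Q} :
    r ∈ cls M i q ↔ (∃ m, Pure M i q m r) ∧ ∃ m, Pure M i r m q := by simp [cls]

lemma cls_eq {i : A} {q r : Q} (h : r ∈ cls M i q) : cls M i r = cls M i q := by
  obtain ⟨⟨m1, h1⟩, ⟨m2, h2⟩⟩ := mem_cls.mp h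
  ext s
  simp only [mem_cls]
  constructor
  · rintro ⟨⟨m3, h3⟩, ⟨m4, h4⟩⟩; exact ⟨⟨_, h1.trans h3⟩, ⟨_, h4.trans h2⟩⟩
  · rintro ⟨⟨m3, h3⟩, ⟨m4, h4⟩⟩; exact ⟨⟨_, h2.trans h3⟩, ⟨_, h4.trans h1⟩⟩

noncomputable def dd (M : GFA Q A) (i : A) (C : Finset Q) : ℕ :=
  sInf {m : ℕ | 0 < m ∧ ∃ q ∈ C, Pure M i q m q}

lemma dd_spec {i : A} {q : Q} {m : ℤ} (hm : 0 < m) (h : Pure M i q m q) :
    0 < dd M i (cls M i q) ∧ dd M i (cls M i q) ≤ (cls M i q).card ∧
      ∃ r ∈ cls M i q, Pure M i r (dd M i (cls M i q)) r := by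
  have hq : q ∈ cls M i q := mem_cls.mpr ⟨⟨_, Pure.refl i q⟩, ⟨_, Pure.refl i q⟩⟩
  have hne : {m : ℕ | 0 < m ∧ ∃ r ∈ cls M i q, Pure M i r m r}.Nonempty :=
    ⟨m.toNat, by omega, q, hq, by rwa [Int.toNat_of_nonneg hm.le]⟩
  have hspec := Nat.sInf_mem hne
  refine ⟨hspec.1, ?_, hspec.2⟩
  obtain ⟨K, l, hw⟩ := h
  have hK : K ⊆ cls M i q := by
    intro s hs
    obtain ⟨K1, l1, x1, K2, l2, x2, h1, h2, -, -, hx⟩ := hw.split hs
    have e1 : x1 = Pi.single i (x1 i) := eq_single_of_le h1.nonneg (m := m)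
      (by rw [hx]; exact le_add_of_nonneg_right h2.nonneg)
    have e2 : x2 = Pi.single i (x2 i) := eq_single_of_le h2.nonneg (m := m)
      (by rw [hx]; exact le_add_of_nonneg_left h1.nonneg)
    exact mem_cls.mpr ⟨⟨_, K1, l1, e1 ▸ h1⟩, ⟨_, K2, l2, e2 ▸ h2⟩⟩
  have hcard := card_le_card hK
  obtain ⟨K', l', x', hK', hl', hw', hc⟩ := hw.simple
  have hc0 := closure_nonneg (fun c hc => (Cyc.bound hc).1) hc
  have e1 : x' = Pi.single i (x' i) := eq_single_of_le hw'.nonneg (m := m) (sub_nonneg.mp hc0)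
  have hcard' := card_le_card hK'
  by_cases hx : 0 < x' i
  · have h1 := hw'.le_len i
    have : dd M i (cls M i q) ≤ (x' i).toNat := Nat.sInf_le ⟨by omega, q, hq, K', l', by
      rw [Int.toNat_of_nonneg hx.le, ← e1]; exact hw'⟩
    omega
  · have hx0 : x' = 0 := by
      have := hw'.nonneg i
      rw [e1, show x' i = 0 by simp at this; omega]; simp
    rw [hx0, sub_zero] at hc
    obtain ⟨c, hcG, hc1, hc2⟩ := exists_pure_gen _ K.card (fun c hc => Cyc.bound hc) i hc (by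
      rw [Finset.sum_eq_zero fun j hj => Pi.single_eq_of_ne (mem_erase.mp hj).1 _]
      simpa using hm)
    have h1 := (Cyc.bound hcG).2 i
    obtain ⟨r, K'', l'', hK'', -, hw''⟩ := hcG
    have : dd M i (cls M i q) ≤ (c i).toNat := Nat.sInf_le ⟨by omega, r, hK (hK'' hw''.start_mem),
      K'', l'', by rw [Int.toNat_of_nonneg hc1.le, ← hc2]; exact hw''⟩
    omega

lemma exists_period (M : GFA Q A) (i : A) :
    ∃ p : ℕ, 0 < p ∧ p ≤ landau (Fintype.card Q) ∧ ∀ q m, 0 < m → Pure M i q m q →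
      ∃ m0 : ℕ, ∀ t : ℕ, m0 ≤ t → Pure M i q (t * p) q := by
  classical
  set 𝒞 : Finset (Finset Q) := (univ.filter fun q => ∃ m, 0 < m ∧ Pure M i q m q).image (cls M i)
    with h𝒞
  have hpos : ∀ C ∈ 𝒞, 0 < dd M i C := by
    intro C hC
    obtain ⟨q, hq, rfl⟩ := mem_image.mp hC
    obtain ⟨m, hm, h⟩ := (mem_filter.mp hq).2
    exact (dd_spec hm h).1
  refine ⟨𝒞.lcm (dd M i), ?_, ?_, ?_⟩
  · rw [pos_iff_ne_zero, Finset.lcm_ne_zero_iff]
    exact fun C hC => (hpos C hC).ne'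
  · apply lcm_le_landau _ _ hpos
    calc ∑ C ∈ 𝒞, dd M i C ≤ ∑ C ∈ 𝒞, C.card := Finset.sum_le_sum fun C hC => by
          obtain ⟨q, hq, rfl⟩ := mem_image.mp hC
          obtain ⟨m, hm, h⟩ := (mem_filter.mp hq).2
          exact (dd_spec hm h).2.1
      _ = (𝒞.biUnion id).card := by
          rw [card_biUnion]
          · rfl
          · intro C hC C' hC' hne
            obtain ⟨q, -, rfl⟩ := mem_image.mp hC
            obtain ⟨q', -, rfl⟩ := mem_image.mp hC'
            rw [Function.onFun, disjoint_left]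
            intro r h1 h2
            exact hne ((cls_eq h1).symm.trans (cls_eq h2))
      _ ≤ _ := card_le_univ _
  · intro q m hm h
    obtain ⟨hd, -, r, hr, hrr⟩ := dd_spec hm h
    obtain ⟨⟨w1, h1⟩, ⟨w2, h2⟩⟩ := mem_cls.mp hr
    have hC : cls M i q ∈ 𝒞 := mem_image.mpr ⟨q, mem_filter.mpr ⟨mem_univ _, m, hm, h⟩, rfl⟩
    obtain ⟨e, he⟩ : dd M i (cls M i q) ∣ 𝒞.lcm (dd M i) := Finset.dvd_lcm hC
    have he0 : 0 < e := by
      rcases Nat.eq_zero_or_pos e with rfl | h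
      · exfalso
        have : 𝒞.lcm (dd M i) ≠ 0 := by
          rw [Finset.lcm_ne_zero_iff]; exact fun C hC => (hpos C hC).ne'
        simp [he] at this
      · exact h
    set d := dd M i (cls M i q)
    have hw : 0 ≤ w1 + w2 := add_nonneg h1.nonneg h2.nonneg
    refine ⟨(w1 + w2).toNat, fun t ht => ?_⟩
    have ht' : (w1 + w2).toNat ≤ t * e := ht.trans (Nat.le_mul_of_pos_right _ he0)
    have := ((h1.trans h2).mul (d - 1)).trans ((h1.trans (hrr.mul (t * e - (w1 + w2).toNat))).trans h2)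
    convert this using 1
    rw [he, Nat.cast_sub ht', Nat.cast_sub hd, Int.toNat_of_nonneg hw]
    push_cast; ring

lemma period_lemma (M : GFA Q A) (i : A) (T0 P0 : ℕ) (hP : 0 < P0)
    (hrec : ∀ x : A → ℤ, 0 ≤ x → (T0 : ℤ) ≤ x i → (x ∈ PI M ↔ x + Pi.single i (P0 : ℤ) ∈ PI M)) :
    ∃ p : ℕ, 0 < p ∧ p ≤ landau (Fintype.card Q) ∧
      ∀ x : A → ℤ, 0 ≤ x → (T0 : ℤ) ≤ x i → (x ∈ PI M ↔ x + Pi.single i (p : ℤ) ∈ PI M) := by
  obtain ⟨p, hp, hpl, hpure⟩ := exists_period M i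
  refine ⟨p, hp, hpl, ?_⟩
  have hs0 : ∀ m : ℤ, 0 ≤ m → (0 : A → ℤ) ≤ Pi.single i m := fun m hm => by
    intro j; by_cases h : j = i
    · subst h; simpa using hm
    · simp [h]
  have hit : ∀ (s : ℕ) (x : A → ℤ), 0 ≤ x → (T0 : ℤ) ≤ x i →
      (x ∈ PI M ↔ x + Pi.single i ((s * P0 : ℕ) : ℤ) ∈ PI M) := by
    intro s x hx hi
    induction s with
    | zero => simp
    | succ s ih =>
      rw [ih, hrec _ (add_nonneg hx (hs0 _ (by positivity))) (by
        simp only [Pi.add_apply, Pi.single_eq_same]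
        have : (0 : ℤ) ≤ ((s * P0 : ℕ) : ℤ) := by positivity
        omega), add_assoc, ← Pi.single_add]
      push_cast
      rw [add_mul, one_mul]
  have hbig : ∀ x ∈ PI M, (Fintype.card Q : ℤ) ^ 2 + Fintype.card Q * ∑ j ∈ univ.erase i, x j < x i →
      ∃ m0 : ℕ, ∀ t : ℕ, m0 ≤ t → x + Pi.single i ((t * p : ℕ) : ℤ) ∈ PI M := by
    intro x hx hi
    obtain ⟨K, b, hb0, hb, hc, r, hr, l, hw⟩ := decomp hx
    obtain ⟨c, hcG, hc1, hc2⟩ := exists_pure_gen _ (Fintype.card Q) (fun c hc => Cyc.bound hc) i hc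
      (by
        have h1 := hb i
        have h2 : ∑ j ∈ univ.erase i, (x - b) j ≤ ∑ j ∈ univ.erase i, x j :=
          Finset.sum_le_sum fun j _ => by have := hb0 j; simp at this ⊢; omega
        have h3 : (Fintype.card Q : ℤ) * ∑ j ∈ univ.erase i, (x - b) j ≤
            Fintype.card Q * ∑ j ∈ univ.erase i, x j := by gcongr
        simp only [Pi.sub_apply] at h3 ⊢
        omega)
    obtain ⟨s, K', l', hK', -, hw'⟩ := hcG
    obtain ⟨m0, hm0⟩ := hpure s (c i) hc1 ⟨K', l', hc2 ▸ hw'⟩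
    refine ⟨m0, fun t ht => ?_⟩
    obtain ⟨l2, hw2⟩ := Walk.pump hc Subset.rfl hw
    rw [add_sub_cancel] at hw2
    obtain ⟨K1, l1, x1, K2, l3, x2, h1, h2, -, -, rfl⟩ := hw2.split (hK' hw'.start_mem)
    obtain ⟨K3, l4, h3⟩ := hm0 t ht
    have := (h1.trans h3).trans h2
    rw [add_right_comm x1] at this
    push_cast
    exact ⟨r, hr, _, _, this⟩
  have hfwd : ∀ x : A → ℤ, 0 ≤ x → (T0 : ℤ) ≤ x i → x ∈ PI M → x + Pi.single i (p : ℤ) ∈ PI M := by
    intro x hx hi hS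
    have hsum : 0 ≤ ∑ j ∈ univ.erase i, x j := Finset.sum_nonneg fun j _ => hx j
    set s : ℕ := ((Fintype.card Q : ℤ) ^ 2 + Fintype.card Q * ∑ j ∈ univ.erase i, x j).toNat + 1
      with hs
    obtain ⟨m0, hm0⟩ := hbig _ ((hit s x hx hi).mp hS) (by
      have e : ∑ j ∈ univ.erase i, (x + Pi.single i ((s * P0 : ℕ) : ℤ) : A → ℤ) j =
          ∑ j ∈ univ.erase i, x j :=
        Finset.sum_congr rfl fun j hj => by simp [Pi.single_eq_of_ne (mem_erase.mp hj).1]
      rw [e]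
      have h1 : s ≤ s * P0 := Nat.le_mul_of_pos_right _ hP
      have h2 := hx i
      simp only [Pi.add_apply, Pi.single_eq_same, Pi.zero_apply] at h2 ⊢
      omega)
    have h1 := hm0 (1 + m0 * P0) (by nlinarith)
    rw [hit (s + m0 * p) _ (add_nonneg hx (hs0 _ (by positivity))) (by
      simp only [Pi.add_apply, Pi.single_eq_same]; omega)]
    rw [add_assoc x, ← Pi.single_add] at h1 ⊢
    convert h1 using 3
    push_cast; ring
  intro x hx hi
  refine ⟨hfwd x hx hi, fun h => ?_⟩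
  have : ∀ t : ℕ, x + Pi.single i (((t + 1) * p : ℕ) : ℤ) ∈ PI M := by
    intro t
    induction t with
    | zero => simpa using h
    | succ t ih =>
      have := hfwd _ (add_nonneg hx (hs0 _ (by positivity))) (by
        simp only [Pi.add_apply, Pi.single_eq_same]
        have : (0 : ℤ) ≤ (((t + 1) * p : ℕ) : ℤ) := by positivity
        omega) ih
      rw [add_assoc x, ← Pi.single_add] at this
      have e : (((t + 1 + 1) * p : ℕ) : ℤ) = (((t + 1) * p : ℕ) : ℤ) + p := by push_cast; ring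
      rwa [e]
  rw [hit p x hx hi]
  have h2 := this (P0 - 1)
  rwa [Nat.sub_add_cancel hP, mul_comm] at h2

end Pool.Agent.Lib.MP_a0040c_lc
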