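import Pool.Agent.Lib.MP_a0040c_lc.Cramer

set_option linter.unusedSectionVars false

namespace Pool.Agent.Lib.MP_a0040c_lc

open Finset Matrix

lemma abs_det_le_col {s : ℕ} (B : Matrix (Fin (s + 1)) (Fin (s + 1)) ℤ) (j : Fin (s + 1)) (D : ℤ)
    (h : ∀ i : Fin (s + 1), |(B.submatrix i.succAbove j.succAbove).det| ≤ D) :
    |B.det| ≤ (∑ i, |B i j|) * D := by
  rw [det_succ_column B j, Finset.sum_mul]
  refine (Finset.abs_sum_le_sum_abs _ _).trans (Finset.sum_le_sum fun i _ => ?_)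
  simp only [abs_mul, abs_pow, abs_neg, abs_one, one_pow, one_mul]
  exact mul_le_mul_of_nonneg_left (h i) (abs_nonneg _)

lemma abs_det_le_row {s : ℕ} (B : Matrix (Fin (s + 1)) (Fin (s + 1)) ℤ) (i : Fin (s + 1)) (D : ℤ)
    (h : ∀ j : Fin (s + 1), |(B.submatrix i.succAbove j.succAbove).det| ≤ D) :
    |B.det| ≤ (∑ j, |B i j|) * D := by
  rw [det_succ_row B i, Finset.sum_mul]
  refine (Finset.abs_sum_le_sum_abs _ _).trans (Finset.sum_le_sum fun j _ => ?_)
  simp only [abs_mul, abs_pow, abs_neg, abs_one, one_pow, one_mul]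
  exact mul_le_mul_of_nonneg_left (h j) (abs_nonneg _)

lemma sum_comp_le {α : Type} [Fintype α] {s : ℕ} {f : Fin s → α} (hf : Function.Injective f)
    (u : α → ℤ) (hu : ∀ a, 0 ≤ u a) : ∑ i, u (f i) ≤ ∑ a, u a := by
  classical
  rw [← Finset.sum_image (s := univ) (g := f) (f := u) fun a _ b _ h => hf h]
  exact Finset.sum_le_sum_of_subset_of_nonneg (subset_univ _) fun a _ _ => hu a

lemma MB.of_inj {R C : Type} {N : Matrix R C ℤ} {Δ : ℕ}
    (h : ∀ (s : ℕ) (f : Fin s → R) (g : Fin s → C), Function.Injective f → Function.Injective g →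
      |(N.submatrix f g).det| ≤ Δ) : MB N Δ := by
  intro s f g
  by_cases hf : Function.Injective f
  swap
  · obtain ⟨i, j, h1, h2⟩ := Function.not_injective_iff.mp hf
    rw [det_zero_of_row_eq h2 (funext fun k => by simp [h1])]
    simp
  by_cases hg : Function.Injective g
  swap
  · obtain ⟨i, j, h1, h2⟩ := Function.not_injective_iff.mp hg
    rw [det_zero_of_column_eq h2 fun k => by simp [h1]]
    simp
  exact h s f g hf hg

lemma MB.ext {R C C' : Type} [Fintype R] {N : Matrix R C ℤ} {Δ : ℕ} (hN : MB N Δ)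
    (N' : Matrix R C' ℤ) (h : ∀ c', (∃ (s : ℤ) (c : C), |s| ≤ 1 ∧ ∀ r, N' r c' = s * N r c) ∨
      ∑ r, |N' r c'| ≤ 1) : MB N' Δ := by
  intro s
  induction s with
  | zero => intro f g; simpa using hN.one_le
  | succ s ih =>
    intro f g
    by_cases hf : Function.Injective f
    swap
    · obtain ⟨i, j, h1, h2⟩ := Function.not_injective_iff.mp hf
      rw [det_zero_of_row_eq h2 (funext fun k => by simp [h1])]
      simp
    by_cases hl : ∃ j, ∑ r, |N' r (g j)| ≤ 1
    · obtain ⟨j, hj⟩ := hl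
      exact (abs_det_le_col (N'.submatrix f g) j Δ
        fun i => ih (f ∘ i.succAbove) (g ∘ j.succAbove)).trans (mul_le_of_le_one_left (by positivity)
        ((sum_comp_le hf (fun r => |N' r (g j)|) fun _ => abs_nonneg _).trans hj))
    · choose σ c h1 h2 using fun j => (h (g j)).resolve_right fun k => hl ⟨j, k⟩
      rw [show N'.submatrix f g = of fun i j => σ j * N.submatrix f c i j from
        Matrix.ext fun i j => h2 j _, det_mul_row, abs_mul, Finset.abs_prod]
      exact (mul_le_of_le_one_left (abs_nonneg _) (Finset.prod_le_one (fun _ _ => abs_nonneg _)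
        fun j _ => h1 j)).trans (hN _ _ _)

lemma det_light (s : ℕ) : ∀ (B : Matrix (Fin s) (Fin s) ℤ) (w : Fin s → ℤ) (H V : Fin s → Prop)
    [DecidablePred H] [DecidablePred V], (∀ i, 1 ≤ w i) → (∀ i, H i → ∑ j, |B i j| ≤ w i) →
    (∀ j, ¬ V j → ∑ i, (if H i then 0 else |B i j|) ≤ 1) →
    (∀ i, ¬ H i → ∑ j, (if V j then |B i j| else 0) ≤ 1) → |B.det| ≤ ∏ i, w i := by
  induction s with
  | zero => simp
  | succ s ih =>
    intro B w H V _ _ h0 h1 h2 h3
    have hw : ∀ i, 0 ≤ w i := fun i => zero_le_one.trans (h0 i)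
    have hm : ∀ i j : Fin (s + 1),
        |(B.submatrix i.succAbove j.succAbove).det| ≤ ∏ k, w (i.succAbove k) := fun i j =>
      ih _ (w ∘ i.succAbove) (H ∘ i.succAbove) (V ∘ j.succAbove) (fun a => h0 _)
        (fun a ha => (sum_comp_le Fin.succAbove_right_injective (fun b => |B (i.succAbove a) b|)
          fun _ => abs_nonneg _).trans (h1 _ ha))
        (fun b hb => (sum_comp_le Fin.succAbove_right_injective
          (fun a => if H a then 0 else |B a (j.succAbove b)|)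
          fun _ => by split_ifs <;> simp).trans (h2 _ hb))
        fun a ha => (sum_comp_le Fin.succAbove_right_injective
          (fun b => if V b then |B (i.succAbove a) b| else 0)
          fun _ => by split_ifs <;> simp).trans (h3 _ ha)
    have hP : ∀ i : Fin (s + 1), 0 ≤ ∏ k, w (i.succAbove k) := fun i =>
      Finset.prod_nonneg fun k _ => hw _
    have hrow : ∀ i, ∑ j, |B i j| ≤ w i → |B.det| ≤ ∏ i, w i := fun i hi => by
      rw [Fin.prod_univ_succAbove _ i]
      exact (abs_det_le_row B i _ (hm i)).trans (mul_le_mul_of_nonneg_right hi (hP i))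
    by_cases hH : ∃ i, H i
    · exact hH.elim fun i hi => hrow i (h1 i hi)
    push Not at hH
    by_cases hV : ∀ j, V j
    · exact hrow 0 (le_trans (by simpa [hV] using h3 0 (hH 0)) (h0 0))
    push Not at hV
    obtain ⟨j, hj⟩ := hV
    refine (abs_det_le_col B j (∏ i, w i) fun i => (hm i j).trans ?_).trans
      (mul_le_of_le_one_left (Finset.prod_nonneg fun k _ => hw _) (by simpa [hH] using h2 j hj))
    rw [Fin.prod_univ_succAbove _ i]
    exact le_mul_of_one_le_left (hP i) (h0 i)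

lemma mb_light {R C : Type} [Fintype R] [Fintype C] (N : Matrix R C ℤ) (H : R → Prop) (V : C → Prop)
    [DecidablePred H] [DecidablePred V] (w : ℕ) (hw : 1 ≤ w) (h1 : ∀ r, H r → ∑ c, |N r c| ≤ w)
    (h2 : ∀ c, ¬ V c → ∑ r, (if H r then 0 else |N r c|) ≤ 1)
    (h3 : ∀ r, ¬ H r → ∑ c, (if V c then |N r c| else 0) ≤ 1) :
    MB N (w ^ (univ.filter H).card) := by
  refine MB.of_inj fun s f g hf hg => (det_light s _ (fun i => if H (f i) then w else 1) (H ∘ f)
    (V ∘ g) (fun i => ?_) (fun i hi => ?_) (fun j hj => ?_) fun i hi => ?_).trans ?_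
  · split_ifs
    · exact_mod_cast hw
    · exact le_rfl
  · rw [if_pos (show H (f i) from hi)]
    exact (sum_comp_le hg (fun c => |N (f i) c|) fun _ => abs_nonneg _).trans (h1 _ hi)
  · exact (sum_comp_le hf (fun r => if H r then 0 else |N r (g j)|)
      fun _ => by split_ifs <;> simp).trans (h2 _ hj)
  · exact (sum_comp_le hg (fun c => if V c then |N (f i) c| else 0)
      fun _ => by split_ifs <;> simp).trans (h3 _ hi)
  · rw [Finset.prod_ite, Finset.prod_const_one, mul_one, Finset.prod_const]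
    norm_cast
    exact Nat.pow_le_pow_right hw (card_le_card_of_injOn f (fun i hi => by simpa using hi)
      hf.injOn)

variable {R C : Type} [Fintype R] [DecidableEq R] [Fintype C] [DecidableEq C] {N : Matrix R C ℤ}
  {Δ : ℕ}

lemma approx_kernel (hN : MB N Δ) (ξ : C → ℚ) (h0 : 0 ≤ ξ) (c0 : C)
    (h : Δ * ∑ r, |cf ℚ (N r) ⬝ᵥ ξ| < ξ c0) :
    ∃ ζ : C → ℤ, 0 ≤ ζ ∧ (∀ c, ζ c ≤ Δ) ∧ (∀ c, ξ c = 0 → ζ c = 0) ∧ (∀ r, N r ⬝ᵥ ζ = 0) ∧
      0 < ζ c0 := by
  let ρ : R → ℚ := fun r => cf ℚ (N r) ⬝ᵥ ξ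
  let N' : Matrix R (C ⊕ R) ℤ := fun r => Sum.elim (N r) fun r' =>
    if r' = r then (if 0 ≤ ρ r then -1 else 1) else 0
  obtain ⟨ζ, k1, k2, k3, k4, k5⟩ := circuit (F := ℚ) (hN.ext N' fun c' => by
      rcases c' with c | r'
      · exact Or.inl ⟨1, c, by simp, by simp [N']⟩
      · right
        simp only [N', Sum.elim_inr]
        rw [Finset.sum_eq_single r' (fun b _ hb => by simp [hb.symm]) (by simp)]
        split_ifs <;> simp)
    (Sum.elim (Pi.single c0 1) fun _ => -Δ) (Sum.elim ξ fun r => |ρ r|)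
    (by rintro (c | r); exacts [h0 c, abs_nonneg _]) (fun r => by
      have : cf ℚ (N' r) = Sum.elim (cf ℚ (N r)) (Pi.single r (if 0 ≤ ρ r then -1 else 1)) := by
        funext c
        rcases c with c | r'
        · rfl
        · simp only [cf, N', Sum.elim_inr, Pi.single_apply]
          split_ifs <;> simp
      rw [this, sumElim_dotProduct_sumElim, single_dotProduct]
      split_ifs with h
      · rw [abs_of_nonneg h]; simp [ρ]
      · rw [abs_of_neg (not_le.mp h)]; simp [ρ]) (by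
      rw [sumElim_dotProduct_sumElim, single_dotProduct]
      simp only [dotProduct, ← Finset.mul_sum]
      simp only [ρ]
      linarith)
  have k6 : Δ * ∑ r, ζ (.inr r) < ζ (.inl c0) := by
    simp only [dotProduct, Fintype.sum_sum_type, Sum.elim_inl, Sum.elim_inr, cf,
      ← Finset.mul_sum, Pi.single_apply, ite_mul, one_mul, zero_mul, Finset.sum_ite_eq',
      mem_univ, if_true] at k5
    have : ((Δ * ∑ r, ζ (.inr r) : ℤ) : ℚ) < ζ (.inl c0) := by push_cast; linarith
    exact_mod_cast this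
  have k7 : 0 ≤ ∑ r, ζ (.inr r) := Finset.sum_nonneg fun r _ => k1 _
  have k8 : ∑ r, ζ (.inr r) = 0 := by
    have := k2 (.inl c0)
    by_contra hc
    have := mul_le_mul_of_nonneg_left (show 1 ≤ ∑ r, ζ (.inr r) by omega) (Int.natCast_nonneg Δ)
    linarith
  have k9 := (Finset.sum_eq_zero_iff_of_nonneg fun r _ => k1 (.inr r)).mp k8
  refine ⟨ζ ∘ Sum.inl, fun c => k1 _, fun c => k2 _, fun c hc => k3 (.inl c) hc, fun r => ?_,
    by simpa [k8] using k6⟩
  have := k4 r
  simp only [dotProduct, Fintype.sum_sum_type, fun r => k9 r (mem_univ _), mul_zero,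
    Finset.sum_const_zero, add_zero] at this
  exact this

lemma abs_dot_le_sum (a : C → ℤ) (η : C → ℚ) : |cf ℚ a ⬝ᵥ η| ≤ ∑ c, (|a c| : ℤ) * |η c| :=
  (Finset.abs_sum_le_sum_abs _ _).trans (le_of_eq (Finset.sum_congr rfl fun c _ => by
    simp [cf, abs_mul]))

lemma proximity (hN : MB N Δ) (w : ℕ) (hw : ∀ c, ∑ r, |N r c| ≤ w) (ψ : C → ℚ) (hψ : 0 ≤ ψ)
    (E : ℕ) (φ : C → ℤ) (hφ : 0 ≤ φ) (h : ∑ r, |cf ℚ (N r) ⬝ᵥ (cf ℚ φ - ψ)| ≤ E) :
    ∃ φ' : C → ℤ, 0 ≤ φ' ∧ (∀ c, φ c = 0 → ψ c = 0 → φ' c = 0) ∧ (∀ r, N r ⬝ᵥ φ' = N r ⬝ᵥ φ) ∧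
      ∀ c, ψ c ≤ φ' c + (Δ * (E + Fintype.card C * w * Δ + 1) : ℕ) := by
  induction hm : ⌈∑ c, |(cf ℚ φ - ψ) c|⌉₊ using Nat.strong_induction_on generalizing φ with
  | _ m ih =>
  by_cases hc : ∀ c, ψ c ≤ φ c + (Δ * (E + Fintype.card C * w * Δ + 1) : ℕ)
  · exact ⟨φ, hφ, fun c h _ => h, fun _ => rfl, hc⟩
  push Not at hc
  obtain ⟨c0, hc0⟩ := hc
  set η := cf ℚ φ - ψ with hη
  have hη' : ∀ c, η c = φ c - ψ c := fun c => rfl
  let σ : C → ℤ := fun c => if 0 ≤ η c then 1 else -1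
  have hσ : ∀ c, σ c * |η c| = η c := fun c => by
    simp only [σ]
    split_ifs with h
    · simp [abs_of_nonneg h]
    · simp [abs_of_neg (not_le.mp h)]
  have hΔ : (1 : ℚ) ≤ Δ := by exact_mod_cast hN.one_le
  have hbig : Δ * (E + Fintype.card C * w * Δ + 1 : ℚ) < |η c0| := by
    push_cast at hc0
    rw [hη']
    exact lt_of_lt_of_le (by linarith) (neg_le_abs _)
  have hb2 : (Δ : ℚ) ≤ |η c0| := le_trans (le_mul_of_one_le_right (by positivity)
    (le_add_of_nonneg_left (by positivity))) hbig.le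
  obtain ⟨ζ, k1, k2, k3, k4, k5⟩ := approx_kernel (hN.ext (fun r c => σ c * N r c) fun c =>
      Or.inl ⟨σ c, c, by simp only [σ]; split_ifs <;> simp, fun _ => rfl⟩)
    (fun c => if (Δ : ℚ) ≤ |η c| then |η c| else 0) (fun c => by
      dsimp only; split_ifs <;> simp) c0 (by
      rw [if_pos hb2]
      refine lt_of_le_of_lt (mul_le_mul_of_nonneg_left ?_ (by positivity)) hbig
      have a1 : ∀ r, (cf ℚ fun c => σ c * N r c) ⬝ᵥ (fun c => if (Δ : ℚ) ≤ |η c| then |η c| else 0)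
          = cf ℚ (N r) ⬝ᵥ η - cf ℚ (N r) ⬝ᵥ fun c => if (Δ : ℚ) ≤ |η c| then 0 else η c := by
        intro r
        rw [← dotProduct_sub]
        refine Finset.sum_congr rfl fun c _ => ?_
        simp only [cf, Pi.sub_apply]
        split_ifs
        · push_cast
          rw [mul_comm (σ c : ℚ), mul_assoc, hσ, sub_zero]
        · simp
      have a2 : ∑ r, |cf ℚ (N r) ⬝ᵥ fun c => if (Δ : ℚ) ≤ |η c| then 0 else η c| ≤
          Fintype.card C * w * Δ := by
        refine (Finset.sum_le_sum fun r _ => abs_dot_le_sum _ _).trans ?_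
        rw [Finset.sum_comm]
        refine (Finset.sum_le_card_nsmul _ _ (w * Δ : ℚ) fun c _ => ?_).trans
          (by simp [mul_assoc])
        rw [← Finset.sum_mul]
        refine mul_le_mul (by exact_mod_cast hw c) ?_ (abs_nonneg _) (by positivity)
        split_ifs with h
        · simp
        · exact (not_le.mp h).le
      refine (Finset.sum_le_sum fun r _ => (a1 r).symm ▸ abs_sub _ _).trans ?_
      rw [Finset.sum_add_distrib]
      linarith)
  have k6 : ∀ c, (ζ c : ℚ) ≤ |η c| := fun c => by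
    by_cases h : (Δ : ℚ) ≤ |η c|
    · exact le_trans (by exact_mod_cast k2 c) h
    · rw [k3 c (if_neg h)]
      simp
  have k7 : ∀ c, |((φ c - σ c * ζ c : ℤ) : ℚ) - ψ c| = |η c| - ζ c := fun c => by
    have a1 := k6 c
    have a2 : (0 : ℚ) ≤ ζ c := by exact_mod_cast k1 c
    simp only [σ]
    split_ifs with h
    · rw [abs_of_nonneg h] at a1 ⊢
      rw [hη'] at a1 ⊢
      push_cast
      rw [abs_of_nonneg (by linarith)]
      ring
    · rw [abs_of_neg (not_le.mp h)] at a1 ⊢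
      rw [hη'] at a1 ⊢
      push_cast
      rw [abs_of_nonpos (by linarith)]
      ring
  have k8 : ∀ r, N r ⬝ᵥ (fun c => φ c - σ c * ζ c) = N r ⬝ᵥ φ := fun r => by
    have := k4 r
    simp only [dotProduct, mul_sub, Finset.sum_sub_distrib] at this ⊢
    rw [sub_eq_self, ← this]
    exact Finset.sum_congr rfl fun c _ => by ring
  refine (ih _ ?_ (fun c => φ c - σ c * ζ c) (fun c => ?_) ?_ rfl).imp
    fun φ' ⟨b1, b2, b3, b4⟩ => ⟨b1, fun c h1 h2 => b2 c ?_ h2, fun r => (b3 r).trans (k8 r), b4⟩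
  · rw [← hm]
    have a1 : ∑ c, |(cf ℚ (fun c => φ c - σ c * ζ c) - ψ) c| + 1 ≤ ∑ c, |η c| := by
      simp only [Pi.sub_apply, cf, k7, Finset.sum_sub_distrib]
      have a2 := Finset.single_le_sum (f := fun c => (ζ c : ℚ))
        (fun c _ => by exact_mod_cast k1 c) (mem_univ c0)
      have a3 : (1 : ℚ) ≤ ζ c0 := by exact_mod_cast k5
      linarith
    refine lt_of_lt_of_le (Nat.lt_succ_self _) (le_trans (le_of_eq ?_) (Nat.ceil_le_ceil a1))
    rw [Nat.ceil_add_one (Finset.sum_nonneg fun _ _ => abs_nonneg _)]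
  · have a1 := k6 c
    have a2 := hφ c
    have a3 := k1 c
    have a4 := hψ c
    simp only [σ, Pi.zero_apply] at a2 a3 a4 ⊢
    split_ifs with h
    · rw [abs_of_nonneg h, hη'] at a1
      have : (ζ c : ℚ) ≤ φ c := by linarith
      have : ζ c ≤ φ c := by exact_mod_cast this
      omega
    · omega
  · simp only [hη, dotProduct_sub, cf_dot, k8] at h ⊢
    exact h
  · have a1 := k6 c
    rw [hη', h1, h2] at a1
    have a3 : (ζ c : ℚ) ≤ 0 := by simpa using a1
    have a2 : ζ c ≤ 0 := by exact_mod_cast a3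
    simp [h1, le_antisymm a2 (k1 c)]

lemma near_or_far (hN : MB N Δ) (S : Finset R) (ξ : C → ℤ) :
    (∃ φ : R → ℚ, 0 ≤ φ ∧ (∀ r ∉ S, φ r = 0) ∧ ∀ c, cf ℚ (Nᵀ c) ⬝ᵥ φ = ξ c) ∨
      ∃ h : C → ℤ, (∀ c, |h c| ≤ Δ) ∧ (∀ r ∈ S, 0 ≤ N r ⬝ᵥ h) ∧ ξ ⬝ᵥ h < 0 := by
  by_cases hc : ∀ h : C → ℚ, (∀ r ∈ S, 0 ≤ cf ℚ (N r) ⬝ᵥ h) → 0 ≤ cf ℚ ξ ⬝ᵥ h
  · obtain ⟨l, h1, h2, h3⟩ := farkas S (fun r => dotProductBilin ℚ ℚ (cf ℚ (N r)))
      (dotProductBilin ℚ ℚ (cf ℚ ξ)) hc
    refine Or.inl ⟨l, h1, h2, fun c => ?_⟩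
    have := LinearMap.congr_fun h3 (Pi.single c 1)
    simp only [dotProductBilin_apply_apply, dotProduct_single, mul_one, LinearMap.sum_apply,
      LinearMap.smul_apply, smul_eq_mul, cf] at this
    rw [this, Finset.sum_subset (subset_univ S) fun r _ hr => by simp [h2 r hr]]
    exact Finset.sum_congr rfl fun r _ => mul_comm _ _
  push Not at hc
  obtain ⟨h, h1, h2⟩ := hc
  let N' : Matrix S (C ⊕ C ⊕ S) ℤ := fun r => Sum.elim (N r) (Sum.elim (-N r) (Pi.single r (-1)))
  have e : ∀ c, h c = max (h c) 0 - max (-h c) 0 := fun c => (max_zero_sub_max_neg_zero_eq_self _).symm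
  have e' : ∀ a : C → ℚ, a ⬝ᵥ h = a ⬝ᵥ (fun c => max (h c) 0) - a ⬝ᵥ fun c => max (-h c) 0 := by
    intro a
    rw [← dotProduct_sub]
    congr 1
    exact funext e
  obtain ⟨ζ, k1, k2, -, k4, k5⟩ := circuit (F := ℚ) ((hN.submatrix Subtype.val id).ext N' fun c' => by
      rcases c' with c | c | r
      · exact Or.inl ⟨1, c, by simp, by simp [N']⟩
      · exact Or.inl ⟨-1, c, by simp, by simp [N']⟩
      · right
        simp only [N', Sum.elim_inr]
        rw [Finset.sum_eq_single r (fun b _ hb => by simp [hb.symm]) (by simp)]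
        simp)
    (Sum.elim (-cf ℚ ξ) (Sum.elim (cf ℚ ξ) 0))
    (Sum.elim (fun c => max (h c) 0) (Sum.elim (fun c => max (-h c) 0) fun r => cf ℚ (N r) ⬝ᵥ h))
    (by rintro (c | c | r); exacts [le_max_right _ _, le_max_right _ _, h1 _ r.2]) (fun r => by
      have : cf ℚ (N' r) = Sum.elim (cf ℚ (N r)) (Sum.elim (-cf ℚ (N r)) (Pi.single r (-1))) := by
        funext c
        rcases c with c | c | r'
        · rfl
        · simp [cf, N']
        · simp only [cf, N', Sum.elim_inr, Pi.single_apply]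
          split_ifs <;> simp
      rw [this, sumElim_dotProduct_sumElim, sumElim_dotProduct_sumElim, single_dotProduct, e',
        neg_dotProduct]
      ring) (by
      rw [sumElim_dotProduct_sumElim, sumElim_dotProduct_sumElim, neg_dotProduct, zero_dotProduct]
      rw [e'] at h2
      linarith)
  refine Or.inr ⟨fun c => ζ (.inl c) - ζ (.inr (.inl c)), fun c => ?_, fun r hr => ?_, ?_⟩
  · have a1 := k1 (.inl c)
    have a2 := k1 (.inr (.inl c))
    have a3 := k2 (.inl c)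
    have a4 := k2 (.inr (.inl c))
    simp only [Pi.zero_apply] at a1 a2
    show |ζ (.inl c) - ζ (.inr (.inl c))| ≤ Δ
    rw [abs_le]
    omega
  · have a1 := k4 ⟨r, hr⟩
    have a2 := k1 (.inr (.inr ⟨r, hr⟩))
    simp [N', dotProduct, Fintype.sum_sum_type, Pi.single_apply] at a1 a2
    simp only [dotProduct, mul_sub, Finset.sum_sub_distrib]
    omega
  · simp [dotProduct, Fintype.sum_sum_type, cf] at k5
    simp only [dotProduct, mul_sub, Finset.sum_sub_distrib]
    have : ((∑ c, ξ c * ζ (.inl c) : ℤ) : ℚ) < ((∑ c, ξ c * ζ (.inr (.inl c)) : ℤ) : ℚ) := by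
      push_cast
      linarith
    have := Int.cast_lt.mp this
    omega

end Pool.Agent.Lib.MP_a0040c_lc
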