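import Mathlib

namespace Pool.Agent.Lib.MP_a0040c_lc

open Finset Matrix

variable {ι : Type} [Fintype ι] [DecidableEq ι]

/-- cast of an integer vector -/
def cq (x : ι → ℤ) : ι → ℚ := fun j => (x j : ℚ)

omit [DecidableEq ι] in
lemma cq_dot (x y : ι → ℤ) : cq x ⬝ᵥ cq y = ((x ⬝ᵥ y : ℤ) : ℚ) := by
  simp [cq, dotProduct]

omit [Fintype ι] [DecidableEq ι] in
lemma cq_inj {x y : ι → ℤ} (h : cq x = cq y) : x = y := by
  funext j; have := congrFun h j; simpa [cq] using this

attribute [local instance] Matrix.seminormedAddCommGroup in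
lemma small_kernel (R : Set (ι → ℤ)) (D : ℕ) (hD : 1 ≤ D) (hR : ∀ ρ ∈ R, ∀ j, |ρ j| ≤ D)
    (g : ι → ℚ) (hg : g ≠ 0) (hgR : ∀ ρ ∈ R, cq ρ ⬝ᵥ g = 0) :
    ∃ h : ι → ℤ, h ≠ 0 ∧ (∀ j, |h j| ≤ ((Fintype.card ι * D) ^ (Fintype.card ι - 1) : ℕ)) ∧
      ∀ ρ ∈ R, ρ ⬝ᵥ h = 0 := by
  classical
  obtain ⟨b, hb, hspan, hli⟩ := exists_linearIndependent ℚ (cq '' R)
  have hfin : b.Finite := hli.setFinite
  have : Fintype b := hfin.fintype
  have hne : Submodule.span ℚ b ≠ ⊤ := by
    intro htop
    apply hg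
    have : ∀ y ∈ Submodule.span ℚ (cq '' R), y ⬝ᵥ g = 0 := by
      intro y hy
      induction hy using Submodule.span_induction with
      | mem y hy => obtain ⟨ρ, hρ, rfl⟩ := hy; exact hgR ρ hρ
      | zero => simp
      | add y z _ _ h1 h2 => simp [add_dotProduct, h1, h2]
      | smul a y _ h1 => simp [smul_dotProduct, h1]
    have h2 := this g (by rw [← hspan, htop]; trivial)
    exact dotProduct_self_eq_zero.mp h2
  have hcard : Fintype.card b < Fintype.card ι := by
    have h1 : Module.finrank ℚ (Submodule.span ℚ b) = Fintype.card b := by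
      have := finrank_span_eq_card hli
      rw [Subtype.range_coe_subtype, Set.ofPred_mem_eq] at this
      convert this
    have h2 := Submodule.finrank_lt hne
    rw [Module.finrank_fintype_fun_eq_card] at h2
    omega
  have hpre : ∀ y : b, ∃ ρ ∈ R, cq ρ = y := fun y => hb y.2
  choose ρ hρR hρ using hpre
  have hN1 : 1 ≤ Fintype.card ι * D := Nat.mul_pos (by omega) hD
  have hback : ∀ h : ι → ℤ, (∀ y : b, ρ y ⬝ᵥ h = 0) → ∀ r ∈ R, r ⬝ᵥ h = 0 := by
    intro h hh r hr
    have : ∀ y ∈ Submodule.span ℚ b, y ⬝ᵥ cq h = 0 := by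
      intro y hy
      induction hy using Submodule.span_induction with
      | mem y hy => rw [show y = cq (ρ ⟨y, hy⟩) from (hρ ⟨y, hy⟩).symm, cq_dot, hh]; simp
      | zero => simp
      | add y z _ _ h1 h2 => simp [add_dotProduct, h1, h2]
      | smul a y _ h1 => simp [smul_dotProduct, h1]
    have h2 := this (cq r) (by rw [hspan]; exact Submodule.subset_span ⟨r, hr, rfl⟩)
    rw [cq_dot] at h2
    exact_mod_cast h2
  by_cases h0 : Fintype.card b = 0
  · have : IsEmpty b := Fintype.card_eq_zero_iff.mp h0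
    obtain ⟨j0⟩ : Nonempty ι := Fintype.card_pos_iff.mp (by omega)
    refine ⟨fun _ => 1, fun h => by simpa using congrFun h j0, fun j => ?_,
      hback _ (fun y => this.elim y)⟩
    have := Nat.one_le_pow (Fintype.card ι - 1) _ hN1
    simp only [abs_one]; exact_mod_cast this
  · let Am : Matrix b ι ℤ := fun y j => ρ y j
    obtain ⟨t, ht0, htA, htn⟩ := Int.Matrix.exists_ne_zero_int_vec_norm_le Am hcard (by omega)
    refine ⟨t, ht0, fun j => ?_, hback t fun y => congrFun htA y⟩
    have hAn : ‖Am‖ ≤ D := by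
      rw [Matrix.norm_le_iff (by positivity)]
      intro y j
      rw [Int.norm_eq_abs, ← Int.cast_abs]
      exact_mod_cast hR _ (hρR y) j
    have hD' : (1 : ℝ) ≤ D := by exact_mod_cast hD
    have hmax : max 1 ‖Am‖ ≤ D := max_le hD' hAn
    have hN1' : (1 : ℝ) ≤ (Fintype.card ι : ℝ) * D := by exact_mod_cast hN1
    have hlt : (Fintype.card b : ℝ) + 1 ≤ Fintype.card ι := by exact_mod_cast hcard
    have hexp : (Fintype.card b : ℝ) / (Fintype.card ι - Fintype.card b) ≤
        ((Fintype.card ι - 1 : ℕ) : ℝ) := by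
      rw [Nat.cast_sub (by omega), div_le_iff₀ (by linarith)]
      have : (0 : ℝ) ≤ Fintype.card b := by positivity
      push_cast
      nlinarith
    have h1 : ‖t j‖ ≤ ‖t‖ := norm_le_pi_norm t j
    have h2 : ((Fintype.card ι : ℝ) * max 1 ‖Am‖) ^
        ((Fintype.card b : ℝ) / (Fintype.card ι - Fintype.card b)) ≤
        ((Fintype.card ι : ℝ) * D) ^ ((Fintype.card ι - 1 : ℕ) : ℝ) := by
      calc _ ≤ ((Fintype.card ι : ℝ) * D) ^
          ((Fintype.card b : ℝ) / (Fintype.card ι - Fintype.card b)) := by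
            apply Real.rpow_le_rpow (by positivity) (by gcongr)
            apply div_nonneg (by positivity) (by linarith)
        _ ≤ _ := Real.rpow_le_rpow_of_exponent_le hN1' hexp
    rw [Real.rpow_natCast] at h2
    have h3 := h1.trans (htn.trans h2)
    rw [Int.norm_eq_abs, ← Int.cast_abs] at h3
    exact_mod_cast h3

lemma small_separator (R : Set (ι → ℤ)) (D : ℕ) (hD : 1 ≤ D) (hR : ∀ ρ ∈ R, ∀ j, |ρ j| ≤ D)
    (v : ι → ℤ) (hv : cq v ∉ Submodule.span ℚ (cq '' R)) :
    ∃ h : ι → ℤ, (∀ j, |h j| ≤ ((Fintype.card ι * D) ^ (Fintype.card ι - 1) : ℕ)) ∧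
      (∀ ρ ∈ R, ρ ⬝ᵥ h = 0) ∧ 0 < v ⬝ᵥ h := by
  classical
  have key : ∀ m : ℕ, ∀ g : ι → ℚ, (univ.filter fun j => g j ≠ 0).card ≤ m →
      (∀ ρ ∈ R, cq ρ ⬝ᵥ g = 0) → cq v ⬝ᵥ g ≠ 0 →
      ∃ h : ι → ℤ, (∀ j, |h j| ≤ ((Fintype.card ι * D) ^ (Fintype.card ι - 1) : ℕ)) ∧
      (∀ ρ ∈ R, ρ ⬝ᵥ h = 0) ∧ v ⬝ᵥ h ≠ 0 := by
    intro m
    induction m with
    | zero =>
      intro g hm _ hgv
      exfalso; apply hgv
      have : g = 0 := by
        funext j
        by_contra hj
        have : j ∈ univ.filter fun j => g j ≠ 0 := by simpa using hj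
        have := card_pos.mpr ⟨j, this⟩
        omega
      simp [this]
    | succ m ih =>
      intro g hm hgR hgv
      have hg0 : g ≠ 0 := by rintro rfl; simp at hgv
      obtain ⟨h, hh0, hhb, hhR⟩ := small_kernel (R ∪ {ρ | ∃ j, g j = 0 ∧ ρ = Pi.single j 1}) D hD
        (by
          rintro ρ (hρ | ⟨j, -, rfl⟩) i
          · exact hR ρ hρ i
          · by_cases hij : i = j
            · subst hij; simpa using hD
            · simp [hij]) g hg0
        (by
          rintro ρ (hρ | ⟨j, hj, rfl⟩)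
          · exact hgR ρ hρ
          · have : cq (Pi.single j 1 : ι → ℤ) = Pi.single j 1 := by
              funext i; by_cases hij : i = j <;> simp [cq, hij]
            simp [this, hj])
      by_cases hv : v ⬝ᵥ h = 0
      · obtain ⟨j, hj⟩ : ∃ j, h j ≠ 0 := by
          by_contra hc; push Not at hc; exact hh0 (funext hc)
        have hsupp : ∀ i, g i = 0 → h i = 0 := by
          intro i hi
          have := hhR (Pi.single i 1) (Or.inr ⟨i, hi, rfl⟩)
          simpa using this
        have hgj : g j ≠ 0 := fun h0 => hj (hsupp j h0)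
        apply ih (g - (g j / h j) • cq h)
        · have : (univ.filter fun i => (g - (g j / h j) • cq h) i ≠ 0) ⊆
              (univ.filter fun j => g j ≠ 0).erase j := by
            intro i hi
            simp only [mem_filter, mem_univ, true_and, mem_erase] at hi ⊢
            constructor
            · rintro rfl
              apply hi
              have : (h i : ℚ) ≠ 0 := by exact_mod_cast hj
              simp [cq]; field_simp; simp
            · intro h0
              apply hi
              simp [cq, h0, hsupp i h0]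
          have h2 := card_le_card this
          rw [card_erase_of_mem (by simpa using hgj)] at h2
          omega
        · intro ρ hρ
          rw [dotProduct_sub, dotProduct_smul, cq_dot, hgR ρ hρ, hhR ρ (Or.inl hρ)]; simp
        · rw [dotProduct_sub, dotProduct_smul, cq_dot, hv]; simpa using hgv
      · exact ⟨h, hhb, fun ρ hρ => hhR ρ (Or.inl hρ), hv⟩
  obtain ⟨f, hf1, hf2⟩ := Submodule.exists_dual_map_eq_bot_of_notMem hv inferInstance
  have hf : ∀ y : ι → ℚ, y ⬝ᵥ (fun j => f (Pi.single j 1)) = f y := by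
    intro y
    rw [LinearMap.pi_apply_eq_sum_univ f y]
    simp only [dotProduct, smul_eq_mul]
    refine Finset.sum_congr rfl fun j _ => ?_
    congr 2
    funext i; simp [Pi.single_apply, eq_comm]
  obtain ⟨h, h1, h2, h3⟩ := key _ (fun j => f (Pi.single j 1)) le_rfl
    (by
      intro ρ hρ
      rw [hf]
      have : f (cq ρ) ∈ (Submodule.span ℚ (cq '' R)).map f :=
        Submodule.mem_map_of_mem (Submodule.subset_span ⟨ρ, hρ, rfl⟩)
      rw [hf2] at this
      exact (Submodule.mem_bot ℚ).mp this)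
    (by rw [hf]; exact hf1)
  rcases lt_or_gt_of_ne h3 with h4 | h4
  · exact ⟨-h, by simpa using h1, by simpa using h2, by simpa using h4⟩
  · exact ⟨h, h1, h2, h4⟩

end Pool.Agent.Lib.MP_a0040c_lc
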