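import Pool.Agent.Lib.MP_a0040c_lc.NJ

set_option linter.unusedSectionVars false

namespace Pool.Agent.Lib.MP_a0040c_lc

open Finset Pointwise

variable {A T : Type} [DecidableEq A] [Fintype A] [DecidableEq T] [Fintype T]

lemma cm_cm {U : Type} [DecidableEq U] [Fintype U] (ρ : T → U) (s : A → T) (y : A → ℤ) :
    cm ρ (cm s y) = cm (ρ ∘ s) y := by
  change cm ρ (∑ a, _) = ∑ a, _
  rw [map_sum]
  simp [cm_single]

lemma cm_id (y : A → ℤ) : cm id y = y := Finset.univ_sum_single y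

lemma le_cm (ρ : A → T) {x : A → ℤ} (hx : 0 ≤ x) (a : A) : x a ≤ cm ρ x (ρ a) := by
  rw [cm_apply]
  exact Finset.single_le_sum (f := x) (fun b _ => hx b) (by simp)

lemma card_le_cost [Nonempty A] {S : Set (A → ℤ)} {n k : ℕ} (hS : NJ S n)
    (hk : Fintype.card A ≤ k) (B : ℕ) (hB : ∀ x, 0 ≤ x → x ∉ S → ∀ a, x a < B)
    {τ : Type} [Fintype τ] (y : τ → A → ℤ) (hy : ∀ t, 0 ≤ y t)
    (hsep : ∀ t t', (∀ z, 0 ≤ z → (y t + z ∈ S ↔ y t' + z ∈ S)) → t = t') :
    Fintype.card τ ≤ cost n k := by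
  obtain ⟨s⟩ : Nonempty (A ↪ Fin k) := Function.Embedding.nonempty_of_card_le (by simpa using hk)
  obtain ⟨ρ, hρ⟩ := s.injective.hasLeftInverse
  have hid : ∀ y : A → ℤ, cm ρ (cm s y) = y := fun y => by
    rw [cm_cm, show ρ ∘ s = id from funext hρ, cm_id]
  obtain ⟨M, hM⟩ := hS.comap ρ
  have hL : ∀ w, w ∈ M.LJ ↔ pk w ∈ PI M := mem_LJ_iff
  have hin : ∀ x : Fin k → ℤ, 0 ≤ x → ∀ i, (B : ℤ) ≤ x i → x ∈ PI M := by
    intro x hx i hi
    rw [hM]
    refine ⟨hx, ?_⟩
    by_contra hc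
    have := hB _ (cm_nonneg ρ hx) hc (ρ i)
    have := le_cm ρ hx i
    omega
  have hreg := (sc_le_of_periodic M.LJ (PI M) hL B 1 fun i => ⟨1, one_pos, le_rfl, fun x hx hi =>
    ⟨fun _ => hin _ (add_nonneg hx (by simp)) i (by simp; omega), fun _ => hin _ hx i hi⟩⟩).1
  have : ∀ t, ∃ w, pk w = cm s (y t) := fun t => exists_pk (cm_nonneg _ (hy t))
  choose w hw using this
  refine (le_sc M.LJ hreg w ?_).trans (le_cost M (by simp) hreg)
  intro t t' h
  apply hsep
  intro z hz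
  obtain ⟨v, hv⟩ := exists_pk (cm_nonneg s hz)
  have key : ∀ t, v ∈ M.LJ.leftQuotient (w t) ↔ y t + z ∈ S := by
    intro t
    rw [Language.mem_leftQuotient, hL, pk_append, hw, hv, hM, ← map_add]
    simp only [Set.mem_ofPred_eq, hid, and_iff_right_iff_imp]
    exact fun _ => cm_nonneg _ (add_nonneg (hy t) hz)
  simp only at h
  rw [← key, ← key, h]

lemma sep_of_top {S : Set (A → ℤ)} {p : A → ℤ} (hp : p ∉ S) (t : A)
    (hu : ∀ x, 0 ≤ x → x ∉ S → p t ≤ x t → x = p) {y y' : A → ℤ} (h0 : 0 ≤ y) (h0' : 0 ≤ y')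
    (h1 : y ≤ p) (h1' : y' ≤ p) (h : ∀ z, 0 ≤ z → (y + z ∈ S ↔ y' + z ∈ S)) : y = y' := by
  wlog hle : y t ≤ y' t generalizing y y'
  · exact (this h0' h0 h1' h1 (fun z hz => (h z hz).symm) (le_of_not_ge hle)).symm
  have a1 := h (p - y) (sub_nonneg.mpr h1)
  rw [add_sub_cancel] at a1
  have a2 := hu (y' + (p - y)) (add_nonneg h0' (sub_nonneg.mpr h1)) (fun h => hp (a1.mpr h))
    (by simp only [Pi.add_apply, Pi.sub_apply]; omega)
  funext a
  have := congrFun a2 a
  simp only [Pi.add_apply, Pi.sub_apply] at this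
  omega

lemma NJ.gt0 (w κ : ℕ) :
    NJ {y : Fin 3 → ℤ | 0 ≤ y ∧ w * y 1 + κ ≤ y 0} (2 * w + 2 * κ + 14) := by
  have h := ((NJ.single (0 : Fin 3)).nsmul κ).add (((NJ.single (0 : Fin 3)).insert
    ((((NJ.single (0 : Fin 3)).nsmul w).singleton_add (NJ.single 1)).insert (NJ.single 2))).star)
  refine NJ.mono ?_ (show κ * 2 + 2 + (2 + (w * 2 + 2 + 2 + 2 + 1) + 1 + 1) ≤ _ by omega)
  convert h using 1
  ext y
  constructor
  · rintro ⟨h0, h1⟩
    refine ⟨_, rfl, (y 0 - κ - w * y 1) • Pi.single 0 1 + y 1 • (w • Pi.single 0 1 + Pi.single 1 1) +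
      y 2 • Pi.single 2 1, ?_, ?_⟩
    · refine add_mem (add_mem (zsmul_mem_closure ?_ (by omega)) (zsmul_mem_closure ?_ (h0 1)))
        (zsmul_mem_closure ?_ (h0 2)) <;> apply AddSubmonoid.subset_closure <;> simp
    · funext j
      fin_cases j <;> simp
      ring
  · rintro ⟨_, rfl, z, hz, rfl⟩
    have : 0 ≤ z ∧ w * z 1 ≤ z 0 := by
      induction hz using AddSubmonoid.closure_induction with
      | mem x hx =>
        rcases hx with rfl | rfl | rfl
        · exact ⟨by simp, by simp⟩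
        · exact ⟨add_nonneg (nsmul_nonneg (by simp) _) (by simp), by simp⟩
        · exact ⟨by simp, by simp⟩
      | zero => simp
      | add x y _ _ hx hy =>
        exact ⟨add_nonneg hx.1 hy.1, by simp only [Pi.add_apply]; linarith [hx.2, hy.2]⟩
    refine ⟨add_nonneg (nsmul_nonneg (by simp) _) this.1, ?_⟩
    have := this.2
    simp
    linarith

/-- the test `w * (sum over V) + κ ≤ sum over U` -/
def Gt (U V : Finset A) (w κ : ℕ) : Set (A → ℤ) :=
  {x | 0 ≤ x ∧ w * ∑ a ∈ V, x a + κ ≤ ∑ a ∈ U, x a}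

lemma NJ.gt (U V : Finset A) (h : Disjoint U V) (w κ : ℕ) :
    NJ (Gt U V w κ) (2 * w + 2 * κ + 14) := by
  have := (NJ.gt0 w κ).comap (fun a => if a ∈ U then 0 else if a ∈ V then 1 else 2)
  convert this using 1
  ext x
  have e0 : (univ.filter fun a => (if a ∈ U then 0 else if a ∈ V then 1 else 2 : Fin 3) = 0) = U := by
    ext a
    by_cases h1 : a ∈ U <;> by_cases h2 : a ∈ V <;> simp [h1, h2]
  have e1 : (univ.filter fun a => (if a ∈ U then 0 else if a ∈ V then 1 else 2 : Fin 3) = 1) = V := by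
    ext a
    by_cases h1 : a ∈ U <;> by_cases h2 : a ∈ V <;> simp [h1, h2]
    exact disjoint_left.mp h h1 h2
  simp only [Gt, Set.mem_ofPred_eq, cm_apply, e0, e1]
  exact ⟨fun h => ⟨h.1, cm_nonneg _ h.1, h.2⟩, fun h => ⟨h.1, h.2.2⟩⟩

/-- vectors supported on addressed letters avoiding one address -/
def Junk {l : ℕ} (addr : A → Option (Fin l → Bool)) : Set (A → ℤ) :=
  {y | 0 ≤ y ∧ ∃ i, ∀ a, y a ≠ 0 → ∃ i', addr a = some i' ∧ i' ≠ i}

lemma NJ.junk {l : ℕ} (addr : A → Option (Fin l → Bool)) : NJ (Junk addr) (7 * l + 2) := by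
  classical
  have := NJ.sum univ (fun j : Fin l => Free {a | ∃ i', addr a = some i' ∧ i' j ≠ false} ∪
    Free {a | ∃ i', addr a = some i' ∧ i' j ≠ true}) 7 fun j _ => (NJ.free _).union (NJ.free _)
  rw [card_univ, Fintype.card_fin, mul_comm] at this
  convert this using 1
  ext y
  rw [Set.mem_fintype_sum]
  constructor
  · rintro ⟨h0, i, hi⟩
    have : ∀ a, ∃ o : Option (Fin l), y a ≠ 0 → ∃ j, o = some j ∧
        ∃ i', addr a = some i' ∧ i' j ≠ i j := by
      intro a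
      by_cases h : y a = 0
      · exact ⟨none, fun h' => absurd h h'⟩
      · obtain ⟨i', h1, h2⟩ := hi a h
        obtain ⟨j, hj⟩ := Function.ne_iff.mp h2
        exact ⟨some j, fun _ => ⟨j, rfl, i', h1, hj⟩⟩
    choose o ho using this
    refine ⟨fun j a => if o a = some j then y a else 0, fun j => ?_, ?_⟩
    · have : (fun a => if o a = some j then y a else 0) ∈
          Free {a | ∃ i', addr a = some i' ∧ i' j ≠ i j} := by
        refine ⟨fun a => ?_, fun a ha => ?_⟩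
        · have := h0 a
          dsimp only
          split_ifs
          · exact this
          · exact le_rfl
        · have h1 : o a = some j ∧ y a ≠ 0 := by simpa using ha
          obtain ⟨j', h2, h3⟩ := ho a h1.2
          obtain rfl : j' = j := by simpa [h2] using h1.1
          exact h3
      cases hij : i j
      · exact Or.inl (hij ▸ this)
      · exact Or.inr (hij ▸ this)
    · funext a
      rw [Finset.sum_apply]
      by_cases h : y a = 0
      · simp [h]
      · obtain ⟨j, h2, -⟩ := ho a h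
        simp [h2]
  · rintro ⟨g, hg, rfl⟩
    have : ∀ j, ∃ b, g j ∈ Free {a | ∃ i', addr a = some i' ∧ i' j ≠ b} := fun j =>
      (hg j).elim (fun h => ⟨_, h⟩) fun h => ⟨_, h⟩
    choose b hb using this
    refine ⟨Finset.sum_nonneg fun j _ => (hb j).1, b, fun a ha => ?_⟩
    rw [Finset.sum_apply] at ha
    obtain ⟨j, -, hj⟩ := Finset.exists_ne_zero_of_sum_ne_zero ha
    obtain ⟨i', h1, h2⟩ := (hb j).2 a hj
    exact ⟨i', h1, fun h => h2 (h ▸ rfl)⟩

lemma mem_junk_add {l : ℕ} (addr : A → Option (Fin l → Bool)) (i : Fin l → Bool) {S : Set (A → ℤ)}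
    {x : A → ℤ} (hx : 0 ≤ x)
    (h : (fun a => if addr a = none ∨ addr a = some i then x a else 0) ∈ S) :
    x ∈ Junk addr + S := by
  refine ⟨fun a => if addr a = none ∨ addr a = some i then 0 else x a, ⟨fun a => ?_, i,
    fun a ha => ?_⟩, _, h, ?_⟩
  · have := hx a
    dsimp only
    split_ifs
    · exact le_rfl
    · exact this
  · have h1 : ¬ (addr a = none ∨ addr a = some i) := fun h => by simp [h] at ha
    push Not at h1
    obtain ⟨i', hi'⟩ := Option.ne_none_iff_exists'.mp h1.1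
    exact ⟨i', hi', fun h => h1.2 (h ▸ hi')⟩
  · funext a
    simp only [Pi.add_apply]
    split_ifs <;> simp

lemma of_mem_junk_add {l : ℕ} {addr : A → Option (Fin l → Bool)} {S : Set (A → ℤ)} {x : A → ℤ}
    (h : x ∈ Junk addr + S) :
    ∃ i, ∃ z ∈ S, ∀ a, addr a = none ∨ addr a = some i → z a = x a := by
  obtain ⟨y, ⟨-, i, hi⟩, z, hz, rfl⟩ := h
  refine ⟨i, z, hz, fun a ha => ?_⟩
  have : y a = 0 := by
    by_contra hc
    obtain ⟨i', h1, h2⟩ := hi a hc
    rcases ha with ha | ha <;> simp_all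
  simp [this]

end Pool.Agent.Lib.MP_a0040c_lc
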