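import Pool.Agent.Lib.MP_a0040c_lc.Period

set_option linter.unusedSectionVars false

namespace Pool.Agent.Lib.MP_a0040c_lc

open Finset

lemma sc_le_of_range {A τ : Type} [Fintype τ] (L : Language A) (F : τ → Language A)
    (h : Set.range L.leftQuotient ⊆ Set.range F) : L.IsRegular ∧ sc L ≤ Fintype.card τ := by
  have hfin : (Set.range L.leftQuotient).Finite := (Set.finite_range F).subset h
  refine ⟨Language.IsRegular.of_finite_range_leftQuotient hfin, ?_⟩
  have : Fintype (Set.range L.leftQuotient) := hfin.fintype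
  have h1 : sc L ≤ Fintype.card (Set.range L.leftQuotient) :=
    Nat.sInf_le ⟨DFA.reindex (Fintype.equivFin _) L.toDFA, by simp⟩
  refine h1.trans ?_
  rw [← Nat.card_eq_fintype_card, ← Nat.card_eq_fintype_card]
  exact (Nat.card_mono (Set.finite_range F) h).trans (Finite.card_range_le F)

lemma le_sc {A τ : Type} [Fintype τ] (L : Language A) (hL : L.IsRegular) (w : τ → List A)
    (h : Function.Injective fun t => L.leftQuotient (w t)) : Fintype.card τ ≤ sc L := by
  obtain ⟨σ, _, M, rfl⟩ := hL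
  have hne : {m | ∃ D : DFA A (Fin m), D.accepts = M.accepts}.Nonempty :=
    ⟨_, DFA.reindex (Fintype.equivFin σ) M, by simp⟩
  obtain ⟨D, hD⟩ := Nat.sInf_mem hne
  have : Function.Injective fun t => D.eval (w t) := by
    intro s t hst
    apply h
    simp only at hst ⊢
    rw [← hD, Language.leftQuotient_accepts_apply, Language.leftQuotient_accepts_apply, hst]
  simpa [sc] using Fintype.card_le_of_injective _ this

variable {Q A : Type} [DecidableEq Q] [DecidableEq A] [Fintype Q] [Fintype A]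

lemma nf_PI (M : GFA Q A) : NF (PI M) (Fintype.card Q ^ 2 + (Fintype.card Q + 1) ^ Fintype.card A *
    ((Fintype.card A + 1) * Fintype.card Q) ^ Fintype.card A * Fintype.card Q) (Fintype.card Q) := by
  classical
  intro x hx
  have hn : 1 ≤ Fintype.card Q := Fintype.card_pos_iff.mpr ⟨M.q0⟩
  set n := Fintype.card Q with hndef
  obtain ⟨K, b, hb0, hb, hc, r, hr, l, hw⟩ := decomp hx
  set P : Finset (A → ℤ) := (Fintype.piFinset fun _ => Icc (0 : ℤ) n).filter (· ∈ Cyc M K n)
    with hP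
  have hPc : (P : Set (A → ℤ)) = Cyc M K n := by
    ext c
    simp only [hP, coe_filter, Fintype.mem_piFinset, mem_Icc, Set.mem_ofPred_eq, and_iff_right_iff_imp]
    intro hc j
    exact ⟨(Cyc.bound hc).1 j, (Cyc.bound hc).2 j⟩
  have hPb : ∀ c ∈ P, 0 ≤ c ∧ ∀ j, c j ≤ n := fun c hc => Cyc.bound (hPc ▸ mem_coe.mpr hc)
  have hPa : ∀ c ∈ P, ∀ j, |c j| ≤ n := fun c hc j => by
    rw [abs_of_nonneg ((hPb c hc).1 j)]; exact (hPb c hc).2 j
  have hPcard : P.card ≤ (n + 1) ^ Fintype.card A := by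
    refine (card_filter_le _ _).trans ?_
    simp [Fintype.card_piFinset]
  rw [← hPc, AddSubmonoid.mem_closure_finset] at hc
  obtain ⟨f, -, hf⟩ := hc
  obtain ⟨l', h1, h2, h3⟩ := normal_form P n hn hPa (fun c => (f c : ℤ)) (fun c => by positivity)
  set N : ℕ := ((Fintype.card A + 1) * n) ^ Fintype.card A with hN
  have hmemcl : ∀ μ : (A → ℤ) → ℤ, ∀ s ⊆ P, (∀ c ∈ s, 0 ≤ μ c) →
      ∑ c ∈ s, μ c • c ∈ AddSubmonoid.closure (Cyc M K n) := by
    intro μ s hs hμ
    refine sum_mem fun c hc => ?_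
    rw [← Int.toNat_of_nonneg (hμ c hc), natCast_zsmul]
    exact nsmul_mem (AddSubmonoid.subset_closure (hPc ▸ mem_coe.mpr (hs hc))) _
  refine ⟨b + ∑ c ∈ P.filter (fun c => ¬ (N : ℤ) < l' c), l' c • c,
    P.filter fun c => (N : ℤ) < l' c, l', fun j => ?_,
    fun c hc => hPa c (mem_filter.mp hc).1, h3, fun c _ => h1 c, ?_, fun μ hμ => ?_⟩
  · have e1 : 0 ≤ (∑ c ∈ P.filter (fun c => ¬ (N : ℤ) < l' c), l' c • c) j := by
      rw [Finset.sum_apply]
      exact Finset.sum_nonneg fun c hc => mul_nonneg (h1 c) ((hPb c (mem_filter.mp hc).1).1 j)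
    have e2 : (∑ c ∈ P.filter (fun c => ¬ (N : ℤ) < l' c), l' c • c) j ≤
        ((n + 1) ^ Fintype.card A * N * n : ℕ) := by
      rw [Finset.sum_apply]
      calc _ ≤ ∑ _c ∈ P.filter (fun c => ¬ (N : ℤ) < l' c), (N : ℤ) * n :=
            Finset.sum_le_sum fun c hc => by
              obtain ⟨h4, h5⟩ := mem_filter.mp hc
              exact mul_le_mul (not_lt.mp h5) ((hPb c h4).2 j) ((hPb c h4).1 j) (by positivity)
        _ = (((P.filter (fun c => ¬ (N : ℤ) < l' c)).card * N * n : ℕ) : ℤ) := by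
            simp [mul_assoc]
        _ ≤ _ := by
            norm_cast
            gcongr
            exact (card_filter_le _ _).trans hPcard
    have e3 := hb0 j
    have e4 := hb j
    simp only [Pi.add_apply, Pi.zero_apply] at e3 ⊢
    rw [abs_of_nonneg (add_nonneg e3 e1), Nat.cast_add, Nat.cast_pow n]
    exact add_le_add e4 e2
  · rw [add_assoc, add_comm (∑ c ∈ P.filter (fun c => ¬ (N : ℤ) < l' c), l' c • c),
      Finset.sum_filter_add_sum_filter_not, h2]
    simp only [natCast_zsmul]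
    rw [hf]; abel
  · obtain ⟨l2, hw2⟩ := Walk.pump (add_mem (hmemcl l' _ (filter_subset (fun c => ¬ (N : ℤ) < l' c) P)
      fun c _ => h1 c) (hmemcl μ _ (filter_subset _ P) hμ)) Subset.rfl hw
    exact ⟨r, hr, K, l2, by rwa [add_assoc]⟩

lemma pk_replicate (m : ℕ) (i : A) : pk (List.replicate m i) = Pi.single i (m : ℤ) := by
  funext j
  by_cases h : j = i
  · subst h; simp [pk]
  · simp [pk, h, List.count_replicate, Ne.symm h]

lemma recog (M : GFA Q A) (hreg : M.LJ.IsRegular) (i : A) : ∃ T0 P0 : ℕ, 0 < P0 ∧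
    ∀ x : A → ℤ, 0 ≤ x → (T0 : ℤ) ≤ x i → (x ∈ PI M ↔ x + Pi.single i (P0 : ℤ) ∈ PI M) := by
  obtain ⟨σ, _, D, hD⟩ := hreg
  obtain ⟨s, t, hst, he⟩ : ∃ s t : ℕ, s < t ∧
      D.eval (List.replicate s i) = D.eval (List.replicate t i) := by
    obtain ⟨s, t, hne, he⟩ := Finite.exists_ne_map_eq_of_infinite
      fun s : ℕ => D.eval (List.replicate s i)
    rcases lt_or_gt_of_ne hne with h | h
    · exact ⟨s, t, h, he⟩
    · exact ⟨t, s, h, he.symm⟩
  refine ⟨s, t - s, by omega, fun x hx hi => ?_⟩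
  obtain ⟨w, hw⟩ := exists_pk (x := x - Pi.single i (s : ℤ)) (by
    intro j
    by_cases h : j = i
    · subst h; simpa using hi
    · simpa [h] using hx j)
  have e1 : x = pk (List.replicate s i ++ w) := by rw [pk_append, pk_replicate, hw]; abel
  have e2 : x + Pi.single i ((t - s : ℕ) : ℤ) = pk (List.replicate t i ++ w) := by
    rw [pk_append, pk_replicate, hw, Nat.cast_sub hst.le, Pi.single_sub]; abel
  rw [e2, e1, ← mem_LJ_iff, ← mem_LJ_iff, ← hD, DFA.mem_accepts, DFA.mem_accepts, DFA.eval,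
    DFA.evalFrom_of_append, DFA.evalFrom_of_append]
  change D.evalFrom (D.eval _) w ∈ _ ↔ D.evalFrom (D.eval _) w ∈ _
  rw [he]

lemma sc_le_of_periodic (L : Language A) (S : Set (A → ℤ)) (hL : ∀ w, w ∈ L ↔ pk w ∈ S)
    (T g : ℕ) (hper : ∀ i, ∃ p : ℕ, 0 < p ∧ p ≤ g ∧
      ∀ x : A → ℤ, 0 ≤ x → (T : ℤ) ≤ x i → (x ∈ S ↔ x + Pi.single i (p : ℤ) ∈ S)) :
    L.IsRegular ∧ sc L ≤ (T + g) ^ Fintype.card A := by
  choose p hp hpg hper using hper
  have hs0 : ∀ i, ∀ m : ℤ, 0 ≤ m → (0 : A → ℤ) ≤ Pi.single i m := fun i m hm => by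
    intro j; by_cases h : j = i
    · subst h; simpa using hm
    · simp [h]
  have hit : ∀ (i : A) (s : ℕ) (x : A → ℤ), 0 ≤ x → (T : ℤ) ≤ x i →
      (x ∈ S ↔ x + Pi.single i ((s * p i : ℕ) : ℤ) ∈ S) := by
    intro i s x hx hi
    induction s with
    | zero => simp
    | succ s ih =>
      rw [ih, hper i _ (add_nonneg hx (hs0 _ _ (by positivity))) (by
        simp only [Pi.add_apply, Pi.single_eq_same]
        have : (0 : ℤ) ≤ ((s * p i : ℕ) : ℤ) := by positivity
        omega), add_assoc, ← Pi.single_add]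
      push_cast
      rw [add_mul, one_mul]
  have key : ∀ (s : Finset A) (x : A → ℤ), 0 ≤ x → ∃ y : A → ℤ, 0 ≤ y ∧ (∀ j ∈ s, y j < T + g) ∧
      (∀ j ∉ s, y j = x j) ∧ ∀ z, 0 ≤ z → (x + z ∈ S ↔ y + z ∈ S) := by
    intro s x hx
    induction s using Finset.induction_on with
    | empty => exact ⟨x, hx, by simp, by simp, by simp⟩
    | insert i s hi ih =>
      obtain ⟨y, hy0, hy1, hy2, hy3⟩ := ih
      by_cases h : y i < T + g
      · refine ⟨y, hy0, fun j hj => ?_, fun j hj => hy2 j fun h => hj (mem_insert_of_mem h), hy3⟩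
        rcases mem_insert.mp hj with rfl | hj
        · exact h
        · exact hy1 j hj
      · set t : ℕ := (y i - T).toNat / p i with ht
        have h1 : t * p i ≤ (y i - T).toNat := Nat.div_mul_le_self _ _
        have h2 : (y i - T).toNat < t * p i + p i := Nat.lt_div_mul_add (hp i)
        have h3 := hpg i
        have hy' : 0 ≤ y - Pi.single i ((t * p i : ℕ) : ℤ) := by
          intro j
          by_cases hj : j = i
          · subst hj; simp only [Pi.sub_apply, Pi.single_eq_same, Pi.zero_apply]; omega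
          · simpa [hj] using hy0 j
        refine ⟨y - Pi.single i ((t * p i : ℕ) : ℤ), hy', fun j hj => ?_, fun j hj => ?_,
          fun z hz => ?_⟩
        · rcases mem_insert.mp hj with hj | hj
          · subst hj; simp only [Pi.sub_apply, Pi.single_eq_same]; omega
          · have : j ≠ i := fun e => hi (e ▸ hj)
            simpa [this] using hy1 j hj
        · have : j ≠ i := by rintro rfl; exact hj (mem_insert_self _ _)
          simpa [this] using hy2 j fun h => hj (mem_insert_of_mem h)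
        · have e := hit i t (y - Pi.single i ((t * p i : ℕ) : ℤ) + z : A → ℤ) (add_nonneg hy' hz) (by
            have := hz i
            simp only [Pi.add_apply, Pi.sub_apply, Pi.single_eq_same, Pi.zero_apply] at this ⊢
            omega)
          rw [hy3 z hz, e]
          rw [show y - Pi.single i ((t * p i : ℕ) : ℤ) + z + Pi.single i ((t * p i : ℕ) : ℤ) = y + z
            by abel]
  have := sc_le_of_range (τ := A → Fin (T + g)) L
    (fun y => {z | (fun j => ((y j : ℕ) : ℤ)) + pk z ∈ S}) (by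
      rintro _ ⟨w, rfl⟩
      obtain ⟨y, hy0, hy1, -, hy3⟩ := key univ (pk w) (pk_nonneg w)
      refine ⟨fun j => ⟨(y j).toNat, by
        have := hy1 j (mem_univ j); have := hy0 j; simp at this; omega⟩, ?_⟩
      ext z
      have e : (fun j => (((y j).toNat : ℕ) : ℤ)) = y := funext fun j => Int.toNat_of_nonneg (hy0 j)
      rw [Language.mem_leftQuotient, hL, pk_append, hy3 _ (pk_nonneg z)]
      change (fun j => (((y j).toNat : ℕ) : ℤ)) + pk z ∈ S ↔ _
      rw [e])
  simpa using this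

lemma landau_pos (n : ℕ) : 0 < landau n :=
  (orderOf_pos (1 : Equiv.Perm (Fin n))).trans_le
    (Finset.le_sup (f := fun σ : Equiv.Perm (Fin n) => orderOf σ) (mem_univ _))

lemma arith (n k g : ℕ) (hn : 1 ≤ n) (hk : 1 ≤ k) (hg : 1 ≤ g) :
    (k * (n ^ 2 + (n + 1) ^ k * ((k + 1) * n) ^ k * n) + g) * (k * n) ^ (k - 1) *
      ((k + 1) * (k * n) ^ (k - 1)) ^ k + 1 + g ≤ g * ((k + 1) * n) ^ ((k + 1) * (k + 2)) := by
  set u := (k + 1) * n with hu
  have hu2 : 2 ≤ u := by nlinarith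
  have hkn : k * n ≤ u := by nlinarith
  have h1 : (k * n) ^ (k - 1) ≤ u ^ (k - 1) := Nat.pow_le_pow_left hkn _
  have h2 : (k + 1) * (k * n) ^ (k - 1) ≤ u ^ k := by
    calc _ ≤ u * u ^ (k - 1) := Nat.mul_le_mul (by nlinarith) h1
      _ = u ^ k := by rw [← pow_succ', Nat.sub_add_cancel hk]
  have h3 : ((k + 1) * (k * n) ^ (k - 1)) ^ k ≤ u ^ (k * k) := by
    rw [pow_mul]; exact Nat.pow_le_pow_left h2 _
  have h4 : (n + 1) ^ k ≤ u ^ k := Nat.pow_le_pow_left (by nlinarith) _
  have h5 : k * (n ^ 2 + (n + 1) ^ k * u ^ k * n) ≤ 2 * u ^ (2 * k + 1) := by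
    have a1 : k * n ^ 2 ≤ u ^ (2 * k + 1) := by
      calc k * n ^ 2 ≤ u ^ 2 := by nlinarith
        _ ≤ _ := Nat.pow_le_pow_right (by omega) (by omega)
    have a2 : k * ((n + 1) ^ k * u ^ k * n) ≤ u ^ (2 * k + 1) := by
      calc k * ((n + 1) ^ k * u ^ k * n) = (k * n) * ((n + 1) ^ k * u ^ k) := by ring
        _ ≤ u * (u ^ k * u ^ k) := by gcongr
        _ = _ := by ring
    rw [mul_add]; omega
  have h6 : 1 ≤ u ^ (2 * k + 1) := Nat.one_le_pow _ _ (by omega)
  have h7 : k * (n ^ 2 + (n + 1) ^ k * u ^ k * n) + g ≤ 3 * g * u ^ (2 * k + 1) := by nlinarith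
  have h8 : (k * (n ^ 2 + (n + 1) ^ k * u ^ k * n) + g) * (k * n) ^ (k - 1) *
      ((k + 1) * (k * n) ^ (k - 1)) ^ k ≤ 3 * g * u ^ (k * k + 3 * k) := by
    calc _ ≤ 3 * g * u ^ (2 * k + 1) * u ^ (k - 1) * u ^ (k * k) := by gcongr
      _ = 3 * g * u ^ (2 * k + 1 + (k - 1) + k * k) := by ring
      _ = _ := by congr 2; omega
  have h9 : 2 ≤ u ^ (k * k + 3 * k) :=
    hu2.trans (Nat.le_self_pow (by omega) u)
  have h10 : u ^ ((k + 1) * (k + 2)) = u ^ (k * k + 3 * k) * (u * u) := by ring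
  rw [h10]
  have : 4 ≤ u * u := by nlinarith
  calc _ ≤ 3 * g * u ^ (k * k + 3 * k) + g * u ^ (k * k + 3 * k) := by nlinarith
    _ = g * (u ^ (k * k + 3 * k) * 4) := by ring
    _ ≤ _ := by gcongr

theorem sc_upper (M : GFA Q A) (hreg : M.LJ.IsRegular) :
    sc M.LJ ≤ (landau (Fintype.card Q) * ((Fintype.card A + 1) * Fintype.card Q) ^
      ((Fintype.card A + 1) * (Fintype.card A + 2))) ^ Fintype.card A := by
  have hn : 1 ≤ Fintype.card Q := Fintype.card_pos_iff.mpr ⟨M.q0⟩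
  set n := Fintype.card Q
  set k := Fintype.card A with hk
  set g := landau n
  have := (sc_le_of_periodic M.LJ (PI M) mem_LJ_iff
    ((k * (n ^ 2 + (n + 1) ^ k * ((k + 1) * n) ^ k * n) + g) * (k * n) ^ (k - 1) *
      ((k + 1) * (k * n) ^ (k - 1)) ^ k + 1) g (fun i => by
      obtain ⟨T0, P0, hP0, hrec⟩ := recog M hreg i
      obtain ⟨p, hp, hpg, hper⟩ := period_lemma M i T0 P0 hP0 hrec
      refine ⟨p, hp, hpg, fun x hx hi => threshold _ _ n hn (nf_PI M) i p T0 hper x hx ?_⟩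
      refine lt_of_lt_of_le ?_ hi
      norm_cast
      apply Nat.lt_succ_of_le
      gcongr)).2
  refine this.trans ?_
  rcases Nat.eq_zero_or_pos k with h0 | h0
  · rw [← hk, h0]; simp
  · exact Nat.pow_le_pow_left (arith n k g hn h0 (landau_pos n)) _

end Pool.Agent.Lib.MP_a0040c_lc
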