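import Pool.Agent.Lib.MP_a0040c_lc.Kernel
import Pool.Agent.Lib.MP_a0040c_lc.Tests

set_option linter.unusedSectionVars false

namespace Pool.Agent.Lib.MP_a0040c_lc

open Finset Matrix

variable {Q A : Type} [DecidableEq Q] [DecidableEq A] [Fintype Q] [Fintype A]

lemma per_comap {M : GFA Q A} {i : A} {p T0 : ℕ}
    (hper : ∀ x : A → ℤ, 0 ≤ x → (T0 : ℤ) ≤ x i → (x ∈ PI M ↔ x + Pi.single i (p : ℤ) ∈ PI M))
    {A' : Type} [DecidableEq A'] [Fintype A'] (ρ : A' → A) {i' : A'} (hi : ρ i' = i)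
    (x : A' → ℤ) (hx : 0 ≤ x) (h : (T0 : ℤ) ≤ x i') :
    x ∈ PI (M.comap ρ) ↔ x + Pi.single i' (p : ℤ) ∈ PI (M.comap ρ) := by
  rw [mem_PI_comap, mem_PI_comap, map_add, cm_single, hi,
    hper _ (cm_nonneg ρ hx) (h.trans (hi ▸ le_cm ρ hx i'))]
  simp [hx, add_nonneg hx]

/-- reduction of a threshold to small alphabets -/
lemma thr_kernel (M : GFA Q A) (i : A) (p T : ℕ)
    (h : ∀ (A' : Type) [DecidableEq A'] [Fintype A'] (ρ : A' → A) (i' : A'), ρ i' = i →
      Fintype.card A' ≤ sK (Fintype.card Q) + 1 → ∀ x : A' → ℤ, 0 ≤ x → (T : ℤ) ≤ x i' →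
        (x ∈ PI (M.comap ρ) ↔ x + Pi.single i' (p : ℤ) ∈ PI (M.comap ρ)))
    (y : A → ℤ) (hy : 0 ≤ y) (hi : (T : ℤ) ≤ y i) :
    y ∈ PI M ↔ y + Pi.single i (p : ℤ) ∈ PI M := by
  obtain ⟨Y, hY⟩ := exists_mv (x := y - Pi.single i (T : ℤ)) fun j => by
    by_cases h : j = i
    · subst h; simpa using hi
    · simpa [h] using hy j
  obtain ⟨Y', h1, h2⟩ := kernel M Y
  let x : Option Y'.toFinset → ℤ := fun o => o.elim T fun a => mv Y' a
  have hx : 0 ≤ x := by rintro (_ | a) <;> simp [x, mv]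
  have e : cm (fun o : Option Y'.toFinset => o.elim i Subtype.val) x =
      mv Y' + Pi.single i (T : ℤ) := by
    change ∑ o, _ = _
    rw [Fintype.sum_option, add_comm]
    congr 1
    rw [← Finset.univ_sum_single (mv Y')]
    exact Fintype.sum_of_injective Subtype.val Subtype.val_injective _ _
      (fun a ha => by simpa [mv] using ha) fun a => rfl
  have a1 := h _ (fun o : Option Y'.toFinset => o.elim i Subtype.val) none rfl
    (by rw [Fintype.card_option, Fintype.card_coe]; omega) x hx le_rfl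
  rw [mem_PI_comap, mem_PI_comap, map_add, cm_single, e] at a1
  have a2 := h2 (Pi.single i (T : ℤ)) (by simp)
  have a3 := h2 (Pi.single i (T : ℤ) + Pi.single i (p : ℤ)) (add_nonneg (by simp) (by simp))
  rw [← add_assoc, ← add_assoc] at a3
  rw [hY, sub_add_cancel] at a2 a3
  rw [a2, a3]
  simpa [hx, add_nonneg hx] using a1

lemma reduce_entries {S : Set (A → ℤ)} {T g : ℕ} (hper : ∀ i, ∃ p : ℕ, 0 < p ∧ p ≤ g ∧
      ∀ x : A → ℤ, 0 ≤ x → (T : ℤ) ≤ x i → (x ∈ S ↔ x + Pi.single i (p : ℤ) ∈ S))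
    (x : A → ℤ) (hx : 0 ≤ x) : ∃ y, 0 ≤ y ∧ y ≤ x ∧ (∀ a, y a < T + g) ∧
      ∀ z, 0 ≤ z → (x + z ∈ S ↔ y + z ∈ S) := by
  obtain ⟨Y, rfl⟩ := exists_mv hx
  induction Y using Multiset.strongInductionOn with
  | _ Y ih =>
  by_cases h : ∀ a, mv Y a < T + g
  · exact ⟨_, hx, le_rfl, h, fun _ _ => Iff.rfl⟩
  push Not at h
  obtain ⟨a, ha⟩ := h
  obtain ⟨p, h1, h2, h3⟩ := hper a
  obtain ⟨Y', hY'⟩ := exists_mv (x := mv Y - Pi.single a (p : ℤ)) fun j => by
    by_cases h : j = a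
    · subst h; simp; omega
    · simpa [h] using hx j
  have hle : mv Y' ≤ mv Y := by rw [hY']; simp
  obtain ⟨y, k1, k2, k3, k4⟩ := ih Y' (lt_of_le_of_ne (mv_le_mv.mp hle) fun h => by
    have := congrFun hY' a
    simp [h] at this
    omega) (mv_nonneg _)
  refine ⟨y, k1, k2.trans hle, k3, fun z hz => ?_⟩
  rw [← k4 z hz, h3 (mv Y' + z) (add_nonneg (mv_nonneg _) hz) (by
    have := hz a
    simp [hY'] at this ⊢
    omega), hY']
  congr! 1
  abel

open Classical in
/-- the set of edges of a letter -/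
noncomputable def es (M : GFA Q A) (a : A) : Finset (Q × Q) :=
  univ.filter fun e => e.2 ∈ M.δ e.1 (some a)

/-- the universal automaton -/
def univA (M : GFA Q A) : GFA Q (Finset (Q × Q)) :=
  ⟨fun q o => o.elim (M.δ q none) fun O => {p | (q, p) ∈ O}, M.q0, M.F⟩

lemma univA_comap (M : GFA Q A) : (univA M).comap (es M) = M := by
  cases M
  simp only [univA, GFA.comap, GFA.lift, GFA.mk.injEq, and_true]
  funext q o
  cases o <;> simp [es]

lemma sc_le_kernel (M : GFA Q A) (T g : ℕ) (hg : 0 < g) (hper : ∀ i, ∃ p : ℕ, 0 < p ∧ p ≤ g ∧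
      ∀ x : A → ℤ, 0 ≤ x → (T : ℤ) ≤ x i → (x ∈ PI M ↔ x + Pi.single i (p : ℤ) ∈ PI M)) :
    sc M.LJ ≤ (2 ^ (Fintype.card Q ^ 2) * (T + g)) ^ sK (Fintype.card Q) := by
  have := (sc_le_of_range (τ := Fin (sK (Fintype.card Q)) → Finset (Q × Q) × Fin (T + g)) M.LJ
    (fun t => {w | ∑ j, Pi.single (t j).1 ((t j).2 : ℤ) + cm (es M) (pk w) ∈ PI (univA M)}) (by
      rintro _ ⟨u, rfl⟩
      obtain ⟨Y, hY⟩ := exists_mv (pk_nonneg u)
      obtain ⟨Y', h1, h2⟩ := kernel M Y
      obtain ⟨y, k1, k2, k3, k4⟩ := reduce_entries hper _ (mv_nonneg Y')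
      obtain ⟨e⟩ : Nonempty (Y'.toFinset ↪ Fin (sK (Fintype.card Q))) :=
        Function.Embedding.nonempty_of_card_le (by rwa [Fintype.card_coe, Fintype.card_fin])
      refine ⟨Function.extend e (fun a => (es M a, ⟨(y a).toNat, by
        have := k3 a; have := k1 a; simp at this; omega⟩)) fun _ => (∅, ⟨0, by omega⟩), ?_⟩
      ext w
      rw [Language.mem_leftQuotient, mem_LJ_iff, pk_append, ← hY, h2 _ (pk_nonneg w),
        k4 _ (pk_nonneg w)]
      conv_rhs => rw [← univA_comap M, mem_PI_comap, map_add]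
      rw [and_iff_right (add_nonneg k1 (pk_nonneg w))]
      change _ ∈ PI (univA M) ↔ _
      congr! 2
      rw [← Fintype.sum_of_injective e e.injective (fun a => Pi.single (es M a) (y a)) _
        (fun j hj => by rw [Function.extend_apply' _ _ _ hj]; simp) fun a => by
          rw [e.injective.extend_apply]
          simp [show 0 ≤ y a from k1 a]]
      exact Fintype.sum_of_injective Subtype.val Subtype.val_injective _ _ (fun a ha => by
        have a1 := k1 a
        have a2 := k2 a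
        have a3 : mv Y' a = 0 := by simpa [mv] using ha
        rw [show y a = 0 from le_antisymm (a3 ▸ a2) a1, Pi.single_zero]) fun a => rfl)).2
  simpa [sq] using this

theorem cost_upper3 (n k : ℕ) : cost n k ≤ (2 ^ (n ^ 2) * (landau n *
    ((sK n + 2) * n) ^ ((sK n + 2) * (sK n + 3)) + landau n)) ^ sK n := by
  apply csSup_le'
  rintro _ ⟨M, hM, rfl⟩
  have hn : 1 ≤ n := M.q0.pos
  have := sc_le_kernel M (landau n * ((sK n + 2) * n) ^ ((sK n + 2) * (sK n + 3))) (landau n)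
    (landau_pos n) fun i => by
      obtain ⟨T0, P0, hP0, hrec⟩ := recog M hM i
      obtain ⟨p, hp, hpg, hper⟩ := period_lemma M i T0 P0 hP0 hrec
      rw [Fintype.card_fin] at hpg
      refine ⟨p, hp, hpg, thr_kernel M i p _ fun A' _ _ ρ i' h1 h2 x hx hi =>
        threshold _ _ (Fintype.card (Fin n)) (by simpa using hn) (nf_PI _) i' p T0
          (per_comap hper ρ h1) x hx ?_⟩
      refine lt_of_lt_of_le ?_ hi
      rw [Fintype.card_fin] at h2 ⊢
      norm_cast
      have a1 := arith n (Fintype.card A') (landau n) hn (Fintype.card_pos_iff.mpr ⟨i'⟩)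
        (landau_pos n)
      set k' := Fintype.card A'
      have a2 : (k' * (n ^ 2 + (n + 1) ^ k' * ((k' + 1) * n) ^ k' * n) + p) * (k' * n) ^ (k' - 1) *
          ((k' + 1) * (k' * n) ^ (k' - 1)) ^ k' ≤ (k' * (n ^ 2 + (n + 1) ^ k' *
          ((k' + 1) * n) ^ k' * n) + landau n) * (k' * n) ^ (k' - 1) *
          ((k' + 1) * (k' * n) ^ (k' - 1)) ^ k' := by gcongr
      have a3 : ((k' + 1) * n) ^ ((k' + 1) * (k' + 2)) ≤
          ((sK n + 2) * n) ^ ((sK n + 2) * (sK n + 3)) :=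
        (Nat.pow_le_pow_left (Nat.mul_le_mul_right _ (by omega)) _).trans
          (Nat.pow_le_pow_right (Nat.mul_pos (by omega) hn) (Nat.mul_le_mul (by omega) (by omega)))
      have a4 := Nat.mul_le_mul_left (landau n) a3
      omega
  simpa using this

end Pool.Agent.Lib.MP_a0040c_lc
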