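import Pool.Agent.Lib.MP_a0040c_lc.Dir
import Pool.Agent.Lib.MP_a0040c_lc.Upper3

set_option linter.unusedSectionVars false

namespace Pool.Agent.Lib.MP_a0040c_lc

open Finset Matrix

variable {Q A : Type} [DecidableEq Q] [DecidableEq A] [Fintype Q] [Fintype A] {Δ : ℕ}

open Classical in
/-- the transitions inside `K` -/
noncomputable def SK (M : GFA Q A) (K : Finset Q) : Finset (Option A × Q × Q) :=
  univ.filter fun e => e.2.1 ∈ K ∧ e.2.2 ∈ K ∧ e.2.2 ∈ M.δ e.2.1 e.1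

lemma nv_mem_gk {M : GFA Q A} {K : Finset Q} {e : Option A × Q × Q} (he : e ∈ SK M K) :
    nv e ∈ GK M K := by
  simp only [SK, mem_filter, mem_univ, true_and] at he
  exact ⟨e.1, e.2.1, e.2.2, he.1, he.2.1, he.2.2, rfl⟩

lemma mem_gk_iff (M : GFA Q A) (K : Finset Q) (z : Q ⊕ A → ℤ) :
    z ∈ AddSubmonoid.closure (GK M K) ↔ ∃ φ : Option A × Q × Q → ℤ, 0 ≤ φ ∧
      (∀ e ∉ SK M K, φ e = 0) ∧ ∀ w, (of nv)ᵀ w ⬝ᵥ φ = z w := by
  constructor
  · intro h
    induction h using AddSubmonoid.closure_induction with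
    | mem c hc =>
      obtain ⟨o, p, q, h1, h2, h3, rfl⟩ := hc
      refine ⟨Pi.single (o, p, q) 1, by simp, fun e he => Pi.single_eq_of_ne ?_ _, by simp⟩
      rintro rfl
      exact he (by simp [SK, h1, h2, h3])
    | zero => exact ⟨0, le_rfl, by simp, by simp⟩
    | add x y _ _ hx hy =>
      obtain ⟨φ, a1, a2, a3⟩ := hx
      obtain ⟨ψ, b1, b2, b3⟩ := hy
      exact ⟨φ + ψ, add_nonneg a1 b1, fun e he => by simp [a2 e he, b2 e he],
        fun w => by simp [a3, b3]⟩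
  · rintro ⟨φ, h1, h2, h3⟩
    have : z = ∑ e, φ e • nv e := by
      funext w
      rw [← h3, Finset.sum_apply]
      exact Finset.sum_congr rfl fun e _ => mul_comm _ _
    rw [this]
    refine sum_mem fun e _ => ?_
    by_cases he : e ∈ SK M K
    · rw [← Int.toNat_of_nonneg (h1 e), natCast_zsmul]
      exact nsmul_mem (AddSubmonoid.subset_closure (nv_mem_gk he)) _
    · rw [h2 e he, zero_smul]
      exact zero_mem _

lemma gk_dot {M : GFA Q A} {K : Finset Q} {z h : Q ⊕ A → ℤ}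
    (hz : z ∈ AddSubmonoid.closure (GK M K)) (hh : ∀ e ∈ SK M K, 0 ≤ of nv e ⬝ᵥ h) :
    0 ≤ z ⬝ᵥ h := by
  induction hz using AddSubmonoid.closure_induction with
  | mem c hc =>
    obtain ⟨o, p, q, h1, h2, h3, rfl⟩ := hc
    exact hh (o, p, q) (by simp [SK, h1, h2, h3])
  | zero => simp
  | add x y _ _ hx hy => rw [add_dotProduct]; exact add_nonneg hx hy

lemma sum_abs_bd (e : Q × Q) : ∑ q, |bd e q| ≤ 2 := by
  refine (Finset.sum_le_sum (g := fun q => (Pi.single e.2 1 : Q → ℤ) q + (Pi.single e.1 1 : Q → ℤ) q)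
    fun q _ => ?_).trans (by simp [Finset.sum_add_distrib])
  simp only [bd, Pi.sub_apply, Pi.single_apply]
  split_ifs <;> simp

lemma sum_abs_nv (e : Option A × Q × Q) : ∑ w, |(of nv)ᵀ w e| ≤ (3 : ℕ) := by
  rw [Fintype.sum_sum_type]
  exact (add_le_add (sum_abs_bd e.2) (sum_ev_le e.1)).trans (by norm_num)

lemma small_sum {R C : Type} [Fintype R] [Fintype C] [DecidableEq C] (N : Matrix R C ℤ) (w : ℕ)
    (hw : ∀ c, ∑ r, |N r c| ≤ w) (η : C → ℚ) (L : ℚ) (hL : ∀ c, |η c| ≤ L) :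
    ∑ r, |cf ℚ (N r) ⬝ᵥ η| ≤ Fintype.card C * w * L := by
  refine (Finset.sum_le_sum fun r _ => abs_dot_le_sum _ _).trans ?_
  rw [Finset.sum_comm]
  refine (Finset.sum_le_card_nsmul _ _ (w * L : ℚ) fun c _ => ?_).trans (by simp [mul_assoc])
  rw [← Finset.sum_mul]
  exact mul_le_mul (by exact_mod_cast hw c) (hL c) (abs_nonneg _) (by positivity)

/-- proximity radius -/
def rad (n k Δ : ℕ) : ℕ := Δ * (2 + k * n ^ 2 + (k + 1) * n ^ 2 * 3 * Δ + 1)

lemma cell4 (M : GFA Q A) (hN : MB (of (nv (Q := Q) (A := A))) Δ) (y v : A → ℤ) (t : ℕ)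
    (H : ∀ (K : Finset Q) (r : Q), (∃ (φ : Option A × Q × Q → ℚ) (ψ : Option A × Q × Q → ℤ),
      0 ≤ φ ∧ (∀ e ∉ SK M K, φ e = 0) ∧
      (∀ w, cf ℚ ((of nv)ᵀ w) ⬝ᵥ φ = (Sum.elim (bd (M.q0, r)) y w : ℤ)) ∧ 0 ≤ ψ ∧
      (∀ e, φ e < rad (Fintype.card Q) (Fintype.card A) Δ → ψ e = 0) ∧
      ∀ w, (of nv)ᵀ w ⬝ᵥ ψ = Sum.elim (0 : Q → ℤ) v w) ∨
      ∃ h : Q ⊕ A → ℤ, (∀ e ∈ SK M K, 0 ≤ of nv e ⬝ᵥ h) ∧ Sum.elim (bd (M.q0, r)) y ⬝ᵥ h < 0 ∧
        Sum.elim (0 : Q → ℤ) v ⬝ᵥ h ≤ 0) :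
    y ∈ PI M ↔ y + (t : ℤ) • v ∈ PI M := by
  have hr : 0 < rad (Fintype.card Q) (Fintype.card A) Δ := Nat.mul_pos hN.one_le (by omega)
  have e1 : ∀ (a : Q → ℤ) (z : A → ℤ), Sum.elim a (z + (t : ℤ) • v) =
      Sum.elim a z + (t : ℤ) • Sum.elim (0 : Q → ℤ) v := fun a z => by
    funext w; cases w <;> simp
  constructor
  · intro hy
    obtain ⟨K, b, r, -, -, h1, h2, h3⟩ := skel hy
    rcases H K r with ⟨φ, ψ, -, a2, -, a4, a5, a6⟩ | ⟨h, a1, a2, -⟩
    · refine h3 _ ?_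
      rw [add_sub_right_comm, e1, natCast_zsmul]
      exact add_mem h2 (nsmul_mem ((mem_gk_iff _ _ _).2 ⟨ψ, a4, fun e he =>
        a5 e (by rw [a2 e he]; exact_mod_cast hr), a6⟩) _)
    · have := gk_dot (add_mem h1 h2) a1
      rw [elim_add, add_zero, add_sub_cancel] at this
      omega
  · intro hy
    obtain ⟨K, b, r, b0, b1, h1, h2, h3⟩ := skel hy
    rcases H K r with ⟨φ, ψ, a1, a2, a3, a4, a5, a6⟩ | ⟨h, a1, a2, a3⟩
    · obtain ⟨χ, c1, c2, c3⟩ := (mem_gk_iff _ _ _).1 h2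
      obtain ⟨φ', d1, d2, d3, d4⟩ := proximity hN.transpose 3 sum_abs_nv (φ + (t : ℚ) • cf ℚ ψ)
        (add_nonneg a1 (smul_nonneg (by positivity) fun e => Int.cast_nonneg (a4 e)))
        (2 + Fintype.card A * Fintype.card Q ^ 2) χ c1 (by
          simp only [dotProduct_sub, dotProduct_add, dotProduct_smul, cf_dot, a3, a6, c3]
          rw [Fintype.sum_sum_type]
          push_cast
          refine add_le_add (le_trans (le_of_eq ?_) (show ((∑ q, |bd (M.q0, r) q| : ℤ) : ℚ) ≤ 2 by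
            exact_mod_cast sum_abs_bd _)) ((Finset.sum_le_card_nsmul _ _
              ((Fintype.card Q : ℚ) ^ 2) fun a _ => ?_).trans (by simp))
          · simp
          · have f1 : (0 : ℚ) ≤ b a := Int.cast_nonneg (b0 a)
            have f2 : (b a : ℚ) ≤ (Fintype.card Q : ℚ) ^ 2 := by exact_mod_cast b1 a
            simp only [Sum.elim_inr, Pi.sub_apply, Pi.add_apply, Pi.smul_apply, smul_eq_mul]
            push_cast
            rw [abs_le]
            constructor <;> linarith)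
      refine h3 _ ((mem_gk_iff _ _ _).2 ⟨φ' - (t : ℤ) • ψ, fun e => ?_, fun e he => ?_,
        fun w => ?_⟩)
      · by_cases he : φ e < rad (Fintype.card Q) (Fintype.card A) Δ
        · simpa [a5 e he] using d1 e
        · have f1 := d4 e
          simp only [Fintype.card_prod, Fintype.card_option, ← sq, Pi.add_apply, Pi.smul_apply,
            smul_eq_mul, cf] at f1
          have f2 : ((t * ψ e : ℤ) : ℚ) ≤ φ' e := by
            rw [rad] at he
            push_cast at he f1 ⊢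
            linarith
          simpa using Int.cast_le.mp f2
      · have f1 := a5 e (by rw [a2 e he]; exact_mod_cast hr)
        simp [f1, d2 e (c2 e he) (by simp [a2 e he, cf, f1])]
      · rw [dotProduct_sub, dotProduct_smul, d3, c3, a6, add_sub_right_comm, e1]
        simp
    · have := gk_dot (add_mem h1 h2) a1
      rw [elim_add, add_zero, add_sub_cancel, e1, add_dotProduct, smul_dotProduct] at this
      have := smul_nonpos_of_nonneg_of_nonpos (Int.natCast_nonneg t) a3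
      omega

/-- the doubly exponential threshold -/
def thr4 (n k Δ p : ℕ) : ℕ := ((k + 1) * n ^ 2 + k * Δ + 1) ^ (2 * (2 ^ n * n) * (n + 1)) *
  (2 * (2 * (2 ^ n * n)) * ((2 + p) * Δ + (k + 1) * n ^ 2 * 3 * rad n k Δ))

lemma threshold4 (M : GFA Q A) (hN : MB (of (nv (Q := Q) (A := A))) Δ) (i : A) (p T0 : ℕ)
    (hper : ∀ x : A → ℤ, 0 ≤ x → (T0 : ℤ) ≤ x i → (x ∈ PI M ↔ x + Pi.single i (p : ℤ) ∈ PI M))
    (x : A → ℤ) (hx : 0 ≤ x) (hi : (thr4 (Fintype.card Q) (Fintype.card A) Δ p : ℤ) < x i) :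
    x ∈ PI M ↔ x + Pi.single i (p : ℤ) ∈ PI M := by
  classical
  let y : Bool → A → ℤ := fun β => x + Pi.single i (if β then (p : ℤ) else 0)
  have : ∀ j : Bool × Finset Q × Q, ∃ (ν : Prop) (φ : Option A × Q × Q → ℚ) (h : Q ⊕ A → ℤ),
      0 ≤ φ ∧ (∀ e ∉ SK M j.2.1, φ e = 0) ∧ (∀ w, |h w| ≤ Δ) ∧
      (ν → ∀ w, cf ℚ ((of nv)ᵀ w) ⬝ᵥ φ = (Sum.elim (bd (M.q0, j.2.2)) (y j.1) w : ℤ)) ∧
      (∀ e ∈ SK M j.2.1, 0 ≤ of nv e ⬝ᵥ h) ∧ Sum.elim (bd (M.q0, j.2.2)) (y j.1) ⬝ᵥ h ≤ 0 ∧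
      (¬ ν → Sum.elim (bd (M.q0, j.2.2)) (y j.1) ⬝ᵥ h < 0) := fun j => by
    rcases near_or_far hN (SK M j.2.1) (Sum.elim (bd (M.q0, j.2.2)) (y j.1)) with
      ⟨φ, h1, h2, h3⟩ | ⟨h, h1, h2, h3⟩
    · exact ⟨True, φ, 0, h1, h2, by simp, fun _ => h3, by simp, by simp, by simp⟩
    · exact ⟨False, 0, h, le_rfl, by simp, h1, by simp, h2, h3.le, fun _ => h3⟩
  choose ν φ h h1 h2 h3 h4 h5 h6 h7 using this
  set L := rad (Fintype.card Q) (Fintype.card A) Δ
  have hΔ : 1 ≤ Δ := hN.one_le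
  have hp : ∀ β : Bool, |if β then (p : ℤ) else 0| ≤ p := fun β => by cases β <;> simp
  obtain ⟨v, ψ, k1, k2, k3, k4, k5, k6⟩ := direction ν
    (fun j e => if φ j e < L then 0 else φ j e) (fun j a => h j (.inr a)) Δ
    ((2 + p) * Δ + (Fintype.card A + 1) * Fintype.card Q ^ 2 * 3 * L) x hx i
    (fun j e => by dsimp only; split_ifs; exacts [le_rfl, h1 j e]) (fun j a => h3 j _)
    (fun j hj => by
      have a1 := small_sum _ 3 sum_abs_nv (fun e => if φ j e < L then φ j e else 0) L fun e => by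
        split_ifs with h
        · rw [abs_of_nonneg (h1 j e)]; exact h.le
        · simp
      have a2 : ∑ w, |((Sum.elim (bd (M.q0, j.2.2)) (y j.1) w : ℤ) : ℚ) -
          Sum.elim (0 : Q → ℚ) (cf ℚ x) w| ≤ 2 + p := by
        rw [Fintype.sum_sum_type]
        refine add_le_add (le_trans (le_of_eq ?_) (show ((∑ q, |bd (M.q0, j.2.2) q| : ℤ) : ℚ) ≤ 2 by
          exact_mod_cast sum_abs_bd _)) ?_
        · simp
        · rw [Finset.sum_eq_single i (fun b _ hb => by simp [y, cf, hb]) (by simp)]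
          simpa [y, cf] using (show ((|if j.1 then (p : ℤ) else 0| : ℤ) : ℚ) ≤ p by
            exact_mod_cast hp j.1)
      have a3 : ∀ w, cf ℚ ((of nv)ᵀ w) ⬝ᵥ (fun e => if φ j e < L then 0 else φ j e) -
          Sum.elim (0 : Q → ℚ) (cf ℚ x) w = (((Sum.elim (bd (M.q0, j.2.2)) (y j.1) w : ℤ) : ℚ) -
          Sum.elim (0 : Q → ℚ) (cf ℚ x) w) -
          cf ℚ ((of nv)ᵀ w) ⬝ᵥ (fun e => if φ j e < L then φ j e else 0) := fun w => by
        rw [← h4 j hj, sub_right_comm, ← dotProduct_sub]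
        congr 2
        funext e
        simp only [Pi.sub_apply]
        split_ifs <;> simp
      refine (Finset.sum_le_sum fun w _ => (a3 w).symm ▸ abs_sub _ _).trans ?_
      rw [Finset.sum_add_distrib]
      simp only [Fintype.card_prod, Fintype.card_option, ← sq] at a1
      have a4 : (2 + p : ℚ) ≤ (2 + p) * Δ :=
        le_mul_of_one_le_right (by positivity) (by exact_mod_cast hΔ)
      push_cast at a1 ⊢
      linarith)
    (fun j => by
      have a1 := h6 j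
      rw [← Sum.elim_comp_inl_inr (h j), sumElim_dotProduct_sumElim] at a1
      simp only [bd, y, sub_dotProduct, add_dotProduct, single_dotProduct, one_mul,
        Function.comp_apply] at a1
      have a2 := abs_le.mp (h3 j (.inl M.q0))
      have a3 := abs_le.mp (h3 j (.inl j.2.2))
      have a4 := (abs_le.mp ((abs_mul _ _).trans_le (mul_le_mul (hp j.1) (h3 j (.inr i))
        (abs_nonneg _) (Int.natCast_nonneg _)))).1
      have a5 : (0 : ℤ) ≤ ((Fintype.card A + 1) * Fintype.card Q ^ 2 * 3 * L : ℕ) := by positivity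
      rw [dotProduct_comm, Nat.cast_add]
      change x ⬝ᵥ (h j ∘ Sum.inr) ≤ _
      push_cast at a5 ⊢
      linarith)
    (by simpa only [thr4, Fintype.card_prod, Fintype.card_option, ← sq, Fintype.card_bool,
      Fintype.card_finset] using hi)
  have key : ∀ β, y β ∈ PI M ↔ y β + (T0 : ℤ) • v ∈ PI M := fun β =>
    cell4 M hN _ _ _ fun K r => by
      by_cases hj : ν (β, K, r)
      · exact Or.inl ⟨φ (β, K, r), ψ (β, K, r), h1 (β, K, r), h2 (β, K, r), h4 (β, K, r) hj,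
          k3 (β, K, r), fun e he => k4 (β, K, r) e (if_pos he), k5 (β, K, r) hj⟩
      · refine Or.inr ⟨h (β, K, r), h5 (β, K, r), h7 (β, K, r) hj, ?_⟩
        rw [← Sum.elim_comp_inl_inr (h (β, K, r)), sumElim_dotProduct_sumElim, zero_dotProduct,
          zero_add, dotProduct_comm]
        exact k6 (β, K, r)
  have e1 := key false
  have e2 := key true
  simp only [y, if_true, Bool.false_eq_true, if_false, Pi.single_zero, add_zero] at e1 e2
  rw [e1, e2, add_right_comm]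
  refine hper _ (add_nonneg hx (smul_nonneg (by positivity) k1)) ?_
  have := hx i
  have := le_mul_of_one_le_right (Int.natCast_nonneg T0) (show 1 ≤ v i from k2)
  simp only [Pi.add_apply, Pi.smul_apply, smul_eq_mul, Pi.zero_apply] at *
  omega

lemma mb_three : MB (of (nv (Q := Q) (A := A))) (3 ^ Fintype.card Q) := by
  refine mb_net _ fun c hc => (amgm _ c hc).trans (Nat.floor_le_of_le ?_)
  rcases Nat.eq_zero_or_pos (Fintype.card A) with h0 | h0
  · rw [h0, pow_zero]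
    exact_mod_cast Nat.one_le_pow _ _ (by norm_num)
  have hk : (Fintype.card A : ℝ) ≠ 0 := by positivity
  calc _ ≤ Real.exp (Fintype.card Q / Fintype.card A) ^ Fintype.card A :=
        pow_le_pow_left₀ (by positivity) (by rw [add_comm]; exact Real.add_one_le_exp _) _
    _ = Real.exp 1 ^ Fintype.card Q := by
        rw [← Real.exp_nat_mul, ← Real.exp_nat_mul, mul_div_cancel₀ _ hk, mul_one]
    _ ≤ _ := by
        push_cast
        exact pow_le_pow_left₀ (by positivity) (Real.exp_one_lt_d9.le.trans (by norm_num)) _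

lemma per4 {n k : ℕ} (M : GFA (Fin n) (Fin k)) (hM : M.LJ.IsRegular) (i : Fin k) :
    ∃ p : ℕ, 0 < p ∧ p ≤ landau n ∧ ∀ x : Fin k → ℤ, 0 ≤ x →
      ((thr4 n (sK n + 1) (3 ^ n) (landau n) + 1 : ℕ) : ℤ) ≤ x i →
      (x ∈ PI M ↔ x + Pi.single i (p : ℤ) ∈ PI M) := by
  obtain ⟨T0, P0, hP0, hrec⟩ := recog M hM i
  obtain ⟨p, hp, hpg, hper⟩ := period_lemma M i T0 P0 hP0 hrec
  rw [Fintype.card_fin] at hpg
  refine ⟨p, hp, hpg, thr_kernel M i p _ fun A' _ _ ρ i' h1 h2 x hx hi =>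
    threshold4 _ mb_three i' p T0 (per_comap hper ρ h1) x hx (lt_of_lt_of_le ?_ hi)⟩
  rw [Fintype.card_fin] at h2 ⊢
  norm_cast
  apply Nat.lt_succ_of_le
  unfold thr4 rad
  gcongr

theorem cost_upper4 (n k : ℕ) : cost n k ≤
    (2 ^ (n ^ 2) * (thr4 n (sK n + 1) (3 ^ n) (landau n) + 1 + landau n)) ^ min k (sK n) := by
  apply csSup_le'
  rintro _ ⟨M, hM, rfl⟩
  rcases le_total k (sK n) with h | h
  · rw [min_eq_left h]
    have := (sc_le_of_periodic M.LJ (PI M) mem_LJ_iff _ (landau n) (per4 M hM)).2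
    rw [Fintype.card_fin] at this
    exact this.trans (Nat.pow_le_pow_left (Nat.le_mul_of_pos_left _ (by positivity)) _)
  · rw [min_eq_right h]
    simpa using sc_le_kernel M _ (landau n) (landau_pos n) (per4 M hM)

end Pool.Agent.Lib.MP_a0040c_lc
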