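import Pool.Agent.Lib.MP_a0040c_lc.Defs

namespace Pool.Agent.Lib.MP_a0040c_lc

open Finset

variable {Q A : Type} [DecidableEq Q] [DecidableEq A]

/-- unit vector of a label -/
def ev (a : Option A) : A → ℤ := fun j => if a = some j then 1 else 0

/-- Parikh vector -/
def pk (w : List A) : A → ℤ := fun j => (w.count j : ℤ)

inductive Walk (M : GFA Q A) : Q → Finset Q → ℕ → (A → ℤ) → Q → Prop
  | nil (q : Q) : Walk M q {q} 0 0 q
  | cons {q p r : Q} {a : Option A} {K : Finset Q} {l : ℕ} {x : A → ℤ} :
      p ∈ M.δ q a → Walk M p K l x r → Walk M q (insert q K) (l + 1) (ev a + x) r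

variable {M : GFA Q A}

lemma ev_nonneg (a : Option A) : 0 ≤ ev a := by
  intro j; unfold ev; split_ifs <;> simp

lemma ev_le_one (a : Option A) (j : A) : ev a j ≤ 1 := by
  unfold ev; split_ifs <;> simp

lemma Walk.nonneg {q r K l x} (h : Walk M q K l x r) : 0 ≤ x := by
  induction h with
  | nil q => exact le_rfl
  | cons _ _ ih => exact add_nonneg (ev_nonneg _) ih

lemma Walk.le_len {q r K l x} (h : Walk M q K l x r) (j : A) : x j ≤ l := by
  induction h with
  | nil q => simp
  | @cons q p r a K l x _ _ ih =>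
    have := ev_le_one a j
    simp only [Pi.add_apply]; push_cast; omega

lemma Walk.start_mem {q r K l x} (h : Walk M q K l x r) : q ∈ K := by
  cases h <;> simp

lemma Walk.end_mem {q r K l x} (h : Walk M q K l x r) : r ∈ K := by
  induction h with
  | nil q => simp
  | cons _ _ ih => exact mem_insert_of_mem ih

lemma Walk.card_le {q r K l x} (h : Walk M q K l x r) : K.card ≤ l + 1 := by
  induction h with
  | nil q => simp
  | cons _ _ ih => exact (card_insert_le _ _).trans (by omega)

lemma Walk.trans {q p r K l x K' l' x'} (h : Walk M q K l x p) (h' : Walk M p K' l' x' r) :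
    Walk M q (K ∪ K') (l + l') (x + x') r := by
  induction h with
  | nil q =>
    have : ({q} : Finset Q) ∪ K' = K' := by
      apply union_eq_right.mpr; simpa using h'.start_mem
    simpa [this] using h'
  | @cons q p' p a K l x hs _ ih =>
    have := Walk.cons hs (ih h')
    rw [insert_union, show l + 1 + l' = l + l' + 1 by ring, add_assoc (ev a)]
    exact this

lemma Walk.split {q r K l x} (h : Walk M q K l x r) {s : Q} (hs : s ∈ K) :
    ∃ K1 l1 x1 K2 l2 x2, Walk M q K1 l1 x1 s ∧ Walk M s K2 l2 x2 r ∧ K = K1 ∪ K2 ∧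
      l = l1 + l2 ∧ x = x1 + x2 := by
  induction h with
  | nil q =>
    obtain rfl : s = q := by simpa using hs
    exact ⟨{s}, 0, 0, {s}, 0, 0, .nil s, .nil s, by simp, rfl, by simp⟩
  | @cons q p r a K l x hst hw ih =>
    by_cases hq : s = q
    · subst hq
      exact ⟨{s}, 0, 0, _, _, _, .nil s, .cons hst hw, by simp, by simp, by simp⟩
    · have : s ∈ K := by simpa [hq] using hs
      obtain ⟨K1, l1, x1, K2, l2, x2, h1, h2, rfl, rfl, rfl⟩ := ih this
      exact ⟨insert q K1, l1 + 1, ev a + x1, K2, l2, x2, .cons hst h1, h2, by simp [insert_union],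
        by ring, by rw [add_assoc]⟩

/-- Parikh vectors of closed walks of length at most `N` at a state of `K`, staying in `K`. -/
def Cyc (M : GFA Q A) (K : Finset Q) (N : ℕ) : Set (A → ℤ) :=
  {c | ∃ r K' l, K' ⊆ K ∧ l ≤ N ∧ Walk M r K' l c r}

lemma Cyc.mono {K K' : Finset Q} {N N' : ℕ} (h : K ⊆ K') (hN : N ≤ N') :
    Cyc M K N ⊆ Cyc M K' N' := by
  rintro c ⟨r, K'', l, h1, h2, h3⟩
  exact ⟨r, K'', l, h1.trans h, h2.trans hN, h3⟩

lemma Walk.simple {q r K l x} (h : Walk M q K l x r) :
    ∃ K' l' x', K' ⊆ K ∧ l' + 1 ≤ K'.card ∧ Walk M q K' l' x' r ∧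
      x - x' ∈ AddSubmonoid.closure (Cyc M K K.card) := by
  induction h with
  | nil q => exact ⟨{q}, 0, 0, Subset.rfl, by simp, .nil q, by simp⟩
  | @cons q p r a K l x hst hw ih =>
    obtain ⟨K', l', x', hK, hl, hw', hc⟩ := ih
    have hmono : AddSubmonoid.closure (Cyc M K K.card) ≤
        AddSubmonoid.closure (Cyc M (insert q K) (insert q K).card) :=
      AddSubmonoid.closure_mono (Cyc.mono (subset_insert _ _) (card_le_card (subset_insert _ _)))
    by_cases hq : q ∈ K'
    · obtain ⟨K1, l1, x1, K2, l2, x2, h1, h2, rfl, rfl, rfl⟩ := hw'.split hq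
      have hc1 := h1.card_le
      have hinter : 1 ≤ (K1 ∩ K2).card :=
        card_pos.mpr ⟨q, mem_inter.mpr ⟨h1.end_mem, h2.start_mem⟩⟩
      have hcu := card_union_add_card_inter K1 K2
      refine ⟨K2, l2, x2, ?_, by omega, h2, ?_⟩
      · exact (subset_union_right.trans hK).trans (subset_insert _ _)
      · have hcyc : ev a + x1 ∈ Cyc M (insert q K) (insert q K).card := by
          refine ⟨q, insert q K1, l1 + 1, insert_subset_insert _ (subset_union_left.trans hK), ?_,
            .cons hst h1⟩
          have := card_le_card (hK.trans (subset_insert q K))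
          omega
        have : ev a + x - x2 = (ev a + x1) + (x - (x1 + x2)) := by ring
        rw [this]
        exact add_mem (AddSubmonoid.subset_closure hcyc) (hmono hc)
    · refine ⟨insert q K', l' + 1, ev a + x', insert_subset_insert _ hK, ?_, .cons hst hw', ?_⟩
      · rw [card_insert_of_notMem hq]; omega
      · have : ev a + x - (ev a + x') = x - x' := by ring
        rw [this]; exact hmono hc

lemma Walk.skeleton [Fintype Q] {q r K l x} (h : Walk M q K l x r) :
    ∃ s K1 l1 x1 l2 x2, K1 ⊆ K ∧ Walk M q K1 l1 x1 s ∧ Walk M s K l2 x2 r ∧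
      l2 + Fintype.card Q ≤ Fintype.card Q * K.card ∧
      x - x1 - x2 ∈ AddSubmonoid.closure (Cyc M K (Fintype.card Q)) := by
  induction h with
  | nil q => exact ⟨q, {q}, 0, 0, 0, 0, Subset.rfl, .nil q, .nil q, by simp, by simp⟩
  | @cons q p r a K l x hst hw ih =>
    obtain ⟨s, K1, l1, x1, l2, x2, hK, h1, h2, hl, hc⟩ := ih
    by_cases hq : q ∈ K
    · rw [insert_eq_of_mem hq]
      refine ⟨s, insert q K1, l1 + 1, ev a + x1, l2, x2, insert_subset hq hK, .cons hst h1, h2,
        hl, ?_⟩
      have : ev a + x - (ev a + x1) - x2 = x - x1 - x2 := by ring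
      rw [this]; exact hc
    · obtain ⟨K', l', x', hK', hl', hw', hc'⟩ := h1.simple
      have hmono : AddSubmonoid.closure (Cyc M K (Fintype.card Q)) ≤
          AddSubmonoid.closure (Cyc M (insert q K) (Fintype.card Q)) :=
        AddSubmonoid.closure_mono (Cyc.mono (subset_insert _ _) le_rfl)
      have hmono' : AddSubmonoid.closure (Cyc M K1 K1.card) ≤
          AddSubmonoid.closure (Cyc M (insert q K) (Fintype.card Q)) :=
        AddSubmonoid.closure_mono (Cyc.mono (hK.trans (subset_insert _ _)) (card_le_univ _))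
      have hw2 := Walk.cons hst (hw'.trans h2)
      rw [union_eq_right.mpr (hK'.trans hK)] at hw2
      refine ⟨q, {q}, 0, 0, _, _, by simp, .nil q, hw2, ?_, ?_⟩
      · rw [card_insert_of_notMem hq]
        have := card_le_univ K'
        nlinarith
      · have : ev a + x - 0 - (ev a + (x' + x2)) = (x - x1 - x2) + (x1 - x') := by ring
        rw [this]; exact add_mem (hmono hc) (hmono' hc')

lemma Walk.pump {q r : Q} {K0 : Finset Q} {N : ℕ} {c : A → ℤ}
    (hc : c ∈ AddSubmonoid.closure (Cyc M K0 N)) :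
    ∀ {K l x}, K0 ⊆ K → Walk M q K l x r → ∃ l', Walk M q K l' (x + c) r := by
  induction hc using AddSubmonoid.closure_induction with
  | mem c hc =>
    intro K l x hK h
    obtain ⟨s, K', l', hK', -, hw⟩ := hc
    obtain ⟨K1, l1, x1, K2, l2, x2, h1, h2, rfl, rfl, rfl⟩ := h.split (hK (hK' hw.start_mem))
    have := (h1.trans hw).trans h2
    have e : K1 ∪ K' ∪ K2 = K1 ∪ K2 := by
      rw [union_right_comm]; exact union_eq_left.mpr (hK'.trans hK)
    rw [e, show x1 + c + x2 = x1 + x2 + c by ring] at this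
    exact ⟨_, this⟩
  | zero => intro K l x _ h; exact ⟨l, by simpa using h⟩
  | add c d _ _ ihc ihd =>
    intro K l x hK h
    obtain ⟨l1, h1⟩ := ihc hK h
    obtain ⟨l2, h2⟩ := ihd hK h1
    exact ⟨l2, by rwa [add_assoc] at h2⟩

/-- Parikh image -/
def PI (M : GFA Q A) : Set (A → ℤ) := {x | ∃ r ∈ M.F, ∃ K l, Walk M M.q0 K l x r}

lemma PI.nonneg {x : A → ℤ} (h : x ∈ PI M) : 0 ≤ x := by
  obtain ⟨r, -, K, l, h⟩ := h; exact h.nonneg

lemma decomp [Fintype Q] {x : A → ℤ} (h : x ∈ PI M) :
    ∃ (K : Finset Q) (b : A → ℤ), 0 ≤ b ∧ (∀ j, b j ≤ (Fintype.card Q : ℤ) ^ 2) ∧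
      x - b ∈ AddSubmonoid.closure (Cyc M K (Fintype.card Q)) ∧
      (∃ r ∈ M.F, ∃ l, Walk M M.q0 K l b r) := by
  obtain ⟨r, hr, K, l, h⟩ := h
  obtain ⟨s, K1, l1, x1, l2, x2, hK, h1, h2, hl, hc⟩ := h.skeleton
  obtain ⟨K', l', x', hK', hl', hw', hc'⟩ := h1.simple
  have hw := hw'.trans h2
  rw [union_eq_right.mpr (hK'.trans hK)] at hw
  refine ⟨K, x' + x2, hw.nonneg, fun j => ?_, ?_, r, hr, _, hw⟩
  · have h1 := hw.le_len j
    have h2 := card_le_univ K'
    have h3 := card_le_univ K
    have : l' + l2 ≤ Fintype.card Q ^ 2 := by nlinarith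
    calc (x' + x2) j ≤ ((l' + l2 : ℕ) : ℤ) := h1
      _ ≤ ((Fintype.card Q ^ 2 : ℕ) : ℤ) := by exact_mod_cast this
      _ = _ := by push_cast; ring
  · have : x - (x' + x2) = (x - x1 - x2) + (x1 - x') := by ring
    rw [this]
    exact add_mem hc (AddSubmonoid.closure_mono (Cyc.mono hK (card_le_univ _)) hc')

lemma pk_split (u v : List A) (a : Option A) : pk (u ++ a.toList ++ v) = ev a + pk (u ++ v) := by
  funext j
  cases a with
  | none => simp [pk, ev]
  | some a =>
    by_cases h : a = j
    · simp [pk, ev, h]; ring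
    · simp [pk, ev, h]

lemma pk_nil : pk ([] : List A) = 0 := by funext j; simp [pk]

lemma pk_append (u v : List A) : pk (u ++ v) = pk u + pk v := by funext j; simp [pk]

lemma pk_nonneg (w : List A) : 0 ≤ pk w := by intro j; simp [pk]

lemma mem_LJ_iff (w : List A) : w ∈ M.LJ ↔ pk w ∈ PI M := by
  constructor
  · rintro ⟨r, hr, h⟩
    have key : ∀ c : Q × List A, Relation.ReflTransGen M.Jump c (r, []) →
        ∃ K l, Walk M c.1 K l (pk c.2) r := by
      intro c hc
      induction hc using Relation.ReflTransGen.head_induction_on with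
      | refl => exact ⟨{r}, 0, by simpa [pk_nil] using Walk.nil r⟩
      | @head c d hcd _ ih =>
        obtain ⟨K, l, hw⟩ := ih
        obtain ⟨u, v, a, h1, h2, h3⟩ := hcd
        refine ⟨insert c.1 K, l + 1, ?_⟩
        rw [h1, pk_split, ← h2]
        exact .cons h3 hw
    obtain ⟨K, l, hw⟩ := key _ h
    exact ⟨r, hr, K, l, hw⟩
  · rintro ⟨r, hr, K, l, h⟩
    refine ⟨r, hr, ?_⟩
    have key : ∀ {q K l x r}, Walk M q K l x r → ∀ w, pk w = x →
        Relation.ReflTransGen M.Jump (q, w) (r, []) := by
      intro q K l x r hw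
      induction hw with
      | nil q =>
        intro w hw
        have : w = [] := by
          cases w with
          | nil => rfl
          | cons a w =>
            have := congrFun hw a
            simp [pk] at this
            omega
        subst this; exact .refl
      | @cons q p r a K l x hst hw ih =>
        intro w hw'
        have : ∃ u v, w = u ++ a.toList ++ v := by
          cases a with
          | none => exact ⟨[], w, by simp⟩
          | some a =>
            have h1 := congrFun hw' a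
            have h2 := hw.nonneg a
            simp [pk, ev] at h1 h2
            have : a ∈ w := List.count_pos_iff.mp (by omega)
            obtain ⟨u, v, rfl⟩ := List.append_of_mem this
            exact ⟨u, v, by simp⟩
        obtain ⟨u, v, rfl⟩ := this
        rw [pk_split] at hw'
        exact .head (b := (p, u ++ v)) ⟨u, v, a, rfl, rfl, hst⟩ (ih _ (add_left_cancel hw'))
    exact key h w rfl

lemma exists_pk [Fintype A] {x : A → ℤ} (hx : 0 ≤ x) : ∃ w : List A, pk w = x := by
  refine ⟨(∑ a : A, Multiset.replicate (x a).toNat a).toList, ?_⟩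
  funext j
  have h := hx j
  simp only [pk]
  rw [← Multiset.coe_count, Multiset.coe_toList, Multiset.count_sum']
  simp only [Multiset.count_replicate]
  rw [Finset.sum_eq_single j]
  · simp at h ⊢; omega
  · intro b _ hb; simp [hb]
  · simp

end Pool.Agent.Lib.MP_a0040c_lc
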